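import Pool.Agent.N911.K1
import Pool.Agent.H419R2.F3
import Pool.Agent.H419R2.F6

/-! Character data. -/

set_option maxRecDepth 100000

namespace Pool.Agent.V5helper47.CN

open H419R2 Pool.Agent.N911

/-- units -/
def U143 : List ℕ := [1,2,3,4,5,6,7,8,9,10,12,14,15,16,17,18,19,20,21,23,24,25,27,28,29,30,31,32,34,35,36,37,38,40,41,42,43,45,46,47,48,49,50,51,53,54,56,57,58,59,60,61,62,63,64,67,68,69,70,71,72,73,74,75,76,79,80,81,82,83,84,85,86,87,89,90,92,93,94,95,96,97,98,100,101,102,103,105,106,107,108,109,111,112,113,114,115,116,118,119,120,122,123,124,125,126,127,128,129,131,133,134,135,136,137,138,139,140,141,142]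
/-- representatives -/
def P143 : List (ℕ × ℕ) := [(0,1),(1,0),(1,1),(1,2),(1,3),(1,4),(1,5),(1,6),(1,7),(1,8),(1,9),(1,10),(1,11),(1,12),(1,13),(1,14),(1,15),(1,16),(1,17),(1,18),(1,19),(1,20),(1,21),(1,22),(1,23),(1,24),(1,25),(1,26),(1,27),(1,28),(1,29),(1,30),(1,31),(1,32),(1,33),(1,34),(1,35),(1,36),(1,37),(1,38),(1,39),(1,40),(1,41),(1,42),(1,43),(1,44),(1,45),(1,46),(1,47),(1,48),(1,49),(1,50),(1,51),(1,52),(1,53),(1,54),(1,55),(1,56),(1,57),(1,58),(1,59),(1,60),(1,61),(1,62),(1,63),(1,64),(1,65),(1,66),(1,67),(1,68),(1,69),(1,70),(1,71),(1,72),(1,73),(1,74),(1,75),(1,76),(1,77),(1,78),(1,79),(1,80),(1,81),(1,82),(1,83),(1,84),(1,85),(1,86),(1,87),(1,88),(1,89),(1,90),(1,91),(1,92),(1,93),(1,94),(1,95),(1,96),(1,97),(1,98),(1,99),(1,100),(1,101),(1,102),(1,103),(1,104),(1,105),(1,106),(1,107),(1,108),(1,109),(1,110),(1,111),(1,112),(1,113),(1,114),(1,115),(1,116),(1,117),(1,118),(1,119),(1,120),(1,121),(1,122),(1,123),(1,124),(1,125),(1,126),(1,127),(1,128),(1,129),(1,130),(1,131),(1,132),(1,133),(1,134),(1,135),(1,136),(1,137),(1,138),(1,139),(1,140),(1,141),(1,142),(11,1),(11,2),(11,3),(11,4),(11,5),(11,6),(11,7),(11,8),(11,9),(11,10),(11,12),(11,13),(11,24),(13,1),(13,2),(13,3),(13,4),(13,5),(13,6),(13,7),(13,8),(13,9),(13,10),(13,11)]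
theorem orb143 : chkOrb 143 U143 P143 = true := by decide +kernel
theorem hU143 : ∀ e ∈ U143, e < 143 := by decide +kernel
theorem len143 : P143.length ≤ 1000 := by decide +kernel
/-- data -/
def c143_7_0 : CD where
  q := 143
  p := 7
  T := 1009802353885391008280516235181379701156968972432373472316176738121195371580042749473290612261992137672565164991396863463165914974353489057261865131813550538034892905057729782226682697070410172574367838503645686884544246518866528625630930906219063835020522311847581129973217747579124595127469727596672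
  U := U143
  reps := P143
  tab := [(0,0,1,0),(1,0,0,0),(1,1,1,0),(1,2,4,0),(1,3,9,5),(1,4,16,3),(1,5,25,6),(1,6,36,6),(1,7,49,3),(1,8,64,4),(1,9,81,1),(1,10,100,6),(1,11,121,562949953421316),(1,12,1,5),(1,13,26,6),(1,14,53,2),(1,15,82,2),(1,16,113,4),(1,17,3,1),(1,18,38,4),(1,19,75,3),(1,20,114,0),(1,21,12,1),(1,22,55,281474976710662),(1,23,100,0),(1,24,4,3),(1,25,53,5),(1,26,104,0),(1,27,14,4),(1,28,69,2),(1,29,126,4),(1,30,42,1),(1,31,103,0),(1,32,23,5),(1,33,88,281474976710659),(1,34,12,6),(1,35,81,6),(1,36,9,5),(1,37,82,2),(1,38,14,6),(1,39,91,2),(1,40,27,2),(1,41,108,5),(1,42,48,3),(1,43,133,5),(1,44,77,1125899906842629),(1,45,23,3),(1,46,114,4),(1,47,64,3),(1,48,16,3),(1,49,113,4),(1,50,69,0),(1,51,27,5),(1,52,130,4),(1,53,92,4),(1,54,56,2),(1,55,22,562949953421317),(1,56,133,0),(1,57,103,1),(1,58,75,4),(1,59,49,6),(1,60,25,0),(1,61,3,2),(1,62,126,4),(1,63,108,4),(1,64,92,6),(1,65,78,4),(1,66,66,1125899906842629),(1,67,56,1),(1,68,4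8,1),(1,69,42,6),(1,70,38,3),(1,71,36,0),(1,72,36,0),(1,73,38,4),(1,74,42,1),(1,75,48,6),(1,76,56,6),(1,77,66,1125899906842626),(1,78,78,3),(1,79,92,1),(1,80,108,3),(1,81,126,3),(1,82,3,5),(1,83,25,0),(1,84,49,1),(1,85,75,3),(1,86,103,6),(1,87,133,0),(1,88,22,562949953421314),(1,89,56,5),(1,90,92,3),(1,91,130,3),(1,92,27,2),(1,93,69,0),(1,94,113,3),(1,95,16,4),(1,96,64,4),(1,97,114,3),(1,98,23,4),(1,99,77,1125899906842626),(1,100,133,2),(1,101,48,4),(1,102,108,2),(1,103,27,5),(1,104,91,5),(1,105,14,1),(1,106,82,5),(1,107,9,2),(1,108,81,1),(1,109,12,1),(1,110,88,281474976710660),(1,111,23,2),(1,112,103,0),(1,113,42,6),(1,114,126,3),(1,115,69,5),(1,116,14,3),(1,117,104,0),(1,118,53,2),(1,119,4,4),(1,120,100,0),(1,121,55,281474976710657),(1,122,12,6),(1,123,114,0),(1,124,75,4),(1,125,38,3),(1,126,3,6),(1,127,113,3),(1,128,82,5),(1,129,53,5),(1,130,26,1),(1,131,1,2),(1,132,121,562949953421315),(1,133,100,1),(1,134,81,6),(1,135,64,3),(1,136,49,4)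,(1,137,36,1),(1,138,25,1),(1,139,16,4),(1,140,9,2),(1,141,4,0),(1,142,1,0),(121,11,1,33554436),(121,22,4,33554433),(121,33,9,33554433),(121,44,16,33554433),(121,55,25,33554434),(121,66,36,33554434),(121,77,49,33554437),(121,88,64,33554437),(121,99,81,33554438),(121,110,100,33554438),(121,132,1,33554435),(121,0,26,33554432),(121,121,4,33554438),(26,13,1,6),(26,26,4,5),(26,39,9,2),(26,52,16,4),(26,65,25,0),(26,78,36,0),(26,91,49,3),(26,104,64,3),(26,117,81,1),(26,130,100,4),(26,0,121,562949953421312)]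
theorem c143_7_0_mul : chkMul c143_7_0.q c143_7_0.p c143_7_0.T = true := by decide +kernel
theorem c143_7_0_oth : chkOth c143_7_0.q c143_7_0.p c143_7_0.T = true := by decide +kernel
theorem c143_7_0_tab : chkTab c143_7_0.q c143_7_0.p c143_7_0.T c143_7_0.U c143_7_0.reps c143_7_0.tab = true := by decide +kernel
theorem c143_7_0_ok : c143_7_0.OK where
  q1 := by decide +kernel
  pp := by change Nat.Prime 7; norm_num
  p2 := by decide +kernel
  p128 := by decide +kernel
  len := len143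
  mul := c143_7_0_mul
  oth := c143_7_0_oth
  orb := orb143
  hU := hU143
  tabOK := c143_7_0_tab

end Pool.Agent.V5helper47.CN
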