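import Pool.Agent.V5helper47.CN.S3

/-! Search, part of the half words. -/

set_option maxRecDepth 1000000

namespace Pool.Agent.V5helper47.CN

open H419R2 Pool.Agent.N911

theorem cq_7_0 : ckS [7] = true := by decide +kernel
theorem cq_7_1 : ckS [1,6] = true := by decide +kernel
theorem cq_7_2 : ckS [2,3] = true := by decide +kernel
theorem cq_7_3 : ckS [3,2] = true := by decide +kernel
theorem cq_7_4 : ckS [6,1] = true := by decide +kernel
theorem cq_7_5 : ckS [1,1,3] = true := by decide +kernel
theorem cq_7_6 : ckS [1,2,2] = true := by decide +kernel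
theorem cq_7_7 : ckS [1,5,1] = true := by decide +kernel
theorem cq_7_8 : ckS [2,2,1] = true := by decide +kernel
theorem cq_7_9 : ckS [3,1,1] = true := by decide +kernel
theorem cq_7_10 : ckS [1,1,2,1] = true := by decide +kernel
theorem cq_7_11 : ckS [1,2,1,1] = true := by decide +kernel
def lp_7_0 : List (List ℕ) := [[7], [1,6], [2,3], [3,2], [6,1], [1,1,3], [1,2,2], [1,5,1], [2,2,1], [3,1,1], [1,1,2,1], [1,2,1,1]]
theorem lr_7_0 : ∀ l ∈ lp_7_0, ckS l = true := by
  intro l hl
  simp only [lp_7_0, List.mem_cons, List.not_mem_nil, or_false] at hl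
  rcases hl with rfl | rfl | rfl | rfl | rfl | rfl | rfl | rfl | rfl | rfl | rfl | rfl
  · exact cq_7_0
  · exact cq_7_1
  · exact cq_7_2
  · exact cq_7_3
  · exact cq_7_4
  · exact cq_7_5
  · exact cq_7_6
  · exact cq_7_7
  · exact cq_7_8
  · exact cq_7_9
  · exact cq_7_10
  · exact cq_7_11

end Pool.Agent.V5helper47.CN
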