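import Pool.Agent.V5helper47.CN.S3

/-! Search, part of the half words. -/

set_option maxRecDepth 1000000

namespace Pool.Agent.V5helper47.CN

open H419R2 Pool.Agent.N911

theorem cq_8_0 : ckS [8] = true := by decide +kernel
theorem cq_8_1 : ckS [1,7] = true := by decide +kernel
theorem cq_8_2 : ckS [7,1] = true := by decide +kernel
theorem cq_8_3 : ckS [1,6,1] = true := by decide +kernel
theorem cq_8_4 : ckS [2,1,2] = true := by decide +kernel
theorem cq_8_5 : ckS [1,1,1,2] = true := by decide +kernel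
theorem cq_8_6 : ckS [2,1,1,1] = true := by decide +kernel
theorem cq_8_7 : ckS [1,1,1,1,1] = true := by decide +kernel
def lp_8_0 : List (List ℕ) := [[8], [1,7], [7,1], [1,6,1], [2,1,2], [1,1,1,2], [2,1,1,1], [1,1,1,1,1]]
theorem lr_8_0 : ∀ l ∈ lp_8_0, ckS l = true := by
  intro l hl
  simp only [lp_8_0, List.mem_cons, List.not_mem_nil, or_false] at hl
  rcases hl with rfl | rfl | rfl | rfl | rfl | rfl | rfl | rfl
  · exact cq_8_0
  · exact cq_8_1
  · exact cq_8_2
  · exact cq_8_3
  · exact cq_8_4
  · exact cq_8_5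
  · exact cq_8_6
  · exact cq_8_7

theorem cq_9_0 : ckS [9] = true := by decide +kernel
theorem cq_9_1 : ckS [1,8] = true := by decide +kernel
theorem cq_9_2 : ckS [2,4] = true := by decide +kernel
theorem cq_9_3 : ckS [4,2] = true := by decide +kernel
theorem cq_9_4 : ckS [8,1] = true := by decide +kernel
theorem cq_9_5 : ckS [1,1,4] = true := by decide +kernel
theorem cq_9_6 : ckS [1,3,2] = true := by decide +kernel
def lp_9_0 : List (List ℕ) := [[9], [1,8], [2,4], [4,2], [8,1], [1,1,4], [1,3,2]]
theorem lr_9_0 : ∀ l ∈ lp_9_0, ckS l = true := by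
  intro l hl
  simp only [lp_9_0, List.mem_cons, List.not_mem_nil, or_false] at hl
  rcases hl with rfl | rfl | rfl | rfl | rfl | rfl | rfl
  · exact cq_9_0
  · exact cq_9_1
  · exact cq_9_2
  · exact cq_9_3
  · exact cq_9_4
  · exact cq_9_5
  · exact cq_9_6

end Pool.Agent.V5helper47.CN
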