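import Pool.Agent.V5helper47.CN.S3

/-! Search, part of the half words. -/

set_option maxRecDepth 1000000

namespace Pool.Agent.V5helper47.CN

open H419R2 Pool.Agent.N911

theorem cq_9_7 : ckS [1,7,1] = true := by decide +kernel
theorem cq_9_8 : ckS [2,3,1] = true := by decide +kernel
theorem cq_9_9 : ckS [4,1,1] = true := by decide +kernel
theorem cq_9_10 : ckS [1,1,3,1] = true := by decide +kernel
theorem cq_9_11 : ckS [1,3,1,1] = true := by decide +kernel
def lp_9_1 : List (List ℕ) := [[1,7,1], [2,3,1], [4,1,1], [1,1,3,1], [1,3,1,1]]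
theorem lr_9_1 : ∀ l ∈ lp_9_1, ckS l = true := by
  intro l hl
  simp only [lp_9_1, List.mem_cons, List.not_mem_nil, or_false] at hl
  rcases hl with rfl | rfl | rfl | rfl | rfl
  · exact cq_9_7
  · exact cq_9_8
  · exact cq_9_9
  · exact cq_9_10
  · exact cq_9_11

theorem cq_10_0 : ckS [10] = true := by decide +kernel
theorem cq_10_1 : ckS [1,9] = true := by decide +kernel
theorem cq_10_2 : ckS [3,3] = true := by decide +kernel
theorem cq_10_3 : ckS [9,1] = true := by decide +kernel
theorem cq_10_4 : ckS [1,2,3] = true := by decide +kernel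
theorem cq_10_5 : ckS [1,8,1] = true := by decide +kernel
theorem cq_10_6 : ckS [3,2,1] = true := by decide +kernel
theorem cq_10_7 : ckS [1,2,2,1] = true := by decide +kernel
def lp_10_0 : List (List ℕ) := [[10], [1,9], [3,3], [9,1], [1,2,3], [1,8,1], [3,2,1], [1,2,2,1]]
theorem lr_10_0 : ∀ l ∈ lp_10_0, ckS l = true := by
  intro l hl
  simp only [lp_10_0, List.mem_cons, List.not_mem_nil, or_false] at hl
  rcases hl with rfl | rfl | rfl | rfl | rfl | rfl | rfl | rfl
  · exact cq_10_0
  · exact cq_10_1
  · exact cq_10_2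
  · exact cq_10_3
  · exact cq_10_4
  · exact cq_10_5
  · exact cq_10_6
  · exact cq_10_7

end Pool.Agent.V5helper47.CN
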