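import Pool.Agent.V5helper47.CN.S3

/-! Search, part of the half words. -/

set_option maxRecDepth 1000000

namespace Pool.Agent.V5helper47.CN

open H419R2 Pool.Agent.N911

theorem cq_11_0 : ckS [11] = true := by decide +kernel
theorem cq_11_1 : ckS [1,10] = true := by decide +kernel
theorem cq_11_2 : ckS [2,5] = true := by decide +kernel
theorem cq_11_3 : ckS [5,2] = true := by decide +kernel
theorem cq_11_4 : ckS [10,1] = true := by decide +kernel
theorem cq_11_5 : ckS [1,1,5] = true := by decide +kernel
theorem cq_11_6 : ckS [1,4,2] = true := by decide +kernel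
theorem cq_11_7 : ckS [1,9,1] = true := by decide +kernel
theorem cq_11_8 : ckS [2,1,3] = true := by decide +kernel
theorem cq_11_9 : ckS [2,4,1] = true := by decide +kernel
theorem cq_11_10 : ckS [3,1,2] = true := by decide +kernel
theorem cq_11_11 : ckS [5,1,1] = true := by decide +kernel
theorem cq_11_12 : ckS [1,1,1,3] = true := by decide +kernel
theorem cq_11_13 : ckS [1,1,4,1] = true := by decide +kernel
theorem cq_11_14 : ckS [1,2,1,2] = true := by decide +kernel
def lp_11_0 : List (List ℕ) := [[11], [1,10], [2,5], [5,2], [10,1], [1,1,5], [1,4,2], [1,9,1], [2,1,3], [2,4,1], [3,1,2], [5,1,1], [1,1,1,3], [1,1,4,1], [1,2,1,2]]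
theorem lr_11_0 : ∀ l ∈ lp_11_0, ckS l = true := by
  intro l hl
  simp only [lp_11_0, List.mem_cons, List.not_mem_nil, or_false] at hl
  rcases hl with rfl | rfl | rfl | rfl | rfl | rfl | rfl | rfl | rfl | rfl | rfl | rfl | rfl | rfl | rfl
  · exact cq_11_0
  · exact cq_11_1
  · exact cq_11_2
  · exact cq_11_3
  · exact cq_11_4
  · exact cq_11_5
  · exact cq_11_6
  · exact cq_11_7
  · exact cq_11_8
  · exact cq_11_9
  · exact cq_11_10
  · exact cq_11_11
  · exact cq_11_12
  · exact cq_11_13
  · exact cq_11_14

end Pool.Agent.V5helper47.CN
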