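import Pool.Agent.V5helper47.CN.S3

/-! Search, part of the half words. -/

set_option maxRecDepth 1000000

namespace Pool.Agent.V5helper47.CN

open H419R2 Pool.Agent.N911

theorem cq_11_15 : ckS [1,4,1,1] = true := by decide +kernel
theorem cq_11_16 : ckS [2,1,2,1] = true := by decide +kernel
theorem cq_11_17 : ckS [3,1,1,1] = true := by decide +kernel
theorem cq_11_18 : ckS [1,1,1,2,1] = true := by decide +kernel
theorem cq_11_19 : ckS [1,2,1,1,1] = true := by decide +kernel
def lp_11_1 : List (List ℕ) := [[1,4,1,1], [2,1,2,1], [3,1,1,1], [1,1,1,2,1], [1,2,1,1,1]]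
theorem lr_11_1 : ∀ l ∈ lp_11_1, ckS l = true := by
  intro l hl
  simp only [lp_11_1, List.mem_cons, List.not_mem_nil, or_false] at hl
  rcases hl with rfl | rfl | rfl | rfl | rfl
  · exact cq_11_15
  · exact cq_11_16
  · exact cq_11_17
  · exact cq_11_18
  · exact cq_11_19

theorem cq_12_0 : ckS [1,11] = true := by decide +kernel
theorem cq_12_1 : ckS [11,1] = true := by decide +kernel
theorem cq_12_2 : ckS [2,2,2] = true := by decide +kernel
theorem cq_12_3 : ckS [1,1,2,2] = true := by decide +kernel
theorem cq_12_4 : ckS [2,2,1,1] = true := by decide +kernel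
theorem cq_12_5 : ckS [1,1,2,1,1] = true := by decide +kernel
def lp_12_0 : List (List ℕ) := [[1,11], [11,1], [2,2,2], [1,1,2,2], [2,2,1,1], [1,1,2,1,1]]
theorem lr_12_0 : ∀ l ∈ lp_12_0, ckS l = true := by
  intro l hl
  simp only [lp_12_0, List.mem_cons, List.not_mem_nil, or_false] at hl
  rcases hl with rfl | rfl | rfl | rfl | rfl | rfl
  · exact cq_12_0
  · exact cq_12_1
  · exact cq_12_2
  · exact cq_12_3
  · exact cq_12_4
  · exact cq_12_5

theorem cq_13_0 : ckS [13] = true := by decide +kernel
theorem cq_13_1 : ckS [1,12] = true := by decide +kernel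
theorem cq_13_2 : ckS [2,6] = true := by decide +kernel
theorem cq_13_3 : ckS [3,4] = true := by decide +kernel
def lp_13_0 : List (List ℕ) := [[13], [1,12], [2,6], [3,4]]
theorem lr_13_0 : ∀ l ∈ lp_13_0, ckS l = true := by
  intro l hl
  simp only [lp_13_0, List.mem_cons, List.not_mem_nil, or_false] at hl
  rcases hl with rfl | rfl | rfl | rfl
  · exact cq_13_0
  · exact cq_13_1
  · exact cq_13_2
  · exact cq_13_3

end Pool.Agent.V5helper47.CN
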