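import Pool.Agent.V5helper47.CN.S3

/-! Search, part of the half words. -/

set_option maxRecDepth 1000000

namespace Pool.Agent.V5helper47.CN

open H419R2 Pool.Agent.N911

theorem cq_13_4 : ckS [4,3] = true := by decide +kernel
theorem cq_13_5 : ckS [6,2] = true := by decide +kernel
theorem cq_13_6 : ckS [12,1] = true := by decide +kernel
theorem cq_13_7 : ckS [1,1,6] = true := by decide +kernel
theorem cq_13_8 : ckS [1,2,4] = true := by decide +kernel
theorem cq_13_9 : ckS [1,3,3] = true := by decide +kernel
theorem cq_13_10 : ckS [1,5,2] = true := by decide +kernel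
theorem cq_13_11 : ckS [1,11,1] = true := by decide +kernel
theorem cq_13_12 : ckS [2,5,1] = true := by decide +kernel
theorem cq_13_13 : ckS [3,3,1] = true := by decide +kernel
theorem cq_13_14 : ckS [4,2,1] = true := by decide +kernel
theorem cq_13_15 : ckS [6,1,1] = true := by decide +kernel
theorem cq_13_16 : ckS [1,1,5,1] = true := by decide +kernel
theorem cq_13_17 : ckS [1,2,3,1] = true := by decide +kernel
theorem cq_13_18 : ckS [1,3,2,1] = true := by decide +kernel
def lp_13_1 : List (List ℕ) := [[4,3], [6,2], [12,1], [1,1,6], [1,2,4], [1,3,3], [1,5,2], [1,11,1], [2,5,1], [3,3,1], [4,2,1], [6,1,1], [1,1,5,1], [1,2,3,1], [1,3,2,1]]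
theorem lr_13_1 : ∀ l ∈ lp_13_1, ckS l = true := by
  intro l hl
  simp only [lp_13_1, List.mem_cons, List.not_mem_nil, or_false] at hl
  rcases hl with rfl | rfl | rfl | rfl | rfl | rfl | rfl | rfl | rfl | rfl | rfl | rfl | rfl | rfl | rfl
  · exact cq_13_4
  · exact cq_13_5
  · exact cq_13_6
  · exact cq_13_7
  · exact cq_13_8
  · exact cq_13_9
  · exact cq_13_10
  · exact cq_13_11
  · exact cq_13_12
  · exact cq_13_13
  · exact cq_13_14
  · exact cq_13_15
  · exact cq_13_16
  · exact cq_13_17
  · exact cq_13_18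

end Pool.Agent.V5helper47.CN
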