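import Pool.Agent.V5helper47.CN.S3

/-! Search, part of the half words. -/

set_option maxRecDepth 1000000

namespace Pool.Agent.V5helper47.CN

open H419R2 Pool.Agent.N911

theorem cq_13_19 : ckS [1,5,1,1] = true := by decide +kernel
theorem cq_13_20 : ckS [2,1,1,2] = true := by decide +kernel
theorem cq_13_21 : ckS [1,1,1,1,2] = true := by decide +kernel
theorem cq_13_22 : ckS [2,1,1,1,1] = true := by decide +kernel
theorem cq_13_23 : ckS [1,1,1,1,1,1] = true := by decide +kernel
def lp_13_2 : List (List ℕ) := [[1,5,1,1], [2,1,1,2], [1,1,1,1,2], [2,1,1,1,1], [1,1,1,1,1,1]]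
theorem lr_13_2 : ∀ l ∈ lp_13_2, ckS l = true := by
  intro l hl
  simp only [lp_13_2, List.mem_cons, List.not_mem_nil, or_false] at hl
  rcases hl with rfl | rfl | rfl | rfl | rfl
  · exact cq_13_19
  · exact cq_13_20
  · exact cq_13_21
  · exact cq_13_22
  · exact cq_13_23

theorem cq_14_0 : ckS [14] = true := by decide +kernel
theorem cq_14_1 : ckS [1,13] = true := by decide +kernel
theorem cq_14_2 : ckS [13,1] = true := by decide +kernel
theorem cq_14_3 : ckS [1,12,1] = true := by decide +kernel
def lp_14_0 : List (List ℕ) := [[14], [1,13], [13,1], [1,12,1]]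
theorem lr_14_0 : ∀ l ∈ lp_14_0, ckS l = true := by
  intro l hl
  simp only [lp_14_0, List.mem_cons, List.not_mem_nil, or_false] at hl
  rcases hl with rfl | rfl | rfl | rfl
  · exact cq_14_0
  · exact cq_14_1
  · exact cq_14_2
  · exact cq_14_3

theorem cq_15_0 : ckS [15] = true := by decide +kernel
theorem cq_15_1 : ckS [1,14] = true := by decide +kernel
theorem cq_15_2 : ckS [2,7] = true := by decide +kernel
theorem cq_15_3 : ckS [7,2] = true := by decide +kernel
theorem cq_15_4 : ckS [14,1] = true := by decide +kernel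
theorem cq_15_5 : ckS [1,1,7] = true := by decide +kernel
def lp_15_0 : List (List ℕ) := [[15], [1,14], [2,7], [7,2], [14,1], [1,1,7]]
theorem lr_15_0 : ∀ l ∈ lp_15_0, ckS l = true := by
  intro l hl
  simp only [lp_15_0, List.mem_cons, List.not_mem_nil, or_false] at hl
  rcases hl with rfl | rfl | rfl | rfl | rfl | rfl
  · exact cq_15_0
  · exact cq_15_1
  · exact cq_15_2
  · exact cq_15_3
  · exact cq_15_4
  · exact cq_15_5

end Pool.Agent.V5helper47.CN
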