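import Pool.Agent.V5helper47.CN.S3

/-! Search, part of the half words. -/

set_option maxRecDepth 1000000

namespace Pool.Agent.V5helper47.CN

open H419R2 Pool.Agent.N911

theorem cq_15_6 : ckS [1,6,2] = true := by decide +kernel
theorem cq_15_7 : ckS [1,13,1] = true := by decide +kernel
theorem cq_15_8 : ckS [2,6,1] = true := by decide +kernel
theorem cq_15_9 : ckS [3,1,3] = true := by decide +kernel
theorem cq_15_10 : ckS [7,1,1] = true := by decide +kernel
theorem cq_15_11 : ckS [1,1,6,1] = true := by decide +kernel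
theorem cq_15_12 : ckS [1,2,1,3] = true := by decide +kernel
theorem cq_15_13 : ckS [1,6,1,1] = true := by decide +kernel
theorem cq_15_14 : ckS [3,1,2,1] = true := by decide +kernel
theorem cq_15_15 : ckS [1,2,1,2,1] = true := by decide +kernel
def lp_15_1 : List (List ℕ) := [[1,6,2], [1,13,1], [2,6,1], [3,1,3], [7,1,1], [1,1,6,1], [1,2,1,3], [1,6,1,1], [3,1,2,1], [1,2,1,2,1]]
theorem lr_15_1 : ∀ l ∈ lp_15_1, ckS l = true := by
  intro l hl
  simp only [lp_15_1, List.mem_cons, List.not_mem_nil, or_false] at hl
  rcases hl with rfl | rfl | rfl | rfl | rfl | rfl | rfl | rfl | rfl | rfl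
  · exact cq_15_6
  · exact cq_15_7
  · exact cq_15_8
  · exact cq_15_9
  · exact cq_15_10
  · exact cq_15_11
  · exact cq_15_12
  · exact cq_15_13
  · exact cq_15_14
  · exact cq_15_15

theorem cq_16_0 : ckS [16] = true := by decide +kernel
theorem cq_16_1 : ckS [1,15] = true := by decide +kernel
theorem cq_16_2 : ckS [3,5] = true := by decide +kernel
theorem cq_16_3 : ckS [5,3] = true := by decide +kernel
theorem cq_16_4 : ckS [15,1] = true := by decide +kernel
def lp_16_0 : List (List ℕ) := [[16], [1,15], [3,5], [5,3], [15,1]]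
theorem lr_16_0 : ∀ l ∈ lp_16_0, ckS l = true := by
  intro l hl
  simp only [lp_16_0, List.mem_cons, List.not_mem_nil, or_false] at hl
  rcases hl with rfl | rfl | rfl | rfl | rfl
  · exact cq_16_0
  · exact cq_16_1
  · exact cq_16_2
  · exact cq_16_3
  · exact cq_16_4

end Pool.Agent.V5helper47.CN
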