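import Pool.Agent.V5helper47.CN.S3

/-! Search, part of the half words. -/

set_option maxRecDepth 1000000

namespace Pool.Agent.V5helper47.CN

open H419R2 Pool.Agent.N911

theorem cq_16_5 : ckS [1,2,5] = true := by decide +kernel
theorem cq_16_6 : ckS [1,4,3] = true := by decide +kernel
theorem cq_16_7 : ckS [1,14,1] = true := by decide +kernel
theorem cq_16_8 : ckS [2,3,2] = true := by decide +kernel
theorem cq_16_9 : ckS [3,4,1] = true := by decide +kernel
theorem cq_16_10 : ckS [5,2,1] = true := by decide +kernel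
theorem cq_16_11 : ckS [1,1,3,2] = true := by decide +kernel
theorem cq_16_12 : ckS [1,2,4,1] = true := by decide +kernel
theorem cq_16_13 : ckS [1,4,2,1] = true := by decide +kernel
theorem cq_16_14 : ckS [2,3,1,1] = true := by decide +kernel
theorem cq_16_15 : ckS [1,1,3,1,1] = true := by decide +kernel
def lp_16_1 : List (List ℕ) := [[1,2,5], [1,4,3], [1,14,1], [2,3,2], [3,4,1], [5,2,1], [1,1,3,2], [1,2,4,1], [1,4,2,1], [2,3,1,1], [1,1,3,1,1]]
theorem lr_16_1 : ∀ l ∈ lp_16_1, ckS l = true := by
  intro l hl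
  simp only [lp_16_1, List.mem_cons, List.not_mem_nil, or_false] at hl
  rcases hl with rfl | rfl | rfl | rfl | rfl | rfl | rfl | rfl | rfl | rfl | rfl
  · exact cq_16_5
  · exact cq_16_6
  · exact cq_16_7
  · exact cq_16_8
  · exact cq_16_9
  · exact cq_16_10
  · exact cq_16_11
  · exact cq_16_12
  · exact cq_16_13
  · exact cq_16_14
  · exact cq_16_15

theorem cq_17_0 : ckS [17] = true := by decide +kernel
theorem cq_17_1 : ckS [1,16] = true := by decide +kernel
theorem cq_17_2 : ckS [2,8] = true := by decide +kernel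
theorem cq_17_3 : ckS [4,4] = true := by decide +kernel
def lp_17_0 : List (List ℕ) := [[17], [1,16], [2,8], [4,4]]
theorem lr_17_0 : ∀ l ∈ lp_17_0, ckS l = true := by
  intro l hl
  simp only [lp_17_0, List.mem_cons, List.not_mem_nil, or_false] at hl
  rcases hl with rfl | rfl | rfl | rfl
  · exact cq_17_0
  · exact cq_17_1
  · exact cq_17_2
  · exact cq_17_3

end Pool.Agent.V5helper47.CN
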