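import Pool.Agent.V5helper47.CN.S3

/-! Search, part of the half words. -/

set_option maxRecDepth 1000000

namespace Pool.Agent.V5helper47.CN

open H419R2 Pool.Agent.N911

theorem cq_17_4 : ckS [8,2] = true := by decide +kernel
theorem cq_17_5 : ckS [16,1] = true := by decide +kernel
theorem cq_17_6 : ckS [1,1,8] = true := by decide +kernel
theorem cq_17_7 : ckS [1,3,4] = true := by decide +kernel
theorem cq_17_8 : ckS [1,7,2] = true := by decide +kernel
theorem cq_17_9 : ckS [1,15,1] = true := by decide +kernel
theorem cq_17_10 : ckS [2,1,5] = true := by decide +kernel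
theorem cq_17_11 : ckS [2,2,3] = true := by decide +kernel
theorem cq_17_12 : ckS [2,7,1] = true := by decide +kernel
theorem cq_17_13 : ckS [3,2,2] = true := by decide +kernel
theorem cq_17_14 : ckS [4,3,1] = true := by decide +kernel
theorem cq_17_15 : ckS [5,1,2] = true := by decide +kernel
theorem cq_17_16 : ckS [8,1,1] = true := by decide +kernel
theorem cq_17_17 : ckS [1,1,1,5] = true := by decide +kernel
theorem cq_17_18 : ckS [1,1,2,3] = true := by decide +kernel
def lp_17_1 : List (List ℕ) := [[8,2], [16,1], [1,1,8], [1,3,4], [1,7,2], [1,15,1], [2,1,5], [2,2,3], [2,7,1], [3,2,2], [4,3,1], [5,1,2], [8,1,1], [1,1,1,5], [1,1,2,3]]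
theorem lr_17_1 : ∀ l ∈ lp_17_1, ckS l = true := by
  intro l hl
  simp only [lp_17_1, List.mem_cons, List.not_mem_nil, or_false] at hl
  rcases hl with rfl | rfl | rfl | rfl | rfl | rfl | rfl | rfl | rfl | rfl | rfl | rfl | rfl | rfl | rfl
  · exact cq_17_4
  · exact cq_17_5
  · exact cq_17_6
  · exact cq_17_7
  · exact cq_17_8
  · exact cq_17_9
  · exact cq_17_10
  · exact cq_17_11
  · exact cq_17_12
  · exact cq_17_13
  · exact cq_17_14
  · exact cq_17_15
  · exact cq_17_16
  · exact cq_17_17
  · exact cq_17_18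

end Pool.Agent.V5helper47.CN
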