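import Pool.Agent.V5helper47.CN.S3

/-! Search, part of the half words. -/

set_option maxRecDepth 1000000

namespace Pool.Agent.V5helper47.CN

open H419R2 Pool.Agent.N911

theorem cq_17_19 : ckS [1,1,7,1] = true := by decide +kernel
theorem cq_17_20 : ckS [1,2,2,2] = true := by decide +kernel
theorem cq_17_21 : ckS [1,3,3,1] = true := by decide +kernel
theorem cq_17_22 : ckS [1,4,1,2] = true := by decide +kernel
theorem cq_17_23 : ckS [1,7,1,1] = true := by decide +kernel
theorem cq_17_24 : ckS [2,1,4,1] = true := by decide +kernel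
theorem cq_17_25 : ckS [2,2,2,1] = true := by decide +kernel
theorem cq_17_26 : ckS [3,2,1,1] = true := by decide +kernel
theorem cq_17_27 : ckS [5,1,1,1] = true := by decide +kernel
theorem cq_17_28 : ckS [1,1,1,4,1] = true := by decide +kernel
theorem cq_17_29 : ckS [1,1,2,2,1] = true := by decide +kernel
theorem cq_17_30 : ckS [1,2,2,1,1] = true := by decide +kernel
theorem cq_17_31 : ckS [1,4,1,1,1] = true := by decide +kernel
def lp_17_2 : List (List ℕ) := [[1,1,7,1], [1,2,2,2], [1,3,3,1], [1,4,1,2], [1,7,1,1], [2,1,4,1], [2,2,2,1], [3,2,1,1], [5,1,1,1], [1,1,1,4,1], [1,1,2,2,1], [1,2,2,1,1], [1,4,1,1,1]]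
theorem lr_17_2 : ∀ l ∈ lp_17_2, ckS l = true := by
  intro l hl
  simp only [lp_17_2, List.mem_cons, List.not_mem_nil, or_false] at hl
  rcases hl with rfl | rfl | rfl | rfl | rfl | rfl | rfl | rfl | rfl | rfl | rfl | rfl | rfl
  · exact cq_17_19
  · exact cq_17_20
  · exact cq_17_21
  · exact cq_17_22
  · exact cq_17_23
  · exact cq_17_24
  · exact cq_17_25
  · exact cq_17_26
  · exact cq_17_27
  · exact cq_17_28
  · exact cq_17_29
  · exact cq_17_30
  · exact cq_17_31

end Pool.Agent.V5helper47.CN
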