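import Pool.Agent.V5helper47.CN.S3

/-! Search, part of the half words. -/

set_option maxRecDepth 1000000

namespace Pool.Agent.V5helper47.CN

open H419R2 Pool.Agent.N911

theorem cq_18_0 : ckS [18] = true := by decide +kernel
theorem cq_18_1 : ckS [1,17] = true := by decide +kernel
theorem cq_18_2 : ckS [17,1] = true := by decide +kernel
theorem cq_18_3 : ckS [1,16,1] = true := by decide +kernel
theorem cq_18_4 : ckS [2,1,1,3] = true := by decide +kernel
theorem cq_18_5 : ckS [3,1,1,2] = true := by decide +kernel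
theorem cq_18_6 : ckS [1,1,1,1,3] = true := by decide +kernel
theorem cq_18_7 : ckS [1,2,1,1,2] = true := by decide +kernel
theorem cq_18_8 : ckS [2,1,1,2,1] = true := by decide +kernel
theorem cq_18_9 : ckS [3,1,1,1,1] = true := by decide +kernel
theorem cq_18_10 : ckS [1,1,1,1,2,1] = true := by decide +kernel
theorem cq_18_11 : ckS [1,2,1,1,1,1] = true := by decide +kernel
def lp_18_0 : List (List ℕ) := [[18], [1,17], [17,1], [1,16,1], [2,1,1,3], [3,1,1,2], [1,1,1,1,3], [1,2,1,1,2], [2,1,1,2,1], [3,1,1,1,1], [1,1,1,1,2,1], [1,2,1,1,1,1]]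
theorem lr_18_0 : ∀ l ∈ lp_18_0, ckS l = true := by
  intro l hl
  simp only [lp_18_0, List.mem_cons, List.not_mem_nil, or_false] at hl
  rcases hl with rfl | rfl | rfl | rfl | rfl | rfl | rfl | rfl | rfl | rfl | rfl | rfl
  · exact cq_18_0
  · exact cq_18_1
  · exact cq_18_2
  · exact cq_18_3
  · exact cq_18_4
  · exact cq_18_5
  · exact cq_18_6
  · exact cq_18_7
  · exact cq_18_8
  · exact cq_18_9
  · exact cq_18_10
  · exact cq_18_11

end Pool.Agent.V5helper47.CN
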