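import Pool.Agent.V5helper47.CN.S3

/-! Search, part of the half words. -/

set_option maxRecDepth 1000000

namespace Pool.Agent.V5helper47.CN

open H419R2 Pool.Agent.N911

theorem cq_19_15 : ckS [4,1,3] = true := by decide +kernel
theorem cq_19_16 : ckS [6,2,1] = true := by decide +kernel
theorem cq_19_17 : ckS [9,1,1] = true := by decide +kernel
theorem cq_19_18 : ckS [1,1,8,1] = true := by decide +kernel
theorem cq_19_19 : ckS [1,2,1,4] = true := by decide +kernel
theorem cq_19_20 : ckS [1,2,5,1] = true := by decide +kernel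
theorem cq_19_21 : ckS [1,3,1,3] = true := by decide +kernel
theorem cq_19_22 : ckS [1,5,2,1] = true := by decide +kernel
theorem cq_19_23 : ckS [1,8,1,1] = true := by decide +kernel
theorem cq_19_24 : ckS [2,1,2,2] = true := by decide +kernel
theorem cq_19_25 : ckS [2,2,1,2] = true := by decide +kernel
theorem cq_19_26 : ckS [3,1,3,1] = true := by decide +kernel
theorem cq_19_27 : ckS [4,1,2,1] = true := by decide +kernel
theorem cq_19_28 : ckS [1,1,1,2,2] = true := by decide +kernel
theorem cq_19_29 : ckS [1,1,2,1,2] = true := by decide +kernel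
def lp_19_1 : List (List ℕ) := [[4,1,3], [6,2,1], [9,1,1], [1,1,8,1], [1,2,1,4], [1,2,5,1], [1,3,1,3], [1,5,2,1], [1,8,1,1], [2,1,2,2], [2,2,1,2], [3,1,3,1], [4,1,2,1], [1,1,1,2,2], [1,1,2,1,2]]
theorem lr_19_1 : ∀ l ∈ lp_19_1, ckS l = true := by
  intro l hl
  simp only [lp_19_1, List.mem_cons, List.not_mem_nil, or_false] at hl
  rcases hl with rfl | rfl | rfl | rfl | rfl | rfl | rfl | rfl | rfl | rfl | rfl | rfl | rfl | rfl | rfl
  · exact cq_19_15
  · exact cq_19_16
  · exact cq_19_17
  · exact cq_19_18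
  · exact cq_19_19
  · exact cq_19_20
  · exact cq_19_21
  · exact cq_19_22
  · exact cq_19_23
  · exact cq_19_24
  · exact cq_19_25
  · exact cq_19_26
  · exact cq_19_27
  · exact cq_19_28
  · exact cq_19_29

end Pool.Agent.V5helper47.CN
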