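import Pool.Agent.V5helper47.CN.S3

/-! Search, part of the half words. -/

set_option maxRecDepth 1000000

namespace Pool.Agent.V5helper47.CN

open H419R2 Pool.Agent.N911

theorem cq_19_30 : ckS [1,2,1,3,1] = true := by decide +kernel
theorem cq_19_31 : ckS [1,3,1,2,1] = true := by decide +kernel
theorem cq_19_32 : ckS [2,1,2,1,1] = true := by decide +kernel
theorem cq_19_33 : ckS [2,2,1,1,1] = true := by decide +kernel
theorem cq_19_34 : ckS [1,1,1,2,1,1] = true := by decide +kernel
theorem cq_19_35 : ckS [1,1,2,1,1,1] = true := by decide +kernel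
def lp_19_2 : List (List ℕ) := [[1,2,1,3,1], [1,3,1,2,1], [2,1,2,1,1], [2,2,1,1,1], [1,1,1,2,1,1], [1,1,2,1,1,1]]
theorem lr_19_2 : ∀ l ∈ lp_19_2, ckS l = true := by
  intro l hl
  simp only [lp_19_2, List.mem_cons, List.not_mem_nil, or_false] at hl
  rcases hl with rfl | rfl | rfl | rfl | rfl | rfl
  · exact cq_19_30
  · exact cq_19_31
  · exact cq_19_32
  · exact cq_19_33
  · exact cq_19_34
  · exact cq_19_35

theorem cq_20_0 : ckS [20] = true := by decide +kernel
theorem cq_20_1 : ckS [1,19] = true := by decide +kernel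
theorem cq_20_2 : ckS [19,1] = true := by decide +kernel
theorem cq_20_3 : ckS [1,18,1] = true := by decide +kernel
theorem cq_20_4 : ckS [2,1,6] = true := by decide +kernel
theorem cq_20_5 : ckS [2,4,2] = true := by decide +kernel
theorem cq_20_6 : ckS [6,1,2] = true := by decide +kernel
theorem cq_20_7 : ckS [1,1,1,6] = true := by decide +kernel
theorem cq_20_8 : ckS [1,5,1,2] = true := by decide +kernel
def lp_20_0 : List (List ℕ) := [[20], [1,19], [19,1], [1,18,1], [2,1,6], [2,4,2], [6,1,2], [1,1,1,6], [1,5,1,2]]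
theorem lr_20_0 : ∀ l ∈ lp_20_0, ckS l = true := by
  intro l hl
  simp only [lp_20_0, List.mem_cons, List.not_mem_nil, or_false] at hl
  rcases hl with rfl | rfl | rfl | rfl | rfl | rfl | rfl | rfl | rfl
  · exact cq_20_0
  · exact cq_20_1
  · exact cq_20_2
  · exact cq_20_3
  · exact cq_20_4
  · exact cq_20_5
  · exact cq_20_6
  · exact cq_20_7
  · exact cq_20_8

end Pool.Agent.V5helper47.CN
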