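import Pool.Agent.V5helper47.CN.S3

/-! Search, part of the half words. -/

set_option maxRecDepth 1000000

namespace Pool.Agent.V5helper47.CN

open H419R2 Pool.Agent.N911

theorem cq_20_9 : ckS [2,1,5,1] = true := by decide +kernel
theorem cq_20_10 : ckS [6,1,1,1] = true := by decide +kernel
theorem cq_20_11 : ckS [1,1,1,5,1] = true := by decide +kernel
theorem cq_20_12 : ckS [1,1,4,1,1] = true := by decide +kernel
theorem cq_20_13 : ckS [1,5,1,1,1] = true := by decide +kernel
def lp_20_1 : List (List ℕ) := [[2,1,5,1], [6,1,1,1], [1,1,1,5,1], [1,1,4,1,1], [1,5,1,1,1]]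
theorem lr_20_1 : ∀ l ∈ lp_20_1, ckS l = true := by
  intro l hl
  simp only [lp_20_1, List.mem_cons, List.not_mem_nil, or_false] at hl
  rcases hl with rfl | rfl | rfl | rfl | rfl
  · exact cq_20_9
  · exact cq_20_10
  · exact cq_20_11
  · exact cq_20_12
  · exact cq_20_13

theorem cq_21_0 : ckS [21] = true := by decide +kernel
theorem cq_21_1 : ckS [1,20] = true := by decide +kernel
theorem cq_21_2 : ckS [2,10] = true := by decide +kernel
theorem cq_21_3 : ckS [4,5] = true := by decide +kernel
theorem cq_21_4 : ckS [5,4] = true := by decide +kernel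
theorem cq_21_5 : ckS [10,2] = true := by decide +kernel
theorem cq_21_6 : ckS [20,1] = true := by decide +kernel
theorem cq_21_7 : ckS [1,1,10] = true := by decide +kernel
theorem cq_21_8 : ckS [1,3,5] = true := by decide +kernel
theorem cq_21_9 : ckS [1,4,4] = true := by decide +kernel
def lp_21_0 : List (List ℕ) := [[21], [1,20], [2,10], [4,5], [5,4], [10,2], [20,1], [1,1,10], [1,3,5], [1,4,4]]
theorem lr_21_0 : ∀ l ∈ lp_21_0, ckS l = true := by
  intro l hl
  simp only [lp_21_0, List.mem_cons, List.not_mem_nil, or_false] at hl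
  rcases hl with rfl | rfl | rfl | rfl | rfl | rfl | rfl | rfl | rfl | rfl
  · exact cq_21_0
  · exact cq_21_1
  · exact cq_21_2
  · exact cq_21_3
  · exact cq_21_4
  · exact cq_21_5
  · exact cq_21_6
  · exact cq_21_7
  · exact cq_21_8
  · exact cq_21_9

end Pool.Agent.V5helper47.CN
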