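import Pool.Agent.V5helper47.CN.S3

/-! Search, part of the half words. -/

set_option maxRecDepth 1000000

namespace Pool.Agent.V5helper47.CN

open H419R2 Pool.Agent.N911

theorem cq_21_10 : ckS [1,9,2] = true := by decide +kernel
theorem cq_21_11 : ckS [1,19,1] = true := by decide +kernel
theorem cq_21_12 : ckS [2,9,1] = true := by decide +kernel
theorem cq_21_13 : ckS [4,4,1] = true := by decide +kernel
theorem cq_21_14 : ckS [5,3,1] = true := by decide +kernel
theorem cq_21_15 : ckS [10,1,1] = true := by decide +kernel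
theorem cq_21_16 : ckS [1,1,9,1] = true := by decide +kernel
theorem cq_21_17 : ckS [1,3,4,1] = true := by decide +kernel
theorem cq_21_18 : ckS [1,4,3,1] = true := by decide +kernel
theorem cq_21_19 : ckS [1,9,1,1] = true := by decide +kernel
theorem cq_21_20 : ckS [2,1,1,1,2] = true := by decide +kernel
theorem cq_21_21 : ckS [1,1,1,1,1,2] = true := by decide +kernel
theorem cq_21_22 : ckS [2,1,1,1,1,1] = true := by decide +kernel
theorem cq_21_23 : ckS [1,1,1,1,1,1,1] = true := by decide +kernel
def lp_21_1 : List (List ℕ) := [[1,9,2], [1,19,1], [2,9,1], [4,4,1], [5,3,1], [10,1,1], [1,1,9,1], [1,3,4,1], [1,4,3,1], [1,9,1,1], [2,1,1,1,2], [1,1,1,1,1,2], [2,1,1,1,1,1], [1,1,1,1,1,1,1]]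
theorem lr_21_1 : ∀ l ∈ lp_21_1, ckS l = true := by
  intro l hl
  simp only [lp_21_1, List.mem_cons, List.not_mem_nil, or_false] at hl
  rcases hl with rfl | rfl | rfl | rfl | rfl | rfl | rfl | rfl | rfl | rfl | rfl | rfl | rfl | rfl
  · exact cq_21_10
  · exact cq_21_11
  · exact cq_21_12
  · exact cq_21_13
  · exact cq_21_14
  · exact cq_21_15
  · exact cq_21_16
  · exact cq_21_17
  · exact cq_21_18
  · exact cq_21_19
  · exact cq_21_20
  · exact cq_21_21
  · exact cq_21_22
  · exact cq_21_23

end Pool.Agent.V5helper47.CN
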