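import Pool.Agent.V5helper47.CN.S3

/-! Search, part of the half words. -/

set_option maxRecDepth 1000000

namespace Pool.Agent.V5helper47.CN

open H419R2 Pool.Agent.N911

theorem cq_22_0 : ckS [22] = true := by decide +kernel
theorem cq_22_1 : ckS [1,21] = true := by decide +kernel
theorem cq_22_2 : ckS [3,7] = true := by decide +kernel
theorem cq_22_3 : ckS [7,3] = true := by decide +kernel
theorem cq_22_4 : ckS [21,1] = true := by decide +kernel
theorem cq_22_5 : ckS [1,2,7] = true := by decide +kernel
theorem cq_22_6 : ckS [1,6,3] = true := by decide +kernel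
theorem cq_22_7 : ckS [1,20,1] = true := by decide +kernel
theorem cq_22_8 : ckS [2,2,4] = true := by decide +kernel
theorem cq_22_9 : ckS [3,6,1] = true := by decide +kernel
theorem cq_22_10 : ckS [4,2,2] = true := by decide +kernel
theorem cq_22_11 : ckS [7,2,1] = true := by decide +kernel
theorem cq_22_12 : ckS [1,1,2,4] = true := by decide +kernel
theorem cq_22_13 : ckS [1,2,6,1] = true := by decide +kernel
theorem cq_22_14 : ckS [1,3,2,2] = true := by decide +kernel
def lp_22_0 : List (List ℕ) := [[22], [1,21], [3,7], [7,3], [21,1], [1,2,7], [1,6,3], [1,20,1], [2,2,4], [3,6,1], [4,2,2], [7,2,1], [1,1,2,4], [1,2,6,1], [1,3,2,2]]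
theorem lr_22_0 : ∀ l ∈ lp_22_0, ckS l = true := by
  intro l hl
  simp only [lp_22_0, List.mem_cons, List.not_mem_nil, or_false] at hl
  rcases hl with rfl | rfl | rfl | rfl | rfl | rfl | rfl | rfl | rfl | rfl | rfl | rfl | rfl | rfl | rfl
  · exact cq_22_0
  · exact cq_22_1
  · exact cq_22_2
  · exact cq_22_3
  · exact cq_22_4
  · exact cq_22_5
  · exact cq_22_6
  · exact cq_22_7
  · exact cq_22_8
  · exact cq_22_9
  · exact cq_22_10
  · exact cq_22_11
  · exact cq_22_12
  · exact cq_22_13
  · exact cq_22_14

end Pool.Agent.V5helper47.CN
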