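import Pool.Agent.V5helper47.CN.S3

/-! Search, part of the half words. -/

set_option maxRecDepth 1000000

namespace Pool.Agent.V5helper47.CN

open H419R2 Pool.Agent.N911

theorem cq_22_15 : ckS [1,6,2,1] = true := by decide +kernel
theorem cq_22_16 : ckS [2,2,3,1] = true := by decide +kernel
theorem cq_22_17 : ckS [4,2,1,1] = true := by decide +kernel
theorem cq_22_18 : ckS [1,1,2,3,1] = true := by decide +kernel
theorem cq_22_19 : ckS [1,3,2,1,1] = true := by decide +kernel
def lp_22_1 : List (List ℕ) := [[1,6,2,1], [2,2,3,1], [4,2,1,1], [1,1,2,3,1], [1,3,2,1,1]]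
theorem lr_22_1 : ∀ l ∈ lp_22_1, ckS l = true := by
  intro l hl
  simp only [lp_22_1, List.mem_cons, List.not_mem_nil, or_false] at hl
  rcases hl with rfl | rfl | rfl | rfl | rfl
  · exact cq_22_15
  · exact cq_22_16
  · exact cq_22_17
  · exact cq_22_18
  · exact cq_22_19

theorem cq_23_0 : ckS [23] = true := by decide +kernel
theorem cq_23_1 : ckS [1,22] = true := by decide +kernel
theorem cq_23_2 : ckS [2,11] = true := by decide +kernel
theorem cq_23_3 : ckS [11,2] = true := by decide +kernel
theorem cq_23_4 : ckS [22,1] = true := by decide +kernel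
theorem cq_23_5 : ckS [1,1,11] = true := by decide +kernel
theorem cq_23_6 : ckS [1,10,2] = true := by decide +kernel
theorem cq_23_7 : ckS [1,21,1] = true := by decide +kernel
theorem cq_23_8 : ckS [2,1,7] = true := by decide +kernel
theorem cq_23_9 : ckS [2,3,3] = true := by decide +kernel
def lp_23_0 : List (List ℕ) := [[23], [1,22], [2,11], [11,2], [22,1], [1,1,11], [1,10,2], [1,21,1], [2,1,7], [2,3,3]]
theorem lr_23_0 : ∀ l ∈ lp_23_0, ckS l = true := by
  intro l hl
  simp only [lp_23_0, List.mem_cons, List.not_mem_nil, or_false] at hl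
  rcases hl with rfl | rfl | rfl | rfl | rfl | rfl | rfl | rfl | rfl | rfl
  · exact cq_23_0
  · exact cq_23_1
  · exact cq_23_2
  · exact cq_23_3
  · exact cq_23_4
  · exact cq_23_5
  · exact cq_23_6
  · exact cq_23_7
  · exact cq_23_8
  · exact cq_23_9

end Pool.Agent.V5helper47.CN
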