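import Pool.Agent.V5helper47.CN.S3

/-! Search, part of the half words. -/

set_option maxRecDepth 1000000

namespace Pool.Agent.V5helper47.CN

open H419R2 Pool.Agent.N911

theorem cq_23_10 : ckS [2,10,1] = true := by decide +kernel
theorem cq_23_11 : ckS [3,1,5] = true := by decide +kernel
theorem cq_23_12 : ckS [3,3,2] = true := by decide +kernel
theorem cq_23_13 : ckS [5,1,3] = true := by decide +kernel
theorem cq_23_14 : ckS [7,1,2] = true := by decide +kernel
theorem cq_23_15 : ckS [11,1,1] = true := by decide +kernel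
theorem cq_23_16 : ckS [1,1,1,7] = true := by decide +kernel
theorem cq_23_17 : ckS [1,1,3,3] = true := by decide +kernel
theorem cq_23_18 : ckS [1,1,10,1] = true := by decide +kernel
theorem cq_23_19 : ckS [1,2,1,5] = true := by decide +kernel
theorem cq_23_20 : ckS [1,2,3,2] = true := by decide +kernel
theorem cq_23_21 : ckS [1,4,1,3] = true := by decide +kernel
theorem cq_23_22 : ckS [1,6,1,2] = true := by decide +kernel
theorem cq_23_23 : ckS [1,10,1,1] = true := by decide +kernel
theorem cq_23_24 : ckS [2,1,1,4] = true := by decide +kernel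
def lp_23_1 : List (List ℕ) := [[2,10,1], [3,1,5], [3,3,2], [5,1,3], [7,1,2], [11,1,1], [1,1,1,7], [1,1,3,3], [1,1,10,1], [1,2,1,5], [1,2,3,2], [1,4,1,3], [1,6,1,2], [1,10,1,1], [2,1,1,4]]
theorem lr_23_1 : ∀ l ∈ lp_23_1, ckS l = true := by
  intro l hl
  simp only [lp_23_1, List.mem_cons, List.not_mem_nil, or_false] at hl
  rcases hl with rfl | rfl | rfl | rfl | rfl | rfl | rfl | rfl | rfl | rfl | rfl | rfl | rfl | rfl | rfl
  · exact cq_23_10
  · exact cq_23_11
  · exact cq_23_12
  · exact cq_23_13
  · exact cq_23_14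
  · exact cq_23_15
  · exact cq_23_16
  · exact cq_23_17
  · exact cq_23_18
  · exact cq_23_19
  · exact cq_23_20
  · exact cq_23_21
  · exact cq_23_22
  · exact cq_23_23
  · exact cq_23_24

end Pool.Agent.V5helper47.CN
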