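import Pool.Agent.V5helper47.CN.S3

/-! Search, part of the half words. -/

set_option maxRecDepth 1000000

namespace Pool.Agent.V5helper47.CN

open H419R2 Pool.Agent.N911

theorem cq_23_25 : ckS [2,1,6,1] = true := by decide +kernel
theorem cq_23_26 : ckS [2,3,2,1] = true := by decide +kernel
theorem cq_23_27 : ckS [3,1,4,1] = true := by decide +kernel
theorem cq_23_28 : ckS [3,3,1,1] = true := by decide +kernel
theorem cq_23_29 : ckS [4,1,1,2] = true := by decide +kernel
theorem cq_23_30 : ckS [5,1,2,1] = true := by decide +kernel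
theorem cq_23_31 : ckS [7,1,1,1] = true := by decide +kernel
theorem cq_23_32 : ckS [1,1,1,1,4] = true := by decide +kernel
theorem cq_23_33 : ckS [1,1,1,6,1] = true := by decide +kernel
theorem cq_23_34 : ckS [1,1,3,2,1] = true := by decide +kernel
theorem cq_23_35 : ckS [1,2,1,4,1] = true := by decide +kernel
theorem cq_23_36 : ckS [1,2,3,1,1] = true := by decide +kernel
theorem cq_23_37 : ckS [1,3,1,1,2] = true := by decide +kernel
theorem cq_23_38 : ckS [1,4,1,2,1] = true := by decide +kernel
theorem cq_23_39 : ckS [1,6,1,1,1] = true := by decide +kernel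
def lp_23_2 : List (List ℕ) := [[2,1,6,1], [2,3,2,1], [3,1,4,1], [3,3,1,1], [4,1,1,2], [5,1,2,1], [7,1,1,1], [1,1,1,1,4], [1,1,1,6,1], [1,1,3,2,1], [1,2,1,4,1], [1,2,3,1,1], [1,3,1,1,2], [1,4,1,2,1], [1,6,1,1,1]]
theorem lr_23_2 : ∀ l ∈ lp_23_2, ckS l = true := by
  intro l hl
  simp only [lp_23_2, List.mem_cons, List.not_mem_nil, or_false] at hl
  rcases hl with rfl | rfl | rfl | rfl | rfl | rfl | rfl | rfl | rfl | rfl | rfl | rfl | rfl | rfl | rfl
  · exact cq_23_25
  · exact cq_23_26
  · exact cq_23_27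
  · exact cq_23_28
  · exact cq_23_29
  · exact cq_23_30
  · exact cq_23_31
  · exact cq_23_32
  · exact cq_23_33
  · exact cq_23_34
  · exact cq_23_35
  · exact cq_23_36
  · exact cq_23_37
  · exact cq_23_38
  · exact cq_23_39

end Pool.Agent.V5helper47.CN
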