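import Pool.Agent.V5helper47.CN.S3

/-! Search, part of the half words. -/

set_option maxRecDepth 1000000

namespace Pool.Agent.V5helper47.CN

open H419R2 Pool.Agent.N911

theorem cq_23_40 : ckS [2,1,1,3,1] = true := by decide +kernel
theorem cq_23_41 : ckS [4,1,1,1,1] = true := by decide +kernel
theorem cq_23_42 : ckS [1,1,1,1,3,1] = true := by decide +kernel
theorem cq_23_43 : ckS [1,3,1,1,1,1] = true := by decide +kernel
def lp_23_3 : List (List ℕ) := [[2,1,1,3,1], [4,1,1,1,1], [1,1,1,1,3,1], [1,3,1,1,1,1]]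
theorem lr_23_3 : ∀ l ∈ lp_23_3, ckS l = true := by
  intro l hl
  simp only [lp_23_3, List.mem_cons, List.not_mem_nil, or_false] at hl
  rcases hl with rfl | rfl | rfl | rfl
  · exact cq_23_40
  · exact cq_23_41
  · exact cq_23_42
  · exact cq_23_43

theorem cq_24_0 : ckS [24] = true := by decide +kernel
theorem cq_24_1 : ckS [1,23] = true := by decide +kernel
theorem cq_24_2 : ckS [23,1] = true := by decide +kernel
theorem cq_24_3 : ckS [1,22,1] = true := by decide +kernel
theorem cq_24_4 : ckS [2,5,2] = true := by decide +kernel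
theorem cq_24_5 : ckS [3,2,3] = true := by decide +kernel
theorem cq_24_6 : ckS [4,1,4] = true := by decide +kernel
theorem cq_24_7 : ckS [1,1,5,2] = true := by decide +kernel
theorem cq_24_8 : ckS [1,2,2,3] = true := by decide +kernel
theorem cq_24_9 : ckS [1,3,1,4] = true := by decide +kernel
theorem cq_24_10 : ckS [2,5,1,1] = true := by decide +kernel
def lp_24_0 : List (List ℕ) := [[24], [1,23], [23,1], [1,22,1], [2,5,2], [3,2,3], [4,1,4], [1,1,5,2], [1,2,2,3], [1,3,1,4], [2,5,1,1]]
theorem lr_24_0 : ∀ l ∈ lp_24_0, ckS l = true := by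
  intro l hl
  simp only [lp_24_0, List.mem_cons, List.not_mem_nil, or_false] at hl
  rcases hl with rfl | rfl | rfl | rfl | rfl | rfl | rfl | rfl | rfl | rfl | rfl
  · exact cq_24_0
  · exact cq_24_1
  · exact cq_24_2
  · exact cq_24_3
  · exact cq_24_4
  · exact cq_24_5
  · exact cq_24_6
  · exact cq_24_7
  · exact cq_24_8
  · exact cq_24_9
  · exact cq_24_10

end Pool.Agent.V5helper47.CN
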