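import Pool.Agent.V5helper47.CN.S3

/-! Search, part of the half words. -/

set_option maxRecDepth 1000000

namespace Pool.Agent.V5helper47.CN

open H419R2 Pool.Agent.N911

theorem cq_24_11 : ckS [3,2,2,1] = true := by decide +kernel
theorem cq_24_12 : ckS [4,1,3,1] = true := by decide +kernel
theorem cq_24_13 : ckS [1,1,5,1,1] = true := by decide +kernel
theorem cq_24_14 : ckS [1,2,2,2,1] = true := by decide +kernel
theorem cq_24_15 : ckS [1,3,1,3,1] = true := by decide +kernel
def lp_24_1 : List (List ℕ) := [[3,2,2,1], [4,1,3,1], [1,1,5,1,1], [1,2,2,2,1], [1,3,1,3,1]]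
theorem lr_24_1 : ∀ l ∈ lp_24_1, ckS l = true := by
  intro l hl
  simp only [lp_24_1, List.mem_cons, List.not_mem_nil, or_false] at hl
  rcases hl with rfl | rfl | rfl | rfl | rfl
  · exact cq_24_11
  · exact cq_24_12
  · exact cq_24_13
  · exact cq_24_14
  · exact cq_24_15

theorem cq_25_0 : ckS [25] = true := by decide +kernel
theorem cq_25_1 : ckS [1,24] = true := by decide +kernel
theorem cq_25_2 : ckS [2,12] = true := by decide +kernel
theorem cq_25_3 : ckS [3,8] = true := by decide +kernel
theorem cq_25_4 : ckS [4,6] = true := by decide +kernel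
theorem cq_25_5 : ckS [6,4] = true := by decide +kernel
theorem cq_25_6 : ckS [8,3] = true := by decide +kernel
theorem cq_25_7 : ckS [12,2] = true := by decide +kernel
theorem cq_25_8 : ckS [24,1] = true := by decide +kernel
theorem cq_25_9 : ckS [1,1,12] = true := by decide +kernel
def lp_25_0 : List (List ℕ) := [[25], [1,24], [2,12], [3,8], [4,6], [6,4], [8,3], [12,2], [24,1], [1,1,12]]
theorem lr_25_0 : ∀ l ∈ lp_25_0, ckS l = true := by
  intro l hl
  simp only [lp_25_0, List.mem_cons, List.not_mem_nil, or_false] at hl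
  rcases hl with rfl | rfl | rfl | rfl | rfl | rfl | rfl | rfl | rfl | rfl
  · exact cq_25_0
  · exact cq_25_1
  · exact cq_25_2
  · exact cq_25_3
  · exact cq_25_4
  · exact cq_25_5
  · exact cq_25_6
  · exact cq_25_7
  · exact cq_25_8
  · exact cq_25_9

end Pool.Agent.V5helper47.CN
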