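import Pool.Agent.V5helper47.CN.S3

/-! Search, part of the half words. -/

set_option maxRecDepth 1000000

namespace Pool.Agent.V5helper47.CN

open H419R2 Pool.Agent.N911

theorem cq_25_10 : ckS [1,2,8] = true := by decide +kernel
theorem cq_25_11 : ckS [1,3,6] = true := by decide +kernel
theorem cq_25_12 : ckS [1,5,4] = true := by decide +kernel
theorem cq_25_13 : ckS [1,7,3] = true := by decide +kernel
theorem cq_25_14 : ckS [1,11,2] = true := by decide +kernel
theorem cq_25_15 : ckS [1,23,1] = true := by decide +kernel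
theorem cq_25_16 : ckS [2,11,1] = true := by decide +kernel
theorem cq_25_17 : ckS [3,7,1] = true := by decide +kernel
theorem cq_25_18 : ckS [4,5,1] = true := by decide +kernel
theorem cq_25_19 : ckS [6,3,1] = true := by decide +kernel
theorem cq_25_20 : ckS [8,2,1] = true := by decide +kernel
theorem cq_25_21 : ckS [12,1,1] = true := by decide +kernel
theorem cq_25_22 : ckS [1,1,11,1] = true := by decide +kernel
theorem cq_25_23 : ckS [1,2,7,1] = true := by decide +kernel
theorem cq_25_24 : ckS [1,3,5,1] = true := by decide +kernel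
def lp_25_1 : List (List ℕ) := [[1,2,8], [1,3,6], [1,5,4], [1,7,3], [1,11,2], [1,23,1], [2,11,1], [3,7,1], [4,5,1], [6,3,1], [8,2,1], [12,1,1], [1,1,11,1], [1,2,7,1], [1,3,5,1]]
theorem lr_25_1 : ∀ l ∈ lp_25_1, ckS l = true := by
  intro l hl
  simp only [lp_25_1, List.mem_cons, List.not_mem_nil, or_false] at hl
  rcases hl with rfl | rfl | rfl | rfl | rfl | rfl | rfl | rfl | rfl | rfl | rfl | rfl | rfl | rfl | rfl
  · exact cq_25_10
  · exact cq_25_11
  · exact cq_25_12
  · exact cq_25_13
  · exact cq_25_14
  · exact cq_25_15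
  · exact cq_25_16
  · exact cq_25_17
  · exact cq_25_18
  · exact cq_25_19
  · exact cq_25_20
  · exact cq_25_21
  · exact cq_25_22
  · exact cq_25_23
  · exact cq_25_24

end Pool.Agent.V5helper47.CN
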