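import Pool.Agent.V5helper47.CN.S3

/-! Search, part of the half words. -/

set_option maxRecDepth 1000000

namespace Pool.Agent.V5helper47.CN

open H419R2 Pool.Agent.N911

theorem cq_25_25 : ckS [1,5,3,1] = true := by decide +kernel
theorem cq_25_26 : ckS [1,7,2,1] = true := by decide +kernel
theorem cq_25_27 : ckS [1,11,1,1] = true := by decide +kernel
theorem cq_25_28 : ckS [2,1,3,2] = true := by decide +kernel
theorem cq_25_29 : ckS [2,3,1,2] = true := by decide +kernel
theorem cq_25_30 : ckS [3,1,1,3] = true := by decide +kernel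
theorem cq_25_31 : ckS [1,1,1,3,2] = true := by decide +kernel
theorem cq_25_32 : ckS [1,1,3,1,2] = true := by decide +kernel
theorem cq_25_33 : ckS [1,2,1,1,3] = true := by decide +kernel
theorem cq_25_34 : ckS [2,1,3,1,1] = true := by decide +kernel
theorem cq_25_35 : ckS [2,3,1,1,1] = true := by decide +kernel
theorem cq_25_36 : ckS [3,1,1,2,1] = true := by decide +kernel
theorem cq_25_37 : ckS [1,1,1,3,1,1] = true := by decide +kernel
theorem cq_25_38 : ckS [1,1,3,1,1,1] = true := by decide +kernel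
theorem cq_25_39 : ckS [1,2,1,1,2,1] = true := by decide +kernel
def lp_25_2 : List (List ℕ) := [[1,5,3,1], [1,7,2,1], [1,11,1,1], [2,1,3,2], [2,3,1,2], [3,1,1,3], [1,1,1,3,2], [1,1,3,1,2], [1,2,1,1,3], [2,1,3,1,1], [2,3,1,1,1], [3,1,1,2,1], [1,1,1,3,1,1], [1,1,3,1,1,1], [1,2,1,1,2,1]]
theorem lr_25_2 : ∀ l ∈ lp_25_2, ckS l = true := by
  intro l hl
  simp only [lp_25_2, List.mem_cons, List.not_mem_nil, or_false] at hl
  rcases hl with rfl | rfl | rfl | rfl | rfl | rfl | rfl | rfl | rfl | rfl | rfl | rfl | rfl | rfl | rfl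
  · exact cq_25_25
  · exact cq_25_26
  · exact cq_25_27
  · exact cq_25_28
  · exact cq_25_29
  · exact cq_25_30
  · exact cq_25_31
  · exact cq_25_32
  · exact cq_25_33
  · exact cq_25_34
  · exact cq_25_35
  · exact cq_25_36
  · exact cq_25_37
  · exact cq_25_38
  · exact cq_25_39

end Pool.Agent.V5helper47.CN
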