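import Pool.Agent.V5helper47.CN.S3

/-! Search, part of the half words. -/

set_option maxRecDepth 1000000

namespace Pool.Agent.V5helper47.CN

open H419R2 Pool.Agent.N911

theorem cq_26_0 : ckS [26] = true := by decide +kernel
theorem cq_26_1 : ckS [1,25] = true := by decide +kernel
theorem cq_26_2 : ckS [5,5] = true := by decide +kernel
theorem cq_26_3 : ckS [25,1] = true := by decide +kernel
theorem cq_26_4 : ckS [1,4,5] = true := by decide +kernel
theorem cq_26_5 : ckS [1,24,1] = true := by decide +kernel
theorem cq_26_6 : ckS [2,1,8] = true := by decide +kernel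
theorem cq_26_7 : ckS [5,4,1] = true := by decide +kernel
theorem cq_26_8 : ckS [8,1,2] = true := by decide +kernel
theorem cq_26_9 : ckS [1,1,1,8] = true := by decide +kernel
theorem cq_26_10 : ckS [1,4,4,1] = true := by decide +kernel
theorem cq_26_11 : ckS [1,7,1,2] = true := by decide +kernel
theorem cq_26_12 : ckS [2,1,7,1] = true := by decide +kernel
theorem cq_26_13 : ckS [2,2,1,3] = true := by decide +kernel
theorem cq_26_14 : ckS [3,1,2,2] = true := by decide +kernel
def lp_26_0 : List (List ℕ) := [[26], [1,25], [5,5], [25,1], [1,4,5], [1,24,1], [2,1,8], [5,4,1], [8,1,2], [1,1,1,8], [1,4,4,1], [1,7,1,2], [2,1,7,1], [2,2,1,3], [3,1,2,2]]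
theorem lr_26_0 : ∀ l ∈ lp_26_0, ckS l = true := by
  intro l hl
  simp only [lp_26_0, List.mem_cons, List.not_mem_nil, or_false] at hl
  rcases hl with rfl | rfl | rfl | rfl | rfl | rfl | rfl | rfl | rfl | rfl | rfl | rfl | rfl | rfl | rfl
  · exact cq_26_0
  · exact cq_26_1
  · exact cq_26_2
  · exact cq_26_3
  · exact cq_26_4
  · exact cq_26_5
  · exact cq_26_6
  · exact cq_26_7
  · exact cq_26_8
  · exact cq_26_9
  · exact cq_26_10
  · exact cq_26_11
  · exact cq_26_12
  · exact cq_26_13
  · exact cq_26_14

end Pool.Agent.V5helper47.CN
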