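import Pool.Agent.V5helper47.CN.S3

/-! Search, part of the half words. -/

set_option maxRecDepth 1000000

namespace Pool.Agent.V5helper47.CN

open H419R2 Pool.Agent.N911

theorem cq_27_6 : ckS [1,12,2] = true := by decide +kernel
theorem cq_27_7 : ckS [1,25,1] = true := by decide +kernel
theorem cq_27_8 : ckS [2,2,5] = true := by decide +kernel
theorem cq_27_9 : ckS [2,12,1] = true := by decide +kernel
theorem cq_27_10 : ckS [3,1,6] = true := by decide +kernel
theorem cq_27_11 : ckS [5,2,2] = true := by decide +kernel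
theorem cq_27_12 : ckS [6,1,3] = true := by decide +kernel
theorem cq_27_13 : ckS [13,1,1] = true := by decide +kernel
theorem cq_27_14 : ckS [1,1,2,5] = true := by decide +kernel
theorem cq_27_15 : ckS [1,1,12,1] = true := by decide +kernel
theorem cq_27_16 : ckS [1,2,1,6] = true := by decide +kernel
theorem cq_27_17 : ckS [1,4,2,2] = true := by decide +kernel
theorem cq_27_18 : ckS [1,5,1,3] = true := by decide +kernel
theorem cq_27_19 : ckS [1,12,1,1] = true := by decide +kernel
theorem cq_27_20 : ckS [2,1,2,3] = true := by decide +kernel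
def lp_27_1 : List (List ℕ) := [[1,12,2], [1,25,1], [2,2,5], [2,12,1], [3,1,6], [5,2,2], [6,1,3], [13,1,1], [1,1,2,5], [1,1,12,1], [1,2,1,6], [1,4,2,2], [1,5,1,3], [1,12,1,1], [2,1,2,3]]
theorem lr_27_1 : ∀ l ∈ lp_27_1, ckS l = true := by
  intro l hl
  simp only [lp_27_1, List.mem_cons, List.not_mem_nil, or_false] at hl
  rcases hl with rfl | rfl | rfl | rfl | rfl | rfl | rfl | rfl | rfl | rfl | rfl | rfl | rfl | rfl | rfl
  · exact cq_27_6
  · exact cq_27_7
  · exact cq_27_8
  · exact cq_27_9
  · exact cq_27_10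
  · exact cq_27_11
  · exact cq_27_12
  · exact cq_27_13
  · exact cq_27_14
  · exact cq_27_15
  · exact cq_27_16
  · exact cq_27_17
  · exact cq_27_18
  · exact cq_27_19
  · exact cq_27_20

end Pool.Agent.V5helper47.CN
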