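import Pool.Agent.V5helper47.CN.S3

/-! Search, part of the half words. -/

set_option maxRecDepth 1000000

namespace Pool.Agent.V5helper47.CN

open H419R2 Pool.Agent.N911

theorem cq_28_0 : ckS [28] = true := by decide +kernel
theorem cq_28_1 : ckS [1,27] = true := by decide +kernel
theorem cq_28_2 : ckS [3,9] = true := by decide +kernel
theorem cq_28_3 : ckS [9,3] = true := by decide +kernel
theorem cq_28_4 : ckS [27,1] = true := by decide +kernel
theorem cq_28_5 : ckS [1,2,9] = true := by decide +kernel
theorem cq_28_6 : ckS [1,8,3] = true := by decide +kernel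
theorem cq_28_7 : ckS [1,26,1] = true := by decide +kernel
theorem cq_28_8 : ckS [2,6,2] = true := by decide +kernel
theorem cq_28_9 : ckS [3,8,1] = true := by decide +kernel
theorem cq_28_10 : ckS [9,2,1] = true := by decide +kernel
theorem cq_28_11 : ckS [1,1,6,2] = true := by decide +kernel
theorem cq_28_12 : ckS [1,2,8,1] = true := by decide +kernel
theorem cq_28_13 : ckS [1,8,2,1] = true := by decide +kernel
theorem cq_28_14 : ckS [2,1,1,5] = true := by decide +kernel
def lp_28_0 : List (List ℕ) := [[28], [1,27], [3,9], [9,3], [27,1], [1,2,9], [1,8,3], [1,26,1], [2,6,2], [3,8,1], [9,2,1], [1,1,6,2], [1,2,8,1], [1,8,2,1], [2,1,1,5]]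
theorem lr_28_0 : ∀ l ∈ lp_28_0, ckS l = true := by
  intro l hl
  simp only [lp_28_0, List.mem_cons, List.not_mem_nil, or_false] at hl
  rcases hl with rfl | rfl | rfl | rfl | rfl | rfl | rfl | rfl | rfl | rfl | rfl | rfl | rfl | rfl | rfl
  · exact cq_28_0
  · exact cq_28_1
  · exact cq_28_2
  · exact cq_28_3
  · exact cq_28_4
  · exact cq_28_5
  · exact cq_28_6
  · exact cq_28_7
  · exact cq_28_8
  · exact cq_28_9
  · exact cq_28_10
  · exact cq_28_11
  · exact cq_28_12
  · exact cq_28_13
  · exact cq_28_14

end Pool.Agent.V5helper47.CN
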