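import Pool.Agent.V5helper47.CN.S3

/-! Search, part of the half words. -/

set_option maxRecDepth 1000000

namespace Pool.Agent.V5helper47.CN

open H419R2 Pool.Agent.N911

theorem cq_28_15 : ckS [2,6,1,1] = true := by decide +kernel
theorem cq_28_16 : ckS [5,1,1,2] = true := by decide +kernel
theorem cq_28_17 : ckS [1,1,1,1,5] = true := by decide +kernel
theorem cq_28_18 : ckS [1,1,6,1,1] = true := by decide +kernel
theorem cq_28_19 : ckS [1,4,1,1,2] = true := by decide +kernel
theorem cq_28_20 : ckS [2,1,1,4,1] = true := by decide +kernel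
theorem cq_28_21 : ckS [5,1,1,1,1] = true := by decide +kernel
theorem cq_28_22 : ckS [1,1,1,1,4,1] = true := by decide +kernel
theorem cq_28_23 : ckS [1,4,1,1,1,1] = true := by decide +kernel
def lp_28_1 : List (List ℕ) := [[2,6,1,1], [5,1,1,2], [1,1,1,1,5], [1,1,6,1,1], [1,4,1,1,2], [2,1,1,4,1], [5,1,1,1,1], [1,1,1,1,4,1], [1,4,1,1,1,1]]
theorem lr_28_1 : ∀ l ∈ lp_28_1, ckS l = true := by
  intro l hl
  simp only [lp_28_1, List.mem_cons, List.not_mem_nil, or_false] at hl
  rcases hl with rfl | rfl | rfl | rfl | rfl | rfl | rfl | rfl | rfl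
  · exact cq_28_15
  · exact cq_28_16
  · exact cq_28_17
  · exact cq_28_18
  · exact cq_28_19
  · exact cq_28_20
  · exact cq_28_21
  · exact cq_28_22
  · exact cq_28_23

theorem cq_29_0 : ckS [29] = true := by decide +kernel
theorem cq_29_1 : ckS [1,28] = true := by decide +kernel
theorem cq_29_2 : ckS [2,14] = true := by decide +kernel
theorem cq_29_3 : ckS [4,7] = true := by decide +kernel
theorem cq_29_4 : ckS [7,4] = true := by decide +kernel
theorem cq_29_5 : ckS [14,2] = true := by decide +kernel
def lp_29_0 : List (List ℕ) := [[29], [1,28], [2,14], [4,7], [7,4], [14,2]]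
theorem lr_29_0 : ∀ l ∈ lp_29_0, ckS l = true := by
  intro l hl
  simp only [lp_29_0, List.mem_cons, List.not_mem_nil, or_false] at hl
  rcases hl with rfl | rfl | rfl | rfl | rfl | rfl
  · exact cq_29_0
  · exact cq_29_1
  · exact cq_29_2
  · exact cq_29_3
  · exact cq_29_4
  · exact cq_29_5

end Pool.Agent.V5helper47.CN
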