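import Pool.Agent.V5helper47.CN.S3

/-! Search, part of the half words. -/

set_option maxRecDepth 1000000

namespace Pool.Agent.V5helper47.CN

open H419R2 Pool.Agent.N911

theorem cq_29_6 : ckS [28,1] = true := by decide +kernel
theorem cq_29_7 : ckS [1,1,14] = true := by decide +kernel
theorem cq_29_8 : ckS [1,3,7] = true := by decide +kernel
theorem cq_29_9 : ckS [1,6,4] = true := by decide +kernel
theorem cq_29_10 : ckS [1,13,2] = true := by decide +kernel
theorem cq_29_11 : ckS [1,27,1] = true := by decide +kernel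
theorem cq_29_12 : ckS [2,1,9] = true := by decide +kernel
theorem cq_29_13 : ckS [2,4,3] = true := by decide +kernel
theorem cq_29_14 : ckS [2,13,1] = true := by decide +kernel
theorem cq_29_15 : ckS [3,4,2] = true := by decide +kernel
theorem cq_29_16 : ckS [4,1,5] = true := by decide +kernel
theorem cq_29_17 : ckS [4,6,1] = true := by decide +kernel
theorem cq_29_18 : ckS [5,1,4] = true := by decide +kernel
theorem cq_29_19 : ckS [7,3,1] = true := by decide +kernel
theorem cq_29_20 : ckS [9,1,2] = true := by decide +kernel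
def lp_29_1 : List (List ℕ) := [[28,1], [1,1,14], [1,3,7], [1,6,4], [1,13,2], [1,27,1], [2,1,9], [2,4,3], [2,13,1], [3,4,2], [4,1,5], [4,6,1], [5,1,4], [7,3,1], [9,1,2]]
theorem lr_29_1 : ∀ l ∈ lp_29_1, ckS l = true := by
  intro l hl
  simp only [lp_29_1, List.mem_cons, List.not_mem_nil, or_false] at hl
  rcases hl with rfl | rfl | rfl | rfl | rfl | rfl | rfl | rfl | rfl | rfl | rfl | rfl | rfl | rfl | rfl
  · exact cq_29_6
  · exact cq_29_7
  · exact cq_29_8
  · exact cq_29_9
  · exact cq_29_10
  · exact cq_29_11
  · exact cq_29_12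
  · exact cq_29_13
  · exact cq_29_14
  · exact cq_29_15
  · exact cq_29_16
  · exact cq_29_17
  · exact cq_29_18
  · exact cq_29_19
  · exact cq_29_20

end Pool.Agent.V5helper47.CN
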