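import Pool.Agent.V5helper47.CN.S3

/-! Search, part of the half words. -/

set_option maxRecDepth 1000000

namespace Pool.Agent.V5helper47.CN

open H419R2 Pool.Agent.N911

theorem cq_29_21 : ckS [14,1,1] = true := by decide +kernel
theorem cq_29_22 : ckS [1,1,1,9] = true := by decide +kernel
theorem cq_29_23 : ckS [1,1,4,3] = true := by decide +kernel
theorem cq_29_24 : ckS [1,1,13,1] = true := by decide +kernel
theorem cq_29_25 : ckS [1,2,4,2] = true := by decide +kernel
theorem cq_29_26 : ckS [1,3,1,5] = true := by decide +kernel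
theorem cq_29_27 : ckS [1,3,6,1] = true := by decide +kernel
theorem cq_29_28 : ckS [1,4,1,4] = true := by decide +kernel
theorem cq_29_29 : ckS [1,6,3,1] = true := by decide +kernel
theorem cq_29_30 : ckS [1,8,1,2] = true := by decide +kernel
theorem cq_29_31 : ckS [1,13,1,1] = true := by decide +kernel
theorem cq_29_32 : ckS [2,1,8,1] = true := by decide +kernel
theorem cq_29_33 : ckS [2,2,2,2] = true := by decide +kernel
theorem cq_29_34 : ckS [2,4,2,1] = true := by decide +kernel
theorem cq_29_35 : ckS [3,4,1,1] = true := by decide +kernel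
def lp_29_2 : List (List ℕ) := [[14,1,1], [1,1,1,9], [1,1,4,3], [1,1,13,1], [1,2,4,2], [1,3,1,5], [1,3,6,1], [1,4,1,4], [1,6,3,1], [1,8,1,2], [1,13,1,1], [2,1,8,1], [2,2,2,2], [2,4,2,1], [3,4,1,1]]
theorem lr_29_2 : ∀ l ∈ lp_29_2, ckS l = true := by
  intro l hl
  simp only [lp_29_2, List.mem_cons, List.not_mem_nil, or_false] at hl
  rcases hl with rfl | rfl | rfl | rfl | rfl | rfl | rfl | rfl | rfl | rfl | rfl | rfl | rfl | rfl | rfl
  · exact cq_29_21
  · exact cq_29_22
  · exact cq_29_23
  · exact cq_29_24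
  · exact cq_29_25
  · exact cq_29_26
  · exact cq_29_27
  · exact cq_29_28
  · exact cq_29_29
  · exact cq_29_30
  · exact cq_29_31
  · exact cq_29_32
  · exact cq_29_33
  · exact cq_29_34
  · exact cq_29_35

end Pool.Agent.V5helper47.CN
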