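import Pool.Agent.V5helper47.CN.S3

/-! Search, part of the half words. -/

set_option maxRecDepth 1000000

namespace Pool.Agent.V5helper47.CN

open H419R2 Pool.Agent.N911

theorem cq_29_36 : ckS [4,1,4,1] = true := by decide +kernel
theorem cq_29_37 : ckS [5,1,3,1] = true := by decide +kernel
theorem cq_29_38 : ckS [9,1,1,1] = true := by decide +kernel
theorem cq_29_39 : ckS [1,1,1,8,1] = true := by decide +kernel
theorem cq_29_40 : ckS [1,1,2,2,2] = true := by decide +kernel
theorem cq_29_41 : ckS [1,1,4,2,1] = true := by decide +kernel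
theorem cq_29_42 : ckS [1,2,4,1,1] = true := by decide +kernel
theorem cq_29_43 : ckS [1,3,1,4,1] = true := by decide +kernel
theorem cq_29_44 : ckS [1,4,1,3,1] = true := by decide +kernel
theorem cq_29_45 : ckS [1,8,1,1,1] = true := by decide +kernel
theorem cq_29_46 : ckS [2,1,1,1,3] = true := by decide +kernel
theorem cq_29_47 : ckS [2,2,2,1,1] = true := by decide +kernel
theorem cq_29_48 : ckS [3,1,1,1,2] = true := by decide +kernel
theorem cq_29_49 : ckS [1,1,1,1,1,3] = true := by decide +kernel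
theorem cq_29_50 : ckS [1,1,2,2,1,1] = true := by decide +kernel
def lp_29_3 : List (List ℕ) := [[4,1,4,1], [5,1,3,1], [9,1,1,1], [1,1,1,8,1], [1,1,2,2,2], [1,1,4,2,1], [1,2,4,1,1], [1,3,1,4,1], [1,4,1,3,1], [1,8,1,1,1], [2,1,1,1,3], [2,2,2,1,1], [3,1,1,1,2], [1,1,1,1,1,3], [1,1,2,2,1,1]]
theorem lr_29_3 : ∀ l ∈ lp_29_3, ckS l = true := by
  intro l hl
  simp only [lp_29_3, List.mem_cons, List.not_mem_nil, or_false] at hl
  rcases hl with rfl | rfl | rfl | rfl | rfl | rfl | rfl | rfl | rfl | rfl | rfl | rfl | rfl | rfl | rfl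
  · exact cq_29_36
  · exact cq_29_37
  · exact cq_29_38
  · exact cq_29_39
  · exact cq_29_40
  · exact cq_29_41
  · exact cq_29_42
  · exact cq_29_43
  · exact cq_29_44
  · exact cq_29_45
  · exact cq_29_46
  · exact cq_29_47
  · exact cq_29_48
  · exact cq_29_49
  · exact cq_29_50

end Pool.Agent.V5helper47.CN
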