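import Pool.Agent.V5helper47.CN.S3

/-! Search, part of the half words. -/

set_option maxRecDepth 1000000

namespace Pool.Agent.V5helper47.CN

open H419R2 Pool.Agent.N911

theorem cq_29_51 : ckS [1,2,1,1,1,2] = true := by decide +kernel
theorem cq_29_52 : ckS [2,1,1,1,2,1] = true := by decide +kernel
theorem cq_29_53 : ckS [3,1,1,1,1,1] = true := by decide +kernel
theorem cq_29_54 : ckS [1,1,1,1,1,2,1] = true := by decide +kernel
theorem cq_29_55 : ckS [1,2,1,1,1,1,1] = true := by decide +kernel
def lp_29_4 : List (List ℕ) := [[1,2,1,1,1,2], [2,1,1,1,2,1], [3,1,1,1,1,1], [1,1,1,1,1,2,1], [1,2,1,1,1,1,1]]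
theorem lr_29_4 : ∀ l ∈ lp_29_4, ckS l = true := by
  intro l hl
  simp only [lp_29_4, List.mem_cons, List.not_mem_nil, or_false] at hl
  rcases hl with rfl | rfl | rfl | rfl | rfl
  · exact cq_29_51
  · exact cq_29_52
  · exact cq_29_53
  · exact cq_29_54
  · exact cq_29_55

theorem cq_30_0 : ckS [30] = true := by decide +kernel
theorem cq_30_1 : ckS [1,29] = true := by decide +kernel
theorem cq_30_2 : ckS [29,1] = true := by decide +kernel
theorem cq_30_3 : ckS [1,28,1] = true := by decide +kernel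
theorem cq_30_4 : ckS [2,3,4] = true := by decide +kernel
theorem cq_30_5 : ckS [4,3,2] = true := by decide +kernel
theorem cq_30_6 : ckS [1,1,3,4] = true := by decide +kernel
theorem cq_30_7 : ckS [1,3,3,2] = true := by decide +kernel
theorem cq_30_8 : ckS [2,3,3,1] = true := by decide +kernel
theorem cq_30_9 : ckS [4,3,1,1] = true := by decide +kernel
def lp_30_0 : List (List ℕ) := [[30], [1,29], [29,1], [1,28,1], [2,3,4], [4,3,2], [1,1,3,4], [1,3,3,2], [2,3,3,1], [4,3,1,1]]
theorem lr_30_0 : ∀ l ∈ lp_30_0, ckS l = true := by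
  intro l hl
  simp only [lp_30_0, List.mem_cons, List.not_mem_nil, or_false] at hl
  rcases hl with rfl | rfl | rfl | rfl | rfl | rfl | rfl | rfl | rfl | rfl
  · exact cq_30_0
  · exact cq_30_1
  · exact cq_30_2
  · exact cq_30_3
  · exact cq_30_4
  · exact cq_30_5
  · exact cq_30_6
  · exact cq_30_7
  · exact cq_30_8
  · exact cq_30_9

end Pool.Agent.V5helper47.CN
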