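import Pool.Agent.V5helper47.CN.S3

/-! Search, part of the half words. -/

set_option maxRecDepth 1000000

namespace Pool.Agent.V5helper47.CN

open H419R2 Pool.Agent.N911

theorem cq_30_10 : ckS [1,1,3,3,1] = true := by decide +kernel
theorem cq_30_11 : ckS [1,3,3,1,1] = true := by decide +kernel
theorem cq_30_12 : ckS [2,1,2,1,2] = true := by decide +kernel
theorem cq_30_13 : ckS [1,1,1,2,1,2] = true := by decide +kernel
theorem cq_30_14 : ckS [2,1,2,1,1,1] = true := by decide +kernel
theorem cq_30_15 : ckS [1,1,1,2,1,1,1] = true := by decide +kernel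
def lp_30_1 : List (List ℕ) := [[1,1,3,3,1], [1,3,3,1,1], [2,1,2,1,2], [1,1,1,2,1,2], [2,1,2,1,1,1], [1,1,1,2,1,1,1]]
theorem lr_30_1 : ∀ l ∈ lp_30_1, ckS l = true := by
  intro l hl
  simp only [lp_30_1, List.mem_cons, List.not_mem_nil, or_false] at hl
  rcases hl with rfl | rfl | rfl | rfl | rfl | rfl
  · exact cq_30_10
  · exact cq_30_11
  · exact cq_30_12
  · exact cq_30_13
  · exact cq_30_14
  · exact cq_30_15

theorem cq_31_0 : ckS [31] = true := by decide +kernel
theorem cq_31_1 : ckS [1,30] = true := by decide +kernel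
theorem cq_31_2 : ckS [2,15] = true := by decide +kernel
theorem cq_31_3 : ckS [3,10] = true := by decide +kernel
theorem cq_31_4 : ckS [5,6] = true := by decide +kernel
theorem cq_31_5 : ckS [6,5] = true := by decide +kernel
theorem cq_31_6 : ckS [10,3] = true := by decide +kernel
theorem cq_31_7 : ckS [15,2] = true := by decide +kernel
theorem cq_31_8 : ckS [30,1] = true := by decide +kernel
def lp_31_0 : List (List ℕ) := [[31], [1,30], [2,15], [3,10], [5,6], [6,5], [10,3], [15,2], [30,1]]
theorem lr_31_0 : ∀ l ∈ lp_31_0, ckS l = true := by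
  intro l hl
  simp only [lp_31_0, List.mem_cons, List.not_mem_nil, or_false] at hl
  rcases hl with rfl | rfl | rfl | rfl | rfl | rfl | rfl | rfl | rfl
  · exact cq_31_0
  · exact cq_31_1
  · exact cq_31_2
  · exact cq_31_3
  · exact cq_31_4
  · exact cq_31_5
  · exact cq_31_6
  · exact cq_31_7
  · exact cq_31_8

end Pool.Agent.V5helper47.CN
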