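import Pool.Agent.V5helper47.CN.S3

/-! Search, part of the half words. -/

set_option maxRecDepth 1000000

namespace Pool.Agent.V5helper47.CN

open H419R2 Pool.Agent.N911

theorem cq_31_9 : ckS [1,1,15] = true := by decide +kernel
theorem cq_31_10 : ckS [1,2,10] = true := by decide +kernel
theorem cq_31_11 : ckS [1,4,6] = true := by decide +kernel
theorem cq_31_12 : ckS [1,5,5] = true := by decide +kernel
theorem cq_31_13 : ckS [1,9,3] = true := by decide +kernel
theorem cq_31_14 : ckS [1,14,2] = true := by decide +kernel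
theorem cq_31_15 : ckS [1,29,1] = true := by decide +kernel
theorem cq_31_16 : ckS [2,14,1] = true := by decide +kernel
theorem cq_31_17 : ckS [3,1,7] = true := by decide +kernel
theorem cq_31_18 : ckS [3,2,4] = true := by decide +kernel
theorem cq_31_19 : ckS [3,9,1] = true := by decide +kernel
theorem cq_31_20 : ckS [4,2,3] = true := by decide +kernel
theorem cq_31_21 : ckS [5,5,1] = true := by decide +kernel
theorem cq_31_22 : ckS [6,4,1] = true := by decide +kernel
theorem cq_31_23 : ckS [7,1,3] = true := by decide +kernel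
def lp_31_1 : List (List ℕ) := [[1,1,15], [1,2,10], [1,4,6], [1,5,5], [1,9,3], [1,14,2], [1,29,1], [2,14,1], [3,1,7], [3,2,4], [3,9,1], [4,2,3], [5,5,1], [6,4,1], [7,1,3]]
theorem lr_31_1 : ∀ l ∈ lp_31_1, ckS l = true := by
  intro l hl
  simp only [lp_31_1, List.mem_cons, List.not_mem_nil, or_false] at hl
  rcases hl with rfl | rfl | rfl | rfl | rfl | rfl | rfl | rfl | rfl | rfl | rfl | rfl | rfl | rfl | rfl
  · exact cq_31_9
  · exact cq_31_10
  · exact cq_31_11
  · exact cq_31_12
  · exact cq_31_13
  · exact cq_31_14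
  · exact cq_31_15
  · exact cq_31_16
  · exact cq_31_17
  · exact cq_31_18
  · exact cq_31_19
  · exact cq_31_20
  · exact cq_31_21
  · exact cq_31_22
  · exact cq_31_23

end Pool.Agent.V5helper47.CN
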