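import Pool.Agent.V5helper47.CN.S3

/-! Search, part of the half words. -/

set_option maxRecDepth 1000000

namespace Pool.Agent.V5helper47.CN

open H419R2 Pool.Agent.N911

theorem cq_31_24 : ckS [10,2,1] = true := by decide +kernel
theorem cq_31_25 : ckS [15,1,1] = true := by decide +kernel
theorem cq_31_26 : ckS [1,1,14,1] = true := by decide +kernel
theorem cq_31_27 : ckS [1,2,1,7] = true := by decide +kernel
theorem cq_31_28 : ckS [1,2,2,4] = true := by decide +kernel
theorem cq_31_29 : ckS [1,2,9,1] = true := by decide +kernel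
theorem cq_31_30 : ckS [1,3,2,3] = true := by decide +kernel
theorem cq_31_31 : ckS [1,4,5,1] = true := by decide +kernel
theorem cq_31_32 : ckS [1,5,4,1] = true := by decide +kernel
theorem cq_31_33 : ckS [1,6,1,3] = true := by decide +kernel
theorem cq_31_34 : ckS [1,9,2,1] = true := by decide +kernel
theorem cq_31_35 : ckS [1,14,1,1] = true := by decide +kernel
theorem cq_31_36 : ckS [2,1,4,2] = true := by decide +kernel
theorem cq_31_37 : ckS [2,4,1,2] = true := by decide +kernel
theorem cq_31_38 : ckS [3,1,6,1] = true := by decide +kernel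
def lp_31_2 : List (List ℕ) := [[10,2,1], [15,1,1], [1,1,14,1], [1,2,1,7], [1,2,2,4], [1,2,9,1], [1,3,2,3], [1,4,5,1], [1,5,4,1], [1,6,1,3], [1,9,2,1], [1,14,1,1], [2,1,4,2], [2,4,1,2], [3,1,6,1]]
theorem lr_31_2 : ∀ l ∈ lp_31_2, ckS l = true := by
  intro l hl
  simp only [lp_31_2, List.mem_cons, List.not_mem_nil, or_false] at hl
  rcases hl with rfl | rfl | rfl | rfl | rfl | rfl | rfl | rfl | rfl | rfl | rfl | rfl | rfl | rfl | rfl
  · exact cq_31_24
  · exact cq_31_25
  · exact cq_31_26
  · exact cq_31_27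
  · exact cq_31_28
  · exact cq_31_29
  · exact cq_31_30
  · exact cq_31_31
  · exact cq_31_32
  · exact cq_31_33
  · exact cq_31_34
  · exact cq_31_35
  · exact cq_31_36
  · exact cq_31_37
  · exact cq_31_38

end Pool.Agent.V5helper47.CN
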