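import Pool.Agent.V5helper47.CN.S3

/-! Search, part of the half words. -/

set_option maxRecDepth 1000000

namespace Pool.Agent.V5helper47.CN

open H419R2 Pool.Agent.N911

theorem cq_31_39 : ckS [3,2,3,1] = true := by decide +kernel
theorem cq_31_40 : ckS [4,2,2,1] = true := by decide +kernel
theorem cq_31_41 : ckS [7,1,2,1] = true := by decide +kernel
theorem cq_31_42 : ckS [1,1,1,4,2] = true := by decide +kernel
theorem cq_31_43 : ckS [1,1,4,1,2] = true := by decide +kernel
theorem cq_31_44 : ckS [1,2,1,6,1] = true := by decide +kernel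
theorem cq_31_45 : ckS [1,2,2,3,1] = true := by decide +kernel
theorem cq_31_46 : ckS [1,3,2,2,1] = true := by decide +kernel
theorem cq_31_47 : ckS [1,6,1,2,1] = true := by decide +kernel
theorem cq_31_48 : ckS [2,1,1,2,2] = true := by decide +kernel
theorem cq_31_49 : ckS [2,1,4,1,1] = true := by decide +kernel
theorem cq_31_50 : ckS [2,2,1,1,2] = true := by decide +kernel
theorem cq_31_51 : ckS [2,4,1,1,1] = true := by decide +kernel
theorem cq_31_52 : ckS [1,1,1,1,2,2] = true := by decide +kernel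
theorem cq_31_53 : ckS [1,1,1,4,1,1] = true := by decide +kernel
def lp_31_3 : List (List ℕ) := [[3,2,3,1], [4,2,2,1], [7,1,2,1], [1,1,1,4,2], [1,1,4,1,2], [1,2,1,6,1], [1,2,2,3,1], [1,3,2,2,1], [1,6,1,2,1], [2,1,1,2,2], [2,1,4,1,1], [2,2,1,1,2], [2,4,1,1,1], [1,1,1,1,2,2], [1,1,1,4,1,1]]
theorem lr_31_3 : ∀ l ∈ lp_31_3, ckS l = true := by
  intro l hl
  simp only [lp_31_3, List.mem_cons, List.not_mem_nil, or_false] at hl
  rcases hl with rfl | rfl | rfl | rfl | rfl | rfl | rfl | rfl | rfl | rfl | rfl | rfl | rfl | rfl | rfl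
  · exact cq_31_39
  · exact cq_31_40
  · exact cq_31_41
  · exact cq_31_42
  · exact cq_31_43
  · exact cq_31_44
  · exact cq_31_45
  · exact cq_31_46
  · exact cq_31_47
  · exact cq_31_48
  · exact cq_31_49
  · exact cq_31_50
  · exact cq_31_51
  · exact cq_31_52
  · exact cq_31_53

end Pool.Agent.V5helper47.CN
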