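import Pool.Agent.V5helper47.CN.S3

/-! Search, part of the half words. -/

set_option maxRecDepth 1000000

namespace Pool.Agent.V5helper47.CN

open H419R2 Pool.Agent.N911

theorem cq_31_54 : ckS [1,1,2,1,1,2] = true := by decide +kernel
theorem cq_31_55 : ckS [1,1,4,1,1,1] = true := by decide +kernel
theorem cq_31_56 : ckS [2,1,1,2,1,1] = true := by decide +kernel
theorem cq_31_57 : ckS [2,2,1,1,1,1] = true := by decide +kernel
theorem cq_31_58 : ckS [1,1,1,1,2,1,1] = true := by decide +kernel
theorem cq_31_59 : ckS [1,1,2,1,1,1,1] = true := by decide +kernel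
def lp_31_4 : List (List ℕ) := [[1,1,2,1,1,2], [1,1,4,1,1,1], [2,1,1,2,1,1], [2,2,1,1,1,1], [1,1,1,1,2,1,1], [1,1,2,1,1,1,1]]
theorem lr_31_4 : ∀ l ∈ lp_31_4, ckS l = true := by
  intro l hl
  simp only [lp_31_4, List.mem_cons, List.not_mem_nil, or_false] at hl
  rcases hl with rfl | rfl | rfl | rfl | rfl | rfl
  · exact cq_31_54
  · exact cq_31_55
  · exact cq_31_56
  · exact cq_31_57
  · exact cq_31_58
  · exact cq_31_59

theorem cq_32_0 : ckS [32] = true := by decide +kernel
theorem cq_32_1 : ckS [1,31] = true := by decide +kernel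
theorem cq_32_2 : ckS [31,1] = true := by decide +kernel
theorem cq_32_3 : ckS [1,30,1] = true := by decide +kernel
theorem cq_32_4 : ckS [2,1,10] = true := by decide +kernel
theorem cq_32_5 : ckS [2,2,6] = true := by decide +kernel
theorem cq_32_6 : ckS [2,7,2] = true := by decide +kernel
theorem cq_32_7 : ckS [6,2,2] = true := by decide +kernel
theorem cq_32_8 : ckS [10,1,2] = true := by decide +kernel
def lp_32_0 : List (List ℕ) := [[32], [1,31], [31,1], [1,30,1], [2,1,10], [2,2,6], [2,7,2], [6,2,2], [10,1,2]]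
theorem lr_32_0 : ∀ l ∈ lp_32_0, ckS l = true := by
  intro l hl
  simp only [lp_32_0, List.mem_cons, List.not_mem_nil, or_false] at hl
  rcases hl with rfl | rfl | rfl | rfl | rfl | rfl | rfl | rfl | rfl
  · exact cq_32_0
  · exact cq_32_1
  · exact cq_32_2
  · exact cq_32_3
  · exact cq_32_4
  · exact cq_32_5
  · exact cq_32_6
  · exact cq_32_7
  · exact cq_32_8

end Pool.Agent.V5helper47.CN
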