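import Pool.Agent.V5helper47.CN.S3

/-! Search, part of the half words. -/

set_option maxRecDepth 1000000

namespace Pool.Agent.V5helper47.CN

open H419R2 Pool.Agent.N911

theorem cq_32_24 : ckS [1,2,1,1,4] = true := by decide +kernel
theorem cq_32_25 : ckS [1,3,1,1,3] = true := by decide +kernel
theorem cq_32_26 : ckS [1,5,2,1,1] = true := by decide +kernel
theorem cq_32_27 : ckS [1,9,1,1,1] = true := by decide +kernel
theorem cq_32_28 : ckS [3,1,1,3,1] = true := by decide +kernel
theorem cq_32_29 : ckS [4,1,1,2,1] = true := by decide +kernel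
theorem cq_32_30 : ckS [1,2,1,1,3,1] = true := by decide +kernel
theorem cq_32_31 : ckS [1,3,1,1,2,1] = true := by decide +kernel
def lp_32_2 : List (List ℕ) := [[1,2,1,1,4], [1,3,1,1,3], [1,5,2,1,1], [1,9,1,1,1], [3,1,1,3,1], [4,1,1,2,1], [1,2,1,1,3,1], [1,3,1,1,2,1]]
theorem lr_32_2 : ∀ l ∈ lp_32_2, ckS l = true := by
  intro l hl
  simp only [lp_32_2, List.mem_cons, List.not_mem_nil, or_false] at hl
  rcases hl with rfl | rfl | rfl | rfl | rfl | rfl | rfl | rfl
  · exact cq_32_24
  · exact cq_32_25
  · exact cq_32_26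
  · exact cq_32_27
  · exact cq_32_28
  · exact cq_32_29
  · exact cq_32_30
  · exact cq_32_31

theorem cq_33_0 : ckS [2,16] = true := by decide +kernel
theorem cq_33_1 : ckS [4,8] = true := by decide +kernel
theorem cq_33_2 : ckS [8,4] = true := by decide +kernel
theorem cq_33_3 : ckS [16,2] = true := by decide +kernel
theorem cq_33_4 : ckS [1,1,16] = true := by decide +kernel
theorem cq_33_5 : ckS [1,3,8] = true := by decide +kernel
theorem cq_33_6 : ckS [1,7,4] = true := by decide +kernel
def lp_33_0 : List (List ℕ) := [[2,16], [4,8], [8,4], [16,2], [1,1,16], [1,3,8], [1,7,4]]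
theorem lr_33_0 : ∀ l ∈ lp_33_0, ckS l = true := by
  intro l hl
  simp only [lp_33_0, List.mem_cons, List.not_mem_nil, or_false] at hl
  rcases hl with rfl | rfl | rfl | rfl | rfl | rfl | rfl
  · exact cq_33_0
  · exact cq_33_1
  · exact cq_33_2
  · exact cq_33_3
  · exact cq_33_4
  · exact cq_33_5
  · exact cq_33_6

end Pool.Agent.V5helper47.CN
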