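import Pool.Agent.V5helper47.CN.S3

/-! Search, part of the half words. -/

set_option maxRecDepth 1000000

namespace Pool.Agent.V5helper47.CN

open H419R2 Pool.Agent.N911

theorem cq_33_7 : ckS [1,15,2] = true := by decide +kernel
theorem cq_33_8 : ckS [2,15,1] = true := by decide +kernel
theorem cq_33_9 : ckS [3,3,3] = true := by decide +kernel
theorem cq_33_10 : ckS [4,7,1] = true := by decide +kernel
theorem cq_33_11 : ckS [8,3,1] = true := by decide +kernel
theorem cq_33_12 : ckS [16,1,1] = true := by decide +kernel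
theorem cq_33_13 : ckS [1,1,15,1] = true := by decide +kernel
theorem cq_33_14 : ckS [1,2,3,3] = true := by decide +kernel
theorem cq_33_15 : ckS [1,3,7,1] = true := by decide +kernel
theorem cq_33_16 : ckS [1,7,3,1] = true := by decide +kernel
theorem cq_33_17 : ckS [1,15,1,1] = true := by decide +kernel
theorem cq_33_18 : ckS [2,1,1,6] = true := by decide +kernel
theorem cq_33_19 : ckS [2,2,1,4] = true := by decide +kernel
theorem cq_33_20 : ckS [3,3,2,1] = true := by decide +kernel
theorem cq_33_21 : ckS [4,1,2,2] = true := by decide +kernel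
def lp_33_1 : List (List ℕ) := [[1,15,2], [2,15,1], [3,3,3], [4,7,1], [8,3,1], [16,1,1], [1,1,15,1], [1,2,3,3], [1,3,7,1], [1,7,3,1], [1,15,1,1], [2,1,1,6], [2,2,1,4], [3,3,2,1], [4,1,2,2]]
theorem lr_33_1 : ∀ l ∈ lp_33_1, ckS l = true := by
  intro l hl
  simp only [lp_33_1, List.mem_cons, List.not_mem_nil, or_false] at hl
  rcases hl with rfl | rfl | rfl | rfl | rfl | rfl | rfl | rfl | rfl | rfl | rfl | rfl | rfl | rfl | rfl
  · exact cq_33_7
  · exact cq_33_8
  · exact cq_33_9
  · exact cq_33_10
  · exact cq_33_11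
  · exact cq_33_12
  · exact cq_33_13
  · exact cq_33_14
  · exact cq_33_15
  · exact cq_33_16
  · exact cq_33_17
  · exact cq_33_18
  · exact cq_33_19
  · exact cq_33_20
  · exact cq_33_21

end Pool.Agent.V5helper47.CN
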