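import Pool.Agent.V5helper47.CN.S3

/-! Search, part of the half words. -/

set_option maxRecDepth 1000000

namespace Pool.Agent.V5helper47.CN

open H419R2 Pool.Agent.N911

theorem cq_33_22 : ckS [6,1,1,2] = true := by decide +kernel
theorem cq_33_23 : ckS [1,1,1,1,6] = true := by decide +kernel
theorem cq_33_24 : ckS [1,1,2,1,4] = true := by decide +kernel
theorem cq_33_25 : ckS [1,2,3,2,1] = true := by decide +kernel
theorem cq_33_26 : ckS [1,3,1,2,2] = true := by decide +kernel
theorem cq_33_27 : ckS [1,5,1,1,2] = true := by decide +kernel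
theorem cq_33_28 : ckS [2,1,1,5,1] = true := by decide +kernel
theorem cq_33_29 : ckS [2,2,1,3,1] = true := by decide +kernel
theorem cq_33_30 : ckS [4,1,2,1,1] = true := by decide +kernel
theorem cq_33_31 : ckS [6,1,1,1,1] = true := by decide +kernel
theorem cq_33_32 : ckS [1,1,1,1,5,1] = true := by decide +kernel
theorem cq_33_33 : ckS [1,1,2,1,3,1] = true := by decide +kernel
theorem cq_33_34 : ckS [1,3,1,2,1,1] = true := by decide +kernel
theorem cq_33_35 : ckS [1,5,1,1,1,1] = true := by decide +kernel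
def lp_33_2 : List (List ℕ) := [[6,1,1,2], [1,1,1,1,6], [1,1,2,1,4], [1,2,3,2,1], [1,3,1,2,2], [1,5,1,1,2], [2,1,1,5,1], [2,2,1,3,1], [4,1,2,1,1], [6,1,1,1,1], [1,1,1,1,5,1], [1,1,2,1,3,1], [1,3,1,2,1,1], [1,5,1,1,1,1]]
theorem lr_33_2 : ∀ l ∈ lp_33_2, ckS l = true := by
  intro l hl
  simp only [lp_33_2, List.mem_cons, List.not_mem_nil, or_false] at hl
  rcases hl with rfl | rfl | rfl | rfl | rfl | rfl | rfl | rfl | rfl | rfl | rfl | rfl | rfl | rfl
  · exact cq_33_22
  · exact cq_33_23
  · exact cq_33_24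
  · exact cq_33_25
  · exact cq_33_26
  · exact cq_33_27
  · exact cq_33_28
  · exact cq_33_29
  · exact cq_33_30
  · exact cq_33_31
  · exact cq_33_32
  · exact cq_33_33
  · exact cq_33_34
  · exact cq_33_35

end Pool.Agent.V5helper47.CN
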