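import Pool.Agent.V5helper47.CN.S3

/-! Search, part of the half words. -/

set_option maxRecDepth 1000000

namespace Pool.Agent.V5helper47.CN

open H419R2 Pool.Agent.N911

theorem cq_34_0 : ckS [34] = true := by decide +kernel
theorem cq_34_1 : ckS [1,33] = true := by decide +kernel
theorem cq_34_2 : ckS [3,11] = true := by decide +kernel
theorem cq_34_3 : ckS [11,3] = true := by decide +kernel
theorem cq_34_4 : ckS [33,1] = true := by decide +kernel
theorem cq_34_5 : ckS [1,2,11] = true := by decide +kernel
theorem cq_34_6 : ckS [1,10,3] = true := by decide +kernel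
theorem cq_34_7 : ckS [1,32,1] = true := by decide +kernel
theorem cq_34_8 : ckS [3,10,1] = true := by decide +kernel
theorem cq_34_9 : ckS [4,1,6] = true := by decide +kernel
theorem cq_34_10 : ckS [6,1,4] = true := by decide +kernel
theorem cq_34_11 : ckS [11,2,1] = true := by decide +kernel
theorem cq_34_12 : ckS [1,2,10,1] = true := by decide +kernel
theorem cq_34_13 : ckS [1,3,1,6] = true := by decide +kernel
theorem cq_34_14 : ckS [1,5,1,4] = true := by decide +kernel
def lp_34_0 : List (List ℕ) := [[34], [1,33], [3,11], [11,3], [33,1], [1,2,11], [1,10,3], [1,32,1], [3,10,1], [4,1,6], [6,1,4], [11,2,1], [1,2,10,1], [1,3,1,6], [1,5,1,4]]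
theorem lr_34_0 : ∀ l ∈ lp_34_0, ckS l = true := by
  intro l hl
  simp only [lp_34_0, List.mem_cons, List.not_mem_nil, or_false] at hl
  rcases hl with rfl | rfl | rfl | rfl | rfl | rfl | rfl | rfl | rfl | rfl | rfl | rfl | rfl | rfl | rfl
  · exact cq_34_0
  · exact cq_34_1
  · exact cq_34_2
  · exact cq_34_3
  · exact cq_34_4
  · exact cq_34_5
  · exact cq_34_6
  · exact cq_34_7
  · exact cq_34_8
  · exact cq_34_9
  · exact cq_34_10
  · exact cq_34_11
  · exact cq_34_12
  · exact cq_34_13
  · exact cq_34_14

end Pool.Agent.V5helper47.CN
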