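import Pool.Agent.V5helper47.CN.S3

/-! Search, part of the half words. -/

set_option maxRecDepth 1000000

namespace Pool.Agent.V5helper47.CN

open H419R2 Pool.Agent.N911

theorem cq_34_15 : ckS [1,10,2,1] = true := by decide +kernel
theorem cq_34_16 : ckS [2,3,1,3] = true := by decide +kernel
theorem cq_34_17 : ckS [3,1,3,2] = true := by decide +kernel
theorem cq_34_18 : ckS [4,1,5,1] = true := by decide +kernel
theorem cq_34_19 : ckS [6,1,3,1] = true := by decide +kernel
theorem cq_34_20 : ckS [1,1,3,1,3] = true := by decide +kernel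
theorem cq_34_21 : ckS [1,2,1,3,2] = true := by decide +kernel
theorem cq_34_22 : ckS [1,3,1,5,1] = true := by decide +kernel
theorem cq_34_23 : ckS [1,5,1,3,1] = true := by decide +kernel
theorem cq_34_24 : ckS [2,3,1,2,1] = true := by decide +kernel
theorem cq_34_25 : ckS [3,1,3,1,1] = true := by decide +kernel
theorem cq_34_26 : ckS [1,1,3,1,2,1] = true := by decide +kernel
theorem cq_34_27 : ckS [1,2,1,3,1,1] = true := by decide +kernel
theorem cq_34_28 : ckS [2,1,1,1,1,2] = true := by decide +kernel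
theorem cq_34_29 : ckS [1,1,1,1,1,1,2] = true := by decide +kernel
def lp_34_1 : List (List ℕ) := [[1,10,2,1], [2,3,1,3], [3,1,3,2], [4,1,5,1], [6,1,3,1], [1,1,3,1,3], [1,2,1,3,2], [1,3,1,5,1], [1,5,1,3,1], [2,3,1,2,1], [3,1,3,1,1], [1,1,3,1,2,1], [1,2,1,3,1,1], [2,1,1,1,1,2], [1,1,1,1,1,1,2]]
theorem lr_34_1 : ∀ l ∈ lp_34_1, ckS l = true := by
  intro l hl
  simp only [lp_34_1, List.mem_cons, List.not_mem_nil, or_false] at hl
  rcases hl with rfl | rfl | rfl | rfl | rfl | rfl | rfl | rfl | rfl | rfl | rfl | rfl | rfl | rfl | rfl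
  · exact cq_34_15
  · exact cq_34_16
  · exact cq_34_17
  · exact cq_34_18
  · exact cq_34_19
  · exact cq_34_20
  · exact cq_34_21
  · exact cq_34_22
  · exact cq_34_23
  · exact cq_34_24
  · exact cq_34_25
  · exact cq_34_26
  · exact cq_34_27
  · exact cq_34_28
  · exact cq_34_29

end Pool.Agent.V5helper47.CN
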