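import Pool.Agent.V5helper47.CN.S3

/-! Search, part of the half words. -/

set_option maxRecDepth 1000000

namespace Pool.Agent.V5helper47.CN

open H419R2 Pool.Agent.N911

theorem cq_34_30 : ckS [2,1,1,1,1,1,1] = true := by decide +kernel
theorem cq_34_31 : ckS [1,1,1,1,1,1,1,1] = true := by decide +kernel
def lp_34_2 : List (List ℕ) := [[2,1,1,1,1,1,1], [1,1,1,1,1,1,1,1]]
theorem lr_34_2 : ∀ l ∈ lp_34_2, ckS l = true := by
  intro l hl
  simp only [lp_34_2, List.mem_cons, List.not_mem_nil, or_false] at hl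
  rcases hl with rfl | rfl
  · exact cq_34_30
  · exact cq_34_31

end Pool.Agent.V5helper47.CN
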