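import Pool.Agent.V5helper47.CN.P01
import Pool.Agent.V5helper47.CN.P02
import Pool.Agent.V5helper47.CN.P03
import Pool.Agent.V5helper47.CN.P04
import Pool.Agent.V5helper47.CN.P05
import Pool.Agent.V5helper47.CN.P06
import Pool.Agent.V5helper47.CN.P07
import Pool.Agent.V5helper47.CN.P08
import Pool.Agent.V5helper47.CN.P09
import Pool.Agent.V5helper47.CN.P10
import Pool.Agent.V5helper47.CN.P11
import Pool.Agent.V5helper47.CN.P12
import Pool.Agent.V5helper47.CN.P13
import Pool.Agent.V5helper47.CN.P14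
import Pool.Agent.V5helper47.CN.P15
import Pool.Agent.V5helper47.CN.P16
import Pool.Agent.V5helper47.CN.P17
import Pool.Agent.V5helper47.CN.P18
import Pool.Agent.V5helper47.CN.P19
import Pool.Agent.V5helper47.CN.P20
import Pool.Agent.V5helper47.CN.P21
import Pool.Agent.V5helper47.CN.P22
import Pool.Agent.V5helper47.CN.P23
import Pool.Agent.V5helper47.CN.P24
import Pool.Agent.V5helper47.CN.P25
import Pool.Agent.V5helper47.CN.P26
import Pool.Agent.V5helper47.CN.P27
import Pool.Agent.V5helper47.CN.P28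
import Pool.Agent.V5helper47.CN.P29
import Pool.Agent.V5helper47.CN.P30
import Pool.Agent.V5helper47.CN.P31
import Pool.Agent.V5helper47.CN.P32
import Pool.Agent.V5helper47.CN.P33
import Pool.Agent.V5helper47.CN.P34
import Pool.Agent.V5helper47.CN.P35
import Pool.Agent.V5helper47.CN.P36
import Pool.Agent.V5helper47.CN.P37
import Pool.Agent.V5helper47.CN.P38
import Pool.Agent.V5helper47.CN.P39
import Pool.Agent.V5helper47.CN.P40
import Pool.Agent.V5helper47.CN.P41
import Pool.Agent.V5helper47.CN.P42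
import Pool.Agent.V5helper47.CN.P43
import Pool.Agent.V5helper47.CN.P44
import Pool.Agent.V5helper47.CN.P45
import Pool.Agent.V5helper47.CN.P46
import Pool.Agent.V5helper47.CN.P47
import Pool.Agent.V5helper47.CN.P48

/-! Search, part of the half words. -/

set_option maxRecDepth 1000000

namespace Pool.Agent.V5helper47.CN

open H419R2 Pool.Agent.N911

/-- words with first entry 4 -/
def lv_4 : List (List ℕ) := lp_4_0
theorem lq_4 : ∀ l ∈ lv_4, ckS l = true := by
  intro l hl
  unfold lv_4 at hl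
  exact lr_4_0 l hl
theorem wq_4 : wk 4 5 (fun w => or (exW w) (anyL lv_4 (fun l => eqW w (wl l)))) 90 WL.nil 1 0 1 = true := by
  decide +kernel

/-- words with first entry 5 -/
def lv_5 : List (List ℕ) := lp_5_0
theorem lq_5 : ∀ l ∈ lv_5, ckS l = true := by
  intro l hl
  unfold lv_5 at hl
  exact lr_5_0 l hl
theorem wq_5 : wk 5 6 (fun w => or (exW w) (anyL lv_5 (fun l => eqW w (wl l)))) 90 WL.nil 1 0 1 = true := by
  decide +kernel

/-- words with first entry 6 -/
def lv_6 : List (List ℕ) := lp_6_0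
theorem lq_6 : ∀ l ∈ lv_6, ckS l = true := by
  intro l hl
  unfold lv_6 at hl
  exact lr_6_0 l hl
theorem wq_6 : wk 6 7 (fun w => or (exW w) (anyL lv_6 (fun l => eqW w (wl l)))) 90 WL.nil 1 0 1 = true := by
  decide +kernel

/-- words with first entry 7 -/
def lv_7 : List (List ℕ) := lp_7_0
theorem lq_7 : ∀ l ∈ lv_7, ckS l = true := by
  intro l hl
  unfold lv_7 at hl
  exact lr_7_0 l hl
theorem wq_7 : wk 7 8 (fun w => or (exW w) (anyL lv_7 (fun l => eqW w (wl l)))) 90 WL.nil 1 0 1 = true := by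
  decide +kernel

/-- words with first entry 8 -/
def lv_8 : List (List ℕ) := lp_8_0
theorem lq_8 : ∀ l ∈ lv_8, ckS l = true := by
  intro l hl
  unfold lv_8 at hl
  exact lr_8_0 l hl
theorem wq_8 : wk 8 9 (fun w => or (exW w) (anyL lv_8 (fun l => eqW w (wl l)))) 90 WL.nil 1 0 1 = true := by
  decide +kernel

/-- words with first entry 9 -/
def lv_9 : List (List ℕ) := lp_9_0 ++ lp_9_1
theorem lq_9 : ∀ l ∈ lv_9, ckS l = true := by
  intro l hl
  unfold lv_9 at hl
  simp only [List.mem_append] at hl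
  rcases hl with hl | hl
  · exact lr_9_0 l hl
  · exact lr_9_1 l hl
theorem wq_9 : wk 9 10 (fun w => or (exW w) (anyL lv_9 (fun l => eqW w (wl l)))) 90 WL.nil 1 0 1 = true := by
  decide +kernel

/-- words with first entry 10 -/
def lv_10 : List (List ℕ) := lp_10_0
theorem lq_10 : ∀ l ∈ lv_10, ckS l = true := by
  intro l hl
  unfold lv_10 at hl
  exact lr_10_0 l hl
theorem wq_10 : wk 10 11 (fun w => or (exW w) (anyL lv_10 (fun l => eqW w (wl l)))) 90 WL.nil 1 0 1 = true := by
  decide +kernel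

/-- words with first entry 11 -/
def lv_11 : List (List ℕ) := lp_11_0 ++ lp_11_1
theorem lq_11 : ∀ l ∈ lv_11, ckS l = true := by
  intro l hl
  unfold lv_11 at hl
  simp only [List.mem_append] at hl
  rcases hl with hl | hl
  · exact lr_11_0 l hl
  · exact lr_11_1 l hl
theorem wq_11 : wk 11 12 (fun w => or (exW w) (anyL lv_11 (fun l => eqW w (wl l)))) 90 WL.nil 1 0 1 = true := by
  decide +kernel

/-- words with first entry 12 -/
def lv_12 : List (List ℕ) := lp_12_0
theorem lq_12 : ∀ l ∈ lv_12, ckS l = true := by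
  intro l hl
  unfold lv_12 at hl
  exact lr_12_0 l hl
theorem wq_12 : wk 12 13 (fun w => or (exW w) (anyL lv_12 (fun l => eqW w (wl l)))) 90 WL.nil 1 0 1 = true := by
  decide +kernel

/-- words with first entry 13 -/
def lv_13 : List (List ℕ) := lp_13_0 ++ lp_13_1 ++ lp_13_2
theorem lq_13 : ∀ l ∈ lv_13, ckS l = true := by
  intro l hl
  unfold lv_13 at hl
  simp only [List.mem_append] at hl
  rcases hl with (hl | hl) | hl
  · exact lr_13_0 l hl
  · exact lr_13_1 l hl
  · exact lr_13_2 l hl
theorem wq_13 : wk 13 14 (fun w => or (exW w) (anyL lv_13 (fun l => eqW w (wl l)))) 90 WL.nil 1 0 1 = true := by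
  decide +kernel

/-- words with first entry 14 -/
def lv_14 : List (List ℕ) := lp_14_0
theorem lq_14 : ∀ l ∈ lv_14, ckS l = true := by
  intro l hl
  unfold lv_14 at hl
  exact lr_14_0 l hl
theorem wq_14 : wk 14 15 (fun w => or (exW w) (anyL lv_14 (fun l => eqW w (wl l)))) 90 WL.nil 1 0 1 = true := by
  decide +kernel

/-- words with first entry 15 -/
def lv_15 : List (List ℕ) := lp_15_0 ++ lp_15_1
theorem lq_15 : ∀ l ∈ lv_15, ckS l = true := by
  intro l hl
  unfold lv_15 at hl
  simp only [List.mem_append] at hl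
  rcases hl with hl | hl
  · exact lr_15_0 l hl
  · exact lr_15_1 l hl
theorem wq_15 : wk 15 16 (fun w => or (exW w) (anyL lv_15 (fun l => eqW w (wl l)))) 90 WL.nil 1 0 1 = true := by
  decide +kernel

/-- words with first entry 16 -/
def lv_16 : List (List ℕ) := lp_16_0 ++ lp_16_1
theorem lq_16 : ∀ l ∈ lv_16, ckS l = true := by
  intro l hl
  unfold lv_16 at hl
  simp only [List.mem_append] at hl
  rcases hl with hl | hl
  · exact lr_16_0 l hl
  · exact lr_16_1 l hl
theorem wq_16 : wk 16 17 (fun w => or (exW w) (anyL lv_16 (fun l => eqW w (wl l)))) 90 WL.nil 1 0 1 = true := by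
  decide +kernel

/-- words with first entry 17 -/
def lv_17 : List (List ℕ) := lp_17_0 ++ lp_17_1 ++ lp_17_2
theorem lq_17 : ∀ l ∈ lv_17, ckS l = true := by
  intro l hl
  unfold lv_17 at hl
  simp only [List.mem_append] at hl
  rcases hl with (hl | hl) | hl
  · exact lr_17_0 l hl
  · exact lr_17_1 l hl
  · exact lr_17_2 l hl
theorem wq_17 : wk 17 18 (fun w => or (exW w) (anyL lv_17 (fun l => eqW w (wl l)))) 90 WL.nil 1 0 1 = true := by
  decide +kernel

/-- words with first entry 18 -/
def lv_18 : List (List ℕ) := lp_18_0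
theorem lq_18 : ∀ l ∈ lv_18, ckS l = true := by
  intro l hl
  unfold lv_18 at hl
  exact lr_18_0 l hl
theorem wq_18 : wk 18 19 (fun w => or (exW w) (anyL lv_18 (fun l => eqW w (wl l)))) 90 WL.nil 1 0 1 = true := by
  decide +kernel

/-- words with first entry 19 -/
def lv_19 : List (List ℕ) := lp_19_0 ++ lp_19_1 ++ lp_19_2
theorem lq_19 : ∀ l ∈ lv_19, ckS l = true := by
  intro l hl
  unfold lv_19 at hl
  simp only [List.mem_append] at hl
  rcases hl with (hl | hl) | hl
  · exact lr_19_0 l hl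
  · exact lr_19_1 l hl
  · exact lr_19_2 l hl
theorem wq_19 : wk 19 20 (fun w => or (exW w) (anyL lv_19 (fun l => eqW w (wl l)))) 90 WL.nil 1 0 1 = true := by
  decide +kernel

/-- words with first entry 20 -/
def lv_20 : List (List ℕ) := lp_20_0 ++ lp_20_1
theorem lq_20 : ∀ l ∈ lv_20, ckS l = true := by
  intro l hl
  unfold lv_20 at hl
  simp only [List.mem_append] at hl
  rcases hl with hl | hl
  · exact lr_20_0 l hl
  · exact lr_20_1 l hl
/-- two words treated apart -/
def lx_20 : List (List ℕ) := [[1,1,4,2],[2,4,1,1]]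
theorem wq_20 : wk 20 21 (fun w => or (exW w) (or (anyL lv_20 (fun l => eqW w (wl l)))
    (anyL lx_20 (fun l => eqW w (wl l))))) 90 WL.nil 1 0 1 = true := by
  decide +kernel

/-- words with first entry 21 -/
def lv_21 : List (List ℕ) := lp_21_0 ++ lp_21_1
theorem lq_21 : ∀ l ∈ lv_21, ckS l = true := by
  intro l hl
  unfold lv_21 at hl
  simp only [List.mem_append] at hl
  rcases hl with hl | hl
  · exact lr_21_0 l hl
  · exact lr_21_1 l hl
theorem wq_21 : wk 21 22 (fun w => or (exW w) (anyL lv_21 (fun l => eqW w (wl l)))) 90 WL.nil 1 0 1 = true := by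
  decide +kernel

/-- words with first entry 22 -/
def lv_22 : List (List ℕ) := lp_22_0 ++ lp_22_1
theorem lq_22 : ∀ l ∈ lv_22, ckS l = true := by
  intro l hl
  unfold lv_22 at hl
  simp only [List.mem_append] at hl
  rcases hl with hl | hl
  · exact lr_22_0 l hl
  · exact lr_22_1 l hl
theorem wq_22 : wk 22 23 (fun w => or (exW w) (anyL lv_22 (fun l => eqW w (wl l)))) 90 WL.nil 1 0 1 = true := by
  decide +kernel

/-- words with first entry 23 -/
def lv_23 : List (List ℕ) := lp_23_0 ++ lp_23_1 ++ lp_23_2 ++ lp_23_3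
theorem lq_23 : ∀ l ∈ lv_23, ckS l = true := by
  intro l hl
  unfold lv_23 at hl
  simp only [List.mem_append] at hl
  rcases hl with ((hl | hl) | hl) | hl
  · exact lr_23_0 l hl
  · exact lr_23_1 l hl
  · exact lr_23_2 l hl
  · exact lr_23_3 l hl
theorem wq_23 : wk 23 24 (fun w => or (exW w) (anyL lv_23 (fun l => eqW w (wl l)))) 90 WL.nil 1 0 1 = true := by
  decide +kernel

/-- words with first entry 24 -/
def lv_24 : List (List ℕ) := lp_24_0 ++ lp_24_1
theorem lq_24 : ∀ l ∈ lv_24, ckS l = true := by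
  intro l hl
  unfold lv_24 at hl
  simp only [List.mem_append] at hl
  rcases hl with hl | hl
  · exact lr_24_0 l hl
  · exact lr_24_1 l hl
theorem wq_24 : wk 24 25 (fun w => or (exW w) (anyL lv_24 (fun l => eqW w (wl l)))) 90 WL.nil 1 0 1 = true := by
  decide +kernel

/-- words with first entry 25 -/
def lv_25 : List (List ℕ) := lp_25_0 ++ lp_25_1 ++ lp_25_2
theorem lq_25 : ∀ l ∈ lv_25, ckS l = true := by
  intro l hl
  unfold lv_25 at hl
  simp only [List.mem_append] at hl
  rcases hl with (hl | hl) | hl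
  · exact lr_25_0 l hl
  · exact lr_25_1 l hl
  · exact lr_25_2 l hl
theorem wq_25 : wk 25 26 (fun w => or (exW w) (anyL lv_25 (fun l => eqW w (wl l)))) 90 WL.nil 1 0 1 = true := by
  decide +kernel

/-- words with first entry 26 -/
def lv_26 : List (List ℕ) := lp_26_0 ++ lp_26_1
theorem lq_26 : ∀ l ∈ lv_26, ckS l = true := by
  intro l hl
  unfold lv_26 at hl
  simp only [List.mem_append] at hl
  rcases hl with hl | hl
  · exact lr_26_0 l hl
  · exact lr_26_1 l hl
theorem wq_26 : wk 26 27 (fun w => or (exW w) (anyL lv_26 (fun l => eqW w (wl l)))) 90 WL.nil 1 0 1 = true := by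
  decide +kernel

/-- words with first entry 27 -/
def lv_27 : List (List ℕ) := lp_27_0 ++ lp_27_1 ++ lp_27_2
theorem lq_27 : ∀ l ∈ lv_27, ckS l = true := by
  intro l hl
  unfold lv_27 at hl
  simp only [List.mem_append] at hl
  rcases hl with (hl | hl) | hl
  · exact lr_27_0 l hl
  · exact lr_27_1 l hl
  · exact lr_27_2 l hl
theorem wq_27 : wk 27 28 (fun w => or (exW w) (anyL lv_27 (fun l => eqW w (wl l)))) 90 WL.nil 1 0 1 = true := by
  decide +kernel

/-- words with first entry 28 -/
def lv_28 : List (List ℕ) := lp_28_0 ++ lp_28_1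
theorem lq_28 : ∀ l ∈ lv_28, ckS l = true := by
  intro l hl
  unfold lv_28 at hl
  simp only [List.mem_append] at hl
  rcases hl with hl | hl
  · exact lr_28_0 l hl
  · exact lr_28_1 l hl
theorem wq_28 : wk 28 29 (fun w => or (exW w) (anyL lv_28 (fun l => eqW w (wl l)))) 90 WL.nil 1 0 1 = true := by
  decide +kernel

/-- words with first entry 29 -/
def lv_29 : List (List ℕ) := lp_29_0 ++ lp_29_1 ++ lp_29_2 ++ lp_29_3 ++ lp_29_4
theorem lq_29 : ∀ l ∈ lv_29, ckS l = true := by
  intro l hl
  unfold lv_29 at hl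
  simp only [List.mem_append] at hl
  rcases hl with (((hl | hl) | hl) | hl) | hl
  · exact lr_29_0 l hl
  · exact lr_29_1 l hl
  · exact lr_29_2 l hl
  · exact lr_29_3 l hl
  · exact lr_29_4 l hl
theorem wq_29 : wk 29 30 (fun w => or (exW w) (anyL lv_29 (fun l => eqW w (wl l)))) 90 WL.nil 1 0 1 = true := by
  decide +kernel

/-- words with first entry 30 -/
def lv_30 : List (List ℕ) := lp_30_0 ++ lp_30_1
theorem lq_30 : ∀ l ∈ lv_30, ckS l = true := by
  intro l hl
  unfold lv_30 at hl
  simp only [List.mem_append] at hl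
  rcases hl with hl | hl
  · exact lr_30_0 l hl
  · exact lr_30_1 l hl
theorem wq_30 : wk 30 31 (fun w => or (exW w) (anyL lv_30 (fun l => eqW w (wl l)))) 90 WL.nil 1 0 1 = true := by
  decide +kernel

/-- words with first entry 31 -/
def lv_31 : List (List ℕ) := lp_31_0 ++ lp_31_1 ++ lp_31_2 ++ lp_31_3 ++ lp_31_4
theorem lq_31 : ∀ l ∈ lv_31, ckS l = true := by
  intro l hl
  unfold lv_31 at hl
  simp only [List.mem_append] at hl
  rcases hl with (((hl | hl) | hl) | hl) | hl
  · exact lr_31_0 l hl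
  · exact lr_31_1 l hl
  · exact lr_31_2 l hl
  · exact lr_31_3 l hl
  · exact lr_31_4 l hl
theorem wq_31 : wk 31 32 (fun w => or (exW w) (anyL lv_31 (fun l => eqW w (wl l)))) 90 WL.nil 1 0 1 = true := by
  decide +kernel

/-- words with first entry 32 -/
def lv_32 : List (List ℕ) := lp_32_0 ++ lp_32_1 ++ lp_32_2
theorem lq_32 : ∀ l ∈ lv_32, ckS l = true := by
  intro l hl
  unfold lv_32 at hl
  simp only [List.mem_append] at hl
  rcases hl with (hl | hl) | hl
  · exact lr_32_0 l hl
  · exact lr_32_1 l hl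
  · exact lr_32_2 l hl
theorem wq_32 : wk 32 33 (fun w => or (exW w) (anyL lv_32 (fun l => eqW w (wl l)))) 90 WL.nil 1 0 1 = true := by
  decide +kernel

/-- words with first entry 33 -/
def lv_33 : List (List ℕ) := lp_33_0 ++ lp_33_1 ++ lp_33_2
theorem lq_33 : ∀ l ∈ lv_33, ckS l = true := by
  intro l hl
  unfold lv_33 at hl
  simp only [List.mem_append] at hl
  rcases hl with (hl | hl) | hl
  · exact lr_33_0 l hl
  · exact lr_33_1 l hl
  · exact lr_33_2 l hl
theorem wq_33 : wk 33 34 (fun w => or (exW w) (anyL lv_33 (fun l => eqW w (wl l)))) 90 WL.nil 1 0 1 = true := by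
  decide +kernel

/-- words with first entry 34 -/
def lv_34 : List (List ℕ) := lp_34_0 ++ lp_34_1 ++ lp_34_2
theorem lq_34 : ∀ l ∈ lv_34, ckS l = true := by
  intro l hl
  unfold lv_34 at hl
  simp only [List.mem_append] at hl
  rcases hl with (hl | hl) | hl
  · exact lr_34_0 l hl
  · exact lr_34_1 l hl
  · exact lr_34_2 l hl
theorem wq_34 : wk 34 35 (fun w => or (exW w) (anyL lv_34 (fun l => eqW w (wl l)))) 90 WL.nil 1 0 1 = true := by
  decide +kernel

end Pool.Agent.V5helper47.CN
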