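import Pool.Agent.V5helper47.CN.S3

/-! Search, special half words. -/

set_option maxRecDepth 1000000

namespace Pool.Agent.V5helper47.CN

open H419R2 Pool.Agent.N911

theorem x_nil : cj (smF WL.nil) (dv0 WL.nil) = true := by decide +kernel
theorem x_1 : cj (smF (wl [1])) (dv3b (wl [1])) = true := by decide +kernel
theorem x_3 : cj (smF (wl [3])) (dva13 (wl [3])) = true := by decide +kernel
theorem x_1_1_1 : cj (smF (wl [1,1,1])) (dva13 (wl [1,1,1])) = true := by decide +kernel
theorem x_1_2 : cj (smF (wl [1,2])) (dva (wl [1,2])) = true := by decide +kernel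
theorem x_2_1 : cj (smF (wl [2,1])) (dva (wl [2,1])) = true := by decide +kernel
theorem x_33 : cj (smF (wl [33])) (dva (wl [33])) = true := by decide +kernel
theorem x_1_32 : cj (smF (wl [1,32])) (dva (wl [1,32])) = true := by decide +kernel
theorem x_32_1 : cj (smF (wl [32,1])) (dva (wl [32,1])) = true := by decide +kernel
theorem x_1_31_1 : cj (smF (wl [1,31,1])) (dva (wl [1,31,1])) = true := by decide +kernel
theorem x_1_3 : cj (smF (wl [1,3])) (dv3a (wl [1,3])) = true := by decide +kernel
theorem x_3_1 : cj (smF (wl [3,1])) (dv3a (wl [3,1])) = true := by decide +kernel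
theorem x_12 : cj (smF (wl [12])) (dv13 (wl [12])) = true := by decide +kernel
theorem x_1_10_1 : cj (smF (wl [1,10,1])) (dv13 (wl [1,10,1])) = true := by decide +kernel
theorem x_1_1_1_4 : cj (smF (wl [1,1,1,4])) (dvb (wl [1,1,1,4])) = true := by decide +kernel
theorem x_1_3_1_2 : cj (smF (wl [1,3,1,2])) (dvb (wl [1,3,1,2])) = true := by decide +kernel
theorem x_4_1_1_1 : cj (smF (wl [4,1,1,1])) (dvb (wl [4,1,1,1])) = true := by decide +kernel
theorem x_2_1_3_1 : cj (smF (wl [2,1,3,1])) (dvb (wl [2,1,3,1])) = true := by decide +kernel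
theorem x_2_1_4 : cj (smF (wl [2,1,4])) (dvb (wl [2,1,4])) = true := by decide +kernel
theorem x_4_1_2 : cj (smF (wl [4,1,2])) (dvb (wl [4,1,2])) = true := by decide +kernel
theorem x_1_3_1_1_1 : cj (smF (wl [1,3,1,1,1])) (dvb (wl [1,3,1,1,1])) = true := by decide +kernel
theorem x_1_1_1_3_1 : cj (smF (wl [1,1,1,3,1])) (dvb (wl [1,1,1,3,1])) = true := by decide +kernel

end Pool.Agent.V5helper47.CN
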