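import Pool.Agent.V5helper47.CN.S4

/-! Search, two half words. -/

set_option maxRecDepth 1000000

namespace Pool.Agent.V5helper47.CN

open H419R2 Pool.Agent.N911

theorem x_1_1_4_2 : cj (smF (wl [1,1,4,2])) (dv19 (wl [1,1,4,2])) = true := by decide +kernel
theorem x_2_4_1_1 : cj (smF (wl [2,4,1,1])) (dv19 (wl [2,4,1,1])) = true := by decide +kernel

end Pool.Agent.V5helper47.CN
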