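import Pool.Agent.V5helper47.CN.T15
import Pool.Agent.V5helper47.CN.Q
import Pool.Agent.V5helper47.CN.R00
import Pool.Agent.V5helper47.CN.R17

/-! All half words. -/

set_option maxRecDepth 100000

namespace Pool.Agent.V5helper47.CN

open H419R2 Pool.Agent.N911 Finset

theorem ex_ok {w : WL} (h : exW w = true) (h2 : (mat w).1 ≠ 2) : Ok w := by
  unfold exW at h
  rw [anyL_iff] at h
  obtain ⟨l, hl, e⟩ := h
  rw [eqW_sound e] at h2 ⊢
  simp only [EX, List.mem_cons, List.not_mem_nil, or_false] at hl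
  rcases hl with rfl | rfl | rfl | rfl | rfl | rfl | rfl | rfl | rfl | rfl | rfl | rfl | rfl |
    rfl | rfl | rfl | rfl | rfl | rfl | rfl | rfl | rfl | rfl
  · exact ok_dv3b x_1
  · exact absurd rfl h2
  · exact absurd rfl h2
  · exact ok_dva13 x_3
  · exact ok_dva13 x_1_1_1
  · exact ok_dva x_1_2
  · exact ok_dva x_2_1
  · exact ok_dv3a x_1_3
  · exact ok_dv3a x_3_1
  · exact ok_dv13 x_12
  · exact ok_dv13 x_1_10_1
  · exact ok_dvb x_1_1_1_4
  · exact ok_dvb x_1_3_1_2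
  · exact ok_dvb x_4_1_1_1
  · exact ok_dvb x_2_1_3_1
  · exact ok_dvb x_2_1_4
  · exact ok_dvb x_4_1_2
  · exact ok_dvb x_1_3_1_1_1
  · exact ok_dvb x_1_1_1_3_1
  · exact ok_dva x_33
  · exact ok_dva x_1_32
  · exact ok_dva x_32_1
  · exact ok_dva x_1_31_1

theorem wq_1 : wk 1 2 exW 90 WL.nil 1 0 1 = true := by decide +kernel
theorem wq_3 : wk 3 4 exW 90 WL.nil 1 0 1 = true := by decide +kernel

theorem fin {w : WL} (h2 : (mat w).1 ≠ 2) (h : exW w = true ∨ Ok w) : Ok w :=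
  h.elim (fun h => ex_ok h h2) id

theorem all_ok (w : WL) (hp : w.Pos) (h34 : (mat w).1 ≤ 34) (h2 : (mat w).1 ≠ 2) : Ok w := by
  by_cases hn : w = .nil
  · subst hn
    exact ok_dv0 x_nil
  have h1 := mat_pos hp
  obtain ⟨v, hv⟩ : ∃ v, (mat w).1 = v := ⟨_, rfl⟩
  have h1' : 1 ≤ v := by omega
  have h34' : v ≤ 34 := by omega
  interval_cases v
  · exact ex_ok (wk_all wq_1 hp hn (by omega) (by omega)) h2
  · exact absurd hv h2
  · exact ex_ok (wk_all wq_3 hp hn (by omega) (by omega)) h2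
  · exact fin h2 (ok_of_list lq_4 wq_4 hp hn hv)
  · exact fin h2 (ok_of_list lq_5 wq_5 hp hn hv)
  · exact fin h2 (ok_of_list lq_6 wq_6 hp hn hv)
  · exact fin h2 (ok_of_list lq_7 wq_7 hp hn hv)
  · exact fin h2 (ok_of_list lq_8 wq_8 hp hn hv)
  · exact fin h2 (ok_of_list lq_9 wq_9 hp hn hv)
  · exact fin h2 (ok_of_list lq_10 wq_10 hp hn hv)
  · exact fin h2 (ok_of_list lq_11 wq_11 hp hn hv)
  · exact fin h2 (ok_of_list lq_12 wq_12 hp hn hv)
  · exact fin h2 (ok_of_list lq_13 wq_13 hp hn hv)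
  · exact fin h2 (ok_of_list lq_14 wq_14 hp hn hv)
  · exact fin h2 (ok_of_list lq_15 wq_15 hp hn hv)
  · exact fin h2 (ok_of_list lq_16 wq_16 hp hn hv)
  · exact fin h2 (ok_of_list lq_17 wq_17 hp hn hv)
  · exact fin h2 (ok_of_list lq_18 wq_18 hp hn hv)
  · exact fin h2 (ok_of_list lq_19 wq_19 hp hn hv)
  · have h3 := wk_all wq_20 hp hn (by omega) (by omega)
    rw [Bool.or_eq_true, Bool.or_eq_true] at h3
    rcases h3 with h3 | h3 | h3
    · exact ex_ok h3 h2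
    · rw [anyL_iff] at h3
      obtain ⟨l, hl, h4⟩ := h3
      rw [eqW_sound h4]
      exact ok_dv0 (lq_20 l hl)
    · rw [anyL_iff] at h3
      obtain ⟨l, hl, h4⟩ := h3
      rw [eqW_sound h4]
      simp only [lx_20, List.mem_cons, List.not_mem_nil, or_false] at hl
      rcases hl with rfl | rfl
      · exact ok_dv19 x_1_1_4_2
      · exact ok_dv19 x_2_4_1_1
  · exact fin h2 (ok_of_list lq_21 wq_21 hp hn hv)
  · exact fin h2 (ok_of_list lq_22 wq_22 hp hn hv)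
  · exact fin h2 (ok_of_list lq_23 wq_23 hp hn hv)
  · exact fin h2 (ok_of_list lq_24 wq_24 hp hn hv)
  · exact fin h2 (ok_of_list lq_25 wq_25 hp hn hv)
  · exact fin h2 (ok_of_list lq_26 wq_26 hp hn hv)
  · exact fin h2 (ok_of_list lq_27 wq_27 hp hn hv)
  · exact fin h2 (ok_of_list lq_28 wq_28 hp hn hv)
  · exact fin h2 (ok_of_list lq_29 wq_29 hp hn hv)
  · exact fin h2 (ok_of_list lq_30 wq_30 hp hn hv)
  · exact fin h2 (ok_of_list lq_31 wq_31 hp hn hv)
  · exact fin h2 (ok_of_list lq_32 wq_32 hp hn hv)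
  · exact fin h2 (ok_of_list lq_33 wq_33 hp hn hv)
  · exact fin h2 (ok_of_list lq_34 wq_34 hp hn hv)

end Pool.Agent.V5helper47.CN
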