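import Pool.Agent.V5helper47.CN.S3

/-! Search, part of the half words. -/

set_option maxRecDepth 1000000

namespace Pool.Agent.V5helper47.CN

open H419R2 Pool.Agent.N911

theorem cq_4_0 : ckS [4] = true := by decide +kernel
theorem cq_4_1 : ckS [1,2,1] = true := by decide +kernel
def lp_4_0 : List (List ℕ) := [[4], [1,2,1]]
theorem lr_4_0 : ∀ l ∈ lp_4_0, ckS l = true := by
  intro l hl
  simp only [lp_4_0, List.mem_cons, List.not_mem_nil, or_false] at hl
  rcases hl with rfl | rfl
  · exact cq_4_0
  · exact cq_4_1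

theorem cq_5_0 : ckS [5] = true := by decide +kernel
theorem cq_5_1 : ckS [1,4] = true := by decide +kernel
theorem cq_5_2 : ckS [2,2] = true := by decide +kernel
theorem cq_5_3 : ckS [4,1] = true := by decide +kernel
theorem cq_5_4 : ckS [1,1,2] = true := by decide +kernel
theorem cq_5_5 : ckS [1,3,1] = true := by decide +kernel
theorem cq_5_6 : ckS [2,1,1] = true := by decide +kernel
theorem cq_5_7 : ckS [1,1,1,1] = true := by decide +kernel
def lp_5_0 : List (List ℕ) := [[5], [1,4], [2,2], [4,1], [1,1,2], [1,3,1], [2,1,1], [1,1,1,1]]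
theorem lr_5_0 : ∀ l ∈ lp_5_0, ckS l = true := by
  intro l hl
  simp only [lp_5_0, List.mem_cons, List.not_mem_nil, or_false] at hl
  rcases hl with rfl | rfl | rfl | rfl | rfl | rfl | rfl | rfl
  · exact cq_5_0
  · exact cq_5_1
  · exact cq_5_2
  · exact cq_5_3
  · exact cq_5_4
  · exact cq_5_5
  · exact cq_5_6
  · exact cq_5_7

theorem cq_6_0 : ckS [6] = true := by decide +kernel
theorem cq_6_1 : ckS [1,5] = true := by decide +kernel
theorem cq_6_2 : ckS [5,1] = true := by decide +kernel
theorem cq_6_3 : ckS [1,4,1] = true := by decide +kernel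
def lp_6_0 : List (List ℕ) := [[6], [1,5], [5,1], [1,4,1]]
theorem lr_6_0 : ∀ l ∈ lp_6_0, ckS l = true := by
  intro l hl
  simp only [lp_6_0, List.mem_cons, List.not_mem_nil, or_false] at hl
  rcases hl with rfl | rfl | rfl | rfl
  · exact cq_6_0
  · exact cq_6_1
  · exact cq_6_2
  · exact cq_6_3

end Pool.Agent.V5helper47.CN
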