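import Pool.Agent.V5helper47.CN.S3

/-! Search, part of the half words. -/

set_option maxRecDepth 1000000

namespace Pool.Agent.V5helper47.CN

open H419R2 Pool.Agent.N911

theorem cq_19_0 : ckS [19] = true := by decide +kernel
theorem cq_19_1 : ckS [1,18] = true := by decide +kernel
theorem cq_19_2 : ckS [2,9] = true := by decide +kernel
theorem cq_19_3 : ckS [3,6] = true := by decide +kernel
theorem cq_19_4 : ckS [6,3] = true := by decide +kernel
theorem cq_19_5 : ckS [9,2] = true := by decide +kernel
theorem cq_19_6 : ckS [18,1] = true := by decide +kernel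
theorem cq_19_7 : ckS [1,1,9] = true := by decide +kernel
theorem cq_19_8 : ckS [1,2,6] = true := by decide +kernel
theorem cq_19_9 : ckS [1,5,3] = true := by decide +kernel
theorem cq_19_10 : ckS [1,8,2] = true := by decide +kernel
theorem cq_19_11 : ckS [1,17,1] = true := by decide +kernel
theorem cq_19_12 : ckS [2,8,1] = true := by decide +kernel
theorem cq_19_13 : ckS [3,1,4] = true := by decide +kernel
theorem cq_19_14 : ckS [3,5,1] = true := by decide +kernel
def lp_19_0 : List (List ℕ) := [[19], [1,18], [2,9], [3,6], [6,3], [9,2], [18,1], [1,1,9], [1,2,6], [1,5,3], [1,8,2], [1,17,1], [2,8,1], [3,1,4], [3,5,1]]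
theorem lr_19_0 : ∀ l ∈ lp_19_0, ckS l = true := by
  intro l hl
  simp only [lp_19_0, List.mem_cons, List.not_mem_nil, or_false] at hl
  rcases hl with rfl | rfl | rfl | rfl | rfl | rfl | rfl | rfl | rfl | rfl | rfl | rfl | rfl | rfl | rfl
  · exact cq_19_0
  · exact cq_19_1
  · exact cq_19_2
  · exact cq_19_3
  · exact cq_19_4
  · exact cq_19_5
  · exact cq_19_6
  · exact cq_19_7
  · exact cq_19_8
  · exact cq_19_9
  · exact cq_19_10
  · exact cq_19_11
  · exact cq_19_12
  · exact cq_19_13
  · exact cq_19_14

end Pool.Agent.V5helper47.CN
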