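import Pool.Agent.V5helper47.CN.S3

/-! Search, part of the half words. -/

set_option maxRecDepth 1000000

namespace Pool.Agent.V5helper47.CN

open H419R2 Pool.Agent.N911

theorem cq_26_15 : ckS [8,1,1,1] = true := by decide +kernel
theorem cq_26_16 : ckS [1,1,1,7,1] = true := by decide +kernel
theorem cq_26_17 : ckS [1,1,2,1,3] = true := by decide +kernel
theorem cq_26_18 : ckS [1,2,1,2,2] = true := by decide +kernel
theorem cq_26_19 : ckS [1,7,1,1,1] = true := by decide +kernel
theorem cq_26_20 : ckS [2,2,1,2,1] = true := by decide +kernel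
theorem cq_26_21 : ckS [3,1,2,1,1] = true := by decide +kernel
theorem cq_26_22 : ckS [1,1,2,1,2,1] = true := by decide +kernel
theorem cq_26_23 : ckS [1,2,1,2,1,1] = true := by decide +kernel
def lp_26_1 : List (List ℕ) := [[8,1,1,1], [1,1,1,7,1], [1,1,2,1,3], [1,2,1,2,2], [1,7,1,1,1], [2,2,1,2,1], [3,1,2,1,1], [1,1,2,1,2,1], [1,2,1,2,1,1]]
theorem lr_26_1 : ∀ l ∈ lp_26_1, ckS l = true := by
  intro l hl
  simp only [lp_26_1, List.mem_cons, List.not_mem_nil, or_false] at hl
  rcases hl with rfl | rfl | rfl | rfl | rfl | rfl | rfl | rfl | rfl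
  · exact cq_26_15
  · exact cq_26_16
  · exact cq_26_17
  · exact cq_26_18
  · exact cq_26_19
  · exact cq_26_20
  · exact cq_26_21
  · exact cq_26_22
  · exact cq_26_23

theorem cq_27_0 : ckS [27] = true := by decide +kernel
theorem cq_27_1 : ckS [1,26] = true := by decide +kernel
theorem cq_27_2 : ckS [2,13] = true := by decide +kernel
theorem cq_27_3 : ckS [13,2] = true := by decide +kernel
theorem cq_27_4 : ckS [26,1] = true := by decide +kernel
theorem cq_27_5 : ckS [1,1,13] = true := by decide +kernel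
def lp_27_0 : List (List ℕ) := [[27], [1,26], [2,13], [13,2], [26,1], [1,1,13]]
theorem lr_27_0 : ∀ l ∈ lp_27_0, ckS l = true := by
  intro l hl
  simp only [lp_27_0, List.mem_cons, List.not_mem_nil, or_false] at hl
  rcases hl with rfl | rfl | rfl | rfl | rfl | rfl
  · exact cq_27_0
  · exact cq_27_1
  · exact cq_27_2
  · exact cq_27_3
  · exact cq_27_4
  · exact cq_27_5

end Pool.Agent.V5helper47.CN
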