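import Pool.Agent.V5helper47.CN.S3

/-! Search, part of the half words. -/

set_option maxRecDepth 1000000

namespace Pool.Agent.V5helper47.CN

open H419R2 Pool.Agent.N911

theorem cq_32_9 : ckS [1,1,1,10] = true := by decide +kernel
theorem cq_32_10 : ckS [1,1,2,6] = true := by decide +kernel
theorem cq_32_11 : ckS [1,1,7,2] = true := by decide +kernel
theorem cq_32_12 : ckS [1,5,2,2] = true := by decide +kernel
theorem cq_32_13 : ckS [1,9,1,2] = true := by decide +kernel
theorem cq_32_14 : ckS [2,1,9,1] = true := by decide +kernel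
theorem cq_32_15 : ckS [2,2,5,1] = true := by decide +kernel
theorem cq_32_16 : ckS [2,7,1,1] = true := by decide +kernel
theorem cq_32_17 : ckS [3,1,1,4] = true := by decide +kernel
theorem cq_32_18 : ckS [4,1,1,3] = true := by decide +kernel
theorem cq_32_19 : ckS [6,2,1,1] = true := by decide +kernel
theorem cq_32_20 : ckS [10,1,1,1] = true := by decide +kernel
theorem cq_32_21 : ckS [1,1,1,9,1] = true := by decide +kernel
theorem cq_32_22 : ckS [1,1,2,5,1] = true := by decide +kernel
theorem cq_32_23 : ckS [1,1,7,1,1] = true := by decide +kernel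
def lp_32_1 : List (List ℕ) := [[1,1,1,10], [1,1,2,6], [1,1,7,2], [1,5,2,2], [1,9,1,2], [2,1,9,1], [2,2,5,1], [2,7,1,1], [3,1,1,4], [4,1,1,3], [6,2,1,1], [10,1,1,1], [1,1,1,9,1], [1,1,2,5,1], [1,1,7,1,1]]
theorem lr_32_1 : ∀ l ∈ lp_32_1, ckS l = true := by
  intro l hl
  simp only [lp_32_1, List.mem_cons, List.not_mem_nil, or_false] at hl
  rcases hl with rfl | rfl | rfl | rfl | rfl | rfl | rfl | rfl | rfl | rfl | rfl | rfl | rfl | rfl | rfl
  · exact cq_32_9
  · exact cq_32_10
  · exact cq_32_11
  · exact cq_32_12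
  · exact cq_32_13
  · exact cq_32_14
  · exact cq_32_15
  · exact cq_32_16
  · exact cq_32_17
  · exact cq_32_18
  · exact cq_32_19
  · exact cq_32_20
  · exact cq_32_21
  · exact cq_32_22
  · exact cq_32_23

end Pool.Agent.V5helper47.CN
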