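import Pool.Agent.N911.V1

/-! Search functions for words of even periods with a free centre letter.

A state modulo `l` is given by the residues of `t`, of the centre letter `b` and of the centre
norm `a`, and the trace of the normalized forms. -/

set_option maxRecDepth 100000

namespace Pool.Agent.V5helper47.CN

open H419R2 Pool.Agent.N911

/-- the half word `w` followed by the centre letter `b` -/
noncomputable def snK (w : WL) (b : ℕ) : (WL → Bool) → Bool :=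
  @WL.rec (fun _ => (WL → Bool) → Bool) (fun k => k (WL.cons b WL.nil))
    (fun a _ ih k => ih (fun r => k (WL.cons a r))) w

/-- the matrix of a half word -/
noncomputable def maK (w : WL) : (ℕ → ℕ → ℕ → ℕ → Bool) → Bool :=
  @WL.rec (fun _ => (ℕ → ℕ → ℕ → ℕ → Bool) → Bool) (fun k => k 1 0 0 1)
    (fun a _ ih k => ih (fun v x y z => force (Nat.add (Nat.mul a v) y) (fun v' =>
      force (Nat.add (Nat.mul a x) z) (fun x' => k v' x' v x)))) w

/-- lists of states -/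
inductive ST where
  | nil : ST
  | cons (t b a : ℕ) (T : TL) (l : ST) : ST

/-- all states -/
noncomputable def ST.all (S : ST) (f : ℕ → ℕ → ℕ → TL → Bool) : Bool :=
  @ST.rec (fun _ => Bool) true (fun t b a T _ ih => cj (f t b a T) ih) S

/-- last norm of a trace -/
noncomputable def lsq (T : TL) (d : ℕ) : ℕ :=
  @TL.rec (fun _ => ℕ → ℕ) (fun d => d) (fun q _ _ ih _ => ih q) T d

/-- one parameter -/
noncomputable def st1 (l I : ℕ) (sk : ℕ → ℕ → Bool) (v : WL) (b A B c d s : ℕ) (S : ST)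
    (k : ST → Bool) : Bool :=
  force (Nat.mod (Nat.add (Nat.mul s A) c) l) (fun t =>
  force (Nat.mod (Nat.add (Nat.mul s B) d) l) (fun P =>
    @Bool.rec (fun _ => Bool) (mkT l I v 1 t P (fun T => force (Nat.div (lsq T 0) 7) (fun a =>
      k (ST.cons t b a T S)))) (k S) (sk t P)))

/-- all parameters for one centre letter -/
noncomputable def st2 (l I : ℕ) (sk : ℕ → ℕ → Bool) (v : WL) (b A B c d n : ℕ) :
    ST → (ST → Bool) → Bool :=
  @Nat.rec (fun _ => ST → (ST → Bool) → Bool) (fun S k => k S)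
    (fun s ih S k => st1 l I sk v b A B c d s S (fun S => ih S k)) n

/-- entries of the matrix of the palindrome modulo `l` -/
noncomputable def abc (l V X Y Z b : ℕ) (k : ℕ → ℕ → ℕ → ℕ → Bool) : Bool :=
  force (Nat.mod (Nat.mul V (Nat.add (Nat.mul b V) (Nat.mul 2 X))) l) (fun A =>
  force (Nat.mod (Nat.add (Nat.mul V (Nat.add (Nat.mul b Y) Z)) (Nat.mul X Y)) l) (fun B =>
  force (Nat.mod (Nat.mul Y (Nat.add (Nat.mul b Y) (Nat.mul 2 Z))) l) (fun C =>
  force (Nat.sub l (Nat.mod (Nat.mul B C) l)) (fun c =>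
  force (Nat.sub l (Nat.mod (Nat.mul C C) l)) (fun d => k A B c d)))))

/-- all states -/
noncomputable def st3 (l I : ℕ) (sk : ℕ → ℕ → Bool) (V X Y Z : ℕ) (w : WL) (n : ℕ) :
    ST → (ST → Bool) → Bool :=
  @Nat.rec (fun _ => ST → (ST → Bool) → Bool) (fun S k => k S)
    (fun b ih S k => snK w b (fun v => abc l V X Y Z b (fun A B c d =>
      st2 l I sk v b A B c d l S (fun S => ih S k)))) n

/-- skip test for an odd prime -/
def skP (l Q t P : ℕ) : Bool := tb Q (Nat.mod (Nat.add (Nat.mul t t) (Nat.mul 4 P)) l)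

/-- skip test for four -/
def sk4 (t P : ℕ) : Bool := or (Nat.beq (Nat.mod t 2) 0) (Nat.beq (Nat.mod P 2) 0)

/-- states modulo an odd prime -/
noncomputable def stP (l I Q V X Y Z : ℕ) (w : WL) (k : ST → Bool) : Bool :=
  st3 l I (fun t P => skP l Q t P) V X Y Z w l ST.nil k

/-- states modulo four -/
noncomputable def stF (V X Y Z : ℕ) (w : WL) (k : ST → Bool) : Bool :=
  st3 4 I4 sk4 V X Y Z w 4 ST.nil k

/-- sum of a relation over two traces: constant and coefficient of the centre letter -/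
noncomputable def rs2 (gx ge : ℕ → ℕ → ℕ) (w : WL) :
    TL → TL → ℕ → ℕ → (ℕ → ℕ → Bool) → Bool :=
  @WL.rec (fun _ => TL → TL → ℕ → ℕ → (ℕ → ℕ → Bool) → Bool)
    (fun T T' u s k => T.hd (fun q i r => T'.hd (fun q' i' r' => force (ge i i') (fun e =>
      force (Nat.add s (Nat.mul (gx q q') (Nat.add (Nat.mul 2 (Nat.mod e 128))
        (Nat.mul u (Nat.div e 128))))) (fun s =>
      r.hd (fun q i _ => r'.hd (fun q' i' _ =>
        force (Nat.mul 2 (Nat.mul (gx q q') (Nat.div (ge i i') 128))) (fun c => k s c))))))))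
    (fun a _ ih T T' u s k => T.hd (fun q i r => T'.hd (fun q' i' r' =>
      force (ge i i') (fun e => force (Nat.add s (Nat.mul (gx q q')
        (Nat.add (Nat.mul 2 (Nat.mod e 128)) (Nat.mul u (Nat.div e 128)))))
        (fun s => ih r r' (Nat.mul 4 a) s k))))) w

/-- sum of a relation over three traces -/
noncomputable def rs3 (gx ge : ℕ → ℕ → ℕ → ℕ) (w : WL) :
    TL → TL → TL → ℕ → ℕ → (ℕ → ℕ → Bool) → Bool :=
  @WL.rec (fun _ => TL → TL → TL → ℕ → ℕ → (ℕ → ℕ → Bool) → Bool)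
    (fun T T' T2 u s k => T.hd (fun q i r => T'.hd (fun q' i' r' => T2.hd (fun q2 i2 r2 =>
      force (ge i i' i2) (fun e =>
      force (Nat.add s (Nat.mul (gx q q' q2) (Nat.add (Nat.mul 2 (Nat.mod e 128))
        (Nat.mul u (Nat.div e 128))))) (fun s =>
      r.hd (fun q i _ => r'.hd (fun q' i' _ => r2.hd (fun q2 i2 _ =>
        force (Nat.mul 2 (Nat.mul (gx q q' q2) (Nat.div (ge i i' i2) 128)))
          (fun c => k s c))))))))))
    (fun a _ ih T T' T2 u s k => T.hd (fun q i r => T'.hd (fun q' i' r' =>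
      T2.hd (fun q2 i2 r2 =>
      force (ge i i' i2) (fun e => force (Nat.add s (Nat.mul (gx q q' q2)
        (Nat.add (Nat.mul 2 (Nat.mod e 128)) (Nat.mul u (Nat.div e 128)))))
        (fun s => ih r r' r2 (Nat.mul 4 a) s k)))))) w

/-- coefficients of a relation: constant, coefficient of `t`, coefficient of the centre -/
noncomputable def co2 (gx ge : ℕ → ℕ → ℕ) (w : WL) (T T' : TL) (g : ℕ → ℕ → ℕ → Bool) : Bool :=
  rs2 gx ge w T T' 0 0 (fun K d => T.hd (fun _ i _ => T'.hd (fun _ i' _ =>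
    force (Nat.mul 2 (Nat.div (ge i i') 128)) (fun c => g K c d))))

/-- coefficients of a relation -/
noncomputable def co3 (gx ge : ℕ → ℕ → ℕ → ℕ) (w : WL) (T T' T2 : TL)
    (g : ℕ → ℕ → ℕ → Bool) : Bool :=
  rs3 gx ge w T T' T2 0 0 (fun K d => T.hd (fun _ i _ => T'.hd (fun _ i' _ =>
    T2.hd (fun _ i2 _ => force (Nat.mul 2 (Nat.div (ge i i' i2) 128)) (fun c => g K c d)))))

/-- linear test -/
def l3 (p K c d t b : ℕ) : Bool :=
  Nat.beq (Nat.mod (Nat.add K (Nat.add (Nat.mul c t) (Nat.mul d b))) p) 0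

/-- the relation holds for `t`, `b` -/
noncomputable def cx2 (p : ℕ) (gx ge : ℕ → ℕ → ℕ) (w : WL) (T T' : TL) (t b : ℕ) : Bool :=
  co2 gx ge w T T' (fun K c d => l3 p K c d t b)

/-- the relation holds, no `B2` part -/
noncomputable def cx3 (p : ℕ) (gx ge : ℕ → ℕ → ℕ → ℕ) (w : WL) (T T' T2 : TL) : Bool :=
  co3 gx ge w T T' T2 (fun K _ _ => Nat.beq (Nat.mod K p) 0)

/-- guarded test: skipped if the flag is set -/
def gd (fl c x : Bool) : Bool := @Bool.rec (fun _ => Bool) (imp c x) x fl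

/-- guarded coefficients -/
def gc (fl : Bool) (F : (ℕ → ℕ → ℕ → Bool) → Bool) (k : ℕ → ℕ → ℕ → Bool) : Bool :=
  @Bool.rec (fun _ => Bool) (F k) (k 0 0 0) fl

/-- guarded level -/
noncomputable def lv (fl : Bool) (af l : ℕ) (S : ST) (f : ℕ → ℕ → TL → Bool) : Bool :=
  @Bool.rec (fun _ => Bool) (S.all (fun t b a T =>
    imp (or (Nat.beq af 0) (Nat.beq (Nat.mod af l) a)) (f t b T))) (f 0 0 TL.nil) fl

/-- the lists of states -/
structure SS where
  s37 : ST
  s4 : ST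
  s7 : ST
  s19 : ST
  s3 : ST
  s5 : ST
  s13 : ST

/-- type of the last stage -/
abbrev Last := ℕ → ℕ → TL → TL → ℕ → ℕ → TL → ℕ → ℕ → TL → TL → TL → TL → Bool

/-- stage modulo 13 -/
noncomputable def r13 (d3 d5 d7 d13 d19 d37 : Bool) (af : ℕ) (w : WL) (S13 : ST)
    (t37 b37 : ℕ) (T37 T7 T19 T3 T5 : TL) (g : TL → Bool) : Bool :=
  gc (or d19 (or d5 d13)) (co2 x95 e95 w T19 T5) (fun K c d =>
  gc (or d7 (or d3 (or d5 d13))) (co3 x105 e105 w T7 T3 T5) (fun K1 c1 d1 =>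
  gc (or d37 (or d5 d13)) (co2 x185 e185 w T37 T5) (fun K2 c2 d2 =>
  gc (or d7 (or d19 d13)) (co2 x133_13 e133_13 w T7 T19) (fun K3 c3 d3 =>
  lv d13 af 13 S13 (fun t b T13 =>
    imp (l3 13 K c d t b) (imp (l3 13 K1 c1 d1 t b) (imp (l3 13 K2 c2 d2 t b)
    (imp (l3 13 K3 c3 d3 t b)
    (gd (or d7 (or d13 d37)) (cx2 37 x91 e91 w T7 T13 t37 b37) (g T13))))))))))

/-- stages modulo 3, 4, 5 -/
noncomputable def r3 (d3 d5 d7 d13 d19 d37 : Bool) (af : ℕ) (w : WL) (S4 S3 S5 S13 : ST)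
    (t37 b37 : ℕ) (T37 A7 A19 T7 : TL) (t19 b19 : ℕ) (T19 : TL)
    (g : TL → TL → TL → TL → Bool) : Bool :=
  lv d3 af 3 S3 (fun _ _ T3 =>
    gd (or d37 (or d3 d19)) (cx2 19 x111_0 e111_0 w T37 T3 t19 b19)
    (gd (or d37 (or d3 d19)) (cx2 19 x111_1 e111_1 w T37 T3 t19 b19)
    (lv false af 4 S4 (fun _ _ T4 =>
      gd (or d37 d7) (ck0e 7 (WL.cons 0 w) A7 T4)
      (gd (or d37 d19) (ck0e 19 (WL.cons 0 w) A19 T4)
      (gd (or d19 (or d3 d7)) (cx3 7 x228 e228 w T19 T3 T4)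
      (lv d5 af 5 S5 (fun _ _ T5 =>
        gd (or d7 (or d5 d13)) (cx3 13 x140 e140 w T7 T4 T5)
        (r13 d3 d5 d7 d13 d19 d37 af w S13 t37 b37 T37 T7 T19 T3 T5
          (fun T13 => g T4 T3 T5 T13))))))))))

/-- stages modulo 7 and 19 -/
noncomputable def r7 (d3 d5 d7 d13 d19 d37 : Bool) (af : ℕ) (w : WL) (S4 S7 S19 S3 S5 S13 : ST)
    (t37 b37 : ℕ) (T37 A7 A19 : TL) (g : Last) : Bool :=
  mapT (sl 7 X259_2) (sl 49 E259_2) T37 (fun A2 =>
  mapT (sl 7 X259_0) (sl 98 E259_0) T37 (fun A0 =>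
  mapT (sl 7 X259_1) (sl 98 E259_1) T37 (fun A1 =>
  lv d7 af 7 S7 (fun t7 b7 T7 => gd (or d37 (or d7 d19)) (ck0e 19 (WL.cons 0 w) A2 T7)
    (gc (or d37 (or d7 d19)) (co2 sl1 sl2 w A0 T7) (fun K c d =>
    (gc (or d37 (or d7 d19)) (co2 sl1 sl2 w A1 T7) (fun K1 c1 d1 =>
      lv d19 af 19 S19 (fun t19 b19 T19 => imp (l3 19 K c d t19 b19)
        (imp (l3 19 K1 c1 d1 t19 b19)
        (gd (or d7 (or d19 d37)) (cx2 37 x133_37 e133_37 w T7 T19 t37 b37)
          (r3 d3 d5 d7 d13 d19 d37 af w S4 S3 S5 S13 t37 b37 T37 A7 A19 T7 t19 b19 T19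
            (fun T4 T3 T5 T13 => g t37 b37 T37 T4 t7 b7 T7 t19 b19 T19 T3 T5 T13)))))))))))))

/-- all residues are impossible -/
noncomputable def rA (d3 d5 d7 d13 d19 d37 : Bool) (af : ℕ) (w : WL)
    (S37 S4 S7 S19 S3 S5 S13 : ST) (g : Last) : Bool :=
  lv d37 af 37 S37 (fun t37 b37 T37 =>
    mapT (sl 4 X148_7) (sl 16 E148_7) T37 (fun A7 =>
    mapT (sl 4 X148_19) (sl 16 E148_19) T37 (fun A19 =>
    @Bool.rec (fun _ => Bool)
      (r7 d3 d5 d7 d13 d19 d37 af w S4 S7 S19 S3 S5 S13 t37 b37 T37 A7 A19 g) true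
      (lv false af 4 S4 (fun _ _ T4 => gd (or d37 d7) (ck0e 7 (WL.cons 0 w) A7 T4)
        (gd (or d37 d19) (ck0e 19 (WL.cons 0 w) A19 T4) false))))))

/-- solutions of a linear relation modulo `p` -/
noncomputable def sol (p K c d : ℕ) (g : ℕ → ℕ → Bool) : Bool :=
  allN p (fun b => force (Nat.add K (Nat.mul d b)) (fun r => allN p (fun t =>
    imp (Nat.beq (Nat.mod (Nat.add r (Nat.mul c t)) p) 0) (g t b))))

/-- the residues `t`, `b` cannot come from a solution -/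
noncomputable def cls (p Q af V X Y Z t b : ℕ) : Bool :=
  imp (or (Nat.beq af 0) (Nat.beq (Nat.mod (Nat.mul af (Nat.add (Nat.mul b V) (Nat.mul 2 X))) p)
    (Nat.mod (Nat.add (Nat.mul t V) (Nat.mul 2 Y)) p)))
  (abc p V X Y Z b (fun A B c d => allN p (fun s =>
    imp (Nat.beq (Nat.mod (Nat.add (Nat.mul s A) c) p) t)
      (skP p Q t (Nat.mod (Nat.add (Nat.mul s B) d) p)))))

noncomputable def x247 (c : CD) (a b : ℕ) : ℕ := chD c 209 39 a b
noncomputable def e247 (c : CD) (a b : ℕ) : ℕ := evD c 13 209 19 39 a b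
noncomputable def x259_73 (c : CD) (a b : ℕ) : ℕ := chD c 148 112 a b
noncomputable def e259_73 (c : CD) (a b : ℕ) : ℕ := evD c 7 148 37 112 a b

/-- last stage, modulo 73 -/
noncomputable def r73 (cA cB cC cD : CD) (d7 d13 d19 d37 : Bool) (af : ℕ) (w : WL)
    (V X Y Z : ℕ) : Last := fun _ _ T37 _ _ _ T7 _ _ T19 _ _ T13 =>
  gc (or d13 d19) (co2 (x247 cB) (e247 cB) w T13 T19) (fun K1 c1 d1 =>
  gc (or d7 d19) (co2 (x133_73 cA) (e133_73 cA) w T7 T19) (fun K c d =>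
  gc (or d13 d19) (co2 (x247 cC) (e247 cC) w T13 T19) (fun K2 c2 d2 =>
  gc (or d7 d37) (co2 (x259_73 cD) (e259_73 cD) w T7 T37) (fun K3 c3 d3 =>
    sol 73 K1 c1 d1 (fun t b => imp (l3 73 K c d t b) (imp (l3 73 K2 c2 d2 t b)
      (imp (l3 73 K3 c3 d3 t b) (cls 73 Q73 af V X Y Z t b))))))))

/-- inverses modulo 11 -/
def I11 : ℕ := 11852541983222424240256
/-- squares modulo 11 -/
def Q11 : ℕ := 571
/-- inverses modulo 17 -/
def I17 : ℕ := 83404764428444548649718462564941952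
/-- squares modulo 17 -/
def Q17 : ℕ := 107287
/-- squares modulo 109 -/
def Q109 : ℕ := 473022961816146413042658758988475

noncomputable def x143 (c : CD) (a b : ℕ) : ℕ := chD c 78 66 a b
noncomputable def e143 (c : CD) (a b : ℕ) : ℕ := evD c 11 78 13 66 a b
noncomputable def x407 (c : CD) (a b : ℕ) : ℕ := chD c 111 297 a b
noncomputable def e407 (c : CD) (a b : ℕ) : ℕ := evD c 11 111 37 297 a b
noncomputable def x323 (c : CD) (a b : ℕ) : ℕ := chD c 171 153 a b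
noncomputable def e323 (c : CD) (a b : ℕ) : ℕ := evD c 17 171 19 153 a b
noncomputable def x95_109 (c : CD) (a b : ℕ) : ℕ := chD c 20 76 a b
noncomputable def e95_109 (c : CD) (a b : ℕ) : ℕ := evD c 19 20 5 76 a b
noncomputable def x148_109 (c : CD) (a b : ℕ) : ℕ := chD c 112 37 a b
noncomputable def e148_109 (c : CD) (a b : ℕ) : ℕ := evD c 37 112 4 37 a b

/-- last stage, modulo 109 -/
noncomputable def r109 (cE cF : CD) (af : ℕ) (w : WL)
    (V X Y Z : ℕ) : Last := fun _ _ T37 T4 _ _ _ _ _ T19 _ T5 _ =>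
  co2 (x95_109 cE) (e95_109 cE) w T19 T5 (fun K c d =>
  co2 (x148_109 cF) (e148_109 cF) w T37 T4 (fun K1 c1 d1 =>
    sol 109 K c d (fun t b => imp (l3 109 K1 c1 d1 t b) (cls 109 Q109 af V X Y Z t b))))

/-- last stage, states modulo 11 -/
noncomputable def r11 (cE cF : CD) (af : ℕ) (w : WL) (S11 : ST) : Last :=
  fun _ _ T37 _ t7 b7 _ t19 b19 _ _ _ T13 =>
  lv false af 11 S11 (fun _ _ T11 =>
    imp (cx2 7 (x143 cE) (e143 cE) w T11 T13 t7 b7)
    (imp (cx2 19 (x407 cF) (e407 cF) w T11 T37 t19 b19) false))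

/-- last stage, states modulo 17 -/
noncomputable def r17 (cE cF : CD) (af : ℕ) (w : WL) (S17 : ST) : Last :=
  fun t37 b37 _ _ t7 b7 _ _ _ T19 _ _ _ =>
  lv false af 17 S17 (fun _ _ T17 =>
    imp (cx2 7 (x323 cE) (e323 cE) w T17 T19 t7 b7)
    (imp (cx2 37 (x323 cF) (e323 cF) w T17 T19 t37 b37) false))

end Pool.Agent.V5helper47.CN
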