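import Pool.Agent.V5helper47.CN.S1
import Pool.Agent.V5helper47.CN.D1
import Pool.Agent.V5helper47.CN.D2
import Pool.Agent.V5helper47.CN.D3
import Pool.Agent.N911.D1
import Pool.Agent.N911.D3
import Pool.Agent.H419R2.F1
import Pool.Agent.H419R2.F2
import Pool.Agent.H419R2.F6
import Pool.Agent.N911.V8

/-! The searches for one half word, the traversal of the half words, small parameters. -/

set_option maxRecDepth 1000000

namespace Pool.Agent.V5helper47.CN

open H419R2 Pool.Agent.N911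

/-- states for all moduli -/
noncomputable def mkA (w : WL)
    (f : ℕ → ℕ → ℕ → ℕ → ST → ST → ST → ST → ST → ST → ST → Bool) : Bool :=
  maK w (fun V X Y Z => stP 37 I37 Q37 V X Y Z w (fun S37 => stF V X Y Z w (fun S4 =>
  stP 7 I7 Q7 V X Y Z w (fun S7 => stP 19 I19 Q19 V X Y Z w (fun S19 =>
  stP 3 I3 Q3 V X Y Z w (fun S3 => stP 5 I5 Q5 V X Y Z w (fun S5 =>
  stP 13 I13 Q13 V X Y Z w (fun S13 => f V X Y Z S37 S4 S7 S19 S3 S5 S13))))))))

/-- last stage modulo 73 -/
noncomputable def l73 (d7 d13 d19 d37 : Bool) (af : ℕ) (w : WL) (V X Y Z : ℕ) : Last :=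
  r73 c133_73 c247_73_0 c247_73_1 c259_73 d7 d13 d19 d37 af w V X Y Z

/-- last stage modulo 109 -/
noncomputable def l109 (af : ℕ) (w : WL) (V X Y Z : ℕ) : Last :=
  r109 c95_109 c148_109 af w V X Y Z

/-- no last stage -/
def l0 : Last := fun _ _ _ _ _ _ _ _ _ _ _ _ _ => false

/-- the cases where the centre is 5, 7, 19, 37 -/
noncomputable def d4c (w : WL) (V X Y Z : ℕ) (S37 S4 S7 S19 S3 S5 S13 : ST) : Bool :=
  cj (rA false true false false false false 5 w S37 S4 S7 S19 S3 S5 S13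
    (l73 false false false false 5 w V X Y Z))
  (cj (rA false false true false false false 7 w S37 S4 S7 S19 S3 S5 S13
    (l73 true false false false 7 w V X Y Z))
  (cj (rA false false false false true false 19 w S37 S4 S7 S19 S3 S5 S13
    (l73 false false true false 19 w V X Y Z))
  (rA false false false false false true 37 w S37 S4 S7 S19 S3 S5 S13
    (l73 false false false true 37 w V X Y Z))))

/-- centre 3 -/
noncomputable def d3c (L : Last) (w : WL) (S37 S4 S7 S19 S3 S5 S13 : ST) : Bool :=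
  rA true false false false false false 3 w S37 S4 S7 S19 S3 S5 S13 L

/-- centre 13 -/
noncomputable def d13c (L : Last) (w : WL) (S37 S4 S7 S19 S3 S5 S13 : ST) : Bool :=
  rA false false false true false false 13 w S37 S4 S7 S19 S3 S5 S13 L

/-- no prime of the list is the centre, possibly another one is -/
noncomputable def dgc (af : ℕ) (L : Last) (w : WL) (S37 S4 S7 S19 S3 S5 S13 : ST) : Bool :=
  rA false false false false false false af w S37 S4 S7 S19 S3 S5 S13 L

/-- standard search -/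
noncomputable def dv0 (w : WL) : Bool := mkA w (fun V X Y Z S37 S4 S7 S19 S3 S5 S13 =>
  cj (dgc 0 (l73 false false false false 0 w V X Y Z) w S37 S4 S7 S19 S3 S5 S13)
  (cj (dgc 73 l0 w S37 S4 S7 S19 S3 S5 S13)
  (cj (d3c (l73 false false false false 3 w V X Y Z) w S37 S4 S7 S19 S3 S5 S13)
  (cj (d13c (l73 false true false false 13 w V X Y Z) w S37 S4 S7 S19 S3 S5 S13)
  (d4c w V X Y Z S37 S4 S7 S19 S3 S5 S13)))))

/-- centre 3 modulo 109 -/
noncomputable def dv3b (w : WL) : Bool := mkA w (fun V X Y Z S37 S4 S7 S19 S3 S5 S13 =>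
  cj (dgc 0 (l73 false false false false 0 w V X Y Z) w S37 S4 S7 S19 S3 S5 S13)
  (cj (dgc 73 l0 w S37 S4 S7 S19 S3 S5 S13)
  (cj (d3c (l109 3 w V X Y Z) w S37 S4 S7 S19 S3 S5 S13)
  (cj (d13c (l73 false true false false 13 w V X Y Z) w S37 S4 S7 S19 S3 S5 S13)
  (d4c w V X Y Z S37 S4 S7 S19 S3 S5 S13)))))

/-- generic case modulo 109 -/
noncomputable def dvb (w : WL) : Bool := mkA w (fun V X Y Z S37 S4 S7 S19 S3 S5 S13 =>
  cj (dgc 0 (l109 0 w V X Y Z) w S37 S4 S7 S19 S3 S5 S13)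
  (cj (dgc 109 (l73 false false false false 109 w V X Y Z) w S37 S4 S7 S19 S3 S5 S13)
  (cj (d3c (l73 false false false false 3 w V X Y Z) w S37 S4 S7 S19 S3 S5 S13)
  (cj (d13c (l73 false true false false 13 w V X Y Z) w S37 S4 S7 S19 S3 S5 S13)
  (d4c w V X Y Z S37 S4 S7 S19 S3 S5 S13)))))

/-- centre 3 modulo 11 -/
noncomputable def dv3a (w : WL) : Bool := mkA w (fun V X Y Z S37 S4 S7 S19 S3 S5 S13 =>
  cj (dgc 0 (l73 false false false false 0 w V X Y Z) w S37 S4 S7 S19 S3 S5 S13)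
  (cj (dgc 73 l0 w S37 S4 S7 S19 S3 S5 S13)
  (cj (stP 11 I11 Q11 V X Y Z w (fun S11 =>
    d3c (r11 c143_7_0 c407_19_0 3 w S11) w S37 S4 S7 S19 S3 S5 S13))
  (cj (d13c (l73 false true false false 13 w V X Y Z) w S37 S4 S7 S19 S3 S5 S13)
  (d4c w V X Y Z S37 S4 S7 S19 S3 S5 S13)))))

/-- centre 13 modulo 17 -/
noncomputable def dv13 (w : WL) : Bool := mkA w (fun V X Y Z S37 S4 S7 S19 S3 S5 S13 =>
  cj (dgc 0 (l73 false false false false 0 w V X Y Z) w S37 S4 S7 S19 S3 S5 S13)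
  (cj (dgc 73 l0 w S37 S4 S7 S19 S3 S5 S13)
  (cj (d3c (l73 false false false false 3 w V X Y Z) w S37 S4 S7 S19 S3 S5 S13)
  (cj (stP 17 I17 Q17 V X Y Z w (fun S17 =>
    d13c (r17 c323_7_0 c323_37_0 13 w S17) w S37 S4 S7 S19 S3 S5 S13))
  (d4c w V X Y Z S37 S4 S7 S19 S3 S5 S13)))))

/-- generic case modulo 11 -/
noncomputable def dva (w : WL) : Bool := mkA w (fun V X Y Z S37 S4 S7 S19 S3 S5 S13 =>
  cj (stP 11 I11 Q11 V X Y Z w (fun S11 =>
    dgc 0 (r11 c143_7_0 c407_19_0 0 w S11) w S37 S4 S7 S19 S3 S5 S13))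
  (cj (dgc 11 (l73 false false false false 11 w V X Y Z) w S37 S4 S7 S19 S3 S5 S13)
  (cj (d3c (l73 false false false false 3 w V X Y Z) w S37 S4 S7 S19 S3 S5 S13)
  (cj (d13c (l73 false true false false 13 w V X Y Z) w S37 S4 S7 S19 S3 S5 S13)
  (d4c w V X Y Z S37 S4 S7 S19 S3 S5 S13)))))

/-- generic case modulo 11, centre 13 modulo 17 -/
noncomputable def dva13 (w : WL) : Bool := mkA w (fun V X Y Z S37 S4 S7 S19 S3 S5 S13 =>
  cj (stP 11 I11 Q11 V X Y Z w (fun S11 =>
    dgc 0 (r11 c143_7_0 c407_19_0 0 w S11) w S37 S4 S7 S19 S3 S5 S13))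
  (cj (dgc 11 (l73 false false false false 11 w V X Y Z) w S37 S4 S7 S19 S3 S5 S13)
  (cj (d3c (l73 false false false false 3 w V X Y Z) w S37 S4 S7 S19 S3 S5 S13)
  (cj (stP 17 I17 Q17 V X Y Z w (fun S17 =>
    d13c (r17 c323_7_0 c323_37_0 13 w S17) w S37 S4 S7 S19 S3 S5 S13))
  (d4c w V X Y Z S37 S4 S7 S19 S3 S5 S13)))))

/-- traversal of the half words -/
noncomputable def wk (lo hi : ℕ) (check : WL → Bool) (fuel : ℕ) : WL → ℕ → ℕ → ℕ → Bool :=
  @Nat.rec (fun _ => WL → ℕ → ℕ → ℕ → Bool) (fun _ _ _ _ => false)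
    (fun _ ih w v y a => force (Nat.add (Nat.mul a v) y) (fun v' =>
      @Bool.rec (fun _ => Bool) true
        (cj (@Bool.rec (fun _ => Bool) true (check (WL.cons a w)) (Nat.ble lo v'))
          (cj (ih (WL.cons a w) v' v 1) (force (Nat.succ a) (fun b => ih w v y b))))
        (Nat.ble (Nat.succ v') hi))) fuel

/-- the final list -/
def LF : List ℕ := [21,57,69,77,93,129,133,161,213,237,253,301,309,341,381,413,437,453,501,517,
  581,597,717,749,789,813,869,893,917,933,1077,1133,1253,1317,1349,1397,1437,1797,1893,2453,2573,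
  2757,2933,3053,3093,3317,3437,4413,5277,6677,6797]

/-- membership in the final list -/
def inF (D : ℕ) : Bool := anyL LF (fun x => Nat.beq x D)

/-- divisible by the square of a small prime -/
def sqD (D : ℕ) : Bool := or (Nat.beq (Nat.mod D 9) 0) (or (Nat.beq (Nat.mod D 25) 0)
  (or (Nat.beq (Nat.mod D 49) 0) (or (Nat.beq (Nat.mod D 121) 0) (Nat.beq (Nat.mod D 169) 0))))

/-- small primes -/
def PWF : List ℕ := [2,3,5,7,11,13,17,19,23,29,31,37,41,43,47,53,59,61]

/-- witness -/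
noncomputable def wtF (v : WL) (t P D : ℕ) : Bool := anyL PWF (fun l => witU1 v t P D l)

/-- check of one pair of parameters -/
noncomputable def ckF (v : WL) (V Y n t P : ℕ) : Bool :=
  force (Nat.add (Nat.mul t t) (Nat.mul 4 P)) (fun D =>
  force (Nat.div (Nat.add (Nat.mul t V) (Nat.mul 2 Y)) n) (fun a =>
    or (not (Nat.beq (Nat.mod D 4) 1)) (or (sqD D) (or (inF D) (or (Nat.beq a 1)
      (or (and (Nat.ble 2 V) (Nat.beq D (Nat.mul a (Nat.add a 4)))) (wtF v t P D)))))))

/-- all parameters below a bound -/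
noncomputable def ltF (ck : ℕ → ℕ → Bool) (A B T : ℕ) (fuel : ℕ) : ℕ → ℕ → Bool :=
  @Nat.rec (fun _ => ℕ → ℕ → Bool) (fun t _ => Nat.ble T t)
    (fun _ ih t P => @Bool.rec (fun _ => Bool) (cj (ck t P) (force (Nat.add t A) (fun t' =>
      force (Nat.add P B) (fun P' => ih t' P')))) true (Nat.ble T t)) fuel

/-- small parameters, one centre letter -/
noncomputable def bF (w : WL) (V X Y Z T b : ℕ) : Bool :=
  force (Nat.add (Nat.mul b V) (Nat.mul 2 X)) (fun n =>
  force (Nat.mul V n) (fun A =>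
  force (Nat.add (Nat.mul V (Nat.add (Nat.mul b Y) Z)) (Nat.mul X Y)) (fun B =>
  force (Nat.mul Y (Nat.add (Nat.mul b Y) (Nat.mul 2 Z))) (fun C =>
  force (Nat.mod (Nat.sub A (Nat.mod (Nat.mul B C) A)) A) (fun t =>
    @Bool.rec (fun _ => Bool)
      (force (Nat.div (Nat.add (Nat.mul t B) C) A) (fun P => snK w b (fun v =>
        ltF (ckF v V Y n) A B T T t P))) true (Nat.ble T t))))))

/-- small parameters, all centre letters -/
noncomputable def smF (w : WL) : Bool :=
  maK w (fun V X Y Z => force (Nat.mul 109 (Nat.add V 2)) (fun T =>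
    allN (Nat.div (Nat.add T 2) 3) (fun i => force (Nat.succ i) (fun b => bF w V X Y Z T b))))

end Pool.Agent.V5helper47.CN
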