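import Pool.Agent.V5helper47.CN.S2

/-! Checks of half words. -/

set_option maxRecDepth 1000000

namespace Pool.Agent.V5helper47.CN

open H419R2 Pool.Agent.N911

/-- equality of words -/
noncomputable def eqW (w : WL) : WL → Bool :=
  @WL.rec (fun _ => WL → Bool) (fun u => @WL.rec (fun _ => Bool) true (fun _ _ _ => false) u)
    (fun a _ ih u => @WL.rec (fun _ => Bool) false (fun b r _ => cj (Nat.beq a b) (ih r)) u) w

/-- a word from a list -/
def wl : List ℕ → WL
  | [] => .nil
  | a :: l => .cons a (wl l)

/-- words treated separately -/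
def EX : List (List ℕ) := [[1], [2], [1,1], [3], [1,1,1], [1,2], [2,1], [1,3], [3,1], [12], [1,10,1],
  [1,1,1,4], [1,3,1,2], [4,1,1,1], [2,1,3,1], [2,1,4], [4,1,2], [1,3,1,1,1], [1,1,1,3,1],
  [33], [1,32], [32,1], [1,31,1]]

/-- is the word treated separately -/
noncomputable def exW (w : WL) : Bool := anyL EX (fun l => eqW w (wl l))

/-- the check of a word -/
noncomputable def ckS (l : List ℕ) : Bool := cj (smF (wl l)) (dv0 (wl l))

end Pool.Agent.V5helper47.CN
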