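import Pool.Agent.V5helper47.CN.S3
import Pool.Agent.V5helper47.CN.D4

/-! One more search. -/

set_option maxRecDepth 1000000

namespace Pool.Agent.V5helper47.CN

open H419R2 Pool.Agent.N911

/-- last stage modulo 73, centre 19 -/
noncomputable def l73b (af : ℕ) (w : WL) (V X Y Z : ℕ) : Last :=
  fun _ _ T37 _ _ _ T7 _ _ _ _ _ _ =>
  co2 (x259_73 c259_73) (e259_73 c259_73) w T7 T37 (fun K c d =>
  co2 (x259_73 c259_73_2) (e259_73 c259_73_2) w T7 T37 (fun K1 c1 d1 =>
    sol 73 K c d (fun t b => imp (l3 73 K1 c1 d1 t b) (cls 73 Q73 af V X Y Z t b))))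

/-- the cases where the centre is 5, 7, 19, 37 -/
noncomputable def d4b (w : WL) (V X Y Z : ℕ) (S37 S4 S7 S19 S3 S5 S13 : ST) : Bool :=
  cj (rA false true false false false false 5 w S37 S4 S7 S19 S3 S5 S13
    (l73 false false false false 5 w V X Y Z))
  (cj (rA false false true false false false 7 w S37 S4 S7 S19 S3 S5 S13
    (l73 true false false false 7 w V X Y Z))
  (cj (rA false false false false true false 19 w S37 S4 S7 S19 S3 S5 S13
    (l73b 19 w V X Y Z))
  (rA false false false false false true 37 w S37 S4 S7 S19 S3 S5 S13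
    (l73 false false false true 37 w V X Y Z))))

/-- centre 19 with a different last stage -/
noncomputable def dv19 (w : WL) : Bool := mkA w (fun V X Y Z S37 S4 S7 S19 S3 S5 S13 =>
  cj (dgc 0 (l73 false false false false 0 w V X Y Z) w S37 S4 S7 S19 S3 S5 S13)
  (cj (dgc 73 l0 w S37 S4 S7 S19 S3 S5 S13)
  (cj (d3c (l73 false false false false 3 w V X Y Z) w S37 S4 S7 S19 S3 S5 S13)
  (cj (d13c (l73 false true false false 13 w V X Y Z) w S37 S4 S7 S19 S3 S5 S13)
  (d4b w V X Y Z S37 S4 S7 S19 S3 S5 S13)))))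

end Pool.Agent.V5helper47.CN
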