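import Pool.Agent.N911.V5
import Pool.Agent.V5helper47.CN.S1

/-! Local part of the soundness: words with a free centre letter, traces and states. -/

set_option maxRecDepth 100000

namespace Pool.Agent.V5helper47.CN

open H419R2 Pool.Agent.N911 Finset

/-- all prime powers used -/
def Mall : ℕ := 4 * 9 * 5 * 7 * 11 * 13 * 17 * 19 * 37 * 43 * 73 * 109

/-- chosen inverse -/
def iv (x : ℤ) : ℤ := x ^ (Nat.totient Mall - 1)

theorem iv_one {q : ℕ} (hq : q ∣ Mall) {x : ℤ} (h : IsCoprime x (q : ℤ)) :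
    ((x * iv x : ℤ) : ZMod q) = 1 := by
  have h0 : 0 < Nat.totient Mall := Nat.totient_pos.mpr (by decide +kernel)
  obtain ⟨m, hm⟩ := Nat.totient_dvd_of_dvd hq
  unfold iv
  generalize Nat.totient Mall = N at h0 hm
  have e : x * x ^ (N - 1) = x ^ N := by
    rw [← pow_succ']
    congr 1
    omega
  have hu : IsUnit ((x : ℤ) : ZMod q) := by
    obtain ⟨a, b, hab⟩ := h
    apply IsUnit.of_mul_eq_one (a : ZMod q)
    have := congrArg (fun z : ℤ => (z : ZMod q)) hab
    push_cast at this
    rw [CharP.cast_eq_zero, mul_zero, add_zero] at this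
    rw [mul_comm]
    exact this
  obtain ⟨u, hu⟩ := hu
  rw [e, hm, Int.cast_pow, ← hu, pow_mul, ← Units.val_pow_eq_pow_val, ← Units.val_pow_eq_pow_val,
    ZMod.pow_totient, one_pow, Units.val_one]

theorem iv_of_one : iv 1 = 1 := one_pow _

/-- normalized middle coefficient -/
def nB (f : Fm) : ℤ := f.B * iv f.A
/-- normalized last coefficient -/
def nC (f : Fm) : ℤ := f.C * iv f.A
/-- index of a form -/
def ix (l : ℕ) (f : Fm) : ℕ := pk l (nB f) (nC f)

/-- the trace at the actual forms -/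
def tr (l : ℕ) : WL → Fm → TL
  | .nil, f => .cons (7 * res f.A l) (ix l f) .nil
  | .cons a v, f => .cons (7 * res f.A l) (ix l f) (tr l v (f.step a))

theorem nB_f0 (t P : ℤ) : nB (f0 t P) = t := by
  change t * iv 1 = t
  rw [iv_of_one, mul_one]

theorem nC_f0 (t P : ℤ) : nC (f0 t P) = P := by
  change P * iv 1 = P
  rw [iv_of_one, mul_one]

/-- a good modulus -/
structure Gd (l D : ℕ) : Prop where
  dvd : l ∣ Mall
  l1 : 1 < l
  cD : Nat.Coprime l D
  cop : ∀ f : Fm, f.disc = D → IsCoprime f.A (l : ℤ)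
  val : ∀ f : Fm, f.disc = D → V l (nB f) (nC f)

theorem gd_prime {l D : ℕ} (hl : l.Prime) (hd : l ∣ Mall) (h2 : l ≠ 2)
    (hns : ¬ IsSquare ((D : ℤ) : ZMod l)) : Gd l D := by
  have hcop : ∀ f : Fm, f.disc = D → IsCoprime f.A (l : ℤ) := by
    intro f hf
    have h3 := (Nat.prime_iff_prime_int.mp hl)
    apply ((Prime.coprime_iff_not_dvd h3).mpr ?_).symm
    intro hdv
    apply hns
    have h0 : ((f.A : ℤ) : ZMod l) = 0 := (ZMod.intCast_zmod_eq_zero_iff_dvd _ _).mpr hdv
    rw [← hf]
    unfold Fm.disc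
    push_cast
    rw [h0]
    exact ⟨f.B, by ring⟩
  have h4 : l ≠ 4 := by rintro rfl; exact absurd hl (by norm_num)
  refine ⟨hd, hl.one_lt, ?_, hcop, ?_⟩
  · rw [Nat.Prime.coprime_iff_not_dvd hl]
    intro h
    apply hns
    have : ((D : ℤ) : ZMod l) = 0 := (ZMod.intCast_zmod_eq_zero_iff_dvd _ _).mpr
      (Int.natCast_dvd_natCast.mpr h)
    rw [this]
    exact ⟨0, by simp⟩
  · intro f hf
    unfold V
    rw [if_neg h4]
    intro hs
    apply hns
    have e := iv_one hd (hcop f hf)
    push_cast at e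
    apply sq_ofU (y := (iv f.A : ZMod l)) (y' := (f.A : ZMod l)) e
    rw [← hf]
    convert hs using 1
    unfold Fm.disc nB nC
    push_cast
    linear_combination 4 * (f.C : ZMod l) * (iv f.A : ZMod l) * e

theorem odd_B {D : ℕ} (hD : D % 8 = 5) {f : Fm} (hf : f.disc = D) : f.B % 2 = 1 := by
  rcases Int.emod_two_eq_zero_or_one f.B with h | h
  · exfalso
    obtain ⟨k, hk⟩ : ∃ k, f.B = 2 * k := ⟨f.B / 2, by omega⟩
    unfold Fm.disc at hf
    rw [hk] at hf
    have : (D : ℤ) = 4 * (k ^ 2 + f.A * f.C) := by rw [← hf]; ring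
    omega
  · exact h

theorem odd_A {D : ℕ} (hD : D % 8 = 5) {f : Fm} (hf : f.disc = D) : f.A % 2 = 1 := by
  have hB := odd_B hD hf
  rcases Int.emod_two_eq_zero_or_one f.A with h | h
  · exfalso
    obtain ⟨k, hk⟩ : ∃ k, f.B = 2 * k + 1 := ⟨f.B / 2, by omega⟩
    obtain ⟨a, ha⟩ : ∃ a, f.A = 2 * a := ⟨f.A / 2, by omega⟩
    unfold Fm.disc at hf
    rw [hk, ha] at hf
    rcases Int.emod_two_eq_zero_or_one k with h' | h'
    · obtain ⟨j, hj⟩ : ∃ j, k = 2 * j := ⟨k / 2, by omega⟩
      rw [hj] at hf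
      have : (D : ℤ) = 8 * (2 * j ^ 2 + j + a * f.C) + 1 := by rw [← hf]; ring
      omega
    · obtain ⟨j, hj⟩ : ∃ j, k = 2 * j + 1 := ⟨k / 2, by omega⟩
      rw [hj] at hf
      have : (D : ℤ) = 8 * (2 * j ^ 2 + 3 * j + 1 + a * f.C) + 1 := by rw [← hf]; ring
      omega
  · exact h

theorem gd_four {D : ℕ} (hD : D % 8 = 5) : Gd 4 D := by
  have hc : ∀ f : Fm, f.disc = D → IsCoprime f.A ((4 : ℕ) : ℤ) := by
    intro f hf
    have h1 := odd_A hD hf
    have h2 : IsCoprime f.A 2 := ⟨1, -(f.A / 2), by omega⟩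
    have : ((4 : ℕ) : ℤ) = 2 * 2 := by norm_num
    rw [this]
    exact h2.mul_right h2
  refine ⟨by decide +kernel, by norm_num, ?_, hc, ?_⟩
  · have h1 : Nat.Coprime 2 D := by
      rw [Nat.Prime.coprime_iff_not_dvd Nat.prime_two]; omega
    have : (4 : ℕ) = 2 * 2 := by norm_num
    rw [this]
    exact Nat.Coprime.mul_left h1 h1
  · intro f hf
    unfold V
    rw [if_pos rfl]
    have hC : f.C % 2 = 1 := odd_A hD (f := f.step 0) (by rw [Fm.disc_step]; exact hf)
    have hB := odd_B hD hf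
    have hA := odd_A hD hf
    have hi : iv f.A % 2 = 1 := by
      unfold iv
      have := Int.ModEq.pow (n := 2) (Nat.totient Mall - 1) (show f.A ≡ 1 [ZMOD 2] from hA)
      rw [one_pow] at this
      exact this
    exact ⟨odd_mulU hB hi, odd_mulU hC hi⟩

theorem Gd.ivA {l D : ℕ} (H : Gd l D) {f : Fm} (hf : f.disc = D) :
    ((f.A * iv f.A : ℤ) : ZMod l) = 1 := iv_one H.dvd (H.cop f hf)

theorem mkT_eq {D l I : ℕ} (H : Gd l D) (hI : chkI l I = true)
    (v : WL) {f : Fm} (hf : f.disc = D) (g : TL → Bool) :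
    mkT l I v (res f.A l) (res (nB f) l) (res (nC f) l) g = g (tr l v f) := by
  have l1 := H.l1
  have hl0 : 0 < l := by omega
  induction v generalizing f g with
  | nil =>
    have e : mkT l I .nil (res f.A l) (res (nB f) l) (res (nC f) l) g =
      force (Nat.mul 7 (res f.A l)) (fun q => force (Nat.mul 7 (Nat.add (Nat.mul (res (nB f) l) l)
        (res (nC f) l))) (fun k => g (TL.cons q k TL.nil))) := rfl
    rw [e, force_eq, force_eq]
    rfl
  | cons a v ih =>
    have e : mkT l I (.cons a v) (res f.A l) (res (nB f) l) (res (nC f) l) g =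
      force (Nat.mul 7 (res f.A l)) (fun q =>
      force (Nat.mul 7 (Nat.add (Nat.mul (res (nB f) l) l) (res (nC f) l))) (fun k =>
      force (look I (res (nC f) l)) (fun i =>
      force (Nat.mod (Nat.mul (res f.A l) (res (nC f) l)) l) (fun c' =>
      force (Nat.mod (Nat.mul (Nat.add (Nat.mul (Nat.mul 2 a) (res (nC f) l))
        (Nat.sub l (res (nB f) l))) i) l) (fun B' =>
      force (Nat.mod (Nat.mul (Nat.add (Nat.add 1 (Nat.mul a (res (nB f) l))) (Nat.mul (Nat.mul a a)
        (Nat.sub l (res (nC f) l)))) i) l) (fun C' =>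
          mkT l I v c' B' C' (fun r => g (TL.cons q k r)))))))) := rfl
    rw [e]
    simp only [force_eq]
    have eA := H.ivA hf
    have hfs : (f.step a).disc = D := by rw [Fm.disc_step]; exact hf
    have eC : ((f.C * iv f.C : ℤ) : ZMod l) = 1 := H.ivA hfs
    have ci : ((look I (res (nC f) l) : ℕ) : ZMod l) = ((f.A * iv f.C : ℤ) : ZMod l) := by
      apply inv_of l1 hI
      unfold nC
      push_cast at eA eC ⊢
      linear_combination (f.C : ZMod l) * (iv f.C : ZMod l) * eA + eC
    have cA := res_cast' f.A hl0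
    have cB := res_cast' (nB f) hl0
    have cC := res_cast' (nC f) hl0
    have cl : ((l : ℕ) : ZMod l) = 0 := CharP.cast_eq_zero _ _
    have h1 : Nat.mod (Nat.mul (res f.A l) (res (nC f) l)) l = res (f.step a).A l := by
      apply mod_res hl0
      change ((res f.A l * res (nC f) l : ℕ) : ZMod l) = ((f.C : ℤ) : ZMod l)
      rw [Nat.cast_mul, cA, cC]
      unfold nC
      push_cast at eA ⊢
      linear_combination (f.C : ZMod l) * eA
    have h2 : Nat.mod (Nat.mul (Nat.add (Nat.mul (Nat.mul 2 a) (res (nC f) l))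
        (Nat.sub l (res (nB f) l))) (look I (res (nC f) l))) l = res (nB (f.step a)) l := by
      apply mod_res hl0
      change (((2 * a * res (nC f) l + (l - res (nB f) l)) * look I (res (nC f) l) : ℕ) : ZMod l) =
        (((2 * a * f.C - f.B) * iv f.C : ℤ) : ZMod l)
      rw [Nat.cast_mul, Nat.cast_add, Nat.cast_mul, Nat.cast_mul,
        Nat.cast_sub (res_lt (nB f) hl0).le, cB, cC, ci, cl]
      unfold nC nB
      push_cast at eA ⊢
      linear_combination (2 * (a : ZMod l) * f.C - f.B) * (iv f.C : ZMod l) * eA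
    have h3 : Nat.mod (Nat.mul (Nat.add (Nat.add 1 (Nat.mul a (res (nB f) l)))
        (Nat.mul (Nat.mul a a) (Nat.sub l (res (nC f) l)))) (look I (res (nC f) l))) l =
        res (nC (f.step a)) l := by
      apply mod_res hl0
      change (((1 + a * res (nB f) l + a * a * (l - res (nC f) l)) * look I (res (nC f) l) : ℕ) :
        ZMod l) = (((f.A + a * f.B - a ^ 2 * f.C) * iv f.C : ℤ) : ZMod l)
      rw [Nat.cast_mul, Nat.cast_add, Nat.cast_add, Nat.cast_mul, Nat.cast_mul, Nat.cast_mul,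
        Nat.cast_sub (res_lt (nC f) hl0).le, cB, cC, ci, cl]
      unfold nC nB
      push_cast at eA ⊢
      linear_combination ((a : ZMod l) * f.B - (a : ZMod l) ^ 2 * f.C) * (iv f.C : ZMod l) * eA
    rw [h1, h2, h3, ih hfs]
    rfl

theorem disc_f0 {t P : ℤ} {D : ℕ} (hD : (D : ℤ) = t ^ 2 + 4 * P) : (f0 t P).disc = D := by
  rw [hD]
  unfold Fm.disc f0; ring

theorem mkT_f0 {D l I : ℕ} (H : Gd l D) (hI : chkI l I = true) {t P : ℤ}
    (hD : (D : ℤ) = t ^ 2 + 4 * P) (v : WL) (g : TL → Bool) :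
    mkT l I v 1 (res t l) (res P l) g = g (tr l v (f0 t P)) := by
  rw [← mkT_eq H hI v (disc_f0 hD) g, nB_f0, nC_f0]
  congr 1
  symm
  have : res (f0 t P).A l = 1 := by
    symm
    apply res_unique H.l1
    change ((1 : ℕ) : ZMod l) = ((1 : ℤ) : ZMod l)
    push_cast; rfl
  exact this

/-- a half word followed by a centre letter -/
def snoc : WL → ℕ → WL
  | .nil, b => .cons b .nil
  | .cons a l, b => .cons a (snoc l b)

theorem snK_eq (w : WL) (b : ℕ) (k : WL → Bool) : snK w b k = k (snoc w b) := by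
  induction w generalizing k with
  | nil => rfl
  | cons a l ih =>
    have e : snK (.cons a l) b k = snK l b (fun r => k (WL.cons a r)) := rfl
    rw [e, ih]
    rfl

theorem snoc_ne (w : WL) (b : ℕ) : snoc w b ≠ .nil := by cases w <;> simp [snoc]

theorem snoc_len (w : WL) (b : ℕ) : (snoc w b).len = w.len + 1 := by
  induction w with
  | nil => rfl
  | cons a l ih =>
    change (snoc l b).len + 1 = l.len + 1 + 1
    rw [ih]

/-- the matrix of a half word -/
def mat : WL → ℕ × ℕ × ℕ × ℕ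
  | .nil => (1, 0, 0, 1)
  | .cons a l => (a * (mat l).1 + (mat l).2.2.1, a * (mat l).2.1 + (mat l).2.2.2, (mat l).1,
      (mat l).2.1)

theorem mat_nil : mat .nil = (1, 0, 0, 1) := rfl
theorem mat_cons (a : ℕ) (l : WL) : mat (.cons a l) = (a * (mat l).1 + (mat l).2.2.1,
    a * (mat l).2.1 + (mat l).2.2.2, (mat l).1, (mat l).2.1) := rfl

theorem maK_eq (w : WL) (k : ℕ → ℕ → ℕ → ℕ → Bool) :
    maK w k = k (mat w).1 (mat w).2.1 (mat w).2.2.1 (mat w).2.2.2 := by
  induction w generalizing k with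
  | nil => rfl
  | cons a l ih =>
    have e : maK (.cons a l) k = maK l (fun v x y z => force (Nat.add (Nat.mul a v) y) (fun v' =>
      force (Nat.add (Nat.mul a x) z) (fun x' => k v' x' v x))) := rfl
    rw [e, ih, force_eq, force_eq]
    rfl

/-- the matrix of the palindrome -/
theorem trE_snoc (w : WL) (b : ℕ) : trE (snoc w b) =
    ((mat w).1 * (b * (mat w).1 + 2 * (mat w).2.1),
      (mat w).1 * (b * (mat w).2.2.1 + (mat w).2.2.2) + (mat w).2.1 * (mat w).2.2.1,
      (mat w).2.2.1 * (b * (mat w).2.2.1 + 2 * (mat w).2.2.2)) := by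
  induction w with
  | nil =>
    change (b, 1, 0) = _
    rw [mat_nil]
    simp
  | cons a l ih =>
    change trE (.cons a (snoc l b)) = _
    rw [trE_cons a (snoc_ne l b), ih, mat_cons, Prod.mk.injEq, Prod.mk.injEq]
    refine ⟨?_, ?_, ?_⟩
    · simp only
      ring
    · simp only
      ring
    · rfl

/-- the last norm -/
def la (v : WL) (f : Fm) : ℤ := (fs v f v.len).A

theorem la_cons (a : ℕ) (v : WL) (f : Fm) : la (.cons a v) f = la v (f.step a) := by
  unfold la
  change (fs (.cons a v) f (v.len + 1)).A = _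
  rw [fs_cons]

theorem lsq_tr (l : ℕ) (v : WL) (f : Fm) (d : ℕ) : lsq (tr l v f) d = 7 * res (la v f) l := by
  induction v generalizing f d with
  | nil => rfl
  | cons a v ih =>
    have e : lsq (tr l (.cons a v) f) d = lsq (tr l v (f.step a)) (7 * res f.A l) := rfl
    rw [e, ih, la_cons]

theorem res_of {x y : ℤ} {l : ℕ} (hl : 0 < l) (h : ((x : ℤ) : ZMod l) = y) :
    res x l = res y l :=
  res_unique (res_lt x hl) (by rw [res_cast' x hl, h])

theorem step_congr {l b b' : ℕ} (hl : 0 < l) (h : (b : ZMod l) = b') (f : Fm) :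
    tr l (.cons b .nil) f = tr l (.cons b' .nil) f := by
  have e1 : res (nB (f.step b)) l = res (nB (f.step b')) l := by
    apply res_of hl
    change ((((2 * b * f.C - f.B) * iv f.C : ℤ)) : ZMod l) =
      (((2 * b' * f.C - f.B) * iv f.C : ℤ) : ZMod l)
    push_cast
    rw [h]
  have e2 : res (nC (f.step b)) l = res (nC (f.step b')) l := by
    apply res_of hl
    change ((((f.A + b * f.B - b ^ 2 * f.C) * iv f.C : ℤ)) : ZMod l) =
      (((f.A + b' * f.B - b' ^ 2 * f.C) * iv f.C : ℤ) : ZMod l)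
    push_cast
    rw [h]
  have e3 : ix l (f.step b) = ix l (f.step b') := by
    unfold ix pk
    rw [e1, e2]
  change TL.cons (7 * res f.A l) (ix l f) (.cons (7 * res (f.step b).A l) (ix l (f.step b)) .nil) =
    TL.cons (7 * res f.A l) (ix l f) (.cons (7 * res (f.step b').A l) (ix l (f.step b')) .nil)
  rw [e3]
  rfl

theorem tr_snoc_congr {l b b' : ℕ} (hl : 0 < l) (h : (b : ZMod l) = b') (w : WL) (f : Fm) :
    tr l (snoc w b) f = tr l (snoc w b') f := by
  induction w generalizing f with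
  | nil => exact step_congr hl h f
  | cons a w ih =>
    change TL.cons _ _ (tr l (snoc w b) (f.step a)) = TL.cons _ _ (tr l (snoc w b') (f.step a))
    rw [ih]

theorem la_snoc_congr (w : WL) (b b' : ℕ) (f : Fm) : la (snoc w b) f = la (snoc w b') f := by
  induction w generalizing f with
  | nil =>
    change la (.cons b .nil) f = la (.cons b' .nil) f
    rw [la_cons, la_cons]
    rfl
  | cons a w ih =>
    change la (.cons a (snoc w b)) f = la (.cons a (snoc w b')) f
    rw [la_cons, la_cons, ih]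

/-- membership -/
def ST.Mem (t b a : ℕ) (T : TL) : ST → Prop
  | .nil => False
  | .cons t' b' a' T' l => (t = t' ∧ b = b' ∧ a = a' ∧ T = T') ∨ ST.Mem t b a T l

theorem ST.all_mem {S : ST} {f : ℕ → ℕ → ℕ → TL → Bool} (h : S.all f = true) {t b a : ℕ} {T : TL}
    (hT : ST.Mem t b a T S) : f t b a T = true := by
  induction S with
  | nil => exact absurd hT (fun h => h)
  | cons t' b' a' T' l ih =>
    have e1 : (ST.cons t' b' a' T' l).all f = cj (f t' b' a' T') (l.all f) := rfl
    rw [e1, cj_true] at h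
    rcases hT with ⟨rfl, rfl, rfl, rfl⟩ | hT
    · exact h.1
    · exact ih h.2 hT

end Pool.Agent.V5helper47.CN
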