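import Pool.Agent.V5helper47.CN.T9

/-! Soundness of the check of small parameters. -/

set_option maxRecDepth 100000

namespace Pool.Agent.V5helper47.CN

open H419R2 Pool.Agent.N911 Finset

theorem ltF_sound {ck : ℕ → ℕ → Bool} {A B T : ℕ} {fuel : ℕ} : ∀ {t P : ℕ},
    ltF ck A B T fuel t P = true → ∀ j : ℕ, t + j * A < T → ck (t + j * A) (P + j * B) = true := by
  induction fuel with
  | zero =>
    intro t P h j hj
    have : T ≤ t := Nat.le_of_ble_eq_true h
    omega
  | succ n ih =>
    intro t P h j hj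
    have e : ltF ck A B T (n + 1) t P = @Bool.rec (fun _ => Bool) (cj (ck t P)
      (force (Nat.add t A) (fun t' => force (Nat.add P B) (fun P' => ltF ck A B T n t' P')))) true
        (Nat.ble T t) := rfl
    rw [e] at h
    have hb : Nat.ble T t = false := by
      rw [Bool.eq_false_iff]
      intro hc
      have := Nat.le_of_ble_eq_true hc
      omega
    rw [hb] at h
    change cj (ck t P)
      (force (Nat.add t A) (fun t' => force (Nat.add P B) (fun P' => ltF ck A B T n t' P'))) =
        true at h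
    rw [cj_true, force_eq, force_eq] at h
    cases j with
    | zero =>
      rw [zero_mul, zero_mul, add_zero, add_zero]
      exact h.1
    | succ j =>
      have e1 : t + (j + 1) * A = (t + A) + j * A := by ring
      have e2 : P + (j + 1) * B = (P + B) + j * B := by ring
      rw [e1, e2]
      rw [e1] at hj
      exact ih h.2 j hj

/-- the parameters of a word form a progression -/
theorem prog {A B C t P : ℕ} (hA : 0 < A) (hdet : A * C + 1 = B ^ 2) (hlin : P * A = t * B + C) :
    ∃ j, t = (A - B * C % A) % A + j * A ∧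
      P = ((A - B * C % A) % A * B + C) / A + j * B := by
  set t0 := (A - B * C % A) % A with ht0
  have hlt : t0 < A := Nat.mod_lt _ hA
  -- the residue
  have hAz : ((A : ℕ) : ℤ) ∣ (t0 : ℤ) + B * C := by
    have h1 : ((A - B * C % A : ℕ) : ℤ) = A - ((B * C % A : ℕ) : ℤ) := by
      rw [Nat.cast_sub (Nat.mod_lt _ hA).le]
    have h2 : (A : ℤ) ∣ ((A - B * C % A : ℕ) : ℤ) - t0 := by
      rw [ht0]
      push_cast [Int.natCast_mod]
      exact Int.dvd_self_sub_emod
    have h3 : (A : ℤ) ∣ (B * C : ℤ) - ((B * C % A : ℕ) : ℤ) := by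
      push_cast
      exact Int.dvd_self_sub_emod
    have h4 := dvd_sub h3 h2
    rw [h1] at h4
    have : (B * C : ℤ) - ((B * C % A : ℕ) : ℤ) - ((A : ℤ) - ((B * C % A : ℕ) : ℤ) - t0) =
      (t0 + B * C) - A := by ring
    rw [this] at h4
    exact (dvd_sub_self_right).mp h4
  have e1 : (P : ℤ) * A = t * B + C := by exact_mod_cast hlin
  have e3 : (A : ℤ) * C + 1 = B ^ 2 := by exact_mod_cast hdet
  have htA : (A : ℤ) ∣ (t : ℤ) + B * C := by
    refine ⟨(B : ℤ) * P - t * C, ?_⟩
    linear_combination (t : ℤ) * e3 - (B : ℤ) * e1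
  have hdvd : (A : ℤ) ∣ (t : ℤ) - t0 := by
    have := dvd_sub htA hAz
    have e : (t : ℤ) + B * C - (t0 + B * C) = t - t0 := by ring
    rwa [e] at this
  obtain ⟨j', hj'⟩ := hdvd
  have hj0 : 0 ≤ j' := by
    by_contra hc
    push Not at hc
    have h4 : (A : ℤ) * j' ≤ -A := by nlinarith
    have h5 : (t0 : ℤ) < A := by exact_mod_cast hlt
    have h6 : (0 : ℤ) ≤ t := by positivity
    linarith
  obtain ⟨j, rfl⟩ := Int.eq_ofNat_of_zero_le hj0
  have et : t = t0 + j * A := by
    have : (t : ℤ) = ((t0 + j * A : ℕ) : ℤ) := by push_cast; linarith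
    exact_mod_cast this
  refine ⟨j, et, ?_⟩
  have h5 : P * A = (t0 * B + C) + j * B * A := by
    rw [hlin, et]; ring
  have h6 : (t0 * B + C) = (P - j * B) * A := by
    have h7 : j * B * A ≤ P * A := by omega
    rw [Nat.sub_mul]
    omega
  have h8 : j * B ≤ P := by
    have : j * B * A ≤ P * A := by omega
    exact Nat.le_of_mul_le_mul_right this hA
  rw [h6, Nat.mul_div_cancel _ hA]
  omega

/-- the checks of one pair hold for all small parameters -/
theorem smF_sound {w : WL} {b t P : ℕ} (h : smF w = true) (hw : w.Pos) (hb : 0 < b)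
    (hb2 : b - 1 < (109 * ((mat w).1 + 2) + 2) / 3)
    (ht : t < 109 * ((mat w).1 + 2))
    (hlin : P * (trE (snoc w b)).1 = t * (trE (snoc w b)).2.1 + (trE (snoc w b)).2.2) :
    ckF (snoc w b) (mat w).1 (mat w).2.2.1 (b * (mat w).1 + 2 * (mat w).2.1) t P = true := by
  unfold smF at h
  rw [maK_eq, force_eq, allN_iff] at h
  have h := h (b - 1) hb2
  rw [force_eq] at h
  have eb : Nat.succ (b - 1) = b := by omega
  rw [eb] at h
  have hdet := trE_det (snoc_ne w b)
  have hv := mat_pos hw
  rw [trE_snoc] at hlin hdet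
  simp only at hlin hdet
  unfold bF at h
  generalize (mat w).1 = v at *
  generalize (mat w).2.1 = x at *
  generalize (mat w).2.2.1 = y at *
  generalize (mat w).2.2.2 = z at *
  simp only [force_eq] at h
  have hA : 0 < v * (b * v + 2 * x) := Nat.mul_pos hv (by
    have : 0 < b * v := Nat.mul_pos hb hv
    omega)
  obtain ⟨j, e1, e2⟩ := prog hA hdet hlin
  have c1 : Nat.mul v (Nat.add (Nat.mul b v) (Nat.mul 2 x)) = v * (b * v + 2 * x) := rfl
  have c2 : Nat.add (Nat.mul v (Nat.add (Nat.mul b y) z)) (Nat.mul x y) =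
    v * (b * y + z) + x * y := rfl
  have c3 : Nat.mul y (Nat.add (Nat.mul b y) (Nat.mul 2 z)) = y * (b * y + 2 * z) := rfl
  rw [c1, c2, c3] at h
  generalize hA' : v * (b * v + 2 * x) = A at *
  generalize v * (b * y + z) + x * y = B at *
  generalize y * (b * y + 2 * z) = C at *
  have c4 : Nat.mod (Nat.sub A (Nat.mod (Nat.mul B C) A)) A = (A - B * C % A) % A := rfl
  rw [c4] at h
  generalize (A - B * C % A) % A = t0 at *
  have hlt : Nat.ble (Nat.mul 109 (Nat.add v 2)) t0 = false := by
    rw [Bool.eq_false_iff]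
    intro hc
    have h1 : 109 * (v + 2) ≤ t0 := Nat.le_of_ble_eq_true hc
    have : t0 ≤ t := by rw [e1]; omega
    omega
  rw [hlt] at h
  change snK w b (fun u => ltF (ckF u v y (Nat.add (Nat.mul b v) (Nat.mul 2 x))) A B
    (Nat.mul 109 (Nat.add v 2)) (Nat.mul 109 (Nat.add v 2)) t0
      (Nat.div (Nat.add (Nat.mul t0 B) C) A)) = true at h
  rw [snK_eq] at h
  have h := ltF_sound h j (by rw [← e1]; exact ht)
  have c5 : Nat.div (Nat.add (Nat.mul t0 B) C) A = (t0 * B + C) / A := rfl
  rw [c5, ← e1, ← e2] at h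
  exact h

/-! ### Norms of the centre -/

theorem la_eq_fs (w : WL) (b : ℕ) (f : Fm) : la (snoc w b) f = (fs (snoc w b) f (w.len + 1)).A := by
  unfold la
  rw [snoc_len]

end Pool.Agent.V5helper47.CN
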