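import Pool.Agent.V5helper47.CN.T10
import Pool.Agent.N911.V9

/-! One half word. -/

set_option maxRecDepth 100000

namespace Pool.Agent.V5helper47.CN

open H419R2 Pool.Agent.N911 Finset

/-- the search succeeds for a half word -/
def Clo (w : WL) : Prop :=
  ∀ (b : ℕ) (t P : ℤ) (D : ℕ), Sys w b t P D → Inr w b t P D → False

theorem inF_sound {D : ℕ} (h : inF D = true) : D ∈ LF := by
  unfold inF at h
  rw [anyL_iff] at h
  obtain ⟨x, hx, h1⟩ := h
  rw [← Nat.eq_of_beq_eq_true h1]; exact hx

theorem PWF_prime {l : ℕ} (h : l ∈ PWF) : l.Prime := by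
  unfold PWF at h
  simp only [List.mem_cons, List.not_mem_nil, or_false] at h
  rcases h with rfl | rfl | rfl | rfl | rfl | rfl | rfl | rfl | rfl | rfl | rfl | rfl | rfl |
    rfl | rfl | rfl | rfl | rfl <;> norm_num

theorem sqD_false {D : ℕ} (hsf : Squarefree (D : ℤ)) : sqD D = false := by
  have key : ∀ p : ℕ, p.Prime → Nat.beq (Nat.mod D (p * p)) 0 = false := by
    intro p hp
    rw [Bool.eq_false_iff]
    intro hc
    have h1 : D % (p * p) = 0 := Nat.eq_of_beq_eq_true hc
    have h2 : p * p ∣ D := Nat.dvd_of_mod_eq_zero h1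
    have h3 : ((p : ℤ) * p) ∣ (D : ℤ) := by exact_mod_cast h2
    have h4 := hsf _ h3
    have h5 : IsUnit p := by
      rw [Int.isUnit_iff_natAbs_eq] at h4
      rw [Nat.isUnit_iff]
      simpa using h4
    exact hp.one_lt.ne' (Nat.isUnit_iff.mp h5)
  unfold sqD
  have h3 := key 3 (by norm_num)
  have h5 := key 5 (by norm_num)
  have h7 := key 7 (by norm_num)
  have h11 := key 11 (by norm_num)
  have h13 := key 13 (by norm_num)
  norm_num at h3 h5 h7 h11 h13
  rw [h3, h5, h7, h11, h13]
  rfl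

theorem word_half {w : WL} {b : ℕ} (hw : (snoc w b).Pos) {t P D : ℕ}
    (hlin : P * (trE (snoc w b)).1 = t * (trE (snoc w b)).2.1 + (trE (snoc w b)).2.2)
    (ht : 0 < t) (hD : D = t * t + 4 * P) (hd4 : D % 4 = 1) (hsf : Squarefree (D : ℤ))
    (hD1 : 1 < D)
    {K : Type*} [Field K] [NumberField K] (hK : Module.finrank ℚ K = 2) {z : K}
    (hz : z ^ 2 = ((D : ℤ) : K)) (hcl : NumberField.classNumber K = 1)
    (ha1 : la (snoc w b) (f0 t P) ≠ 1)
    (hnot : ∀ a : ℕ, la (snoc w b) (f0 t P) = a → 2 ≤ (mat w).1 → D ≠ a * (a + 4))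
    (hsm : smF w = true) (hC : Clo w) : D ∈ LF := by
  have hDz : (D : ℤ) = (t : ℤ) ^ 2 + 4 * (P : ℤ) := by rw [hD]; push_cast; ring
  have hD1z : (1 : ℤ) < D := by exact_mod_cast hD1
  have hodd : t % 2 = 1 := by
    rcases Nat.mod_two_eq_zero_or_one t with h | h
    · exfalso
      obtain ⟨k, rfl⟩ : ∃ k, t = 2 * k := ⟨t / 2, by omega⟩
      have : D = 4 * (k * k + P) := by rw [hD]; ring
      omega
    · exact h
  have hm' : (t : ℤ) % 2 = 1 := by exact_mod_cast hodd
  obtain ⟨hwp, hb⟩ := snoc_pos hw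
  have hdt : Dt w b t P D := ⟨hDz, by exact_mod_cast hlin⟩
  have hlam : lamE (snoc w b) (f0 t P) = 0 := by
    unfold lamE f0
    have : (P : ℤ) * (trE (snoc w b)).1 = t * (trE (snoc w b)).2.1 + (trE (snoc w b)).2.2 := by
      exact_mod_cast hlin
    simp only
    linarith
  obtain ⟨a', l', e'⟩ := snoc_cons w b
  have hlen : (snoc w b).len = w.len + 1 := snoc_len w b
  have h0 : 0 < (snoc w b).len := by rw [hlen]; omega
  have hsym : bs (snoc w b) t (P : ℤ) (snoc w b).len =
      bs (snoc w b) t (P : ℤ) ((snoc w b).len - 1) := by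
    rw [e'] at hlam ⊢
    exact end_symE l' a' (f0 t P) hlam
  have i1 : IsDomain (QA (P : ℤ) (t : ℤ)) := isDomain_of hDz hsf hD1z
  have i2 : IsPrincipalIdealRing (QA (P : ℤ) (t : ℤ)) :=
    pid_of_classNumber_one hm' hDz hsf hD1z hK hz hcl
  have htz : (0 : ℤ) < t := by exact_mod_cast ht
  have hpos : ∀ n ≤ (snoc w b).len, 0 < (fs (snoc w b) (f0 t P) n).A := by
    intro n hn
    rw [e'] at hw hlam hn ⊢
    exact (posW hw (f := f0 t P) (by change (0 : ℤ) < 1; norm_num) (by exact htz) hlam n hn).1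
  -- the centre
  have hlaA : la (snoc w b) (f0 t P) = (fs (snoc w b) (f0 t P) (w.len + 1)).A := la_eq_fs w b _
  have hla0 : 0 < la (snoc w b) (f0 t P) := by
    rw [hlaA]; exact hpos _ (by rw [hlen])
  have hladvd : la (snoc w b) (f0 t P) ∣ (D : ℤ) := by
    have h1 := disc_f0 hDz
    rw [← h1]
    rw [e'] at hlam ⊢
    exact la_dvd hlam
  obtain ⟨a, ha⟩ := Int.eq_ofNat_of_zero_le hla0.le
  have haD : a ∣ D := by
    rw [ha] at hladvd
    exact_mod_cast hladvd
  have ha3 : 3 ≤ a := by
    have h1 : a ≠ 0 := by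
      rintro rfl
      rw [ha] at hla0
      simp at hla0
    have h2 : a ≠ 1 := by
      rintro rfl
      exact ha1 (by rw [ha]; simp)
    have h3 : a ≠ 2 := by
      rintro rfl
      omega
    omega
  have hlin2 := hdt.la_lin
  rw [ha] at hlin2
  have hlin3 : a * (b * (mat w).1 + 2 * (mat w).2.1) = t * (mat w).1 + 2 * (mat w).2.2.1 := by
    exact_mod_cast hlin2
  have hV := mat_pos hwp
  have hY := mat_Y_le hwp
  have mkS : (∀ n, 1 ≤ n → n ≤ (snoc w b).len → (2 : ℤ) ≤ (fs (snoc w b) (f0 t P) n).A) →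
      SplitE (snoc w b) t P D := by
    intro h
    exact splitE_of_word hw h0 ht hsym hpos
      (fun n hn1 hn2 h3 => by
        have := h n hn1 hn2
        unfold qs at h3
        omega) hDz i1 i2
  rcases Nat.lt_or_ge t (109 * ((mat w).1 + 2)) with hlt | hge
  · -- small parameters
    have h3b : 3 * b ≤ t + 2 := by
      have h1 : 3 * (b * (mat w).1 + 2 * (mat w).2.1) ≤ a * (b * (mat w).1 + 2 * (mat w).2.1) :=
        Nat.mul_le_mul_right _ ha3
      have h2 : 3 * b * (mat w).1 ≤ (t + 2) * (mat w).1 := by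
        have e1 : 3 * (b * (mat w).1 + 2 * (mat w).2.1) = 3 * b * (mat w).1 + 6 * (mat w).2.1 := by
          ring
        have e2 : (t + 2) * (mat w).1 = t * (mat w).1 + 2 * (mat w).1 := by ring
        omega
      exact Nat.le_of_mul_le_mul_right h2 hV
    have hb2 : b - 1 < (109 * ((mat w).1 + 2) + 2) / 3 := by omega
    have hc := smF_sound hsm hwp hb hb2 hlt hlin
    unfold ckF at hc
    rw [force_eq, force_eq] at hc
    have eD : Nat.add (Nat.mul t t) (Nat.mul 4 P) = D := hD.symm
    have hn0 : 0 < b * (mat w).1 + 2 * (mat w).2.1 := by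
      have : 0 < b * (mat w).1 := Nat.mul_pos hb hV
      omega
    have ea : Nat.div (Nat.add (Nat.mul t (mat w).1) (Nat.mul 2 (mat w).2.2.1))
        (b * (mat w).1 + 2 * (mat w).2.1) = a := by
      change (t * (mat w).1 + 2 * (mat w).2.2.1) / (b * (mat w).1 + 2 * (mat w).2.1) = a
      rw [← hlin3, Nat.mul_div_cancel _ hn0]
    rw [eD, ea, Bool.or_eq_true, Bool.or_eq_true, Bool.or_eq_true, Bool.or_eq_true,
      Bool.or_eq_true] at hc
    rcases hc with hc | hc | hc | hc | hc | hc
    · exfalso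
      have h1 : Nat.beq (Nat.mod D 4) 1 = true := by
        change Nat.beq (D % 4) 1 = true
        rw [hd4]; rfl
      rw [h1] at hc
      exact absurd hc (by simp)
    · exfalso
      rw [sqD_false hsf] at hc
      exact absurd hc (by simp)
    · exact inF_sound hc
    · exfalso
      have : a = 1 := Nat.eq_of_beq_eq_true hc
      omega
    · exfalso
      rw [Bool.and_eq_true] at hc
      have h1 : 2 ≤ (mat w).1 := Nat.le_of_ble_eq_true hc.1
      have h2 : D = a * (a + 4) := Nat.eq_of_beq_eq_true hc.2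
      exact hnot a ha h1 h2
    · exfalso
      unfold wtF at hc
      rw [anyL_iff] at hc
      obtain ⟨p, hl, h1⟩ := hc
      have hp := PWF_prime hl
      unfold witU1 at h1
      rw [cj_true, cj_true] at h1
      obtain ⟨h2, h3, h4⟩ := h1
      have h2' : 4 * (p * p) ≤ D := Nat.le_of_ble_eq_true h2
      have hq := qW_sound h3
      have G := mkS (by
        intro n hn1 hn2
        obtain ⟨q, h5, h6⟩ := hq n hn1 hn2
        rw [cj_true] at h5
        rw [f0_nat, h6]
        exact_mod_cast Nat.le_of_ble_eq_true h5.1)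
      obtain ⟨r, _, h5⟩ := anyU_true h4
      have h6' : (r * r + t * r) % p = P % p := Nat.eq_of_beq_eq_true h5
      have h7 : (p : ℤ) ∣ (r : ℤ) ^ 2 + t * r - P := by
        have h8 : (r * r + t * r) ≡ P [MOD p] := h6'
        have h9 := (Nat.modEq_iff_dvd.mp h8)
        push_cast at h9
        have : (r : ℤ) ^ 2 + t * r - P = -((P : ℤ) - (r * r + t * r)) := by ring
        rw [this]
        exact (dvd_neg).mpr h9
      obtain ⟨n, hn1, hn2, hA⟩ := G.split p hp (by
        have : (4 * (p * p) : ℤ) ≤ D := by exact_mod_cast h2'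
        linarith) ⟨r, h7⟩
      obtain ⟨q, h8, h9⟩ := hq n hn1 hn2
      rw [cj_true] at h8
      rw [f0_nat, h9] at hA
      have : q = p := by exact_mod_cast hA
      subst this
      simp at h8
  · -- large parameters
    exfalso
    have hgez : (109 * ((mat w).1 + 2) : ℤ) ≤ t := by exact_mod_cast hge
    have hPpos : (0 : ℤ) < P := by
      have h1 := hpos 1 (by rw [hlen]; omega)
      have : (fs (snoc w b) (f0 t P) 1).A = P := rfl
      rw [this] at h1
      exact h1
    have hbig : ∀ n, 1 ≤ n → n ≤ w.len → (110 : ℤ) ≤ (fs (snoc w b) (f0 t P) n).A := by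
      intro n hn1 hn2
      have h1 := bnd (f := f0 t P) hw (by change (0 : ℤ) < 1; norm_num) (by exact htz) hlam
        (by change (1 : ℤ) < P + t; linarith) (lm_mat hwp) n hn1 hn2
      rw [disc_f0 hDz] at h1
      have h2 := hpos n (by rw [hlen]; omega)
      by_contra hc
      push Not at hc
      have h3 : (fs (snoc w b) (f0 t P) n).A * ((mat w).1 + 2) ≤ 109 * ((mat w).1 + 2) :=
        mul_le_mul_of_nonneg_right (by linarith) (by positivity)
      have h4 : ((fs (snoc w b) (f0 t P) n).A * ((mat w).1 + 2)) ^ 2 ≤ (t : ℤ) ^ 2 :=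
        pow_le_pow_left₀ (by positivity) (h3.trans hgez) 2
      linarith
    have h2 : ∀ n, 1 ≤ n → n ≤ (snoc w b).len →
        (2 : ℤ) ≤ (fs (snoc w b) (f0 t P) n).A := by
      intro n hn1 hn2
      rw [hlen] at hn2
      rcases Nat.lt_or_ge n (w.len + 1) with h | h
      · have := hbig n hn1 (by omega)
        linarith
      · have : n = w.len + 1 := by omega
        rw [this, ← hlaA, ha]
        exact_mod_cast (by omega : 2 ≤ a)
    have S := mkS h2
    have hV3 : (3 : ℤ) ≤ (mat w).1 + 2 := by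
      have : (1 : ℤ) ≤ (mat w).1 := by exact_mod_cast hV
      linarith
    have ht327 : (327 : ℤ) ≤ t := by linarith
    have hno : ∀ l : ℕ, l.Prime → l ≤ 109 → l ≠ a →
        ¬ ∃ w0 : ℤ, (l : ℤ) ∣ w0 ^ 2 + t * w0 - P := by
      intro l hl hl109 hla hex
      have hl' : (l : ℤ) ≤ 109 := by exact_mod_cast hl109
      obtain ⟨n, hn1, hn2, hA⟩ := S.split l hl (by
        rw [hDz]
        have h3 : (0 : ℤ) ≤ l := by positivity
        nlinarith) hex
      rw [hlen] at hn2
      rcases Nat.lt_or_ge n (w.len + 1) with h | h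
      · have := hbig n hn1 (by omega)
        rw [hA] at this
        linarith
      · have : n = w.len + 1 := by omega
        rw [this, ← hlaA, ha] at hA
        apply hla
        exact_mod_cast hA.symm
    have ha2 : a ≠ 2 := by omega
    have hP2 : (P : ℤ) % 2 = 1 := by
      by_contra hc
      exact hno 2 Nat.prime_two (by norm_num) (by omega) ⟨0, by
        have : (P : ℤ) % 2 = 0 := by omega
        push_cast
        omega⟩
    have hd8 : D % 8 = 5 := by
      obtain ⟨t', ht'⟩ : ∃ k, t = 2 * k + 1 := ⟨t / 2, by omega⟩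
      obtain ⟨P', hP'⟩ : ∃ k, P = 2 * k + 1 := ⟨P / 2, by omega⟩
      rw [hD, ht', hP']
      rcases Nat.even_or_odd' t' with ⟨j, rfl | rfl⟩
      · have : (2 * (2 * j) + 1) * (2 * (2 * j) + 1) + 4 * (2 * P' + 1) =
          8 * (2 * (j * j) + j + P') + 5 := by ring
        omega
      · have : (2 * (2 * j + 1) + 1) * (2 * (2 * j + 1) + 1) + 4 * (2 * P' + 1) =
          8 * (2 * (j * j) + 3 * j + 1 + P') + 5 := by ring
        omega
    have G := goodE_of_word hw h0 ht hsym hpos
      (fun n hn1 hn2 h3 => by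
        have := h2 n hn1 hn2
        unfold qs at h3
        omega) hDz hodd i1 i2
    refine hC b t P D ⟨hdt, hd8, G⟩ ?_
    intro l hl hl109 hl2 hla hsq
    refine hno l hl hl109 ?_ (root_of_square hl hl2 hDz hsq)
    rintro rfl
    exact hla ha

end Pool.Agent.V5helper47.CN
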