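import Pool.Agent.V5helper47.CN.T11
import Pool.Agent.V5helper47.CN.S4

/-! Soundness of the additional search. -/

set_option maxRecDepth 100000

namespace Pool.Agent.V5helper47.CN

open H419R2 Pool.Agent.N911 Finset

theorem he_259_73b {D : ℕ} (H7 : Gd 7 D) (H37 : Gd 37 D) [NeZero c259_73_2.q] : HE c259_73_2 D
    (fun f => x259_73 c259_73_2 (7 * res f.A 7) (7 * res f.A 37))
    (fun f => e259_73 c259_73_2 (ix 7 f) (ix 37 f)) :=
  he_ev c259_73_2_ok (by decide +kernel) H7 H37 (by decide +kernel) (by decide +kernel)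

section

variable {w : WL} {b : ℕ} {t P : ℤ} {D : ℕ} (S : Sys w b t P D)
  {S37 S4 S7 S19 S3 S5 S13 : ST} (M : MM w b t P D S37 S4 S7 S19 S3 S5 S13)

include S

theorem l73b_sound {af : ℕ} (haf : af = 0 ∨ la (snoc w b) (f0 t P) = af) (h7 : In 7 D)
    (h37 : In 37 D) (h73 : In 73 D)
    {t37 b37 : ℕ} {T37 T4 : TL} {t7 b7 : ℕ} {T7 : TL} {t19 b19 : ℕ} {T19 T3 T5 T13 : TL}
    (e37 : TQ w b t P 37 false T37) (e7 : TQ w b t P 7 false T7)
    (h : l73b af w (mat w).1 (mat w).2.1 (mat w).2.2.1 (mat w).2.2.2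
      t37 b37 T37 T4 t7 b7 T7 t19 b19 T19 T3 T5 T13 = true) : False := by
  have i1 : NeZero c259_73.q := ⟨by decide +kernel⟩
  have i2 : NeZero c259_73_2.q := ⟨by decide +kernel⟩
  have hD := S.dt.hD
  unfold l73b at h
  rw [e37 rfl, e7 rfl] at h
  obtain ⟨K, c, d, e, h⟩ := co2_sound hD (S.rel2 c259_73_ok h7.gd h37.gd h73.gd
    (by decide +kernel) rfl) (he_259_73 h7.gd h37.gd) h
  obtain ⟨K1, c1, d1, e1, h⟩ := co2_sound hD (S.rel2 c259_73_2_ok h7.gd h37.gd h73.gd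
    (by decide +kernel) rfl) (he_259_73b h7.gd h37.gd) h
  have e' : (K : ZMod 73) + (c * t + d * b) = 0 := e
  have e1' : (K1 : ZMod 73) + (c1 * t + d1 * b) = 0 := e1
  have h := sol_true (by norm_num) h e'
  have ct := res_cast' t (show 0 < 73 by norm_num)
  have cb : ((res (b : ℤ) 73 : ℕ) : ZMod 73) = b := by
    rw [res_cast' (b : ℤ) (by norm_num)]; simp
  have h := imp_true h (l3_sound e1' ct cb)
  exact cls_false S.dt h73 iq73 haf h

include M

theorem rA_l73b {d3 d5 d13 d19 : Bool} {af : ℕ}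
    (haf : af = 0 ∨ la (snoc w b) (f0 t P) = af)
    (h3 : d3 = false → In 3 D) (h5 : d5 = false → In 5 D) (h7 : In 7 D)
    (h13 : d13 = false → In 13 D) (h19 : d19 = false → In 19 D) (h37 : In 37 D)
    (h73 : In 73 D)
    (h : rA d3 d5 false d13 d19 false af w S37 S4 S7 S19 S3 S5 S13
      (l73b af w (mat w).1 (mat w).2.1 (mat w).2.2.1 (mat w).2.2.2) = true) :
    False := by
  obtain ⟨t37, b37, T37, T4, t7, b7, T7, t19, b19, T19, T3, T5, T13, q37, e37, e4, q7, e7, q19,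
    e19, e3, e5, e13, h⟩ := rA_sound S haf h3 h5 (fun _ => h7) h13 h19 (fun _ => h37)
      (fun _ => M.m37 h37) M.m4
      (fun _ => M.m7 h7) (fun f => M.m19 (h19 f)) (fun f => M.m3 (h3 f))
      (fun f => M.m5 (h5 f)) (fun f => M.m13 (h13 f)) h
  exact l73b_sound S haf h7 h37 h73 e37 e7 h

theorem d4b_sound (hI : Inr w b t P D)
    (h : d4b w (mat w).1 (mat w).2.1 (mat w).2.2.1 (mat w).2.2.2 S37 S4 S7 S19 S3 S5 S13 = true) :
    la (snoc w b) (f0 t P) ≠ (5 : ℕ) ∧ la (snoc w b) (f0 t P) ≠ (7 : ℕ) ∧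
    la (snoc w b) (f0 t P) ≠ (19 : ℕ) ∧ la (snoc w b) (f0 t P) ≠ (37 : ℕ) := by
  unfold d4b at h
  rw [cj_true, cj_true, cj_true] at h
  obtain ⟨k5, k7, k19, k37⟩ := h
  refine ⟨?_, ?_, ?_, ?_⟩ <;> intro ha
  · exact rA_l73 S M (Or.inr ha) (fun _ => hI.i3 (by rw [ha]; norm_num)) (fun f => absurd f (by simp))
      (fun _ => hI.i7 (by rw [ha]; norm_num)) (fun _ => hI.i13 (by rw [ha]; norm_num))
      (fun _ => hI.i19 (by rw [ha]; norm_num)) (fun _ => hI.i37 (by rw [ha]; norm_num))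
      (hI.i73 (by rw [ha]; norm_num)) k5
  · exact rA_l73 S M (Or.inr ha) (fun _ => hI.i3 (by rw [ha]; norm_num))
      (fun _ => hI.i5 (by rw [ha]; norm_num)) (fun f => absurd f (by simp))
      (fun _ => hI.i13 (by rw [ha]; norm_num))
      (fun _ => hI.i19 (by rw [ha]; norm_num)) (fun _ => hI.i37 (by rw [ha]; norm_num))
      (hI.i73 (by rw [ha]; norm_num)) k7
  · exact rA_l73b S M (Or.inr ha) (fun _ => hI.i3 (by rw [ha]; norm_num))
      (fun _ => hI.i5 (by rw [ha]; norm_num)) (hI.i7 (by rw [ha]; norm_num))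
      (fun _ => hI.i13 (by rw [ha]; norm_num))
      (fun f => absurd f (by simp)) (hI.i37 (by rw [ha]; norm_num))
      (hI.i73 (by rw [ha]; norm_num)) k19
  · exact rA_l73 S M (Or.inr ha) (fun _ => hI.i3 (by rw [ha]; norm_num))
      (fun _ => hI.i5 (by rw [ha]; norm_num)) (fun _ => hI.i7 (by rw [ha]; norm_num))
      (fun _ => hI.i13 (by rw [ha]; norm_num))
      (fun _ => hI.i19 (by rw [ha]; norm_num)) (fun f => absurd f (by simp))
      (hI.i73 (by rw [ha]; norm_num)) k37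

omit M

theorem dv19_sound (hI : Inr w b t P D) (h : dv19 w = true) : False := by
  unfold dv19 at h
  obtain ⟨S37, S4, S7, S19, S3, S5, S13, M, h⟩ := mkA_true S h
  rw [cj_true, cj_true, cj_true, cj_true] at h
  obtain ⟨k1, k2, k3, k13, k4⟩ := h
  obtain ⟨n5, n7, n19, n37⟩ := d4b_sound S M hI k4
  exact dgc_73 S M hI (d3c_73 S M hI k3) n5 n7 (d13c_73 S M hI k13) n19 n37 k1 k2

end

/-- both checks of a word -/
def Ok (w : WL) : Prop := smF w = true ∧ Clo w

theorem ok_dv0 {w : WL} (h : cj (smF w) (dv0 w) = true) : Ok w := by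
  rw [cj_true] at h
  exact ⟨h.1, fun b t P D S hI => dv0_sound S hI h.2⟩
theorem ok_dv3b {w : WL} (h : cj (smF w) (dv3b w) = true) : Ok w := by
  rw [cj_true] at h
  exact ⟨h.1, fun b t P D S hI => dv3b_sound S hI h.2⟩
theorem ok_dvb {w : WL} (h : cj (smF w) (dvb w) = true) : Ok w := by
  rw [cj_true] at h
  exact ⟨h.1, fun b t P D S hI => dvb_sound S hI h.2⟩
theorem ok_dv3a {w : WL} (h : cj (smF w) (dv3a w) = true) : Ok w := by
  rw [cj_true] at h
  exact ⟨h.1, fun b t P D S hI => dv3a_sound S hI h.2⟩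
theorem ok_dv13 {w : WL} (h : cj (smF w) (dv13 w) = true) : Ok w := by
  rw [cj_true] at h
  exact ⟨h.1, fun b t P D S hI => dv13_sound S hI h.2⟩
theorem ok_dva {w : WL} (h : cj (smF w) (dva w) = true) : Ok w := by
  rw [cj_true] at h
  exact ⟨h.1, fun b t P D S hI => dva_sound S hI h.2⟩
theorem ok_dva13 {w : WL} (h : cj (smF w) (dva13 w) = true) : Ok w := by
  rw [cj_true] at h
  exact ⟨h.1, fun b t P D S hI => dva13_sound S hI h.2⟩
theorem ok_dv19 {w : WL} (h : cj (smF w) (dv19 w) = true) : Ok w := by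
  rw [cj_true] at h
  exact ⟨h.1, fun b t P D S hI => dv19_sound S hI h.2⟩

/-- words with a given first entry, from a complete list -/
theorem ok_of_list {v : ℕ} {L : List (List ℕ)} (hL : ∀ l ∈ L, ckS l = true)
    (hw : wk v (v + 1) (fun w => or (exW w) (anyL L (fun l => eqW w (wl l)))) 90 WL.nil 1 0 1 =
      true) {w : WL} (hp : w.Pos) (hn : w ≠ .nil) (h : (mat w).1 = v) :
    exW w = true ∨ Ok w := by
  have h1 := wk_all hw hp hn (by omega) (by omega)
  rw [Bool.or_eq_true] at h1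
  rcases h1 with h1 | h1
  · exact Or.inl h1
  · right
    rw [anyL_iff] at h1
    obtain ⟨l, hl, h2⟩ := h1
    rw [eqW_sound h2]
    exact ok_dv0 (hL l hl)

end Pool.Agent.V5helper47.CN
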