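import Pool.Agent.V5helper47.CN.T11

/-! From a solution of the equation to a word. -/

set_option maxRecDepth 100000

namespace Pool.Agent.V5helper47.CN

open H419R2 Pool.Agent.N911 Finset

/-- solutions -/
def So (a c x y : ℕ) : Prop :=
  0 < x ∧ 0 < y ∧ (a * x ^ 2 = c * y ^ 2 + 4 ∨ a * x ^ 2 + 4 = c * y ^ 2)

theorem So.symm {a c x y : ℕ} (h : So a c x y) : So c a y x :=
  ⟨h.2.1, h.1, h.2.2.elim (fun h => Or.inr h.symm) (fun h => Or.inl h.symm)⟩

theorem sf_unique {a c x y : ℕ} (ha : Squarefree a) (hc : Squarefree c) (hx : 0 < x) (hy : 0 < y)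
    (h : a * x ^ 2 = c * y ^ 2) : a = c ∧ x = y := by
  obtain ⟨g, x', y', hg, hcop, rfl, rfl⟩ := Nat.exists_coprime' (m := x) (n := y)
    (Nat.gcd_pos_of_pos_left _ hx)
  have hx' : 0 < x' := Nat.pos_of_mul_pos_right hx
  have hy' : 0 < y' := Nat.pos_of_mul_pos_right hy
  have h1 : a * x' ^ 2 = c * y' ^ 2 := by
    have : (a * x' ^ 2) * g ^ 2 = (c * y' ^ 2) * g ^ 2 := by
      rw [mul_pow, mul_pow] at h
      linarith
    exact Nat.eq_of_mul_eq_mul_right (by positivity) this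
  have h2 : x' ^ 2 ∣ c := by
    have : x' ^ 2 ∣ c * y' ^ 2 := ⟨a, by rw [← h1]; ring⟩
    exact (Nat.Coprime.pow 2 2 hcop).dvd_of_dvd_mul_right this
  have h3 : y' ^ 2 ∣ a := by
    have : y' ^ 2 ∣ a * x' ^ 2 := ⟨c, by rw [h1]; ring⟩
    exact (Nat.Coprime.pow 2 2 hcop.symm).dvd_of_dvd_mul_right this
  have h4 : x' = 1 := by
    have := hc x' (by rw [← sq]; exact h2)
    exact Nat.isUnit_iff.mp this
  have h5 : y' = 1 := by
    have := ha y' (by rw [← sq]; exact h3)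
    exact Nat.isUnit_iff.mp this
  subst h4 h5
  exact ⟨by linarith, rfl⟩

theorem pos_of_mul_pos_left_of_pos {x n : ℤ} (h : 0 < x * n) (hn : 0 < n) : 0 < x := by
  by_contra hc
  push Not at hc
  have := mul_nonpos_of_nonpos_of_nonneg hc hn.le
  linarith

theorem exists_snoc : ∀ {v : WL}, v ≠ .nil → ∃ w b, v = snoc w b
  | .nil, h => absurd rfl h
  | .cons a .nil, _ => ⟨.nil, a, rfl⟩
  | .cons a (.cons b l), _ => by
    obtain ⟨w, c, h⟩ := exists_snoc (v := .cons b l) (by simp)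
    exact ⟨.cons a w, c, by rw [h]; rfl⟩

/-- monotonicity of solutions -/
theorem So.mono {a c x y x' y' : ℕ} (ha : 3 ≤ a) (hc : 3 ≤ c) (h : So a c x y) (h' : So a c x' y')
    (hy : y < y') : x < x' := by
  by_contra hcon
  push Not at hcon
  have h1 : x' ^ 2 ≤ x ^ 2 := Nat.pow_le_pow_left hcon 2
  have h2 : a * x' ^ 2 ≤ a * x ^ 2 := Nat.mul_le_mul_left _ h1
  have h3 : y ^ 2 + 3 ≤ y' ^ 2 := by
    have : (y + 1) ^ 2 ≤ y' ^ 2 := Nat.pow_le_pow_left hy 2
    have e : (y + 1) ^ 2 = y ^ 2 + (2 * y + 1) := by ring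
    have := h.2.1
    omega
  have h4 : c * (y ^ 2 + 3) ≤ c * y' ^ 2 := Nat.mul_le_mul_left _ h3
  have h5 : c * (y ^ 2 + 3) = c * y ^ 2 + c * 3 := by ring
  rcases h.2.2 with e | e <;> rcases h'.2.2 with e' | e' <;> omega

/-- a word for a solution -/
theorem word_of_sol {a c x y D : ℕ} (hac : D = a * c) (hsf : Squarefree D) (hd4 : D % 4 = 1)
    (ha : 1 < a) (hc : 1 < c) (h : So a c x y) :
    ∃ (w : WL) (b t P : ℕ), (snoc w b).Pos ∧
      P * (trE (snoc w b)).1 = t * (trE (snoc w b)).2.1 + (trE (snoc w b)).2.2 ∧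
      0 < t ∧ D = t * t + 4 * P ∧
      ((la (snoc w b) (f0 t P) = a ∧ (mat w).1 = y ∧ y ≤ x) ∨
       (la (snoc w b) (f0 t P) = c ∧ (mat w).1 = x ∧ x ≤ y)) := by
  obtain ⟨hx, hy, he⟩ := h
  have hodd : a % 2 = 1 ∧ c % 2 = 1 := by
    rw [hac] at hd4
    rcases Nat.mod_two_eq_zero_or_one a with h1 | h1 <;>
      rcases Nat.mod_two_eq_zero_or_one c with h2 | h2
    · exfalso
      have : (a * c) % 2 = 0 := by rw [Nat.mul_mod, h1]; simp
      omega
    · exfalso
      have : (a * c) % 2 = 0 := by rw [Nat.mul_mod, h1]; simp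
      omega
    · exfalso
      have : (a * c) % 2 = 0 := by rw [Nat.mul_mod, h2]; simp
      omega
    · exact ⟨h1, h2⟩
  have hasf : Squarefree a := hsf.squarefree_of_dvd ⟨c, hac⟩
  have hcsf : Squarefree c := hsf.squarefree_of_dvd ⟨a, by rw [hac]; ring⟩
  have hD9 : 9 ≤ D := by
    rw [hac]
    have h1 : 3 ≤ a := by omega
    have h2 : 3 ≤ c := by omega
    exact Nat.mul_le_mul h1 h2
  -- `T`
  obtain ⟨T, s, hs, hT1, hT2⟩ : ∃ T : ℕ, ∃ s : ℤ, (s = 1 ∨ s = -1) ∧
      (a * x ^ 2 : ℤ) = T + 2 * s ∧ (c * y ^ 2 : ℤ) = T - 2 * s := by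
    rcases he with e | e
    · refine ⟨c * y ^ 2 + 2, 1, Or.inl rfl, ?_, ?_⟩
      · have : (a * x ^ 2 : ℤ) = c * y ^ 2 + 4 := by exact_mod_cast e
        push_cast; linarith
      · push_cast; ring
    · refine ⟨a * x ^ 2 + 2, -1, Or.inr rfl, ?_, ?_⟩
      · push_cast; ring
      · have : (a * x ^ 2 + 4 : ℤ) = c * y ^ 2 := by exact_mod_cast e
        push_cast; linarith
  have hss : s * s = 1 := by rcases hs with rfl | rfl <;> norm_num
  have hU : 0 < x * y := Nat.mul_pos hx hy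
  have hTT : T * T = D * ((x * y) * (x * y)) + 4 := by
    have h1 : (T : ℤ) * T = D * ((x * y) * (x * y)) + 4 := by
      have h2 : (a * x ^ 2 : ℤ) * (c * y ^ 2) = (T + 2 * s) * (T - 2 * s) := by rw [hT1, hT2]
      rw [hac]
      push_cast
      linear_combination -h2 + 4 * hss
    exact_mod_cast h1
  obtain ⟨x1, y1, t, P, hx1, hdet, ht, hD, hlin⟩ := exists_parE hTT hU (by omega) (Or.inr hd4)
  obtain ⟨v, hv, hvn, htr⟩ := exists_wordE (x * y) x1 y1 hU hdet hx1
  obtain ⟨w, b, rfl⟩ := exists_snoc hvn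
  obtain ⟨hwp, hb⟩ := snoc_pos hv
  refine ⟨w, b, t, P, hv, by rw [htr]; exact hlin, ht, hD, ?_⟩
  have hDz : (D : ℤ) = (t : ℤ) ^ 2 + 4 * (P : ℤ) := by rw [hD]; push_cast; ring
  have hdt : Dt w b t P D := ⟨hDz, by rw [htr]; exact_mod_cast hlin⟩
  have hdet' := mat_det w
  have hsg := sg_sq w
  have hV := mat_pos hwp
  have hla := hdt.la_lin
  rw [trE_snoc, Prod.mk.injEq, Prod.mk.injEq] at htr
  obtain ⟨hU1, hx1', hy1'⟩ := htr
  -- `T` again
  have hTz : (T : ℤ) = t * (x * y : ℕ) + 2 * x1 := by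
    have h1 : ((t * (x * y : ℕ) + 2 * x1 : ℕ) : ℤ) * ((t * (x * y : ℕ) + 2 * x1 : ℕ) : ℤ) =
        (T : ℤ) * T := by
      have h2 : (T : ℤ) * T = D * ((x * y : ℕ) * (x * y : ℕ)) + 4 := by exact_mod_cast hTT
      have h3 : ((x * y : ℕ) : ℤ) * y1 + 1 = x1 ^ 2 := by exact_mod_cast hdet
      have h4 : (P : ℤ) * (x * y : ℕ) = t * x1 + y1 := by exact_mod_cast hlin
      rw [h2, hDz]
      push_cast at h3 h4 ⊢
      linear_combination -4 * h3 - 4 * (x * y : ℤ) * h4
    have h2 : (t * (x * y : ℕ) + 2 * x1) * (t * (x * y : ℕ) + 2 * x1) = T * T := by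
      exact_mod_cast h1
    have h3 : t * (x * y) + 2 * x1 = T := Nat.mul_self_inj.mp h2
    rw [← h3]
    push_cast; ring
  have hn0 : 0 < b * (mat w).1 + 2 * (mat w).2.1 := by
    have : 0 < b * (mat w).1 := Nat.mul_pos hb hV
    omega
  have hVn : (mat w).1 ≤ b * (mat w).1 + 2 * (mat w).2.1 := by
    have : 1 * (mat w).1 ≤ b * (mat w).1 := Nat.mul_le_mul_right _ hb
    omega
  -- the centre divides
  have hlam : lamE (snoc w b) (f0 t P) = 0 := by
    unfold lamE f0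
    have h4 : (P : ℤ) * (x * y : ℕ) = t * x1 + y1 := by exact_mod_cast hlin
    rw [trE_snoc]
    simp only
    rw [hU1, hx1', hy1']
    linarith
  have hladvd : la (snoc w b) (f0 t P) ∣ (D : ℤ) := by
    have h1 := disc_f0 hDz
    rw [← h1]
    obtain ⟨a', l', e'⟩ := snoc_cons w b
    rw [e'] at hlam ⊢
    exact la_dvd hlam
  generalize hl : la (snoc w b) (f0 t P) = la0 at *
  generalize hVe : (mat w).1 = v at *
  generalize (mat w).2.1 = X at *
  generalize (mat w).2.2.1 = Y at *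
  generalize (mat w).2.2.2 = Z at *
  generalize sg w = sw at *
  generalize hne : b * v + 2 * X = n at *
  have hnz : ((b : ℤ) * v + 2 * X) = n := by rw [← hne]; push_cast; ring
  rw [hnz] at hla
  have hUz : ((x * y : ℕ) : ℤ) = v * n := by rw [← hU1]; push_cast; ring
  have hn0z : (0 : ℤ) < n := by exact_mod_cast hn0
  have hv0z : (0 : ℤ) < v := by exact_mod_cast hV
  -- norm times square
  have hx1n : (x1 : ℤ) = Y * n + sw := by
    rw [← hx1', ← hnz, ← hdet']
    push_cast; ring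
  have k1 : la0 * n ^ 2 = T - 2 * sw := by
    rw [hTz, hUz, hx1n]
    linear_combination (n : ℤ) * hla
  have k2 : la0 * (T + 2 * sw) = D * v ^ 2 := by
    have h1 : la0 * (T + 2 * sw) * n ^ 2 = D * v ^ 2 * n ^ 2 := by
      have h2 : (T : ℤ) * T = D * ((x * y : ℕ) * (x * y : ℕ)) + 4 := by exact_mod_cast hTT
      rw [hUz] at h2
      linear_combination (T + 2 * sw) * k1 + h2 - 4 * hsg
    exact mul_right_cancel₀ (pow_ne_zero 2 hn0z.ne') h1
  have hla0 : 0 < la0 := by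
    have h1 : 0 < la0 * n := by
      rw [hla]
      have : (0 : ℤ) < t := by exact_mod_cast ht
      positivity
    exact pos_of_mul_pos_left_of_pos h1 hn0z
  obtain ⟨m, hm⟩ := Int.eq_ofNat_of_zero_le hla0.le
  subst hm
  have hmD : m ∣ D := by exact_mod_cast hladvd
  have hmsf : Squarefree m := hsf.squarefree_of_dvd hmD
  have hswv : sw = 1 ∨ sw = -1 := by
    have : (sw - 1) * (sw + 1) = 0 := by linear_combination hsg
    rcases mul_eq_zero.mp this with h | h
    · left; linarith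
    · right; linarith
  have hcase : (m : ℤ) * n ^ 2 = a * x ^ 2 ∨ (m : ℤ) * n ^ 2 = c * y ^ 2 := by
    rw [k1, hT1, hT2]
    rcases hs with rfl | rfl <;> rcases hswv with rfl | rfl
    · right; ring
    · left; ring
    · left; ring
    · right; ring
  have hxy : x * y = v * n := by exact_mod_cast hUz
  rcases hcase with h1 | h1
  · left
    have h2 : m * n ^ 2 = a * x ^ 2 := by exact_mod_cast h1
    obtain ⟨h3, h4⟩ := sf_unique hmsf hasf hn0 hx h2
    subst h4
    have h5 : v = y := by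
      have : n * y = n * v := by rw [hxy]; ring
      exact (Nat.eq_of_mul_eq_mul_left hn0 this).symm
    subst h5
    exact ⟨by rw [h3], rfl, hVn⟩
  · right
    have h2 : m * n ^ 2 = c * y ^ 2 := by exact_mod_cast h1
    obtain ⟨h3, h4⟩ := sf_unique hmsf hcsf hn0 hy h2
    subst h4
    have h5 : v = x := by
      exact (Nat.eq_of_mul_eq_mul_right hn0 hxy).symm
    subst h5
    exact ⟨by rw [h3], rfl, hVn⟩

end Pool.Agent.V5helper47.CN
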