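import Pool.Agent.V5helper47.CN.T14
import Pool.Agent.V5helper47.CN.T12

/-! The main statement, assuming the searches. -/

set_option maxRecDepth 100000

namespace Pool.Agent.V5helper47.CN

open H419R2 Pool.Agent.N911 Finset

/-- no second small solution, finite check -/
def ch2 : Bool := allN 35 (fun y => allN 9 (fun a => allN 6 (fun m =>
  imp (cj (Nat.ble 3 y) (cj (Nat.ble 3 a) (cj (Nat.beq (a % 2) 1) (cj (Nat.ble 2 m)
    (Nat.ble (a * (2 * m * y - 1)) (y * y + 4))))))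
    (allN 200 (fun x => not (or (or (Nat.beq (a * x ^ 2 + y ^ 2) (a * m ^ 2 * y ^ 2 + 4))
      (Nat.beq (a * x ^ 2 + y ^ 2 + 4) (a * m ^ 2 * y ^ 2)))
      (or (Nat.beq (a * x ^ 2) (a * m ^ 2 * y ^ 2 + y ^ 2 + 4))
      (Nat.beq (a * x ^ 2 + 4) (a * m ^ 2 * y ^ 2 + y ^ 2)))))))))

theorem ch2_true : ch2 = true := by decide +kernel

theorem ch2_spec {y a m x : ℕ} (hy : y < 35) (ha : a < 9) (hm : m < 6) (hx : x < 200)
    (hy3 : 3 ≤ y) (ha3 : 3 ≤ a) (hao : a % 2 = 1) (hm2 : 2 ≤ m) (h : a * (2 * m * y - 1) ≤ y * y + 4) :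
    ¬ (a * x ^ 2 + y ^ 2 = a * m ^ 2 * y ^ 2 + 4) ∧ ¬ (a * x ^ 2 + y ^ 2 + 4 = a * m ^ 2 * y ^ 2) ∧
    ¬ (a * x ^ 2 = a * m ^ 2 * y ^ 2 + y ^ 2 + 4) ∧ ¬ (a * x ^ 2 + 4 = a * m ^ 2 * y ^ 2 + y ^ 2) := by
  have h1 := ch2_true
  unfold ch2 at h1
  rw [allN_iff] at h1
  have h1 := h1 y hy
  rw [allN_iff] at h1
  have h1 := h1 a ha
  rw [allN_iff] at h1
  have h1 := imp_true (h1 m hm) (by
    rw [cj_true, cj_true, cj_true, cj_true, hao]
    exact ⟨Nat.ble_eq_true_of_le hy3, Nat.ble_eq_true_of_le ha3, rfl, Nat.ble_eq_true_of_le hm2,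
      Nat.ble_eq_true_of_le h⟩)
  rw [allN_iff] at h1
  have h1 := h1 x hx
  refine ⟨?_, ?_, ?_, ?_⟩ <;> intro e <;> rw [e] at h1 <;> simp at h1

theorem no_two {a c x0 x y : ℕ} (ha : 3 ≤ a) (hc : 3 ≤ c) (hao : a % 2 = 1) (hco : c % 2 = 1)
    (h0 : So a c x0 2) (h : So a c x y) (hy : 2 < y) (hmin : min x y ≤ 34) : False := by
  obtain ⟨hx0, _, e0⟩ := h0
  obtain ⟨hx, hy0, e⟩ := h
  have hx0e : x0 % 2 = 0 := by
    rcases Nat.mod_two_eq_zero_or_one x0 with h | h
    · exact h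
    · exfalso
      have h1 : (a * x0 ^ 2) % 2 = 1 := by
        rw [Nat.mul_mod, Nat.pow_mod, h, hao]
      rcases e0 with e0 | e0 <;> omega
  obtain ⟨m, rfl⟩ : ∃ m, x0 = 2 * m := ⟨x0 / 2, by omega⟩
  have e1 : a * (2 * m) ^ 2 = 4 * (a * m ^ 2) := by ring
  rw [e1] at e0
  have e2 : a * m ^ 2 = c + 1 ∨ a * m ^ 2 + 1 = c := by
    rcases e0 with e0 | e0
    · left; omega
    · right; omega
  have hm2 : 2 ≤ m := by
    by_contra hcon
    have : m = 1 := by omega
    subst this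
    rw [one_pow, mul_one] at e2
    omega
  have hm4 : 4 * a ≤ a * m ^ 2 := by
    have : 2 ^ 2 ≤ m ^ 2 := Nat.pow_le_pow_left hm2 2
    nlinarith
  have hc1 : 4 * a ≤ c + 1 := by omega
  have hy9 : 9 ≤ y ^ 2 := by
    have : 3 ^ 2 ≤ y ^ 2 := Nat.pow_le_pow_left hy 2
    omega
  have hyx : y < x := by
    by_contra hcon
    push Not at hcon
    have h1 : x ^ 2 ≤ y ^ 2 := Nat.pow_le_pow_left hcon 2
    have h2 : a * x ^ 2 ≤ a * y ^ 2 := Nat.mul_le_mul_left _ h1
    have h3 : 4 * a * y ^ 2 ≤ (c + 1) * y ^ 2 := Nat.mul_le_mul_right _ hc1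
    have h4 : (c + 1) * y ^ 2 = c * y ^ 2 + y ^ 2 := by ring
    have h5 : 4 * a * y ^ 2 = a * y ^ 2 + 3 * a * y ^ 2 := by ring
    have h6 : 9 * y ^ 2 ≤ 3 * a * y ^ 2 := Nat.mul_le_mul_right _ (by omega)
    rcases e with e | e <;> omega
  have hy34 : y ≤ 34 := by
    rw [min_eq_right hyx.le] at hmin
    exact hmin
  -- the four equations
  have he : (a * x ^ 2 + y ^ 2 = a * m ^ 2 * y ^ 2 + 4) ∨ (a * x ^ 2 + y ^ 2 + 4 = a * m ^ 2 * y ^ 2)
      ∨ (a * x ^ 2 = a * m ^ 2 * y ^ 2 + y ^ 2 + 4) ∨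
      (a * x ^ 2 + 4 = a * m ^ 2 * y ^ 2 + y ^ 2) := by
    rcases e2 with e2 | e2 <;> rcases e with e | e
    · left; rw [e2, e]; ring
    · right; left
      have : (c + 1) * y ^ 2 = c * y ^ 2 + y ^ 2 := by ring
      rw [e2, this, ← e]; ring
    · right; right; left
      rw [e, ← e2]; ring
    · right; right; right
      rw [e, ← e2]; ring
  have hbd : a * (2 * m * y - 1) ≤ y * y + 4 := by
    have hy2 : y ^ 2 = y * y := by ring
    have hmy : 1 ≤ 2 * m * y := by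
      have : 1 ≤ m * y := Nat.mul_pos (by omega) (by omega)
      nlinarith
    rcases lt_trichotomy x (m * y) with h1 | h1 | h1
    · obtain ⟨r, hr⟩ : ∃ r, m * y = r + 1 := ⟨m * y - 1, by omega⟩
      have h2 : x ^ 2 ≤ r ^ 2 := Nat.pow_le_pow_left (by omega) 2
      have h3 : a * x ^ 2 ≤ a * r ^ 2 := Nat.mul_le_mul_left _ h2
      have h4 : a * m ^ 2 * y ^ 2 = a * r ^ 2 + a * (2 * m * y - 1) := by
        have e5 : a * m ^ 2 * y ^ 2 = a * (m * y) ^ 2 := by ring
        have e6 : 2 * m * y - 1 = 2 * r + 1 := by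
          have : 2 * m * y = 2 * (m * y) := by ring
          omega
        rw [e5, e6, hr]; ring
      rcases he with he | he | he | he <;> omega
    · exfalso
      have e5 : a * m ^ 2 * y ^ 2 = a * x ^ 2 := by rw [h1]; ring
      rcases he with he | he | he | he <;> omega
    · have h2 : (m * y + 1) ^ 2 ≤ x ^ 2 := Nat.pow_le_pow_left h1 2
      have h3 : a * (m * y + 1) ^ 2 ≤ a * x ^ 2 := Nat.mul_le_mul_left _ h2
      have h4 : a * (m * y + 1) ^ 2 = a * m ^ 2 * y ^ 2 + a * (2 * m * y) + a := by ring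
      have h5 : a * (2 * m * y - 1) ≤ a * (2 * m * y) := Nat.mul_le_mul_left _ (by omega)
      rcases he with he | he | he | he <;> omega
  have ha9 : a < 9 := by
    have h1 : a * (2 * 2 * y - 1) ≤ a * (2 * m * y - 1) := by
      apply Nat.mul_le_mul_left
      have : 2 * 2 * y ≤ 2 * m * y := Nat.mul_le_mul_right _ (by omega)
      omega
    have h2 : a * (2 * 2 * y - 1) ≤ y * y + 4 := h1.trans hbd
    interval_cases y <;> omega
  have hm6 : m < 6 := by
    have h1 : 3 * (2 * m * y - 1) ≤ a * (2 * m * y - 1) := Nat.mul_le_mul_right _ ha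
    have h2 : 3 * (2 * m * y - 1) ≤ y * y + 4 := h1.trans hbd
    interval_cases y <;> omega
  have hx200 : x < 200 := by
    by_contra hcon
    push Not at hcon
    have h1 : 200 ^ 2 ≤ x ^ 2 := Nat.pow_le_pow_left hcon 2
    have h2 : m ^ 2 ≤ 5 ^ 2 := Nat.pow_le_pow_left (by omega) 2
    have h3 : y ^ 2 ≤ 34 ^ 2 := Nat.pow_le_pow_left hy34 2
    have h4 : a * m ^ 2 * y ^ 2 ≤ a * 5 ^ 2 * 34 ^ 2 :=
      Nat.mul_le_mul (Nat.mul_le_mul_left _ h2) h3
    have h5 : a * 200 ^ 2 ≤ a * x ^ 2 := Nat.mul_le_mul_left _ h1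
    rcases he with he | he | he | he <;> omega
  obtain ⟨n1, n2, n3, n4⟩ := ch2_spec (by omega) ha9 hm6 hx200 hy ha hao hm2 hbd
  rcases he with he | he | he | he
  · exact n1 he
  · exact n2 he
  · exact n3 he
  · exact n4 he

theorem main_half (hall : ∀ w : WL, w.Pos → (mat w).1 ≤ 34 → (mat w).1 ≠ 2 → Ok w)
    {d a c x y : ℕ} (hsf : Squarefree d) (hd4 : d % 4 = 1) (hac : d = a * c)
    (ha : 1 < a) (hc : 1 < c) (h : So a c x y) (hmin : min x y ≤ 34) (hm2 : min x y ≠ 2)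
    {K : Type*} [Field K] [NumberField K] (hK : Module.finrank ℚ K = 2) {z : K}
    (hz : z ^ 2 = (d : K)) (hcl : NumberField.classNumber K = 1) : d ∈ LF := by
  classical
  have hodd : a % 2 = 1 ∧ c % 2 = 1 := by
    rw [hac] at hd4
    rcases Nat.mod_two_eq_zero_or_one a with h1 | h1 <;>
      rcases Nat.mod_two_eq_zero_or_one c with h2 | h2
    · exfalso
      have : (a * c) % 2 = 0 := by rw [Nat.mul_mod, h1]; simp
      omega
    · exfalso
      have : (a * c) % 2 = 0 := by rw [Nat.mul_mod, h1]; simp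
      omega
    · exfalso
      have : (a * c) % 2 = 0 := by rw [Nat.mul_mod, h2]; simp
      omega
    · exact ⟨h1, h2⟩
  have ha3 : 3 ≤ a := by omega
  have hc3 : 3 ≤ c := by omega
  -- the least solution
  have hex : ∃ y, ∃ x, So a c x y := ⟨y, x, h⟩
  obtain ⟨x0, hs0⟩ := Nat.find_spec hex
  have hmin0 : ∀ x' y', So a c x' y' → Nat.find hex ≤ y' := fun x' y' h' =>
    Nat.find_min' hex ⟨x', h'⟩
  generalize Nat.find hex = y0 at hs0 hmin0
  have hcmp : (x0 = x ∧ y0 = y) ∨ (x0 < x ∧ y0 < y) := by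
    rcases Nat.lt_or_ge y0 y with h1 | h1
    · exact Or.inr ⟨So.mono ha3 hc3 hs0 h h1, h1⟩
    · left
      have h2 : y0 = y := le_antisymm (hmin0 x y h) h1
      subst h2
      refine ⟨?_, rfl⟩
      have h3 : a * x0 ^ 2 = a * x ^ 2 := by
        rcases hs0.2.2 with e | e <;> rcases h.2.2 with e' | e'
        · rw [e, e']
        · exfalso
          have h4 : a * x0 ^ 2 = a * x ^ 2 + 8 := by omega
          have h5 : a ∣ 8 := by
            have h6 : a ∣ a * x ^ 2 + 8 := ⟨x0 ^ 2, h4.symm⟩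
            exact (Nat.dvd_add_right ⟨x ^ 2, rfl⟩).mp h6
          have h6 := Nat.le_of_dvd (by norm_num) h5
          have h7 : a = 3 ∨ a = 5 ∨ a = 7 := by omega
          rcases h7 with rfl | rfl | rfl <;> revert h5 <;> decide
        · exfalso
          have h4 : a * x ^ 2 = a * x0 ^ 2 + 8 := by omega
          have h5 : a ∣ 8 := by
            have h6 : a ∣ a * x0 ^ 2 + 8 := ⟨x ^ 2, h4.symm⟩
            exact (Nat.dvd_add_right ⟨x0 ^ 2, rfl⟩).mp h6
          have h6 := Nat.le_of_dvd (by norm_num) h5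
          have h7 : a = 3 ∨ a = 5 ∨ a = 7 := by omega
          rcases h7 with rfl | rfl | rfl <;> revert h5 <;> decide
        · omega
      have h4 : x0 ^ 2 = x ^ 2 := Nat.eq_of_mul_eq_mul_left (by omega) h3
      exact Nat.pow_left_injective (by norm_num) h4
  have hle : x0 ≤ x ∧ y0 ≤ y := by omega
  have hmin34 : min x0 y0 ≤ 34 := (min_le_min hle.1 hle.2).trans hmin
  obtain ⟨w, b, t, P, hv, hlin, ht, hD, hcase⟩ := word_of_sol hac hsf hd4 ha hc hs0
  obtain ⟨hwp, hb⟩ := snoc_pos hv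
  have hsfz : Squarefree (d : ℤ) := Int.squarefree_natCast.mpr hsf
  have hd1 : 1 < d := by rw [hac]; nlinarith
  have hV34 : (mat w).1 ≤ 34 := by
    rcases hcase with ⟨_, h1, h2⟩ | ⟨_, h1, h2⟩
    · rw [min_eq_right h2] at hmin34
      omega
    · rw [min_eq_left h2] at hmin34
      omega
  have hV2 : (mat w).1 ≠ 2 := by
    intro h2
    rcases hcase with ⟨_, h1, h3⟩ | ⟨_, h1, h3⟩
    · have hy2 : y0 = 2 := by omega
      subst hy2
      rcases hcmp with ⟨e1, e2⟩ | ⟨e1, e2⟩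
      · apply hm2
        rw [← e1, ← e2, min_eq_right h3]
      · exact no_two ha3 hc3 hodd.1 hodd.2 hs0 h e2 hmin
    · have hx2 : x0 = 2 := by omega
      subst hx2
      rcases hcmp with ⟨e1, e2⟩ | ⟨e1, e2⟩
      · apply hm2
        rw [← e1, ← e2, min_eq_left h3]
      · exact no_two hc3 ha3 hodd.2 hodd.1 hs0.symm h.symm e1 (by rw [min_comm]; exact hmin)
  obtain ⟨hsm, hC⟩ := hall w hwp hV34 hV2
  refine word_half hv hlin ht hD hd4 hsfz hd1 hK (z := z) (by rw [hz]; simp) hcl ?_ ?_ hsm hC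
  · rcases hcase with ⟨h1, _⟩ | ⟨h1, _⟩
    · rw [h1]
      have : (1 : ℤ) < a := by exact_mod_cast ha
      exact this.ne'
    · rw [h1]
      have : (1 : ℤ) < c := by exact_mod_cast hc
      exact this.ne'
  · intro a0 ha0 hV hDa
    rcases hcase with ⟨h1, h2, h3⟩ | ⟨h1, h2, h3⟩
    · have e : a = a0 := by
        rw [h1] at ha0
        exact_mod_cast ha0
      subst e
      have h4 : c = a + 4 := by
        have : a * c = a * (a + 4) := by rw [← hac, hDa]
        exact Nat.eq_of_mul_eq_mul_left (by omega) this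
      have h5 := hmin0 1 1 ⟨by norm_num, by norm_num, Or.inr (by rw [h4]; ring)⟩
      omega
    · have e : c = a0 := by
        rw [h1] at ha0
        exact_mod_cast ha0
      subst e
      have h4 : a = c + 4 := by
        have : c * a = c * (c + 4) := by rw [mul_comm c a, ← hac, hDa]
        exact Nat.eq_of_mul_eq_mul_left (by omega) this
      have h5 := hmin0 1 1 ⟨by norm_num, by norm_num, Or.inl (by rw [h4]; ring)⟩
      omega

end Pool.Agent.V5helper47.CN
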