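import Pool.Agent.V5helper47.CN.T1

/-! Soundness of the enumeration of states. -/

set_option maxRecDepth 100000

namespace Pool.Agent.V5helper47.CN

open H419R2 Pool.Agent.N911 Finset

theorem trE_det : ∀ {l : WL}, l ≠ .nil → (trE l).1 * (trE l).2.2 + 1 = (trE l).2.1 ^ 2
  | .nil, h => absurd rfl h
  | .cons a .nil, _ => by rw [trE_one]; rfl
  | .cons a (.cons b l), _ => by
    have ih := trE_det (l := .cons b l) (by simp)
    rw [trE_cons a (by simp : WL.cons b l ≠ .nil)]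
    simp only
    linear_combination ih

/-- integral data of a word with a free centre letter -/
structure Dt (w : WL) (b : ℕ) (t P : ℤ) (D : ℕ) : Prop where
  hD : (D : ℤ) = t ^ 2 + 4 * P
  lin : P * (trE (snoc w b)).1 = t * (trE (snoc w b)).2.1 + (trE (snoc w b)).2.2

section

variable {w : WL} {b : ℕ} {t P : ℤ} {D : ℕ}

/-- the parameter -/
theorem Dt.par (H : Dt w b t P D) : ∃ s : ℤ,
    t = s * (trE (snoc w b)).1 - (trE (snoc w b)).2.1 * (trE (snoc w b)).2.2 ∧
    P = s * (trE (snoc w b)).2.1 - (trE (snoc w b)).2.2 * (trE (snoc w b)).2.2 := by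
  have hd := trE_det (snoc_ne w b)
  have h := H.lin
  generalize (trE (snoc w b)).1 = A at hd h ⊢
  generalize (trE (snoc w b)).2.1 = B at hd h ⊢
  generalize (trE (snoc w b)).2.2 = C at hd h ⊢
  have hd' : (A : ℤ) * C + 1 = B ^ 2 := by exact_mod_cast hd
  refine ⟨P * B - t * C, ?_, ?_⟩
  · linear_combination t * hd' - (B : ℤ) * h
  · linear_combination P * hd' - (C : ℤ) * h

end

theorem tl_eq {T T' : TL} (h : ∀ g : TL → Bool, g T = g T') : T = T' := by
  classical
  have := h (fun x => decide (x = T'))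
  simpa using this

theorem st1_eq (l I : ℕ) (sk : ℕ → ℕ → Bool) (v : WL) (b A B c d s : ℕ) (S : ST) :
    ∃ S', (∀ k, st1 l I sk v b A B c d s S k = k S') ∧
      (∀ t b a T, ST.Mem t b a T S → ST.Mem t b a T S') ∧
      (sk ((s * A + c) % l) ((s * B + d) % l) = false → ∀ T, (∀ g, mkT l I v 1 ((s * A + c) % l)
        ((s * B + d) % l) g = g T) → ST.Mem ((s * A + c) % l) b (lsq T 0 / 7) T S') := by
  have e : ∀ k, st1 l I sk v b A B c d s S k = @Bool.rec (fun _ => Bool)
      (mkT l I v 1 ((s * A + c) % l) ((s * B + d) % l) (fun T => force (Nat.div (lsq T 0) 7)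
      (fun a => k (ST.cons ((s * A + c) % l) b a T S)))) (k S)
      (sk ((s * A + c) % l) ((s * B + d) % l)) := by
    intro k
    unfold st1
    rw [force_eq, force_eq]
    rfl
  cases hs : sk ((s * A + c) % l) ((s * B + d) % l) with
  | true =>
    refine ⟨S, ?_, fun _ _ _ _ h => h, fun h => absurd h (by simp)⟩
    intro k
    rw [e, hs]
  | false =>
    obtain ⟨r, hr⟩ := mkT_ex l I v 1 ((s * A + c) % l) ((s * B + d) % l)
    refine ⟨ST.cons ((s * A + c) % l) b (lsq r 0 / 7) r S, ?_, fun _ _ _ _ h => Or.inr h, ?_⟩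
    · intro k
      rw [e, hs, hr, force_eq]
      rfl
    · intro _ T hT
      have : T = r := tl_eq (fun g => by rw [← hT g, hr g])
      rw [this]
      exact Or.inl ⟨rfl, rfl, rfl, rfl⟩

theorem st2_eq (l I : ℕ) (sk : ℕ → ℕ → Bool) (v : WL) (b A B c d n : ℕ) : ∀ S : ST,
    ∃ S', (∀ k, st2 l I sk v b A B c d n S k = k S') ∧
      (∀ t b a T, ST.Mem t b a T S → ST.Mem t b a T S') ∧
      (∀ s < n, sk ((s * A + c) % l) ((s * B + d) % l) = false → ∀ T, (∀ g, mkT l I v 1
        ((s * A + c) % l) ((s * B + d) % l) g = g T) →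
        ST.Mem ((s * A + c) % l) b (lsq T 0 / 7) T S') := by
  induction n with
  | zero => exact fun S => ⟨S, fun k => rfl, fun _ _ _ _ h => h, fun s hs => absurd hs (by omega)⟩
  | succ n ih =>
    intro S
    obtain ⟨S1, h1, m1, a1⟩ := st1_eq l I sk v b A B c d n S
    obtain ⟨S2, h2, m2, a2⟩ := ih S1
    refine ⟨S2, ?_, fun _ _ _ _ h => m2 _ _ _ _ (m1 _ _ _ _ h), ?_⟩
    · intro k
      have e : st2 l I sk v b A B c d (n + 1) S k =
        st1 l I sk v b A B c d n S (fun S => st2 l I sk v b A B c d n S k) := rfl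
      rw [e, h1, h2]
    · intro s hs hsk T hT
      rcases Nat.lt_succ_iff_lt_or_eq.mp hs with h | h
      · exact a2 s h hsk T hT
      · subst h
        exact m2 _ _ _ _ (a1 hsk T hT)

/-- first entry -/
def cA (l V X b : ℕ) : ℕ := V * (b * V + 2 * X) % l
/-- second entry -/
def cB (l V X Y Z b : ℕ) : ℕ := (V * (b * Y + Z) + X * Y) % l
/-- third entry -/
def cC (l Y Z b : ℕ) : ℕ := Y * (b * Y + 2 * Z) % l

theorem abc_eq (l V X Y Z b : ℕ) (k : ℕ → ℕ → ℕ → ℕ → Bool) : abc l V X Y Z b k =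
    k (cA l V X b) (cB l V X Y Z b) (l - cB l V X Y Z b * cC l Y Z b % l)
      (l - cC l Y Z b * cC l Y Z b % l) := by
  unfold abc
  simp only [force_eq]
  rfl

theorem st3_eq (l I : ℕ) (sk : ℕ → ℕ → Bool) (V X Y Z : ℕ) (w : WL) (n : ℕ) : ∀ S : ST,
    ∃ S', (∀ k, st3 l I sk V X Y Z w n S k = k S') ∧
      (∀ t b a T, ST.Mem t b a T S → ST.Mem t b a T S') ∧
      (∀ b < n, ∀ s < l, ∀ t P, t = (s * cA l V X b + (l - cB l V X Y Z b * cC l Y Z b % l)) % l →
        P = (s * cB l V X Y Z b + (l - cC l Y Z b * cC l Y Z b % l)) % l →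
        sk t P = false → ∀ T, (∀ g, mkT l I (snoc w b) 1 t P g = g T) →
        ST.Mem t b (lsq T 0 / 7) T S') := by
  induction n with
  | zero => exact fun S => ⟨S, fun k => rfl, fun _ _ _ _ h => h, fun s hs => absurd hs (by omega)⟩
  | succ n ih =>
    intro S
    obtain ⟨S1, h1, m1, a1⟩ := st2_eq l I sk (snoc w n) n (cA l V X n) (cB l V X Y Z n)
      (l - cB l V X Y Z n * cC l Y Z n % l) (l - cC l Y Z n * cC l Y Z n % l) l S
    obtain ⟨S2, h2, m2, a2⟩ := ih S1
    refine ⟨S2, ?_, fun _ _ _ _ h => m2 _ _ _ _ (m1 _ _ _ _ h), ?_⟩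
    · intro k
      have e : st3 l I sk V X Y Z w (n + 1) S k =
        snK w n (fun v => abc l V X Y Z n (fun A B c d =>
          st2 l I sk v n A B c d l S (fun S => st3 l I sk V X Y Z w n S k))) := rfl
      rw [e, snK_eq, abc_eq, h1, h2]
    · intro b hb s hs t P ht hP hsk T hT
      rcases Nat.lt_succ_iff_lt_or_eq.mp hb with h | h
      · exact a2 b h s hs t P ht hP hsk T hT
      · subst h
        rw [ht, hP] at hsk
        rw [ht, hP] at hT
        rw [ht]
        exact m2 _ _ _ _ (a1 s hs hsk T hT)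

section

variable {w : WL} {b : ℕ} {t P : ℤ} {D : ℕ} (H : Dt w b t P D) {l : ℕ} (hl : 0 < l)

include H hl

/-- residues of the parameters -/
theorem Dt.prs : ∃ s < l,
    Nat.mod (s * cA l (mat w).1 (mat w).2.1 (res (b : ℤ) l) +
      (l - cB l (mat w).1 (mat w).2.1 (mat w).2.2.1 (mat w).2.2.2 (res (b : ℤ) l) *
        cC l (mat w).2.2.1 (mat w).2.2.2 (res (b : ℤ) l) % l)) l = res t l ∧
    Nat.mod (s * cB l (mat w).1 (mat w).2.1 (mat w).2.2.1 (mat w).2.2.2 (res (b : ℤ) l) +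
      (l - cC l (mat w).2.2.1 (mat w).2.2.2 (res (b : ℤ) l) *
        cC l (mat w).2.2.1 (mat w).2.2.2 (res (b : ℤ) l) % l)) l = res P l := by
  obtain ⟨s, h1, h2⟩ := H.par
  rw [trE_snoc] at h1 h2
  simp only at h1 h2
  generalize (mat w).1 = v at *
  generalize (mat w).2.1 = x at *
  generalize (mat w).2.2.1 = y at *
  generalize (mat w).2.2.2 = z at *
  have cb := res_cast' (b : ℤ) hl
  have cs := res_cast' s hl
  have cl : ((l : ℕ) : ZMod l) = 0 := CharP.cast_eq_zero _ _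
  have eA : ((cA l v x (res (b : ℤ) l) : ℕ) : ZMod l) = v * (b * v + 2 * x) := by
    unfold cA
    rw [ZMod.natCast_mod]
    push_cast at cb ⊢
    rw [cb]
  have eB : ((cB l v x y z (res (b : ℤ) l) : ℕ) : ZMod l) = v * (b * y + z) + x * y := by
    unfold cB
    rw [ZMod.natCast_mod]
    push_cast at cb ⊢
    rw [cb]
  have eC : ((cC l y z (res (b : ℤ) l) : ℕ) : ZMod l) = y * (b * y + 2 * z) := by
    unfold cC
    rw [ZMod.natCast_mod]
    push_cast at cb ⊢
    rw [cb]
  have esub : ∀ n : ℕ, ((l - n % l : ℕ) : ZMod l) = -(n : ZMod l) := by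
    intro n
    rw [Nat.cast_sub (Nat.mod_lt _ hl).le, cl, ZMod.natCast_mod, zero_sub]
  refine ⟨res s l, res_lt s hl, ?_, ?_⟩
  · apply mod_res hl
    rw [Nat.cast_add, esub, Nat.cast_mul, Nat.cast_mul, eA, eB, eC, cs, h1]
    push_cast
    ring
  · apply mod_res hl
    rw [Nat.cast_add, esub, Nat.cast_mul, Nat.cast_mul, eB, eC, cs, h2]
    push_cast
    ring

end

section

variable {w : WL} {b : ℕ} {t P : ℤ} {D : ℕ} (H : Dt w b t P D)

include H

theorem st_sound {l I : ℕ} (G : Gd l D) (hI : chkI l I = true) {sk : ℕ → ℕ → Bool}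
    (hsk : sk (res t l) (res P l) = false) {k : ST → Bool}
    (h : st3 l I sk (mat w).1 (mat w).2.1 (mat w).2.2.1 (mat w).2.2.2 w l ST.nil k = true) :
    ∃ S, k S = true ∧ ST.Mem (res t l) (res (b : ℤ) l) (res (la (snoc w b) (f0 t P)) l)
      (tr l (snoc w b) (f0 t P)) S := by
  have hl : 0 < l := by have := G.l1; omega
  obtain ⟨S, hS, _, hm⟩ := st3_eq l I sk (mat w).1 (mat w).2.1 (mat w).2.2.1 (mat w).2.2.2 w l
    ST.nil
  rw [hS] at h
  refine ⟨S, h, ?_⟩
  obtain ⟨s, hs, e1, e2⟩ := H.prs hl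
  have cb := res_cast' (b : ℤ) hl
  have hT := hm (res (b : ℤ) l) (res_lt _ hl) s hs (res t l) (res P l) e1.symm e2.symm hsk
    (tr l (snoc w (res (b : ℤ) l)) (f0 t P)) (fun g => mkT_f0 G hI H.hD _ g)
  rw [lsq_tr, Nat.mul_div_cancel_left _ (by norm_num), la_snoc_congr w _ b,
    tr_snoc_congr hl (b' := b) (by rw [cb]; simp)] at hT
  exact hT

theorem stP_sound {l I Q : ℕ} (G : Gd l D) (hp : l.Prime) (hns : ¬ IsSquare ((D : ℤ) : ZMod l))
    (hI : chkI l I = true) (hQ : chkIq l Q = true) {k : ST → Bool}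
    (h : stP l I Q (mat w).1 (mat w).2.1 (mat w).2.2.1 (mat w).2.2.2 w k = true) :
    ∃ S, k S = true ∧ ST.Mem (res t l) (res (b : ℤ) l) (res (la (snoc w b) (f0 t P)) l)
      (tr l (snoc w b) (f0 t P)) S := by
  have hl : 0 < l := hp.pos
  apply st_sound H G hI ?_ h
  unfold skP
  by_contra hc
  have hc' := Bool.eq_true_of_not_eq_false hc
  have h2 := tb_square hl hQ hc'
  apply hns
  have h3 : ((Nat.add (Nat.mul (res t l) (res t l)) (Nat.mul 4 (res P l)) : ℕ) : ZMod l) =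
      ((D : ℤ) : ZMod l) := by
    rw [H.hD]
    change ((res t l * res t l + 4 * res P l : ℕ) : ZMod l) = _
    push_cast
    rw [res_cast' t hl, res_cast' P hl]
    ring
  rw [h3] at h2
  exact h2

theorem stF_sound (hD8 : D % 8 = 5) {k : ST → Bool}
    (h : stF (mat w).1 (mat w).2.1 (mat w).2.2.1 (mat w).2.2.2 w k = true) :
    ∃ S, k S = true ∧ ST.Mem (res t 4) (res (b : ℤ) 4) (res (la (snoc w b) (f0 t P)) 4)
      (tr 4 (snoc w b) (f0 t P)) S := by
  apply st_sound H (gd_four hD8) ci4 ?_ h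
  have hd := disc_f0 H.hD
  have ht : t % 2 = 1 := odd_B hD8 hd
  have hP : P % 2 = 1 := odd_A hD8 (f := (f0 t P).step 0) (by rw [Fm.disc_step]; exact hd)
  have e1 := res_int t (M := 4) (by norm_num)
  have e2 := res_int P (M := 4) (by norm_num)
  have h1 : Nat.beq (Nat.mod (res t 4) 2) 0 = false := by
    rw [Bool.eq_false_iff]
    intro hc
    have : res t 4 % 2 = 0 := Nat.eq_of_beq_eq_true hc
    omega
  have h2 : Nat.beq (Nat.mod (res P 4) 2) 0 = false := by
    rw [Bool.eq_false_iff]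
    intro hc
    have : res P 4 % 2 = 0 := Nat.eq_of_beq_eq_true hc
    omega
  unfold sk4
  rw [h1, h2]
  rfl

end

/-! ### Sums -/

section sums

variable {c : CD} [NeZero c.q] {D : ℤ}

theorem lk_snoc (w : WL) (b : ℕ) : lk (snoc w b) = 4 := by cases w <;> rfl

theorem rs2_eq {gx ge : ℕ → ℕ → ℕ} {l1 l2 : ℕ}
    (h : HE c D (fun f => gx (7 * res f.A l1) (7 * res f.A l2)) (fun f => ge (ix l1 f) (ix l2 f)))
    (w : WL) (b : ℕ) {f : Fm} (hf : f.disc = D) (u s : ℕ) :
    ∃ S d : ℕ, (S : ZMod c.p) + d * b = s + WSE (chi c.q c.p c.T) (snoc w b) f (u : ZMod c.p) ∧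
      ∀ k, rs2 gx ge w (tr l1 (snoc w b) f) (tr l2 (snoc w b) f) u s k = k S d := by
  induction w generalizing f u s with
  | nil =>
    refine ⟨s + gx (7 * res f.A l1) (7 * res f.A l2) *
      (2 * (ge (ix l1 f) (ix l2 f) % 128) + u * (ge (ix l1 f) (ix l2 f) / 128)),
      2 * (gx (7 * res (f.step b).A l1) (7 * res (f.step b).A l2) *
        (ge (ix l1 (f.step b)) (ix l2 (f.step b)) / 128)), ?_, ?_⟩
    · change _ = _ + WSE (chi c.q c.p c.T) (.cons b .nil) f (u : ZMod c.p)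
      rw [WSE_cons, WSE_nil]
      have h1 := h.hx f hf
      have h2 := h.hy f hf
      have h3 := h.hy (f.step b) (by rw [Fm.disc_step]; exact hf)
      have e : lk .nil = 2 := rfl
      rw [e, Nat.cast_add, Nat.cast_mul, Nat.cast_add, Nat.cast_mul, Nat.cast_mul, ← h2,
        Nat.cast_mul, Nat.cast_mul, h3]
      push_cast
      linear_combination 2 * h1
    · intro k
      have e : rs2 gx ge .nil (tr l1 (snoc .nil b) f) (tr l2 (snoc .nil b) f) u s k =
        force (ge (ix l1 f) (ix l2 f)) (fun e => force (Nat.add s (Nat.mul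
          (gx (7 * res f.A l1) (7 * res f.A l2)) (Nat.add (Nat.mul 2 (Nat.mod e 128))
          (Nat.mul u (Nat.div e 128))))) (fun s =>
          force (Nat.mul 2 (Nat.mul (gx (7 * res (f.step b).A l1) (7 * res (f.step b).A l2))
            (Nat.div (ge (ix l1 (f.step b)) (ix l2 (f.step b))) 128))) (fun c => k s c))) := rfl
      rw [e, force_eq, force_eq, force_eq]
      rfl
  | cons a v ih =>
    obtain ⟨S, d, hS, hk⟩ := ih (f := f.step a) (by rw [Fm.disc_step]; exact hf) (4 * a)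
      (s + gx (7 * res f.A l1) (7 * res f.A l2) *
      (2 * (ge (ix l1 f) (ix l2 f) % 128) + u * (ge (ix l1 f) (ix l2 f) / 128)))
    refine ⟨S, d, ?_, ?_⟩
    · rw [hS]
      change _ = _ + WSE (chi c.q c.p c.T) (.cons a (snoc v b)) f (u : ZMod c.p)
      rw [WSE_cons, lk_snoc]
      have h1 := h.hx f hf
      have h2 := h.hy f hf
      rw [Nat.cast_add, Nat.cast_mul, Nat.cast_add, Nat.cast_mul, Nat.cast_mul, ← h2]
      push_cast
      linear_combination 2 * h1
    · intro k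
      have e : rs2 gx ge (.cons a v) (tr l1 (snoc (.cons a v) b) f) (tr l2 (snoc (.cons a v) b) f)
        u s k = force (ge (ix l1 f) (ix l2 f)) (fun e => force (Nat.add s (Nat.mul
          (gx (7 * res f.A l1) (7 * res f.A l2))
        (Nat.add (Nat.mul 2 (Nat.mod e 128)) (Nat.mul u (Nat.div e 128)))))
        (fun s => rs2 gx ge v (tr l1 (snoc v b) (f.step a)) (tr l2 (snoc v b) (f.step a))
          (Nat.mul 4 a) s k)) := rfl
      rw [e, force_eq, force_eq]
      exact hk k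

theorem rs3_eq {gx ge : ℕ → ℕ → ℕ → ℕ} {l1 l2 l3 : ℕ}
    (h : HE c D (fun f => gx (7 * res f.A l1) (7 * res f.A l2) (7 * res f.A l3))
      (fun f => ge (ix l1 f) (ix l2 f) (ix l3 f)))
    (w : WL) (b : ℕ) {f : Fm} (hf : f.disc = D) (u s : ℕ) :
    ∃ S d : ℕ, (S : ZMod c.p) + d * b = s + WSE (chi c.q c.p c.T) (snoc w b) f (u : ZMod c.p) ∧
      ((∀ f : Fm, f.disc = D → SY (chi c.q c.p c.T) (f.A : ZMod c.q) f.B f.C = 0) →
        (d : ZMod c.p) = 0) ∧
      ∀ k, rs3 gx ge w (tr l1 (snoc w b) f) (tr l2 (snoc w b) f) (tr l3 (snoc w b) f) u s k =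
        k S d := by
  induction w generalizing f u s with
  | nil =>
    refine ⟨s + gx (7 * res f.A l1) (7 * res f.A l2) (7 * res f.A l3) *
      (2 * (ge (ix l1 f) (ix l2 f) (ix l3 f) % 128) + u * (ge (ix l1 f) (ix l2 f) (ix l3 f) / 128)),
      2 * (gx (7 * res (f.step b).A l1) (7 * res (f.step b).A l2) (7 * res (f.step b).A l3) *
        (ge (ix l1 (f.step b)) (ix l2 (f.step b)) (ix l3 (f.step b)) / 128)), ?_, ?_, ?_⟩
    · change _ = _ + WSE (chi c.q c.p c.T) (.cons b .nil) f (u : ZMod c.p)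
      rw [WSE_cons, WSE_nil]
      have h1 := h.hx f hf
      have h2 := h.hy f hf
      have h3 := h.hy (f.step b) (by rw [Fm.disc_step]; exact hf)
      have e : lk .nil = 2 := rfl
      rw [e, Nat.cast_add, Nat.cast_mul, Nat.cast_add, Nat.cast_mul, Nat.cast_mul, ← h2,
        Nat.cast_mul, Nat.cast_mul, h3]
      push_cast
      linear_combination 2 * h1
    · intro hz
      have h3 := h.hy (f.step b) (by rw [Fm.disc_step]; exact hf)
      rw [hz (f.step b) (by rw [Fm.disc_step]; exact hf)] at h3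
      rw [Nat.cast_mul, Nat.cast_mul, h3, mul_zero]
    · intro k
      have e : rs3 gx ge .nil (tr l1 (snoc .nil b) f) (tr l2 (snoc .nil b) f)
          (tr l3 (snoc .nil b) f) u s k =
        force (ge (ix l1 f) (ix l2 f) (ix l3 f)) (fun e => force (Nat.add s (Nat.mul
          (gx (7 * res f.A l1) (7 * res f.A l2) (7 * res f.A l3)) (Nat.add (Nat.mul 2
          (Nat.mod e 128)) (Nat.mul u (Nat.div e 128))))) (fun s =>
          force (Nat.mul 2 (Nat.mul (gx (7 * res (f.step b).A l1) (7 * res (f.step b).A l2)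
            (7 * res (f.step b).A l3))
            (Nat.div (ge (ix l1 (f.step b)) (ix l2 (f.step b)) (ix l3 (f.step b))) 128)))
            (fun c => k s c))) := rfl
      rw [e, force_eq, force_eq, force_eq]
      rfl
  | cons a v ih =>
    obtain ⟨S, d, hS, hd, hk⟩ := ih (f := f.step a) (by rw [Fm.disc_step]; exact hf) (4 * a)
      (s + gx (7 * res f.A l1) (7 * res f.A l2) (7 * res f.A l3) *
      (2 * (ge (ix l1 f) (ix l2 f) (ix l3 f) % 128) +
        u * (ge (ix l1 f) (ix l2 f) (ix l3 f) / 128)))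
    refine ⟨S, d, ?_, hd, ?_⟩
    · rw [hS]
      change _ = _ + WSE (chi c.q c.p c.T) (.cons a (snoc v b)) f (u : ZMod c.p)
      rw [WSE_cons, lk_snoc]
      have h1 := h.hx f hf
      have h2 := h.hy f hf
      rw [Nat.cast_add, Nat.cast_mul, Nat.cast_add, Nat.cast_mul, Nat.cast_mul, ← h2]
      push_cast
      linear_combination 2 * h1
    · intro k
      have e : rs3 gx ge (.cons a v) (tr l1 (snoc (.cons a v) b) f) (tr l2 (snoc (.cons a v) b) f)
        (tr l3 (snoc (.cons a v) b) f)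
        u s k = force (ge (ix l1 f) (ix l2 f) (ix l3 f)) (fun e => force (Nat.add s (Nat.mul
          (gx (7 * res f.A l1) (7 * res f.A l2) (7 * res f.A l3))
        (Nat.add (Nat.mul 2 (Nat.mod e 128)) (Nat.mul u (Nat.div e 128)))))
        (fun s => rs3 gx ge v (tr l1 (snoc v b) (f.step a)) (tr l2 (snoc v b) (f.step a))
          (tr l3 (snoc v b) (f.step a)) (Nat.mul 4 a) s k)) := rfl
      rw [e, force_eq, force_eq]
      exact hk k

theorem r0_eq {X0 E0 : ℕ → ℕ} {l1 l2 : ℕ}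
    (h : HE c D (fun f => sl1 (X0 (7 * res f.A l1)) (7 * res f.A l2))
      (fun f => sl1 (E0 (ix l1 f)) (ix l2 f)))
    (w : WL) (b : ℕ) {f : Fm} (hf : f.disc = D) (u : ZMod c.p) (a0 s : ℕ) :
    ∃ S : ℕ, (S : ZMod c.p) = 2 * s + WSE (chi c.q c.p c.T) (snoc w b) f u ∧
      ∀ k, R0e (.cons a0 w) (mp X0 E0 (tr l1 (snoc w b) f)) (tr l2 (snoc w b) f) s k = k S := by
  have hx : ∀ f : Fm, f.disc = D → (sl1 (X0 (7 * res f.A l1)) (7 * res f.A l2) : ZMod c.p) *
      ((sl1 (E0 (ix l1 f)) (ix l2 f) : ℕ) : ZMod c.p) =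
      6 * SE (chi c.q c.p c.T) (f.A : ZMod c.q) f.B f.C := by
    intro f hf
    have := h.hx f hf
    rw [Nat.mod_eq_of_lt (sl1_lt _ _)] at this
    exact this
  have hy : ∀ f : Fm, f.disc = D → SY (chi c.q c.p c.T) (f.A : ZMod c.q) f.B f.C = 0 := by
    intro f hf
    have := h.hy f hf
    rw [Nat.div_eq_of_lt (sl1_lt _ _), Nat.cast_zero, mul_zero] at this
    exact this.symm
  induction w generalizing f u a0 s with
  | nil =>
    refine ⟨2 * (s + sl1 (X0 (7 * res f.A l1)) (7 * res f.A l2) *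
      sl1 (E0 (ix l1 f)) (ix l2 f)), ?_, ?_⟩
    · change _ = _ + WSE (chi c.q c.p c.T) (.cons b .nil) f u
      rw [WSE_cons, WSE_nil]
      have h1 := hx f hf
      rw [hy f hf, hy (f.step b) (by rw [Fm.disc_step]; exact hf)]
      push_cast
      linear_combination 2 * h1
    · intro k
      have e : R0e (.cons a0 .nil) (mp X0 E0 (tr l1 (snoc .nil b) f)) (tr l2 (snoc .nil b) f) s k =
        force (Nat.add s (Nat.mul (sl1 (X0 (7 * res f.A l1)) (7 * res f.A l2))
          (sl1 (E0 (ix l1 f)) (ix l2 f)))) (fun s => force (Nat.mul 2 s) k) := rfl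
      rw [e, force_eq, force_eq]
      rfl
  | cons a v ih =>
    obtain ⟨S, hS, hk⟩ := ih (f := f.step a) (by rw [Fm.disc_step]; exact hf)
      (((lk (snoc v b) * a : ℕ) : ZMod c.p)) a
      (s + sl1 (X0 (7 * res f.A l1)) (7 * res f.A l2) * sl1 (E0 (ix l1 f)) (ix l2 f))
    refine ⟨S, ?_, ?_⟩
    · rw [hS]
      change _ = _ + WSE (chi c.q c.p c.T) (.cons a (snoc v b)) f u
      rw [WSE_cons]
      have h1 := hx f hf
      rw [hy f hf]
      push_cast
      linear_combination 2 * h1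
    · intro k
      have e : R0e (.cons a0 (.cons a v)) (mp X0 E0 (tr l1 (snoc (.cons a v) b) f))
          (tr l2 (snoc (.cons a v) b) f) s k =
        force (Nat.add s (Nat.mul (sl1 (X0 (7 * res f.A l1)) (7 * res f.A l2))
          (sl1 (E0 (ix l1 f)) (ix l2 f)))) (fun s => R0e (.cons a v)
            (mp X0 E0 (tr l1 (snoc v b) (f.step a)))
            (tr l2 (snoc v b) (f.step a)) s k) := rfl
      rw [e, force_eq]
      exact hk k

end sums

section rel

variable {c : CD} [NeZero c.q] {w : WL} {b : ℕ} {t P : ℤ} {D : ℕ} (hD : (D : ℤ) = t ^ 2 + 4 * P)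
  (hR : RelE (chi c.q c.p c.T) (snoc w b) t P = 0)

include hD hR

theorem co2_sound {gx ge : ℕ → ℕ → ℕ} {l1 l2 : ℕ}
    (h : HE c D (fun f => gx (7 * res f.A l1) (7 * res f.A l2)) (fun f => ge (ix l1 f) (ix l2 f)))
    {g : ℕ → ℕ → ℕ → Bool}
    (hg : co2 gx ge w (tr l1 (snoc w b) (f0 t P)) (tr l2 (snoc w b) (f0 t P)) g = true) :
    ∃ K c' d : ℕ, (K : ZMod c.p) + (c' * t + d * b) = 0 ∧ g K c' d = true := by
  obtain ⟨S, d, hS, hk⟩ := rs2_eq h w b (disc_f0 hD) 0 0
  unfold co2 at hg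
  rw [hk] at hg
  refine ⟨S, 2 * (ge (ix l1 (f0 t P)) (ix l2 (f0 t P)) / 128), d, ?_, ?_⟩
  · have h1 := h.h0 t P (disc_f0 hD)
    rw [Nat.cast_zero, zero_add, WSE_f0, zero_mul, add_zero] at hS
    rw [Nat.cast_mul, h1]
    unfold RelE at hR
    push_cast
    linear_combination hS + 2 * hR
  · cases w with
    | nil =>
      have e : (TL.hd (tr l1 (snoc .nil b) (f0 t P)) (fun _ i _ =>
        TL.hd (tr l2 (snoc .nil b) (f0 t P))
        (fun _ i' _ => force (Nat.mul 2 (Nat.div (ge i i') 128)) (fun c => g S c d)))) =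
        force (Nat.mul 2 (Nat.div (ge (ix l1 (f0 t P)) (ix l2 (f0 t P))) 128))
          (fun c => g S c d) := rfl
      rw [e, force_eq] at hg
      exact hg
    | cons a v =>
      have e : (TL.hd (tr l1 (snoc (.cons a v) b) (f0 t P)) (fun _ i _ =>
        TL.hd (tr l2 (snoc (.cons a v) b) (f0 t P))
        (fun _ i' _ => force (Nat.mul 2 (Nat.div (ge i i') 128)) (fun c => g S c d)))) =
        force (Nat.mul 2 (Nat.div (ge (ix l1 (f0 t P)) (ix l2 (f0 t P))) 128))
          (fun c => g S c d) := rfl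
      rw [e, force_eq] at hg
      exact hg

theorem co3_sound {gx ge : ℕ → ℕ → ℕ → ℕ} {l1 l2 l3 : ℕ}
    (h : HE c D (fun f => gx (7 * res f.A l1) (7 * res f.A l2) (7 * res f.A l3))
      (fun f => ge (ix l1 f) (ix l2 f) (ix l3 f)))
    {g : ℕ → ℕ → ℕ → Bool}
    (hg : co3 gx ge w (tr l1 (snoc w b) (f0 t P)) (tr l2 (snoc w b) (f0 t P))
      (tr l3 (snoc w b) (f0 t P)) g = true) :
    ∃ K c' d : ℕ, (K : ZMod c.p) + (c' * t + d * b) = 0 ∧ g K c' d = true := by
  obtain ⟨S, d, hS, _, hk⟩ := rs3_eq h w b (disc_f0 hD) 0 0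
  unfold co3 at hg
  rw [hk] at hg
  refine ⟨S, 2 * (ge (ix l1 (f0 t P)) (ix l2 (f0 t P)) (ix l3 (f0 t P)) / 128), d, ?_, ?_⟩
  · have h1 := h.h0 t P (disc_f0 hD)
    rw [Nat.cast_zero, zero_add, WSE_f0, zero_mul, add_zero] at hS
    rw [Nat.cast_mul, h1]
    unfold RelE at hR
    push_cast
    linear_combination hS + 2 * hR
  · cases w with
    | nil =>
      have e : (TL.hd (tr l1 (snoc .nil b) (f0 t P)) (fun _ i _ =>
        TL.hd (tr l2 (snoc .nil b) (f0 t P)) (fun _ i' _ =>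
        TL.hd (tr l3 (snoc .nil b) (f0 t P)) (fun _ i2 _ =>
        force (Nat.mul 2 (Nat.div (ge i i' i2) 128)) (fun c => g S c d))))) =
        force (Nat.mul 2 (Nat.div (ge (ix l1 (f0 t P)) (ix l2 (f0 t P)) (ix l3 (f0 t P))) 128))
          (fun c => g S c d) := rfl
      rw [e, force_eq] at hg
      exact hg
    | cons a v =>
      have e : (TL.hd (tr l1 (snoc (.cons a v) b) (f0 t P)) (fun _ i _ =>
        TL.hd (tr l2 (snoc (.cons a v) b) (f0 t P)) (fun _ i' _ =>
        TL.hd (tr l3 (snoc (.cons a v) b) (f0 t P)) (fun _ i2 _ =>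
        force (Nat.mul 2 (Nat.div (ge i i' i2) 128)) (fun c => g S c d))))) =
        force (Nat.mul 2 (Nat.div (ge (ix l1 (f0 t P)) (ix l2 (f0 t P)) (ix l3 (f0 t P))) 128))
          (fun c => g S c d) := rfl
      rw [e, force_eq] at hg
      exact hg

theorem cx2_sound {gx ge : ℕ → ℕ → ℕ} {l1 l2 : ℕ}
    (h : HE c D (fun f => gx (7 * res f.A l1) (7 * res f.A l2)) (fun f => ge (ix l1 f) (ix l2 f)))
    {p tt bb : ℕ} (hp : c.p = p) (ht : (tt : ZMod p) = t) (hb : (bb : ZMod p) = b) :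
    cx2 p gx ge w (tr l1 (snoc w b) (f0 t P)) (tr l2 (snoc w b) (f0 t P)) tt bb = true := by
  subst hp
  obtain ⟨S, d, hS, hk⟩ := rs2_eq h w b (disc_f0 hD) 0 0
  have h1 := h.h0 t P (disc_f0 hD)
  have key : l3 c.p S (2 * (ge (ix l1 (f0 t P)) (ix l2 (f0 t P)) / 128)) d tt bb = true := by
    unfold l3
    apply beq_mod
    rw [nadd, nadd, nmul, nmul]
    rw [Nat.cast_zero, zero_add, WSE_f0, zero_mul, add_zero] at hS
    unfold RelE at hR
    rw [Nat.cast_add, Nat.cast_add, Nat.cast_mul, Nat.cast_mul, Nat.cast_mul, h1, ht, hb]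
    push_cast
    linear_combination hS + 2 * hR
  unfold cx2 co2
  rw [hk]
  cases w with
  | nil =>
    change force (Nat.mul 2 (Nat.div (ge (ix l1 (f0 t P)) (ix l2 (f0 t P))) 128))
      (fun c' => l3 c.p S c' d tt bb) = true
    rw [force_eq]
    exact key
  | cons a v =>
    change force (Nat.mul 2 (Nat.div (ge (ix l1 (f0 t P)) (ix l2 (f0 t P))) 128))
      (fun c' => l3 c.p S c' d tt bb) = true
    rw [force_eq]
    exact key

theorem cx3_sound {gx ge : ℕ → ℕ → ℕ → ℕ} {l1 l2 l3 : ℕ}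
    (h : HE c D (fun f => gx (7 * res f.A l1) (7 * res f.A l2) (7 * res f.A l3))
      (fun f => ge (ix l1 f) (ix l2 f) (ix l3 f)))
    (hz : ∀ f : Fm, f.disc = D → SY (chi c.q c.p c.T) (f.A : ZMod c.q) f.B f.C = 0)
    {p : ℕ} (hp : c.p = p) :
    cx3 p gx ge w (tr l1 (snoc w b) (f0 t P)) (tr l2 (snoc w b) (f0 t P))
      (tr l3 (snoc w b) (f0 t P)) = true := by
  subst hp
  obtain ⟨S, d, hS, hd, hk⟩ := rs3_eq h w b (disc_f0 hD) 0 0
  have hz0 := hz (f0 t P) (disc_f0 hD)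
  have e1 : (((f0 t P).A : ℤ) : ZMod c.q) = 1 := by
    change ((1 : ℤ) : ZMod c.q) = 1
    simp
  rw [e1] at hz0
  have hz1 : SY (chi c.q c.p c.T) 1 (t : ZMod c.q) (P : ZMod c.q) = 0 := hz0
  have key : Nat.beq (Nat.mod S c.p) 0 = true := by
    apply beq_mod
    rw [Nat.cast_zero, zero_add, WSE_f0, zero_mul, add_zero, hd hz] at hS
    unfold RelE at hR
    rw [hz1] at hR
    linear_combination hS + 2 * hR
  unfold cx3 co3
  rw [hk]
  cases w with
  | nil =>
    change force (Nat.mul 2 (Nat.div (ge (ix l1 (f0 t P)) (ix l2 (f0 t P)) (ix l3 (f0 t P))) 128))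
      (fun _ => Nat.beq (Nat.mod S c.p) 0) = true
    rw [force_eq]
    exact key
  | cons a v =>
    change force (Nat.mul 2 (Nat.div (ge (ix l1 (f0 t P)) (ix l2 (f0 t P)) (ix l3 (f0 t P))) 128))
      (fun _ => Nat.beq (Nat.mod S c.p) 0) = true
    rw [force_eq]
    exact key

end rel

end Pool.Agent.V5helper47.CN
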