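import Pool.Agent.V5helper47.CN.T2
import Pool.Agent.V5helper47.CN.S2
import Pool.Agent.N911.TT
import Pool.Agent.N911.U6

/-! Entries of the relations and the facts used by the stages. -/

set_option maxRecDepth 100000

namespace Pool.Agent.V5helper47.CN

open H419R2 Pool.Agent.N911 Finset

theorem HE_mk {c : CD} [hne : NeZero c.q] (hc : c.OK) (hq : c.q ∣ Mall) {D : ℕ}
    (hcop : ∀ f : Fm, f.disc = D → IsCoprime f.A (c.q : ℤ))
    {X E : Fm → ℕ} (hX : ∀ f : Fm, f.disc = D → Chv c (X f) f.A)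
    (hE : ∀ f : Fm, f.disc = D → Ent c (E f) (nB f) (nC f)) : HE c D X E := by
  have hmul := chi_mul hc.mul
  refine ⟨?_, ?_, ?_⟩
  · intro f hf
    have e := iv_one hq (hcop f hf)
    push_cast at e
    rw [SE_scale hmul (A := (f.A : ZMod c.q)) e, hX f hf hne, (hE f hf hne).1]
    unfold nB nC
    push_cast
    ring
  · intro f hf
    have e := iv_one hq (hcop f hf)
    push_cast at e
    rw [SY_scale hmul (A := (f.A : ZMod c.q)) e, hX f hf hne, (hE f hf hne).2]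
    unfold nB nC
    push_cast
    ring
  · intro t P hf
    rw [(hE _ hf hne).2, nB_f0, nC_f0]

section he

variable {D : ℕ}

theorem Gd.cop2 {l1 l2 : ℕ} (H1 : Gd l1 D) (H2 : Gd l2 D) {f : Fm} (hf : f.disc = D) :
    IsCoprime f.A ((l1 * l2 : ℕ) : ℤ) := by
  push_cast
  exact (H1.cop f hf).mul_right (H2.cop f hf)

theorem Gd.cop3 {l1 l2 l3 : ℕ} (H1 : Gd l1 D) (H2 : Gd l2 D) (H3 : Gd l3 D) {f : Fm}
    (hf : f.disc = D) : IsCoprime f.A ((l1 * l2 * l3 : ℕ) : ℤ) := by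
  push_cast
  exact ((H1.cop f hf).mul_right (H2.cop f hf)).mul_right (H3.cop f hf)

theorem he_148_7 (H37 : Gd 37 D) (H4 : Gd 4 D) [NeZero c148_7.q] : HE c148_7 D
    (fun f => sl1 (sl 4 X148_7 (7 * res f.A 37)) (7 * res f.A 4))
    (fun f => sl1 (sl 16 E148_7 (ix 37 f)) (ix 4 f)) :=
  HE_mk c148_7_ok (by decide +kernel) (fun _ hf => H37.cop2 H4 hf) (fun f _ => chv_148_7 f.A)
    (fun f hf => tab_148_7 (H37.val f hf) (H4.val f hf))

theorem he_148_19 (H37 : Gd 37 D) (H4 : Gd 4 D) [NeZero c148_19.q] : HE c148_19 D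
    (fun f => sl1 (sl 4 X148_19 (7 * res f.A 37)) (7 * res f.A 4))
    (fun f => sl1 (sl 16 E148_19 (ix 37 f)) (ix 4 f)) :=
  HE_mk c148_19_ok (by decide +kernel) (fun _ hf => H37.cop2 H4 hf) (fun f _ => chv_148_19 f.A)
    (fun f hf => tab_148_19 (H37.val f hf) (H4.val f hf))

theorem he_259_2 (H37 : Gd 37 D) (H7 : Gd 7 D) [NeZero c259_19_2.q] : HE c259_19_2 D
    (fun f => sl1 (sl 7 X259_2 (7 * res f.A 37)) (7 * res f.A 7))
    (fun f => sl1 (sl 49 E259_2 (ix 37 f)) (ix 7 f)) :=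
  HE_mk c259_19_2_ok (by decide +kernel) (fun _ hf => H37.cop2 H7 hf) (fun f _ => chv_259_2 f.A)
    (fun f hf => tab_259_2 (H37.val f hf) (H7.val f hf))

theorem he_259_0 (H37 : Gd 37 D) (H7 : Gd 7 D) [NeZero c259_19_0.q] : HE c259_19_0 D
    (fun f => x259_0 (7 * res f.A 37) (7 * res f.A 7))
    (fun f => e259_0 (ix 37 f) (ix 7 f)) :=
  HE_mk c259_19_0_ok (by decide +kernel) (fun _ hf => H37.cop2 H7 hf) (fun f _ => chv_259_0 f.A)
    (fun f hf => tab_259_0 (H37.val f hf) (H7.val f hf))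

theorem he_259_1 (H37 : Gd 37 D) (H7 : Gd 7 D) [NeZero c259_19_1.q] : HE c259_19_1 D
    (fun f => x259_1 (7 * res f.A 37) (7 * res f.A 7))
    (fun f => e259_1 (ix 37 f) (ix 7 f)) :=
  HE_mk c259_19_1_ok (by decide +kernel) (fun _ hf => H37.cop2 H7 hf) (fun f _ => chv_259_1 f.A)
    (fun f hf => tab_259_1 (H37.val f hf) (H7.val f hf))

theorem he_133_37 (H7 : Gd 7 D) (H19 : Gd 19 D) [NeZero c133_37.q] : HE c133_37 D
    (fun f => x133_37 (7 * res f.A 7) (7 * res f.A 19))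
    (fun f => e133_37 (ix 7 f) (ix 19 f)) :=
  HE_mk c133_37_ok (by decide +kernel) (fun _ hf => H7.cop2 H19 hf) (fun f _ => chv_133_37 f.A)
    (fun f hf => tab_133_37 (H7.val f hf) (H19.val f hf))

theorem he_111_0 (H37 : Gd 37 D) (H3 : Gd 3 D) [NeZero c111_19_0.q] : HE c111_19_0 D
    (fun f => x111_0 (7 * res f.A 37) (7 * res f.A 3))
    (fun f => e111_0 (ix 37 f) (ix 3 f)) :=
  HE_mk c111_19_0_ok (by decide +kernel) (fun _ hf => H37.cop2 H3 hf) (fun f _ => chv_111_0 f.A)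
    (fun f hf => tab_111_0 (H37.val f hf) (H3.val f hf))

theorem he_111_1 (H37 : Gd 37 D) (H3 : Gd 3 D) [NeZero c111_19_1.q] : HE c111_19_1 D
    (fun f => x111_1 (7 * res f.A 37) (7 * res f.A 3))
    (fun f => e111_1 (ix 37 f) (ix 3 f)) :=
  HE_mk c111_19_1_ok (by decide +kernel) (fun _ hf => H37.cop2 H3 hf) (fun f _ => chv_111_1 f.A)
    (fun f hf => tab_111_1 (H37.val f hf) (H3.val f hf))

theorem he_228 (H19 : Gd 19 D) (H3 : Gd 3 D) (H4 : Gd 4 D) [NeZero c228_7.q] : HE c228_7 D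
    (fun f => x228 (7 * res f.A 19) (7 * res f.A 3) (7 * res f.A 4))
    (fun f => e228 (ix 19 f) (ix 3 f) (ix 4 f)) :=
  HE_mk c228_7_ok (by decide +kernel) (fun _ hf => H19.cop3 H3 H4 hf) (fun f _ => chv_228 f.A)
    (fun f hf => tab_228 (H19.val f hf) (H3.val f hf) (H4.val f hf))

theorem he_140 (H7 : Gd 7 D) (H4 : Gd 4 D) (H5 : Gd 5 D) [NeZero c140_13.q] : HE c140_13 D
    (fun f => x140 (7 * res f.A 7) (7 * res f.A 4) (7 * res f.A 5))
    (fun f => e140 (ix 7 f) (ix 4 f) (ix 5 f)) :=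
  HE_mk c140_13_ok (by decide +kernel) (fun _ hf => H7.cop3 H4 H5 hf) (fun f _ => chv_140 f.A)
    (fun f hf => tab_140 (H7.val f hf) (H4.val f hf) (H5.val f hf))

theorem he_95 (H19 : Gd 19 D) (H5 : Gd 5 D) [NeZero c95_13.q] : HE c95_13 D
    (fun f => x95 (7 * res f.A 19) (7 * res f.A 5))
    (fun f => e95 (ix 19 f) (ix 5 f)) :=
  HE_mk c95_13_ok (by decide +kernel) (fun _ hf => H19.cop2 H5 hf) (fun f _ => chv_95 f.A)
    (fun f hf => tab_95 (H19.val f hf) (H5.val f hf))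

theorem he_105 (H7 : Gd 7 D) (H3 : Gd 3 D) (H5 : Gd 5 D) [NeZero c105_13.q] : HE c105_13 D
    (fun f => x105 (7 * res f.A 7) (7 * res f.A 3) (7 * res f.A 5))
    (fun f => e105 (ix 7 f) (ix 3 f) (ix 5 f)) :=
  HE_mk c105_13_ok (by decide +kernel) (fun _ hf => H7.cop3 H3 H5 hf) (fun f _ => chv_105 f.A)
    (fun f hf => tab_105 (H7.val f hf) (H3.val f hf) (H5.val f hf))

theorem he_185 (H37 : Gd 37 D) (H5 : Gd 5 D) [NeZero c185_13.q] : HE c185_13 D
    (fun f => x185 (7 * res f.A 37) (7 * res f.A 5))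
    (fun f => e185 (ix 37 f) (ix 5 f)) :=
  HE_mk c185_13_ok (by decide +kernel) (fun _ hf => H37.cop2 H5 hf) (fun f _ => chv_185 f.A)
    (fun f hf => tab_185 (H37.val f hf) (H5.val f hf))

theorem he_133_13 (H7 : Gd 7 D) (H19 : Gd 19 D) [NeZero c133_13.q] : HE c133_13 D
    (fun f => x133_13 (7 * res f.A 7) (7 * res f.A 19))
    (fun f => e133_13 (ix 7 f) (ix 19 f)) :=
  HE_mk c133_13_ok (by decide +kernel) (fun _ hf => H7.cop2 H19 hf) (fun f _ => chv_133_13 f.A)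
    (fun f hf => tab_133_13 (H7.val f hf) (H19.val f hf))

theorem he_91 (H7 : Gd 7 D) (H13 : Gd 13 D) [NeZero c91_37.q] : HE c91_37 D
    (fun f => x91 (7 * res f.A 7) (7 * res f.A 13))
    (fun f => e91 (ix 7 f) (ix 13 f)) :=
  HE_mk c91_37_ok (by decide +kernel) (fun _ hf => H7.cop2 H13 hf) (fun f _ => chv_91 f.A)
    (fun f hf => tab_91 (H7.val f hf) (H13.val f hf))

theorem he_ev {c : CD} [NeZero c.q] (hc : c.OK) (hq : c.q ∣ Mall) {l1 e1 l2 e2 : ℕ}
    (H1 : Gd l1 D) (H2 : Gd l2 D) (hl : l1 * l2 = c.q) (h : idem l1 e1 l2 e2 c.q = true) :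
    HE c D (fun f => chD c e1 e2 (7 * res f.A l1) (7 * res f.A l2))
      (fun f => evD c l1 e1 l2 e2 (ix l1 f) (ix l2 f)) := by
  have h1 : 0 < l1 := by have := H1.l1; omega
  have h2 : 0 < l2 := by have := H2.l1; omega
  refine HE_mk hc hq (fun f hf => by rw [← hl]; exact H1.cop2 H2 hf)
    (fun f _ => chD_sound (l1 := l1) (e1 := e1) (l2 := l2) (e2 := e2) h1 h2 h f.A)
    (fun f _ => evD_sound hc (l1 := l1) (e1 := e1) (l2 := l2) (e2 := e2) h1 h2 h (nB f) (nC f))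

theorem he_133_73 (H7 : Gd 7 D) (H19 : Gd 19 D) [NeZero c133_73.q] : HE c133_73 D
    (fun f => x133_73 c133_73 (7 * res f.A 7) (7 * res f.A 19))
    (fun f => e133_73 c133_73 (ix 7 f) (ix 19 f)) :=
  he_ev c133_73_ok (by decide +kernel) H7 H19 (by decide +kernel) (by decide +kernel)

theorem he_247_0 (H13 : Gd 13 D) (H19 : Gd 19 D) [NeZero c247_73_0.q] : HE c247_73_0 D
    (fun f => x247 c247_73_0 (7 * res f.A 13) (7 * res f.A 19))
    (fun f => e247 c247_73_0 (ix 13 f) (ix 19 f)) :=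
  he_ev c247_73_0_ok (by decide +kernel) H13 H19 (by decide +kernel) (by decide +kernel)

theorem he_247_1 (H13 : Gd 13 D) (H19 : Gd 19 D) [NeZero c247_73_1.q] : HE c247_73_1 D
    (fun f => x247 c247_73_1 (7 * res f.A 13) (7 * res f.A 19))
    (fun f => e247 c247_73_1 (ix 13 f) (ix 19 f)) :=
  he_ev c247_73_1_ok (by decide +kernel) H13 H19 (by decide +kernel) (by decide +kernel)

theorem he_259_73 (H7 : Gd 7 D) (H37 : Gd 37 D) [NeZero c259_73.q] : HE c259_73 D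
    (fun f => x259_73 c259_73 (7 * res f.A 7) (7 * res f.A 37))
    (fun f => e259_73 c259_73 (ix 7 f) (ix 37 f)) :=
  he_ev c259_73_ok (by decide +kernel) H7 H37 (by decide +kernel) (by decide +kernel)

theorem he_143 (H11 : Gd 11 D) (H13 : Gd 13 D) [NeZero c143_7_0.q] : HE c143_7_0 D
    (fun f => x143 c143_7_0 (7 * res f.A 11) (7 * res f.A 13))
    (fun f => e143 c143_7_0 (ix 11 f) (ix 13 f)) :=
  he_ev c143_7_0_ok (by decide +kernel) H11 H13 (by decide +kernel) (by decide +kernel)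

theorem he_407 (H11 : Gd 11 D) (H37 : Gd 37 D) [NeZero c407_19_0.q] : HE c407_19_0 D
    (fun f => x407 c407_19_0 (7 * res f.A 11) (7 * res f.A 37))
    (fun f => e407 c407_19_0 (ix 11 f) (ix 37 f)) :=
  he_ev c407_19_0_ok (by decide +kernel) H11 H37 (by decide +kernel) (by decide +kernel)

theorem he_323_7 (H17 : Gd 17 D) (H19 : Gd 19 D) [NeZero c323_7_0.q] : HE c323_7_0 D
    (fun f => x323 c323_7_0 (7 * res f.A 17) (7 * res f.A 19))
    (fun f => e323 c323_7_0 (ix 17 f) (ix 19 f)) :=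
  he_ev c323_7_0_ok (by decide +kernel) H17 H19 (by decide +kernel) (by decide +kernel)

theorem he_323_37 (H17 : Gd 17 D) (H19 : Gd 19 D) [NeZero c323_37_0.q] : HE c323_37_0 D
    (fun f => x323 c323_37_0 (7 * res f.A 17) (7 * res f.A 19))
    (fun f => e323 c323_37_0 (ix 17 f) (ix 19 f)) :=
  he_ev c323_37_0_ok (by decide +kernel) H17 H19 (by decide +kernel) (by decide +kernel)

theorem he_95_109 (H19 : Gd 19 D) (H5 : Gd 5 D) [NeZero c95_109.q] : HE c95_109 D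
    (fun f => x95_109 c95_109 (7 * res f.A 19) (7 * res f.A 5))
    (fun f => e95_109 c95_109 (ix 19 f) (ix 5 f)) :=
  he_ev c95_109_ok (by decide +kernel) H19 H5 (by decide +kernel) (by decide +kernel)

theorem he_148_109 (H37 : Gd 37 D) (H4 : Gd 4 D) [NeZero c148_109.q] : HE c148_109 D
    (fun f => x148_109 c148_109 (7 * res f.A 37) (7 * res f.A 4))
    (fun f => e148_109 c148_109 (ix 37 f) (ix 4 f)) :=
  he_ev c148_109_ok (by decide +kernel) H37 H4 (by decide +kernel) (by decide +kernel)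

end he

/-- an inert prime of the list -/
structure In (l D : ℕ) : Prop where
  pr : l.Prime
  dv : l ∣ Mall
  n2 : l ≠ 2
  ns : ¬ IsSquare ((D : ℤ) : ZMod l)

theorem In.gd {l D : ℕ} (h : In l D) : Gd l D := gd_prime h.pr h.dv h.n2 h.ns

/-- what is used about a half word, a centre letter and parameters -/
structure Sys (w : WL) (b : ℕ) (t P : ℤ) (D : ℕ) : Prop where
  dt : Dt w b t P D
  d8 : D % 8 = 5
  good : GoodE (snoc w b) t P D

section rel

variable {w : WL} {b : ℕ} {t P : ℤ} {D : ℕ} (S : Sys w b t P D)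

include S

theorem Sys.g4 : Gd 4 D := gd_four S.d8

theorem Sys.rel {c : CD} (hc : c.OK) (h1 : Nat.Coprime c.q D) (h2 : Nat.Coprime c.p D)
    [NeZero c.q] : RelE (chi c.q c.p c.T) (snoc w b) t P = 0 := by
  have hP2 : P % 2 = 1 := odd_A S.d8 (f := (f0 t P).step 0)
    (by rw [Fm.disc_step]; exact disc_f0 S.dt.hD)
  have h3 : ¬ (c.p : ℤ) ∣ D := by
    intro h
    have h4 : c.p ∣ D := by exact_mod_cast h
    have h5 : c.p ∣ 1 := by
      rw [← h2]
      exact Nat.dvd_gcd dvd_rfl h4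
    exact hc.pp.one_lt.ne' (Nat.dvd_one.mp h5)
  exact S.good.rel_mod hP2 hc.pp hc.p2 h3 h1 _ (chi_mul hc.mul)
    (chi_neg hc.q1 hc.mul hc.oth) (chi_sum hc.oth)

theorem Sys.rel2 {c : CD} (hc : c.OK) {l1 l2 p : ℕ} (H1 : Gd l1 D) (H2 : Gd l2 D) (Hp : Gd p D)
    (hl : l1 * l2 = c.q) (hp : c.p = p) [NeZero c.q] :
    RelE (chi c.q c.p c.T) (snoc w b) t P = 0 := by
  apply S.rel hc
  · rw [← hl]; exact Nat.Coprime.mul_left H1.cD H2.cD
  · rw [hp]; exact Hp.cD

theorem Sys.rel3 {c : CD} (hc : c.OK) {l1 l2 l3 p : ℕ} (H1 : Gd l1 D) (H2 : Gd l2 D)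
    (H3 : Gd l3 D) (Hp : Gd p D)
    (hl : l1 * l2 * l3 = c.q) (hp : c.p = p) [NeZero c.q] :
    RelE (chi c.q c.p c.T) (snoc w b) t P = 0 := by
  apply S.rel hc
  · rw [← hl]; exact Nat.Coprime.mul_left (Nat.Coprime.mul_left H1.cD H2.cD) H3.cD
  · rw [hp]; exact Hp.cD

end rel

/-! ### Guards -/

theorem gd_true {fl c x : Bool} (h : gd fl c x = true) (hc : fl = false → c = true) : x = true := by
  cases fl with
  | true => exact h
  | false => exact imp_true h (hc rfl)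

theorem gc_true {fl : Bool} {F : (ℕ → ℕ → ℕ → Bool) → Bool} {k : ℕ → ℕ → ℕ → Bool}
    {p : ℕ} {t : ℤ} {b : ℕ} (h : gc fl F k = true)
    (hF : fl = false → ∀ k', F k' = true → ∃ K c d : ℕ, (K : ZMod p) + (c * t + d * b) = 0 ∧
      k' K c d = true) :
    ∃ K c d : ℕ, (K : ZMod p) + (c * t + d * b) = 0 ∧ k K c d = true := by
  cases fl with
  | true => exact ⟨0, 0, 0, by simp, h⟩
  | false => exact hF rfl k h

theorem l3_sound {p K c d tt bb : ℕ} {t : ℤ} {b : ℕ} (h : (K : ZMod p) + (c * t + d * b) = 0)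
    (ht : (tt : ZMod p) = t) (hb : (bb : ZMod p) = b) : l3 p K c d tt bb = true := by
  unfold l3
  apply beq_mod
  rw [nadd, nadd, nmul, nmul]
  push_cast
  rw [ht, hb]
  linear_combination h

/-- states present -/
def SM (w : WL) (b : ℕ) (t P : ℤ) (l : ℕ) (S : ST) : Prop :=
  ST.Mem (res t l) (res (b : ℤ) l) (res (la (snoc w b) (f0 t P)) l) (tr l (snoc w b) (f0 t P)) S

theorem lv_true {w : WL} {b : ℕ} {t P : ℤ} {fl : Bool} {af l : ℕ} {S : ST}
    {f : ℕ → ℕ → TL → Bool} (hl : 1 < l) (h : lv fl af l S f = true)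
    (haf : af = 0 ∨ la (snoc w b) (f0 t P) = af)
    (hS : fl = false → SM w b t P l S) :
    ∃ tt bb T, (fl = false → tt = res t l ∧ bb = res (b : ℤ) l ∧
      T = tr l (snoc w b) (f0 t P)) ∧ f tt bb T = true := by
  cases fl with
  | true => exact ⟨0, 0, TL.nil, fun h => absurd h (by simp), h⟩
  | false =>
    refine ⟨res t l, res (b : ℤ) l, tr l (snoc w b) (f0 t P), fun _ => ⟨rfl, rfl, rfl⟩, ?_⟩
    have h1 := ST.all_mem h (hS rfl)
    apply imp_true h1
    rw [Bool.or_eq_true]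
    rcases haf with h2 | h2
    · left
      rw [h2]; rfl
    · right
      have : Nat.mod af l = res (la (snoc w b) (f0 t P)) l := by
        apply res_unique (Nat.mod_lt _ (by omega))
        rw [h2]
        change ((af % l : ℕ) : ZMod l) = ((af : ℤ) : ZMod l)
        rw [ZMod.natCast_mod]
        simp
      rw [this]
      exact Nat.beq_refl _

/-- conditional description of a trace -/
def TQ (w : WL) (b : ℕ) (t P : ℤ) (l : ℕ) (fl : Bool) (T : TL) : Prop :=
  fl = false → T = tr l (snoc w b) (f0 t P)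

/-- conditional description of residues -/
def RQ (b : ℕ) (t : ℤ) (l : ℕ) (fl : Bool) (tt bb : ℕ) : Prop :=
  fl = false → (tt : ZMod l) = t ∧ (bb : ZMod l) = b

theorem lv_true' {w : WL} {b : ℕ} {t P : ℤ} {fl : Bool} {af l : ℕ} {S : ST}
    {f : ℕ → ℕ → TL → Bool} (hl : 1 < l) (h : lv fl af l S f = true)
    (haf : af = 0 ∨ la (snoc w b) (f0 t P) = af)
    (hS : fl = false → SM w b t P l S) :
    ∃ tt bb T, RQ b t l fl tt bb ∧ TQ w b t P l fl T ∧ f tt bb T = true := by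
  obtain ⟨tt, bb, T, h1, h2⟩ := lv_true hl h haf hS
  refine ⟨tt, bb, T, ?_, ?_, h2⟩
  · intro h0
    obtain ⟨e1, e2, _⟩ := h1 h0
    rw [e1, e2]
    exact ⟨res_cast' t (by omega), by rw [res_cast' (b : ℤ) (by omega)]; simp⟩
  · intro h0
    exact (h1 h0).2.2

theorem or_false' {a b : Bool} (h : or a b = false) : a = false ∧ b = false := by
  cases a <;> cases b <;> simp_all

end Pool.Agent.V5helper47.CN
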