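import Pool.Agent.V5helper47.CN.T3

/-! Soundness of the stages. -/

set_option maxRecDepth 100000

namespace Pool.Agent.V5helper47.CN

open H419R2 Pool.Agent.N911 Finset

theorem rs2_mp {gx ge : ℕ → ℕ → ℕ} (fx fe : ℕ → ℕ) (w : WL) : ∀ (T T' : TL) (u s : ℕ)
    (k : ℕ → ℕ → Bool), rs2 gx ge w (mp fx fe T) T' u s k =
      rs2 (fun a b => gx (fx a) b) (fun a b => ge (fe a) b) w T T' u s k := by
  induction w with
  | nil =>
    intro T T' u s k
    cases T with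
    | nil => rfl
    | cons q i r =>
      cases r with
      | nil => rfl
      | cons q1 i1 r1 => rfl
  | cons a v ih =>
    intro T T' u s k
    cases T with
    | nil => rfl
    | cons q i r =>
      cases T' with
      | nil => rfl
      | cons q' i' r' =>
        have e1 : rs2 gx ge (.cons a v) (mp fx fe (.cons q i r)) (.cons q' i' r') u s k =
          force (ge (fe i) i') (fun e => force (Nat.add s (Nat.mul (gx (fx q) q')
            (Nat.add (Nat.mul 2 (Nat.mod e 128)) (Nat.mul u (Nat.div e 128)))))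
            (fun s => rs2 gx ge v (mp fx fe r) r' (Nat.mul 4 a) s k)) := rfl
        have e2 : rs2 (fun a b => gx (fx a) b) (fun a b => ge (fe a) b) (.cons a v)
          (.cons q i r) (.cons q' i' r') u s k =
          force (ge (fe i) i') (fun e => force (Nat.add s (Nat.mul (gx (fx q) q')
            (Nat.add (Nat.mul 2 (Nat.mod e 128)) (Nat.mul u (Nat.div e 128)))))
            (fun s => rs2 (fun a b => gx (fx a) b) (fun a b => ge (fe a) b) v r r'
              (Nat.mul 4 a) s k)) := rfl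
        rw [e1, e2]
        congr 1
        funext e
        congr 1
        funext s
        exact ih _ _ _ _ _

theorem co2_mp {gx ge : ℕ → ℕ → ℕ} (fx fe : ℕ → ℕ) (w : WL) (T T' : TL)
    (g : ℕ → ℕ → ℕ → Bool) : co2 gx ge w (mp fx fe T) T' g =
      co2 (fun a b => gx (fx a) b) (fun a b => ge (fe a) b) w T T' g := by
  unfold co2
  rw [rs2_mp]
  congr 1
  funext K d
  cases T with
  | nil => rfl
  | cons q i r => rfl

theorem ck0_sound {c : CD} [NeZero c.q] {w : WL} {b : ℕ} {t P : ℤ} {D : ℕ}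
    (hD : (D : ℤ) = t ^ 2 + 4 * P) (hR : RelE (chi c.q c.p c.T) (snoc w b) t P = 0)
    {X0 E0 : ℕ → ℕ} {l1 l2 : ℕ}
    (h : HE c D (fun f => sl1 (X0 (7 * res f.A l1)) (7 * res f.A l2))
      (fun f => sl1 (E0 (ix l1 f)) (ix l2 f))) {p : ℕ} (hp : c.p = p) :
    ck0e p (WL.cons 0 w) (mp X0 E0 (tr l1 (snoc w b) (f0 t P))) (tr l2 (snoc w b) (f0 t P)) =
      true := by
  subst hp
  obtain ⟨S, hS, hk⟩ := r0_eq h w b (disc_f0 hD) (2 * t : ZMod c.p) 0 0
  unfold ck0e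
  rw [hk]
  apply beq_mod
  rw [hS, Nat.cast_zero, mul_zero, zero_add]
  exact relE_two hR

section stages

variable {w : WL} {b : ℕ} {t P : ℤ} {D : ℕ} (S : Sys w b t P D)
  {d3 d5 d7 d13 d19 d37 : Bool} {af : ℕ}
  (haf : af = 0 ∨ la (snoc w b) (f0 t P) = af)
  (h3 : d3 = false → In 3 D) (h5 : d5 = false → In 5 D) (h7 : d7 = false → In 7 D)
  (h13 : d13 = false → In 13 D) (h19 : d19 = false → In 19 D) (h37 : d37 = false → In 37 D)

include S haf h5 h7 h13 h19 h37 h3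

theorem r13_sound {S13 : ST} (m13 : d13 = false → SM w b t P 13 S13)
    {t37 b37 : ℕ} {T37 T7 T19 T3 T5 : TL} (q37 : RQ b t 37 d37 t37 b37)
    (e37 : TQ w b t P 37 d37 T37) (e7 : TQ w b t P 7 d7 T7) (e19 : TQ w b t P 19 d19 T19)
    (e3 : TQ w b t P 3 d3 T3) (e5 : TQ w b t P 5 d5 T5) {g : TL → Bool}
    (h : r13 d3 d5 d7 d13 d19 d37 af w S13 t37 b37 T37 T7 T19 T3 T5 g = true) :
    ∃ T13, TQ w b t P 13 d13 T13 ∧ g T13 = true := by
  have i1 : NeZero c95_13.q := ⟨by decide +kernel⟩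
  have i2 : NeZero c105_13.q := ⟨by decide +kernel⟩
  have i3 : NeZero c185_13.q := ⟨by decide +kernel⟩
  have i4 : NeZero c133_13.q := ⟨by decide +kernel⟩
  have i5 : NeZero c91_37.q := ⟨by decide +kernel⟩
  have hD := S.dt.hD
  unfold r13 at h
  cases d13 with
  | true =>
    simp only [Bool.or_true, Bool.true_or] at h
    exact ⟨TL.nil, fun h => absurd h (by simp), h⟩
  | false =>
    obtain ⟨K, c, d, e, h⟩ := gc_true (p := 13) (t := t) (b := b) h (by
      intro hf k' hF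
      obtain ⟨f19, hf⟩ := or_false' hf
      obtain ⟨f5, f13⟩ := or_false' hf
      rw [e19 f19, e5 f5] at hF
      exact co2_sound hD (S.rel2 c95_13_ok (h19 f19).gd (h5 f5).gd (h13 f13).gd rfl rfl)
        (he_95 (h19 f19).gd (h5 f5).gd) hF)
    obtain ⟨K1, c1, d1, e1, h⟩ := gc_true (p := 13) (t := t) (b := b) h (by
      intro hf k' hF
      obtain ⟨f7, hf⟩ := or_false' hf
      obtain ⟨f3, hf⟩ := or_false' hf
      obtain ⟨f5, f13⟩ := or_false' hf
      rw [e7 f7, e3 f3, e5 f5] at hF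
      exact co3_sound hD (S.rel3 c105_13_ok (h7 f7).gd (h3 f3).gd (h5 f5).gd (h13 f13).gd rfl rfl)
        (he_105 (h7 f7).gd (h3 f3).gd (h5 f5).gd) hF)
    obtain ⟨K2, c2, d2, e2, h⟩ := gc_true (p := 13) (t := t) (b := b) h (by
      intro hf k' hF
      obtain ⟨f37, hf⟩ := or_false' hf
      obtain ⟨f5, f13⟩ := or_false' hf
      rw [e37 f37, e5 f5] at hF
      exact co2_sound hD (S.rel2 c185_13_ok (h37 f37).gd (h5 f5).gd (h13 f13).gd rfl rfl)
        (he_185 (h37 f37).gd (h5 f5).gd) hF)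
    obtain ⟨K3, c3, d3', e3', h⟩ := gc_true (p := 13) (t := t) (b := b) h (by
      intro hf k' hF
      obtain ⟨f7, hf⟩ := or_false' hf
      obtain ⟨f19, f13⟩ := or_false' hf
      rw [e7 f7, e19 f19] at hF
      exact co2_sound hD (S.rel2 c133_13_ok (h7 f7).gd (h19 f19).gd (h13 f13).gd rfl rfl)
        (he_133_13 (h7 f7).gd (h19 f19).gd) hF)
    obtain ⟨tt, bb, T13, q13, e13, h⟩ := lv_true' (by norm_num) h haf m13
    obtain ⟨ht, hb⟩ := q13 rfl
    have h := imp_true (imp_true (imp_true (imp_true h (l3_sound e ht hb)) (l3_sound e1 ht hb))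
      (l3_sound e2 ht hb)) (l3_sound e3' ht hb)
    refine ⟨T13, e13, gd_true h ?_⟩
    intro hf
    obtain ⟨f7, hf⟩ := or_false' hf
    obtain ⟨f13, f37⟩ := or_false' hf
    obtain ⟨h1, h2⟩ := q37 f37
    rw [e7 f7, e13 f13]
    exact cx2_sound hD (S.rel2 c91_37_ok (h7 f7).gd (h13 f13).gd (h37 f37).gd rfl rfl)
      (he_91 (h7 f7).gd (h13 f13).gd) rfl h1 h2

theorem r3_sound {S4 S3 S5 S13 : ST} (m4 : SM w b t P 4 S4) (m3 : d3 = false → SM w b t P 3 S3)
    (m5 : d5 = false → SM w b t P 5 S5) (m13 : d13 = false → SM w b t P 13 S13)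
    {t37 b37 : ℕ} {T37 T7 : TL} (q37 : RQ b t 37 d37 t37 b37)
    (e37 : TQ w b t P 37 d37 T37) (e7 : TQ w b t P 7 d7 T7)
    {t19 b19 : ℕ} {T19 : TL} (q19 : RQ b t 19 d19 t19 b19) (e19 : TQ w b t P 19 d19 T19)
    {g : TL → TL → TL → TL → Bool}
    (h : r3 d3 d5 d7 d13 d19 d37 af w S4 S3 S5 S13 t37 b37 T37
      (mp (sl 4 X148_7) (sl 16 E148_7) T37) (mp (sl 4 X148_19) (sl 16 E148_19) T37) T7 t19 b19 T19
      g = true) :
    ∃ T4 T3 T5 T13, TQ w b t P 4 false T4 ∧ TQ w b t P 3 d3 T3 ∧ TQ w b t P 5 d5 T5 ∧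
      TQ w b t P 13 d13 T13 ∧ g T4 T3 T5 T13 = true := by
  have i1 : NeZero c111_19_0.q := ⟨by decide +kernel⟩
  have i2 : NeZero c111_19_1.q := ⟨by decide +kernel⟩
  have i3 : NeZero c148_7.q := ⟨by decide +kernel⟩
  have i4 : NeZero c148_19.q := ⟨by decide +kernel⟩
  have i5 : NeZero c228_7.q := ⟨by decide +kernel⟩
  have i6 : NeZero c140_13.q := ⟨by decide +kernel⟩
  have hD := S.dt.hD
  have G4 := S.g4
  unfold r3 at h
  obtain ⟨_, _, T3, q3, e3, h⟩ := lv_true' (by norm_num) h haf m3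
  have h := gd_true h (by
    intro hf
    obtain ⟨f37, hf⟩ := or_false' hf
    obtain ⟨f3, f19⟩ := or_false' hf
    obtain ⟨h1, h2⟩ := q19 f19
    rw [e37 f37, e3 f3]
    exact cx2_sound hD (S.rel2 c111_19_0_ok (h37 f37).gd (h3 f3).gd (h19 f19).gd rfl rfl)
      (he_111_0 (h37 f37).gd (h3 f3).gd) rfl h1 h2)
  have h := gd_true h (by
    intro hf
    obtain ⟨f37, hf⟩ := or_false' hf
    obtain ⟨f3, f19⟩ := or_false' hf
    obtain ⟨h1, h2⟩ := q19 f19
    rw [e37 f37, e3 f3]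
    exact cx2_sound hD (S.rel2 c111_19_1_ok (h37 f37).gd (h3 f3).gd (h19 f19).gd rfl rfl)
      (he_111_1 (h37 f37).gd (h3 f3).gd) rfl h1 h2)
  obtain ⟨_, _, T4, q4, e4, h⟩ := lv_true' (by norm_num) h haf (fun _ => m4)
  have h := gd_true h (by
    intro hf
    obtain ⟨f37, f7⟩ := or_false' hf
    rw [e37 f37, e4 rfl]
    exact ck0_sound hD (S.rel2 c148_7_ok (h37 f37).gd G4 (h7 f7).gd rfl rfl)
      (he_148_7 (h37 f37).gd G4) rfl)
  have h := gd_true h (by
    intro hf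
    obtain ⟨f37, f19⟩ := or_false' hf
    rw [e37 f37, e4 rfl]
    exact ck0_sound hD (S.rel2 c148_19_ok (h37 f37).gd G4 (h19 f19).gd rfl rfl)
      (he_148_19 (h37 f37).gd G4) rfl)
  have h := gd_true h (by
    intro hf
    obtain ⟨f19, hf⟩ := or_false' hf
    obtain ⟨f3, f7⟩ := or_false' hf
    rw [e19 f19, e3 f3, e4 rfl]
    have H := he_228 (h19 f19).gd (h3 f3).gd G4
    exact cx3_sound hD (S.rel3 c228_7_ok (h19 f19).gd (h3 f3).gd G4 (h7 f7).gd rfl rfl)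
      H (by
        intro f hf
        rw [← H.hy f hf]
        have e : e228 (ix 19 f) (ix 3 f) (ix 4 f) / 128 = 0 := Nat.div_eq_of_lt (sl1_lt _ _)
        rw [e]; simp) rfl)
  obtain ⟨_, _, T5, q5, e5, h⟩ := lv_true' (by norm_num) h haf m5
  have h := gd_true h (by
    intro hf
    obtain ⟨f7, hf⟩ := or_false' hf
    obtain ⟨f5, f13⟩ := or_false' hf
    rw [e7 f7, e5 f5, e4 rfl]
    have H := he_140 (h7 f7).gd G4 (h5 f5).gd
    exact cx3_sound hD (S.rel3 c140_13_ok (h7 f7).gd G4 (h5 f5).gd (h13 f13).gd rfl rfl)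
      H (by
        intro f hf
        rw [← H.hy f hf]
        have e : e140 (ix 7 f) (ix 4 f) (ix 5 f) / 128 = 0 := Nat.div_eq_of_lt (sl1_lt _ _)
        rw [e]; simp) rfl)
  obtain ⟨T13, e13, h⟩ := r13_sound S haf h3 h5 h7 h13 h19 h37 m13 q37 e37 e7 e19 e3 e5 h
  exact ⟨T4, T3, T5, T13, e4, e3, e5, e13, h⟩

theorem r7_sound {S4 S7 S19 S3 S5 S13 : ST} (m4 : SM w b t P 4 S4)
    (m7 : d7 = false → SM w b t P 7 S7) (m19 : d19 = false → SM w b t P 19 S19)
    (m3 : d3 = false → SM w b t P 3 S3)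
    (m5 : d5 = false → SM w b t P 5 S5) (m13 : d13 = false → SM w b t P 13 S13)
    {t37 b37 : ℕ} {T37 : TL} (q37 : RQ b t 37 d37 t37 b37)
    (e37 : TQ w b t P 37 d37 T37) {g : Last}
    (h : r7 d3 d5 d7 d13 d19 d37 af w S4 S7 S19 S3 S5 S13 t37 b37 T37
      (mp (sl 4 X148_7) (sl 16 E148_7) T37) (mp (sl 4 X148_19) (sl 16 E148_19) T37) g = true) :
    ∃ T4 t7 b7 T7 t19 b19 T19 T3 T5 T13, TQ w b t P 4 false T4 ∧ RQ b t 7 d7 t7 b7 ∧
      TQ w b t P 7 d7 T7 ∧ RQ b t 19 d19 t19 b19 ∧ TQ w b t P 19 d19 T19 ∧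
      TQ w b t P 3 d3 T3 ∧ TQ w b t P 5 d5 T5 ∧
      TQ w b t P 13 d13 T13 ∧ g t37 b37 T37 T4 t7 b7 T7 t19 b19 T19 T3 T5 T13 = true := by
  have i1 : NeZero c259_19_0.q := ⟨by decide +kernel⟩
  have i2 : NeZero c259_19_1.q := ⟨by decide +kernel⟩
  have i3 : NeZero c259_19_2.q := ⟨by decide +kernel⟩
  have i4 : NeZero c133_37.q := ⟨by decide +kernel⟩
  have hD := S.dt.hD
  unfold r7 at h
  rw [mapT_eq, mapT_eq, mapT_eq] at h
  obtain ⟨t7, b7, T7, q7, e7, h⟩ := lv_true' (by norm_num) h haf m7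
  have h := gd_true h (by
    intro hf
    obtain ⟨f37, hf⟩ := or_false' hf
    obtain ⟨f7, f19⟩ := or_false' hf
    rw [e37 f37, e7 f7]
    exact ck0_sound hD (S.rel2 c259_19_2_ok (h37 f37).gd (h7 f7).gd (h19 f19).gd rfl rfl)
      (he_259_2 (h37 f37).gd (h7 f7).gd) rfl)
  have key : ∃ t19 b19 T19, RQ b t 19 d19 t19 b19 ∧ TQ w b t P 19 d19 T19 ∧
      gd (or d7 (or d19 d37)) (cx2 37 x133_37 e133_37 w T7 T19 t37 b37)
          (r3 d3 d5 d7 d13 d19 d37 af w S4 S3 S5 S13 t37 b37 T37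
            (mp (sl 4 X148_7) (sl 16 E148_7) T37) (mp (sl 4 X148_19) (sl 16 E148_19) T37) T7 t19
            b19 T19 (fun T4 T3 T5 T13 => g t37 b37 T37 T4 t7 b7 T7 t19 b19 T19 T3 T5 T13)) =
      true := by
    cases d19 with
    | true =>
      simp only [Bool.or_true, Bool.true_or] at h
      exact ⟨0, 0, TL.nil, fun h => absurd h (by simp), fun h => absurd h (by simp), by
        simp only [Bool.or_true, Bool.true_or]; exact h⟩
    | false =>
      obtain ⟨K, c, d, e, h⟩ := gc_true (p := 19) (t := t) (b := b) h (by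
        intro hf k' hF
        obtain ⟨f37, hf⟩ := or_false' hf
        obtain ⟨f7, f19⟩ := or_false' hf
        rw [e37 f37, e7 f7, co2_mp] at hF
        exact co2_sound hD (S.rel2 c259_19_0_ok (h37 f37).gd (h7 f7).gd (h19 f19).gd rfl rfl)
          (he_259_0 (h37 f37).gd (h7 f7).gd) hF)
      obtain ⟨K1, c1, d1, e1, h⟩ := gc_true (p := 19) (t := t) (b := b) h (by
        intro hf k' hF
        obtain ⟨f37, hf⟩ := or_false' hf
        obtain ⟨f7, f19⟩ := or_false' hf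
        rw [e37 f37, e7 f7, co2_mp] at hF
        exact co2_sound hD (S.rel2 c259_19_1_ok (h37 f37).gd (h7 f7).gd (h19 f19).gd rfl rfl)
          (he_259_1 (h37 f37).gd (h7 f7).gd) hF)
      obtain ⟨t19, b19, T19, q19, e19, h⟩ := lv_true' (by norm_num) h haf m19
      obtain ⟨ht, hb⟩ := q19 rfl
      exact ⟨t19, b19, T19, q19, e19,
        imp_true (imp_true h (l3_sound e ht hb)) (l3_sound e1 ht hb)⟩
  obtain ⟨t19, b19, T19, q19, e19, h⟩ := key
  have h := gd_true h (by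
    intro hf
    obtain ⟨f7, hf⟩ := or_false' hf
    obtain ⟨f19, f37⟩ := or_false' hf
    obtain ⟨h1, h2⟩ := q37 f37
    rw [e7 f7, e19 f19]
    exact cx2_sound hD (S.rel2 c133_37_ok (h7 f7).gd (h19 f19).gd (h37 f37).gd rfl rfl)
      (he_133_37 (h7 f7).gd (h19 f19).gd) rfl h1 h2)
  obtain ⟨T4, T3, T5, T13, e4, e3, e5, e13, h⟩ :=
    r3_sound S haf h3 h5 h7 h13 h19 h37 m4 m3 m5 m13 q37 e37 e7 q19 e19 h
  exact ⟨T4, t7, b7, T7, t19, b19, T19, T3, T5, T13, e4, q7, e7, q19, e19, e3, e5, e13, h⟩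

theorem rA_sound {S37 S4 S7 S19 S3 S5 S13 : ST} (m37 : d37 = false → SM w b t P 37 S37)
    (m4 : SM w b t P 4 S4)
    (m7 : d7 = false → SM w b t P 7 S7) (m19 : d19 = false → SM w b t P 19 S19)
    (m3 : d3 = false → SM w b t P 3 S3)
    (m5 : d5 = false → SM w b t P 5 S5) (m13 : d13 = false → SM w b t P 13 S13) {g : Last}
    (h : rA d3 d5 d7 d13 d19 d37 af w S37 S4 S7 S19 S3 S5 S13 g = true) :
    ∃ t37 b37 T37 T4 t7 b7 T7 t19 b19 T19 T3 T5 T13, RQ b t 37 d37 t37 b37 ∧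
      TQ w b t P 37 d37 T37 ∧ TQ w b t P 4 false T4 ∧ RQ b t 7 d7 t7 b7 ∧
      TQ w b t P 7 d7 T7 ∧ RQ b t 19 d19 t19 b19 ∧ TQ w b t P 19 d19 T19 ∧
      TQ w b t P 3 d3 T3 ∧ TQ w b t P 5 d5 T5 ∧
      TQ w b t P 13 d13 T13 ∧ g t37 b37 T37 T4 t7 b7 T7 t19 b19 T19 T3 T5 T13 = true := by
  have i3 : NeZero c148_7.q := ⟨by decide +kernel⟩
  have i4 : NeZero c148_19.q := ⟨by decide +kernel⟩
  have hD := S.dt.hD
  have G4 := S.g4
  unfold rA at h
  obtain ⟨t37, b37, T37, q37, e37, h⟩ := lv_true' (by norm_num) h haf m37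
  rw [mapT_eq, mapT_eq] at h
  cases hc : (lv false af 4 S4 (fun _ _ T4 => gd (or d37 d7) (ck0e 7 (WL.cons 0 w)
        (mp (sl 4 X148_7) (sl 16 E148_7) T37) T4)
        (gd (or d37 d19) (ck0e 19 (WL.cons 0 w) (mp (sl 4 X148_19) (sl 16 E148_19) T37) T4)
          false))) with
  | true =>
    exfalso
    obtain ⟨_, _, T4, q4, e4, h⟩ := lv_true' (by norm_num) hc haf (fun _ => m4)
    have h := gd_true h (by
      intro hf
      obtain ⟨f37, f7⟩ := or_false' hf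
      rw [e37 f37, e4 rfl]
      exact ck0_sound hD (S.rel2 c148_7_ok (h37 f37).gd G4 (h7 f7).gd rfl rfl)
        (he_148_7 (h37 f37).gd G4) rfl)
    have h := gd_true h (by
      intro hf
      obtain ⟨f37, f19⟩ := or_false' hf
      rw [e37 f37, e4 rfl]
      exact ck0_sound hD (S.rel2 c148_19_ok (h37 f37).gd G4 (h19 f19).gd rfl rfl)
        (he_148_19 (h37 f37).gd G4) rfl)
    exact absurd h (by simp)
  | false =>
    rw [hc] at h
    obtain ⟨T4, t7, b7, T7, t19, b19, T19, T3, T5, T13, e4, q7, e7, q19, e19, e3, e5, e13, h⟩ :=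
      r7_sound S haf h3 h5 h7 h13 h19 h37 m4 m7 m19 m3 m5 m13 q37 e37 h
    exact ⟨t37, b37, T37, T4, t7, b7, T7, t19, b19, T19, T3, T5, T13, q37, e37, e4, q7, e7, q19,
      e19, e3, e5, e13, h⟩

end stages

end Pool.Agent.V5helper47.CN
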