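import Pool.Agent.V5helper47.CN.T4

/-! Soundness of the last stages and of the searches for one half word. -/

set_option maxRecDepth 100000

namespace Pool.Agent.V5helper47.CN

open H419R2 Pool.Agent.N911 Finset

/-! ### The centre -/

/-- sign of a word -/
def sg : WL → ℤ
  | .nil => 1
  | .cons _ l => -sg l

theorem sg_sq : ∀ w : WL, sg w * sg w = 1
  | .nil => rfl
  | .cons _ l => by
    have := sg_sq l
    change -sg l * -sg l = 1
    linear_combination this

theorem mat_det : ∀ w : WL, ((mat w).1 : ℤ) * (mat w).2.2.2 - (mat w).2.1 * (mat w).2.2.1 = sg w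
  | .nil => by rw [mat_nil]; simp [sg]
  | .cons a l => by
    have := mat_det l
    rw [mat_cons]
    change _ = -sg l
    push_cast
    linear_combination -this

/-- value of a form -/
def Fv (f : Fm) (p q : ℤ) : ℤ := f.A * p ^ 2 + f.B * p * q - f.C * q ^ 2

theorem Fv_step (f : Fm) (a : ℕ) (p q : ℤ) : Fv (f.step a) p q = -Fv f q (a * q + p) := by
  unfold Fv
  change f.C * p ^ 2 + (2 * a * f.C - f.B) * p * q - (f.A + a * f.B - a ^ 2 * f.C) * q ^ 2 = _
  ring

theorem la_snoc (b : ℕ) : ∀ (w : WL) (f : Fm),
    la (snoc w b) f = -sg w * Fv f (mat w).2.2.1 (mat w).1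
  | .nil, f => by
    change la (.cons b .nil) f = _
    rw [la_cons, mat_nil]
    change f.C = _
    unfold Fv sg
    push_cast
    ring
  | .cons a l, f => by
    change la (.cons a (snoc l b)) f = _
    rw [la_cons, la_snoc b l, Fv_step, mat_cons]
    change _ = -(-sg l) * _
    push_cast
    ring

section

variable {w : WL} {b : ℕ} {t P : ℤ} {D : ℕ} (H : Dt w b t P D)

include H

theorem Dt.la_lin : la (snoc w b) (f0 t P) * (b * (mat w).1 + 2 * (mat w).2.1) =
    t * (mat w).1 + 2 * (mat w).2.2.1 := by
  have h := H.lin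
  rw [trE_snoc] at h
  simp only at h
  have hd := mat_det w
  have hs := sg_sq w
  rw [la_snoc]
  unfold Fv f0
  simp only
  generalize (mat w).1 = v at *
  generalize (mat w).2.1 = x at *
  generalize (mat w).2.2.1 = y at *
  generalize (mat w).2.2.2 = z at *
  generalize sg w = s at *
  push_cast at h
  linear_combination s * v * h + (t * v + 2 * y) * hs + (s * v * t + 2 * s * y) * hd

end

end Pool.Agent.V5helper47.CN
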