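import Pool.Agent.V5helper47.CN.T5

/-! Soundness of the last stages and of the searches for one half word. -/

set_option maxRecDepth 100000

namespace Pool.Agent.V5helper47.CN

open H419R2 Pool.Agent.N911 Finset

theorem iq11 : chkIq 11 Q11 = true := by decide +kernel
theorem ci11 : chkI 11 I11 = true := by decide +kernel
theorem iq17 : chkIq 17 Q17 = true := by decide +kernel
theorem ci17 : chkI 17 I17 = true := by decide +kernel
theorem iq109 : chkIq 109 Q109 = true := by decide +kernel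

section

variable {w : WL} {b : ℕ} {t P : ℤ} {D : ℕ} (H : Dt w b t P D)

include H

theorem skP_false {l Q : ℕ} (hl : 0 < l) (hns : ¬ IsSquare ((D : ℤ) : ZMod l))
    (hQ : chkIq l Q = true) : skP l Q (res t l) (res P l) = false := by
  unfold skP
  by_contra hc
  have hc' := Bool.eq_true_of_not_eq_false hc
  have h2 := tb_square hl hQ hc'
  apply hns
  have h3 : ((Nat.add (Nat.mul (res t l) (res t l)) (Nat.mul 4 (res P l)) : ℕ) : ZMod l) =
      ((D : ℤ) : ZMod l) := by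
    rw [H.hD]
    change ((res t l * res t l + 4 * res P l : ℕ) : ZMod l) = _
    push_cast
    rw [res_cast' t hl, res_cast' P hl]
    ring
  rw [h3] at h2
  exact h2

theorem st_ex (l I : ℕ) (hl : 0 < l) (sk : ℕ → ℕ → Bool) :
    ∃ S, (∀ k, st3 l I sk (mat w).1 (mat w).2.1 (mat w).2.2.1 (mat w).2.2.2 w l ST.nil k = k S) ∧
      (Gd l D → chkI l I = true → sk (res t l) (res P l) = false → SM w b t P l S) := by
  obtain ⟨S, hS, _, hm⟩ := st3_eq l I sk (mat w).1 (mat w).2.1 (mat w).2.2.1 (mat w).2.2.2 w l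
    ST.nil
  refine ⟨S, hS, ?_⟩
  intro G hI hsk
  obtain ⟨s, hs, e1, e2⟩ := H.prs hl
  have cb := res_cast' (b : ℤ) hl
  have hT := hm (res (b : ℤ) l) (res_lt _ hl) s hs (res t l) (res P l) e1.symm e2.symm hsk
    (tr l (snoc w (res (b : ℤ) l)) (f0 t P)) (fun g => mkT_f0 G hI H.hD _ g)
  rw [lsq_tr, Nat.mul_div_cancel_left _ (by norm_num), la_snoc_congr w _ b,
    tr_snoc_congr hl (b' := b) (by rw [cb]; simp)] at hT
  exact hT

theorem stP_ex {l I Q : ℕ} (hl : 0 < l) (hI : chkI l I = true) (hQ : chkIq l Q = true) :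
    ∃ S, (∀ k, stP l I Q (mat w).1 (mat w).2.1 (mat w).2.2.1 (mat w).2.2.2 w k = k S) ∧
      (In l D → SM w b t P l S) := by
  obtain ⟨S, h1, h2⟩ := st_ex H l I hl (fun t P => skP l Q t P)
  exact ⟨S, h1, fun h => h2 h.gd hI (skP_false H hl h.ns hQ)⟩

theorem stF_ex (hD8 : D % 8 = 5) :
    ∃ S, (∀ k, stF (mat w).1 (mat w).2.1 (mat w).2.2.1 (mat w).2.2.2 w k = k S) ∧
      SM w b t P 4 S := by
  obtain ⟨S, h1, h2⟩ := st_ex H 4 I4 (by norm_num) sk4
  refine ⟨S, h1, h2 (gd_four hD8) ci4 ?_⟩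
  have hd := disc_f0 H.hD
  have ht : t % 2 = 1 := odd_B hD8 hd
  have hP : P % 2 = 1 := odd_A hD8 (f := (f0 t P).step 0) (by rw [Fm.disc_step]; exact hd)
  have e1 := res_int t (M := 4) (by norm_num)
  have e2 := res_int P (M := 4) (by norm_num)
  have h1 : Nat.beq (Nat.mod (res t 4) 2) 0 = false := by
    rw [Bool.eq_false_iff]
    intro hc
    have : res t 4 % 2 = 0 := Nat.eq_of_beq_eq_true hc
    omega
  have h2 : Nat.beq (Nat.mod (res P 4) 2) 0 = false := by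
    rw [Bool.eq_false_iff]
    intro hc
    have : res P 4 % 2 = 0 := Nat.eq_of_beq_eq_true hc
    omega
  unfold sk4
  rw [h1, h2]
  rfl

theorem cls_false {p Q af : ℕ} (hp : In p D) (hQ : chkIq p Q = true)
    (haf : af = 0 ∨ la (snoc w b) (f0 t P) = af)
    (h : cls p Q af (mat w).1 (mat w).2.1 (mat w).2.2.1 (mat w).2.2.2 (res t p)
      (res (b : ℤ) p) = true) : False := by
  have hp0 : 0 < p := hp.pr.pos
  have ct := res_cast' t hp0
  have cb := res_cast' (b : ℤ) hp0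
  unfold cls at h
  have h := imp_true h (by
    rw [Bool.or_eq_true]
    rcases haf with h2 | h2
    · left; rw [h2]; rfl
    · right
      have hl := H.la_lin
      rw [h2] at hl
      have h3 := congrArg (fun z : ℤ => (z : ZMod p)) hl
      push_cast at h3
      have h4 : ((Nat.mul af (Nat.add (Nat.mul (res (b : ℤ) p) (mat w).1)
          (Nat.mul 2 (mat w).2.1)) : ℕ) : ZMod p) =
          ((Nat.add (Nat.mul (res t p) (mat w).1) (Nat.mul 2 (mat w).2.2.1) : ℕ) : ZMod p) := by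
        change ((af * (res (b : ℤ) p * (mat w).1 + 2 * (mat w).2.1) : ℕ) : ZMod p) =
          ((res t p * (mat w).1 + 2 * (mat w).2.2.1 : ℕ) : ZMod p)
        push_cast at cb ⊢
        rw [cb, ct, ← h3]
      have h5 := (ZMod.natCast_eq_natCast_iff' _ _ _).mp h4
      have h6 : Nat.mod (Nat.mul af (Nat.add (Nat.mul (res (b : ℤ) p) (mat w).1)
          (Nat.mul 2 (mat w).2.1))) p = Nat.mod (Nat.add (Nat.mul (res t p) (mat w).1)
          (Nat.mul 2 (mat w).2.2.1)) p := h5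
      rw [h6]
      exact Nat.beq_refl _)
  rw [abc_eq, allN_iff] at h
  obtain ⟨s, hs, e1, e2⟩ := H.prs hp0
  have h := h s hs
  have e1' : Nat.mod (Nat.add (Nat.mul s (cA p (mat w).1 (mat w).2.1 (res (b : ℤ) p)))
      (p - cB p (mat w).1 (mat w).2.1 (mat w).2.2.1 (mat w).2.2.2 (res (b : ℤ) p) *
        cC p (mat w).2.2.1 (mat w).2.2.2 (res (b : ℤ) p) % p)) p = res t p := e1
  have e2' : Nat.mod (Nat.add (Nat.mul s (cB p (mat w).1 (mat w).2.1 (mat w).2.2.1
      (mat w).2.2.2 (res (b : ℤ) p))) (p - cC p (mat w).2.2.1 (mat w).2.2.2 (res (b : ℤ) p) *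
        cC p (mat w).2.2.1 (mat w).2.2.2 (res (b : ℤ) p) % p)) p = res P p := e2
  rw [e1', e2'] at h
  have h := imp_true h (Nat.beq_refl _)
  rw [skP_false H hp0 hp.ns hQ] at h
  exact absurd h (by simp)

end

theorem sol_true {p K c d : ℕ} {g : ℕ → ℕ → Bool} (hp : 0 < p) (h : sol p K c d g = true) {t : ℤ}
    {b : ℕ} (e : (K : ZMod p) + (c * t + d * b) = 0) : g (res t p) (res (b : ℤ) p) = true := by
  unfold sol at h
  rw [allN_iff] at h
  have h := h (res (b : ℤ) p) (res_lt _ hp)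
  rw [force_eq, allN_iff] at h
  have h := h (res t p) (res_lt _ hp)
  apply imp_true h
  apply beq_mod
  rw [nadd, nadd, nmul, nmul]
  have ct := res_cast' t hp
  have cb := res_cast' (b : ℤ) hp
  push_cast at cb ⊢
  rw [ct, cb]
  linear_combination e

section last

variable {w : WL} {b : ℕ} {t P : ℤ} {D : ℕ} (S : Sys w b t P D)
  {d7 d13 d19 d37 : Bool} {af : ℕ}
  (haf : af = 0 ∨ la (snoc w b) (f0 t P) = af)

include S haf

theorem l73_sound (h7 : d7 = false → In 7 D)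
    (h13 : d13 = false → In 13 D) (h19 : d19 = false → In 19 D) (h37 : d37 = false → In 37 D)
    (h73 : In 73 D) {t37 b37 : ℕ} {T37 T4 : TL} {t7 b7 : ℕ} {T7 : TL} {t19 b19 : ℕ}
    {T19 T3 T5 T13 : TL}
    (e37 : TQ w b t P 37 d37 T37) (e7 : TQ w b t P 7 d7 T7) (e19 : TQ w b t P 19 d19 T19)
    (e13 : TQ w b t P 13 d13 T13)
    (h : l73 d7 d13 d19 d37 af w (mat w).1 (mat w).2.1 (mat w).2.2.1 (mat w).2.2.2
      t37 b37 T37 T4 t7 b7 T7 t19 b19 T19 T3 T5 T13 = true) : False := by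
  have i1 : NeZero c133_73.q := ⟨by decide +kernel⟩
  have i2 : NeZero c247_73_0.q := ⟨by decide +kernel⟩
  have i3 : NeZero c247_73_1.q := ⟨by decide +kernel⟩
  have i4 : NeZero c259_73.q := ⟨by decide +kernel⟩
  have hD := S.dt.hD
  unfold l73 r73 at h
  obtain ⟨K1, c1, d1, e1, h⟩ := gc_true (p := 73) (t := t) (b := b) h (by
    intro hf k' hF
    obtain ⟨f13, f19⟩ := or_false' hf
    rw [e13 f13, e19 f19] at hF
    exact co2_sound hD (S.rel2 c247_73_0_ok (h13 f13).gd (h19 f19).gd h73.gd (by decide +kernel)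
      rfl) (he_247_0 (h13 f13).gd (h19 f19).gd) hF)
  obtain ⟨K, c, d, e, h⟩ := gc_true (p := 73) (t := t) (b := b) h (by
    intro hf k' hF
    obtain ⟨f7, f19⟩ := or_false' hf
    rw [e7 f7, e19 f19] at hF
    exact co2_sound hD (S.rel2 c133_73_ok (h7 f7).gd (h19 f19).gd h73.gd (by decide +kernel)
      rfl) (he_133_73 (h7 f7).gd (h19 f19).gd) hF)
  obtain ⟨K2, c2, d2, e2, h⟩ := gc_true (p := 73) (t := t) (b := b) h (by
    intro hf k' hF
    obtain ⟨f13, f19⟩ := or_false' hf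
    rw [e13 f13, e19 f19] at hF
    exact co2_sound hD (S.rel2 c247_73_1_ok (h13 f13).gd (h19 f19).gd h73.gd (by decide +kernel)
      rfl) (he_247_1 (h13 f13).gd (h19 f19).gd) hF)
  obtain ⟨K3, c3, d3, e3, h⟩ := gc_true (p := 73) (t := t) (b := b) h (by
    intro hf k' hF
    obtain ⟨f7, f37⟩ := or_false' hf
    rw [e7 f7, e37 f37] at hF
    exact co2_sound hD (S.rel2 c259_73_ok (h7 f7).gd (h37 f37).gd h73.gd (by decide +kernel)
      rfl) (he_259_73 (h7 f7).gd (h37 f37).gd) hF)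
  have h := sol_true (by norm_num) h e1
  have ct := res_cast' t (show 0 < 73 by norm_num)
  have cb : ((res (b : ℤ) 73 : ℕ) : ZMod 73) = b := by
    rw [res_cast' (b : ℤ) (by norm_num)]; simp
  have h := imp_true (imp_true (imp_true h (l3_sound e ct cb)) (l3_sound e2 ct cb))
    (l3_sound e3 ct cb)
  exact cls_false S.dt h73 iq73 haf h

theorem l109_sound (h5 : In 5 D) (h19 : In 19 D) (h37 : In 37 D) (h109 : In 109 D)
    {t37 b37 : ℕ} {T37 T4 : TL} {t7 b7 : ℕ} {T7 : TL} {t19 b19 : ℕ} {T19 T3 T5 T13 : TL}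
    (e37 : TQ w b t P 37 false T37) (e4 : TQ w b t P 4 false T4) (e19 : TQ w b t P 19 false T19)
    (e5 : TQ w b t P 5 false T5)
    (h : l109 af w (mat w).1 (mat w).2.1 (mat w).2.2.1 (mat w).2.2.2
      t37 b37 T37 T4 t7 b7 T7 t19 b19 T19 T3 T5 T13 = true) : False := by
  have i1 : NeZero c95_109.q := ⟨by decide +kernel⟩
  have i2 : NeZero c148_109.q := ⟨by decide +kernel⟩
  have hD := S.dt.hD
  have G4 := S.g4
  unfold l109 r109 at h
  rw [e37 rfl, e4 rfl, e19 rfl, e5 rfl] at h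
  obtain ⟨K, c, d, e, h⟩ := co2_sound hD (S.rel2 c95_109_ok h19.gd h5.gd h109.gd
    (by decide +kernel) rfl) (he_95_109 h19.gd h5.gd) h
  obtain ⟨K1, c1, d1, e1, h⟩ := co2_sound hD (S.rel2 c148_109_ok h37.gd G4 h109.gd
    (by decide +kernel) rfl) (he_148_109 h37.gd G4) h
  have e' : (K : ZMod 109) + (c * t + d * b) = 0 := e
  have e1' : (K1 : ZMod 109) + (c1 * t + d1 * b) = 0 := e1
  have h := sol_true (by norm_num) h e'
  have ct := res_cast' t (show 0 < 109 by norm_num)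
  have cb : ((res (b : ℤ) 109 : ℕ) : ZMod 109) = b := by
    rw [res_cast' (b : ℤ) (by norm_num)]; simp
  have h := imp_true h (l3_sound e1' ct cb)
  exact cls_false S.dt h109 iq109 haf h

theorem r11_sound (h7 : In 7 D) (h13 : In 13 D) (h19 : In 19 D) (h37 : In 37 D) (h11 : In 11 D)
    {S11 : ST} (m11 : SM w b t P 11 S11)
    {t37 b37 : ℕ} {T37 T4 : TL} {t7 b7 : ℕ} {T7 : TL} {t19 b19 : ℕ} {T19 T3 T5 T13 : TL}
    (e37 : TQ w b t P 37 false T37) (q7 : RQ b t 7 false t7 b7) (q19 : RQ b t 19 false t19 b19)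
    (e13 : TQ w b t P 13 false T13)
    (h : r11 c143_7_0 c407_19_0 af w S11
      t37 b37 T37 T4 t7 b7 T7 t19 b19 T19 T3 T5 T13 = true) : False := by
  have i1 : NeZero c143_7_0.q := ⟨by decide +kernel⟩
  have i2 : NeZero c407_19_0.q := ⟨by decide +kernel⟩
  have hD := S.dt.hD
  unfold r11 at h
  obtain ⟨_, _, T11, _, e11, h⟩ := lv_true' (by norm_num) h haf (fun _ => m11)
  rw [e37 rfl, e13 rfl, e11 rfl] at h
  have h := imp_true h (cx2_sound hD (S.rel2 c143_7_0_ok h11.gd h13.gd h7.gd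
    (by decide +kernel) rfl) (he_143 h11.gd h13.gd) rfl (q7 rfl).1 (q7 rfl).2)
  have h := imp_true h (cx2_sound hD (S.rel2 c407_19_0_ok h11.gd h37.gd h19.gd
    (by decide +kernel) rfl) (he_407 h11.gd h37.gd) rfl (q19 rfl).1 (q19 rfl).2)
  exact absurd h (by simp)

theorem r17_sound (h7 : In 7 D) (h19 : In 19 D) (h37 : In 37 D) (h17 : In 17 D)
    {S17 : ST} (m17 : SM w b t P 17 S17)
    {t37 b37 : ℕ} {T37 T4 : TL} {t7 b7 : ℕ} {T7 : TL} {t19 b19 : ℕ} {T19 T3 T5 T13 : TL}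
    (q37 : RQ b t 37 false t37 b37) (q7 : RQ b t 7 false t7 b7) (e19 : TQ w b t P 19 false T19)
    (h : r17 c323_7_0 c323_37_0 af w S17
      t37 b37 T37 T4 t7 b7 T7 t19 b19 T19 T3 T5 T13 = true) : False := by
  have i1 : NeZero c323_7_0.q := ⟨by decide +kernel⟩
  have i2 : NeZero c323_37_0.q := ⟨by decide +kernel⟩
  have hD := S.dt.hD
  unfold r17 at h
  obtain ⟨_, _, T17, _, e17, h⟩ := lv_true' (by norm_num) h haf (fun _ => m17)
  rw [e19 rfl, e17 rfl] at h
  have h := imp_true h (cx2_sound hD (S.rel2 c323_7_0_ok h17.gd h19.gd h7.gd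
    (by decide +kernel) rfl) (he_323_7 h17.gd h19.gd) rfl (q7 rfl).1 (q7 rfl).2)
  have h := imp_true h (cx2_sound hD (S.rel2 c323_37_0_ok h17.gd h19.gd h37.gd
    (by decide +kernel) rfl) (he_323_37 h17.gd h19.gd) rfl (q37 rfl).1 (q37 rfl).2)
  exact absurd h (by simp)

end last

/-- the lists of states contain the actual ones -/
structure MM (w : WL) (b : ℕ) (t P : ℤ) (D : ℕ) (S37 S4 S7 S19 S3 S5 S13 : ST) : Prop where
  m37 : In 37 D → SM w b t P 37 S37
  m4 : SM w b t P 4 S4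
  m7 : In 7 D → SM w b t P 7 S7
  m19 : In 19 D → SM w b t P 19 S19
  m3 : In 3 D → SM w b t P 3 S3
  m5 : In 5 D → SM w b t P 5 S5
  m13 : In 13 D → SM w b t P 13 S13

theorem mkA_true {w : WL} {b : ℕ} {t P : ℤ} {D : ℕ} (S : Sys w b t P D)
    {f : ℕ → ℕ → ℕ → ℕ → ST → ST → ST → ST → ST → ST → ST → Bool} (h : mkA w f = true) :
    ∃ S37 S4 S7 S19 S3 S5 S13, MM w b t P D S37 S4 S7 S19 S3 S5 S13 ∧
      f (mat w).1 (mat w).2.1 (mat w).2.2.1 (mat w).2.2.2 S37 S4 S7 S19 S3 S5 S13 = true := by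
  obtain ⟨S37, h37, m37⟩ := stP_ex S.dt (l := 37) (by norm_num) ci37 iq37
  obtain ⟨S4, h4, m4⟩ := stF_ex S.dt S.d8
  obtain ⟨S7, h7, m7⟩ := stP_ex S.dt (l := 7) (by norm_num) ci7 iq7
  obtain ⟨S19, h19, m19⟩ := stP_ex S.dt (l := 19) (by norm_num) ci19 iq19
  obtain ⟨S3, h3, m3⟩ := stP_ex S.dt (l := 3) (by norm_num) ci3 iq3
  obtain ⟨S5, h5, m5⟩ := stP_ex S.dt (l := 5) (by norm_num) ci5 iq5
  obtain ⟨S13, h13, m13⟩ := stP_ex S.dt (l := 13) (by norm_num) ci13 iq13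
  refine ⟨S37, S4, S7, S19, S3, S5, S13, ⟨m37, m4, m7, m19, m3, m5, m13⟩, ?_⟩
  unfold mkA at h
  rw [maK_eq, h37, h4, h7, h19, h3, h5, h13] at h
  exact h

/-- small primes other than the centre are inert -/
def Inr (w : WL) (b : ℕ) (t P : ℤ) (D : ℕ) : Prop :=
  ∀ l : ℕ, l.Prime → l ≤ 109 → l ≠ 2 → la (snoc w b) (f0 t P) ≠ l → ¬ IsSquare ((D : ℤ) : ZMod l)

section drivers

variable {w : WL} {b : ℕ} {t P : ℤ} {D : ℕ} (S : Sys w b t P D) (hI : Inr w b t P D)

theorem Inr.mk {l : ℕ} (hI : Inr w b t P D) (hl : l.Prime) (hd : l ∣ Mall) (h109 : l ≤ 109)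
    (h2 : l ≠ 2) (ha : la (snoc w b) (f0 t P) ≠ l) : In l D := ⟨hl, hd, h2, hI l hl h109 h2 ha⟩

theorem Inr.i3 (hI : Inr w b t P D) (ha : la (snoc w b) (f0 t P) ≠ (3 : ℕ)) : In 3 D :=
  hI.mk (by norm_num) (by decide +kernel) (by norm_num) (by norm_num) ha
theorem Inr.i5 (hI : Inr w b t P D) (ha : la (snoc w b) (f0 t P) ≠ (5 : ℕ)) : In 5 D :=
  hI.mk (by norm_num) (by decide +kernel) (by norm_num) (by norm_num) ha
theorem Inr.i7 (hI : Inr w b t P D) (ha : la (snoc w b) (f0 t P) ≠ (7 : ℕ)) : In 7 D :=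
  hI.mk (by norm_num) (by decide +kernel) (by norm_num) (by norm_num) ha
theorem Inr.i13 (hI : Inr w b t P D) (ha : la (snoc w b) (f0 t P) ≠ (13 : ℕ)) : In 13 D :=
  hI.mk (by norm_num) (by decide +kernel) (by norm_num) (by norm_num) ha
theorem Inr.i19 (hI : Inr w b t P D) (ha : la (snoc w b) (f0 t P) ≠ (19 : ℕ)) : In 19 D :=
  hI.mk (by norm_num) (by decide +kernel) (by norm_num) (by norm_num) ha
theorem Inr.i37 (hI : Inr w b t P D) (ha : la (snoc w b) (f0 t P) ≠ (37 : ℕ)) : In 37 D :=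
  hI.mk (by norm_num) (by decide +kernel) (by norm_num) (by norm_num) ha
theorem Inr.i73 (hI : Inr w b t P D) (ha : la (snoc w b) (f0 t P) ≠ (73 : ℕ)) : In 73 D :=
  hI.mk (by norm_num) (by decide +kernel) (by norm_num) (by norm_num) ha
theorem Inr.i11 (hI : Inr w b t P D) (ha : la (snoc w b) (f0 t P) ≠ (11 : ℕ)) : In 11 D :=
  hI.mk (by norm_num) (by decide +kernel) (by norm_num) (by norm_num) ha
theorem Inr.i17 (hI : Inr w b t P D) (ha : la (snoc w b) (f0 t P) ≠ (17 : ℕ)) : In 17 D :=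
  hI.mk (by norm_num) (by decide +kernel) (by norm_num) (by norm_num) ha
theorem Inr.i109 (hI : Inr w b t P D) (ha : la (snoc w b) (f0 t P) ≠ (109 : ℕ)) : In 109 D :=
  hI.mk (by norm_num) (by decide +kernel) (by norm_num) (by norm_num) ha

end drivers

end Pool.Agent.V5helper47.CN
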