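import Pool.Agent.V5helper47.CN.T6

/-! Soundness of the searches for one half word. -/

set_option maxRecDepth 100000

namespace Pool.Agent.V5helper47.CN

open H419R2 Pool.Agent.N911 Finset

section drivers

variable {w : WL} {b : ℕ} {t P : ℤ} {D : ℕ} (S : Sys w b t P D)
  {S37 S4 S7 S19 S3 S5 S13 : ST} (M : MM w b t P D S37 S4 S7 S19 S3 S5 S13)

include S M

theorem rA_l73 {d3 d5 d7 d13 d19 d37 : Bool} {af : ℕ}
    (haf : af = 0 ∨ la (snoc w b) (f0 t P) = af)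
    (h3 : d3 = false → In 3 D) (h5 : d5 = false → In 5 D) (h7 : d7 = false → In 7 D)
    (h13 : d13 = false → In 13 D) (h19 : d19 = false → In 19 D) (h37 : d37 = false → In 37 D)
    (h73 : In 73 D)
    (h : rA d3 d5 d7 d13 d19 d37 af w S37 S4 S7 S19 S3 S5 S13
      (l73 d7 d13 d19 d37 af w (mat w).1 (mat w).2.1 (mat w).2.2.1 (mat w).2.2.2) = true) :
    False := by
  obtain ⟨t37, b37, T37, T4, t7, b7, T7, t19, b19, T19, T3, T5, T13, q37, e37, e4, q7, e7, q19,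
    e19, e3, e5, e13, h⟩ := rA_sound S haf h3 h5 h7 h13 h19 h37 (fun f => M.m37 (h37 f)) M.m4
      (fun f => M.m7 (h7 f)) (fun f => M.m19 (h19 f)) (fun f => M.m3 (h3 f))
      (fun f => M.m5 (h5 f)) (fun f => M.m13 (h13 f)) h
  exact l73_sound S haf h7 h13 h19 h37 h73 e37 e7 e19 e13 h

theorem rA_l0 {d3 d5 d7 d13 d19 d37 : Bool} {af : ℕ}
    (haf : af = 0 ∨ la (snoc w b) (f0 t P) = af)
    (h3 : d3 = false → In 3 D) (h5 : d5 = false → In 5 D) (h7 : d7 = false → In 7 D)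
    (h13 : d13 = false → In 13 D) (h19 : d19 = false → In 19 D) (h37 : d37 = false → In 37 D)
    (h : rA d3 d5 d7 d13 d19 d37 af w S37 S4 S7 S19 S3 S5 S13 l0 = true) :
    False := by
  obtain ⟨t37, b37, T37, T4, t7, b7, T7, t19, b19, T19, T3, T5, T13, q37, e37, e4, q7, e7, q19,
    e19, e3, e5, e13, h⟩ := rA_sound S haf h3 h5 h7 h13 h19 h37 (fun f => M.m37 (h37 f)) M.m4
      (fun f => M.m7 (h7 f)) (fun f => M.m19 (h19 f)) (fun f => M.m3 (h3 f))
      (fun f => M.m5 (h5 f)) (fun f => M.m13 (h13 f)) h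
  exact absurd h (by simp [l0])

theorem rA_l109 {d3 d7 d13 : Bool} {af : ℕ}
    (haf : af = 0 ∨ la (snoc w b) (f0 t P) = af)
    (h3 : d3 = false → In 3 D) (h5 : In 5 D) (h7 : d7 = false → In 7 D)
    (h13 : d13 = false → In 13 D) (h19 : In 19 D) (h37 : In 37 D)
    (h109 : In 109 D)
    (h : rA d3 false d7 d13 false false af w S37 S4 S7 S19 S3 S5 S13
      (l109 af w (mat w).1 (mat w).2.1 (mat w).2.2.1 (mat w).2.2.2) = true) :
    False := by
  obtain ⟨t37, b37, T37, T4, t7, b7, T7, t19, b19, T19, T3, T5, T13, q37, e37, e4, q7, e7, q19,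
    e19, e3, e5, e13, h⟩ := rA_sound S haf h3 (fun _ => h5) h7 h13 (fun _ => h19) (fun _ => h37)
      (fun _ => M.m37 h37) M.m4
      (fun f => M.m7 (h7 f)) (fun _ => M.m19 h19) (fun f => M.m3 (h3 f))
      (fun _ => M.m5 h5) (fun f => M.m13 (h13 f)) h
  exact l109_sound S haf h5 h19 h37 h109 e37 e4 e19 e5 h

theorem rA_r11 {d3 d5 : Bool} {af : ℕ}
    (haf : af = 0 ∨ la (snoc w b) (f0 t P) = af)
    (h3 : d3 = false → In 3 D) (h5 : d5 = false → In 5 D) (h7 : In 7 D)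
    (h13 : In 13 D) (h19 : In 19 D) (h37 : In 37 D)
    (h11 : In 11 D) {S11 : ST} (m11 : SM w b t P 11 S11)
    (h : rA d3 d5 false false false false af w S37 S4 S7 S19 S3 S5 S13
      (r11 c143_7_0 c407_19_0 af w S11) = true) :
    False := by
  obtain ⟨t37, b37, T37, T4, t7, b7, T7, t19, b19, T19, T3, T5, T13, q37, e37, e4, q7, e7, q19,
    e19, e3, e5, e13, h⟩ := rA_sound S haf h3 h5 (fun _ => h7) (fun _ => h13) (fun _ => h19)
      (fun _ => h37) (fun _ => M.m37 h37) M.m4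
      (fun _ => M.m7 h7) (fun _ => M.m19 h19) (fun f => M.m3 (h3 f))
      (fun f => M.m5 (h5 f)) (fun _ => M.m13 h13) h
  exact r11_sound S haf h7 h13 h19 h37 h11 m11 e37 q7 q19 e13 h

theorem rA_r17 {d3 d5 d13 : Bool} {af : ℕ}
    (haf : af = 0 ∨ la (snoc w b) (f0 t P) = af)
    (h3 : d3 = false → In 3 D) (h5 : d5 = false → In 5 D) (h7 : In 7 D)
    (h13 : d13 = false → In 13 D) (h19 : In 19 D) (h37 : In 37 D)
    (h17 : In 17 D) {S17 : ST} (m17 : SM w b t P 17 S17)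
    (h : rA d3 d5 false d13 false false af w S37 S4 S7 S19 S3 S5 S13
      (r17 c323_7_0 c323_37_0 af w S17) = true) :
    False := by
  obtain ⟨t37, b37, T37, T4, t7, b7, T7, t19, b19, T19, T3, T5, T13, q37, e37, e4, q7, e7, q19,
    e19, e3, e5, e13, h⟩ := rA_sound S haf h3 h5 (fun _ => h7) h13 (fun _ => h19)
      (fun _ => h37) (fun _ => M.m37 h37) M.m4
      (fun _ => M.m7 h7) (fun _ => M.m19 h19) (fun f => M.m3 (h3 f))
      (fun f => M.m5 (h5 f)) (fun f => M.m13 (h13 f)) h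
  exact r17_sound S haf h7 h19 h37 h17 m17 q37 q7 e19 h

/-! ### The drivers -/

variable (hI : Inr w b t P D)

include hI

/-- the centre is 5, 7, 19 or 37 -/
theorem d4c_sound
    (h : d4c w (mat w).1 (mat w).2.1 (mat w).2.2.1 (mat w).2.2.2 S37 S4 S7 S19 S3 S5 S13 = true) :
    la (snoc w b) (f0 t P) ≠ (5 : ℕ) ∧ la (snoc w b) (f0 t P) ≠ (7 : ℕ) ∧
    la (snoc w b) (f0 t P) ≠ (19 : ℕ) ∧ la (snoc w b) (f0 t P) ≠ (37 : ℕ) := by
  unfold d4c at h
  rw [cj_true, cj_true, cj_true] at h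
  obtain ⟨k5, k7, k19, k37⟩ := h
  refine ⟨?_, ?_, ?_, ?_⟩ <;> intro ha
  · exact rA_l73 S M (Or.inr ha) (fun _ => hI.i3 (by rw [ha]; norm_num)) (fun f => absurd f (by simp))
      (fun _ => hI.i7 (by rw [ha]; norm_num)) (fun _ => hI.i13 (by rw [ha]; norm_num))
      (fun _ => hI.i19 (by rw [ha]; norm_num)) (fun _ => hI.i37 (by rw [ha]; norm_num))
      (hI.i73 (by rw [ha]; norm_num)) k5
  · exact rA_l73 S M (Or.inr ha) (fun _ => hI.i3 (by rw [ha]; norm_num))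
      (fun _ => hI.i5 (by rw [ha]; norm_num)) (fun f => absurd f (by simp))
      (fun _ => hI.i13 (by rw [ha]; norm_num))
      (fun _ => hI.i19 (by rw [ha]; norm_num)) (fun _ => hI.i37 (by rw [ha]; norm_num))
      (hI.i73 (by rw [ha]; norm_num)) k7
  · exact rA_l73 S M (Or.inr ha) (fun _ => hI.i3 (by rw [ha]; norm_num))
      (fun _ => hI.i5 (by rw [ha]; norm_num)) (fun _ => hI.i7 (by rw [ha]; norm_num))
      (fun _ => hI.i13 (by rw [ha]; norm_num))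
      (fun f => absurd f (by simp)) (fun _ => hI.i37 (by rw [ha]; norm_num))
      (hI.i73 (by rw [ha]; norm_num)) k19
  · exact rA_l73 S M (Or.inr ha) (fun _ => hI.i3 (by rw [ha]; norm_num))
      (fun _ => hI.i5 (by rw [ha]; norm_num)) (fun _ => hI.i7 (by rw [ha]; norm_num))
      (fun _ => hI.i13 (by rw [ha]; norm_num))
      (fun _ => hI.i19 (by rw [ha]; norm_num)) (fun f => absurd f (by simp))
      (hI.i73 (by rw [ha]; norm_num)) k37

theorem d3c_73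
    (h : d3c (l73 false false false false 3 w (mat w).1 (mat w).2.1 (mat w).2.2.1 (mat w).2.2.2) w
      S37 S4 S7 S19 S3 S5 S13 = true) : la (snoc w b) (f0 t P) ≠ (3 : ℕ) := by
  intro ha
  exact rA_l73 S M (Or.inr ha) (fun f => absurd f (by simp))
      (fun _ => hI.i5 (by rw [ha]; norm_num)) (fun _ => hI.i7 (by rw [ha]; norm_num))
      (fun _ => hI.i13 (by rw [ha]; norm_num))
      (fun _ => hI.i19 (by rw [ha]; norm_num)) (fun _ => hI.i37 (by rw [ha]; norm_num))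
      (hI.i73 (by rw [ha]; norm_num)) h

theorem d3c_109
    (h : d3c (l109 3 w (mat w).1 (mat w).2.1 (mat w).2.2.1 (mat w).2.2.2) w
      S37 S4 S7 S19 S3 S5 S13 = true) : la (snoc w b) (f0 t P) ≠ (3 : ℕ) := by
  intro ha
  exact rA_l109 S M (Or.inr ha) (fun f => absurd f (by simp))
      (hI.i5 (by rw [ha]; norm_num)) (fun _ => hI.i7 (by rw [ha]; norm_num))
      (fun _ => hI.i13 (by rw [ha]; norm_num))
      (hI.i19 (by rw [ha]; norm_num)) (hI.i37 (by rw [ha]; norm_num))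
      (hI.i109 (by rw [ha]; norm_num)) h

theorem d3c_11
    (h : stP 11 I11 Q11 (mat w).1 (mat w).2.1 (mat w).2.2.1 (mat w).2.2.2 w (fun S11 =>
      d3c (r11 c143_7_0 c407_19_0 3 w S11) w S37 S4 S7 S19 S3 S5 S13) = true) :
    la (snoc w b) (f0 t P) ≠ (3 : ℕ) := by
  intro ha
  obtain ⟨S11, h11, m11⟩ := stP_ex S.dt (l := 11) (by norm_num) ci11 iq11
  rw [h11] at h
  have i11 := hI.i11 (by rw [ha]; norm_num)
  exact rA_r11 S M (Or.inr ha) (fun f => absurd f (by simp))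
      (fun _ => hI.i5 (by rw [ha]; norm_num)) (hI.i7 (by rw [ha]; norm_num))
      (hI.i13 (by rw [ha]; norm_num))
      (hI.i19 (by rw [ha]; norm_num)) (hI.i37 (by rw [ha]; norm_num)) i11 (m11 i11) h

theorem d13c_73
    (h : d13c (l73 false true false false 13 w (mat w).1 (mat w).2.1 (mat w).2.2.1 (mat w).2.2.2)
      w S37 S4 S7 S19 S3 S5 S13 = true) : la (snoc w b) (f0 t P) ≠ (13 : ℕ) := by
  intro ha
  exact rA_l73 S M (Or.inr ha) (fun _ => hI.i3 (by rw [ha]; norm_num))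
      (fun _ => hI.i5 (by rw [ha]; norm_num)) (fun _ => hI.i7 (by rw [ha]; norm_num))
      (fun f => absurd f (by simp))
      (fun _ => hI.i19 (by rw [ha]; norm_num)) (fun _ => hI.i37 (by rw [ha]; norm_num))
      (hI.i73 (by rw [ha]; norm_num)) h

theorem d13c_17
    (h : stP 17 I17 Q17 (mat w).1 (mat w).2.1 (mat w).2.2.1 (mat w).2.2.2 w (fun S17 =>
      d13c (r17 c323_7_0 c323_37_0 13 w S17) w S37 S4 S7 S19 S3 S5 S13) = true) :
    la (snoc w b) (f0 t P) ≠ (13 : ℕ) := by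
  intro ha
  obtain ⟨S17, h17, m17⟩ := stP_ex S.dt (l := 17) (by norm_num) ci17 iq17
  rw [h17] at h
  have i17 := hI.i17 (by rw [ha]; norm_num)
  exact rA_r17 S M (Or.inr ha) (fun _ => hI.i3 (by rw [ha]; norm_num))
      (fun _ => hI.i5 (by rw [ha]; norm_num)) (hI.i7 (by rw [ha]; norm_num))
      (fun f => absurd f (by simp))
      (hI.i19 (by rw [ha]; norm_num)) (hI.i37 (by rw [ha]; norm_num)) i17 (m17 i17) h

/-- none of the listed primes is the centre -/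
theorem dgc_73 (n3 : la (snoc w b) (f0 t P) ≠ (3 : ℕ)) (n5 : la (snoc w b) (f0 t P) ≠ (5 : ℕ))
    (n7 : la (snoc w b) (f0 t P) ≠ (7 : ℕ)) (n13 : la (snoc w b) (f0 t P) ≠ (13 : ℕ))
    (n19 : la (snoc w b) (f0 t P) ≠ (19 : ℕ)) (n37 : la (snoc w b) (f0 t P) ≠ (37 : ℕ))
    (h : dgc 0 (l73 false false false false 0 w (mat w).1 (mat w).2.1 (mat w).2.2.1 (mat w).2.2.2)
      w S37 S4 S7 S19 S3 S5 S13 = true)
    (h' : dgc 73 l0 w S37 S4 S7 S19 S3 S5 S13 = true) : False := by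
  by_cases ha : la (snoc w b) (f0 t P) = (73 : ℕ)
  · exact rA_l0 S M (Or.inr ha) (fun _ => hI.i3 n3) (fun _ => hI.i5 n5) (fun _ => hI.i7 n7)
      (fun _ => hI.i13 n13) (fun _ => hI.i19 n19) (fun _ => hI.i37 n37) h'
  · exact rA_l73 S M (Or.inl rfl) (fun _ => hI.i3 n3) (fun _ => hI.i5 n5) (fun _ => hI.i7 n7)
      (fun _ => hI.i13 n13) (fun _ => hI.i19 n19) (fun _ => hI.i37 n37) (hI.i73 ha) h

theorem dgc_109 (n3 : la (snoc w b) (f0 t P) ≠ (3 : ℕ)) (n5 : la (snoc w b) (f0 t P) ≠ (5 : ℕ))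
    (n7 : la (snoc w b) (f0 t P) ≠ (7 : ℕ)) (n13 : la (snoc w b) (f0 t P) ≠ (13 : ℕ))
    (n19 : la (snoc w b) (f0 t P) ≠ (19 : ℕ)) (n37 : la (snoc w b) (f0 t P) ≠ (37 : ℕ))
    (h : dgc 0 (l109 0 w (mat w).1 (mat w).2.1 (mat w).2.2.1 (mat w).2.2.2)
      w S37 S4 S7 S19 S3 S5 S13 = true)
    (h' : dgc 109 (l73 false false false false 109 w (mat w).1 (mat w).2.1 (mat w).2.2.1
      (mat w).2.2.2) w S37 S4 S7 S19 S3 S5 S13 = true) : False := by
  by_cases ha : la (snoc w b) (f0 t P) = (109 : ℕ)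
  · exact rA_l73 S M (Or.inr ha) (fun _ => hI.i3 n3) (fun _ => hI.i5 n5) (fun _ => hI.i7 n7)
      (fun _ => hI.i13 n13) (fun _ => hI.i19 n19) (fun _ => hI.i37 n37)
      (hI.i73 (by rw [ha]; norm_num)) h'
  · exact rA_l109 S M (Or.inl rfl) (fun _ => hI.i3 n3) (hI.i5 n5) (fun _ => hI.i7 n7)
      (fun _ => hI.i13 n13) (hI.i19 n19) (hI.i37 n37) (hI.i109 ha) h

theorem dgc_11 (n3 : la (snoc w b) (f0 t P) ≠ (3 : ℕ)) (n5 : la (snoc w b) (f0 t P) ≠ (5 : ℕ))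
    (n7 : la (snoc w b) (f0 t P) ≠ (7 : ℕ)) (n13 : la (snoc w b) (f0 t P) ≠ (13 : ℕ))
    (n19 : la (snoc w b) (f0 t P) ≠ (19 : ℕ)) (n37 : la (snoc w b) (f0 t P) ≠ (37 : ℕ))
    (h : stP 11 I11 Q11 (mat w).1 (mat w).2.1 (mat w).2.2.1 (mat w).2.2.2 w (fun S11 =>
      dgc 0 (r11 c143_7_0 c407_19_0 0 w S11) w S37 S4 S7 S19 S3 S5 S13) = true)
    (h' : dgc 11 (l73 false false false false 11 w (mat w).1 (mat w).2.1 (mat w).2.2.1
      (mat w).2.2.2) w S37 S4 S7 S19 S3 S5 S13 = true) : False := by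
  by_cases ha : la (snoc w b) (f0 t P) = (11 : ℕ)
  · exact rA_l73 S M (Or.inr ha) (fun _ => hI.i3 n3) (fun _ => hI.i5 n5) (fun _ => hI.i7 n7)
      (fun _ => hI.i13 n13) (fun _ => hI.i19 n19) (fun _ => hI.i37 n37)
      (hI.i73 (by rw [ha]; norm_num)) h'
  · obtain ⟨S11, h11, m11⟩ := stP_ex S.dt (l := 11) (by norm_num) ci11 iq11
    rw [h11] at h
    exact rA_r11 S M (Or.inl rfl) (fun _ => hI.i3 n3) (fun _ => hI.i5 n5) (hI.i7 n7)
      (hI.i13 n13) (hI.i19 n19) (hI.i37 n37) (hI.i11 ha) (m11 (hI.i11 ha)) h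

end drivers

section words

variable {w : WL} {b : ℕ} {t P : ℤ} {D : ℕ} (S : Sys w b t P D) (hI : Inr w b t P D)

include S hI

theorem dv0_sound (h : dv0 w = true) : False := by
  unfold dv0 at h
  obtain ⟨S37, S4, S7, S19, S3, S5, S13, M, h⟩ := mkA_true S h
  rw [cj_true, cj_true, cj_true, cj_true] at h
  obtain ⟨k1, k2, k3, k13, k4⟩ := h
  obtain ⟨n5, n7, n19, n37⟩ := d4c_sound S M hI k4
  exact dgc_73 S M hI (d3c_73 S M hI k3) n5 n7 (d13c_73 S M hI k13) n19 n37 k1 k2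

theorem dv3b_sound (h : dv3b w = true) : False := by
  unfold dv3b at h
  obtain ⟨S37, S4, S7, S19, S3, S5, S13, M, h⟩ := mkA_true S h
  rw [cj_true, cj_true, cj_true, cj_true] at h
  obtain ⟨k1, k2, k3, k13, k4⟩ := h
  obtain ⟨n5, n7, n19, n37⟩ := d4c_sound S M hI k4
  exact dgc_73 S M hI (d3c_109 S M hI k3) n5 n7 (d13c_73 S M hI k13) n19 n37 k1 k2

theorem dvb_sound (h : dvb w = true) : False := by
  unfold dvb at h
  obtain ⟨S37, S4, S7, S19, S3, S5, S13, M, h⟩ := mkA_true S h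
  rw [cj_true, cj_true, cj_true, cj_true] at h
  obtain ⟨k1, k2, k3, k13, k4⟩ := h
  obtain ⟨n5, n7, n19, n37⟩ := d4c_sound S M hI k4
  exact dgc_109 S M hI (d3c_73 S M hI k3) n5 n7 (d13c_73 S M hI k13) n19 n37 k1 k2

theorem dv3a_sound (h : dv3a w = true) : False := by
  unfold dv3a at h
  obtain ⟨S37, S4, S7, S19, S3, S5, S13, M, h⟩ := mkA_true S h
  rw [cj_true, cj_true, cj_true, cj_true] at h
  obtain ⟨k1, k2, k3, k13, k4⟩ := h
  obtain ⟨n5, n7, n19, n37⟩ := d4c_sound S M hI k4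
  exact dgc_73 S M hI (d3c_11 S M hI k3) n5 n7 (d13c_73 S M hI k13) n19 n37 k1 k2

theorem dv13_sound (h : dv13 w = true) : False := by
  unfold dv13 at h
  obtain ⟨S37, S4, S7, S19, S3, S5, S13, M, h⟩ := mkA_true S h
  rw [cj_true, cj_true, cj_true, cj_true] at h
  obtain ⟨k1, k2, k3, k13, k4⟩ := h
  obtain ⟨n5, n7, n19, n37⟩ := d4c_sound S M hI k4
  exact dgc_73 S M hI (d3c_73 S M hI k3) n5 n7 (d13c_17 S M hI k13) n19 n37 k1 k2

theorem dva_sound (h : dva w = true) : False := by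
  unfold dva at h
  obtain ⟨S37, S4, S7, S19, S3, S5, S13, M, h⟩ := mkA_true S h
  rw [cj_true, cj_true, cj_true, cj_true] at h
  obtain ⟨k1, k2, k3, k13, k4⟩ := h
  obtain ⟨n5, n7, n19, n37⟩ := d4c_sound S M hI k4
  exact dgc_11 S M hI (d3c_73 S M hI k3) n5 n7 (d13c_73 S M hI k13) n19 n37 k1 k2

theorem dva13_sound (h : dva13 w = true) : False := by
  unfold dva13 at h
  obtain ⟨S37, S4, S7, S19, S3, S5, S13, M, h⟩ := mkA_true S h
  rw [cj_true, cj_true, cj_true, cj_true] at h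
  obtain ⟨k1, k2, k3, k13, k4⟩ := h
  obtain ⟨n5, n7, n19, n37⟩ := d4c_sound S M hI k4
  exact dgc_11 S M hI (d3c_73 S M hI k3) n5 n7 (d13c_17 S M hI k13) n19 n37 k1 k2

end words

end Pool.Agent.V5helper47.CN
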