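import Pool.Agent.V5helper47.CN.T7
import Pool.Agent.V5helper47.CN.S3
import Pool.Agent.N911.U7
import Pool.Agent.N911.V7

/-! The traversal of half words, positivity and size of the norms. -/

set_option maxRecDepth 100000

namespace Pool.Agent.V5helper47.CN

open H419R2 Pool.Agent.N911 Finset

/-! ### Traversal -/

theorem mat_mono {a : ℕ} (ha : 1 ≤ a) (l : WL) : (mat l).1 ≤ (mat (.cons a l)).1 := by
  rw [mat_cons]
  change (mat l).1 ≤ a * (mat l).1 + (mat l).2.2.1
  have : 1 * (mat l).1 ≤ a * (mat l).1 := Nat.mul_le_mul_right _ ha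
  omega

theorem mat_mono_a {a b : ℕ} (h : a ≤ b) (l : WL) :
    (mat (.cons a l)).1 ≤ (mat (.cons b l)).1 := by
  rw [mat_cons, mat_cons]
  change a * (mat l).1 + (mat l).2.2.1 ≤ b * (mat l).1 + (mat l).2.2.1
  have : a * (mat l).1 ≤ b * (mat l).1 := Nat.mul_le_mul_right _ h
  omega

theorem desc_mat {w u : WL} (h : Desc w u) : (mat u).1 ≤ (mat w).1 := by
  induction h with
  | refl u => exact le_rfl
  | step a ha h ih => exact ih.trans (mat_mono ha _)

theorem wk_sound {lo hi : ℕ} {check : WL → Bool} {fuel : ℕ} :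
    ∀ (w : WL) (a : ℕ), wk lo hi check fuel w (mat w).1 (mat w).2.2.1 a = true →
    ∀ b, a ≤ b → ∀ u, Desc u (.cons b w) → lo ≤ (mat u).1 → (mat u).1 < hi → check u = true := by
  induction fuel with
  | zero =>
    intro w a h
    exact absurd h (by simp [wk])
  | succ n ih =>
    intro w a h b hab u hu hlo hhi
    have e : wk lo hi check (n + 1) w (mat w).1 (mat w).2.2.1 a =
      force (Nat.add (Nat.mul a (mat w).1) (mat w).2.2.1) (fun v' =>
      @Bool.rec (fun _ => Bool) true
        (cj (@Bool.rec (fun _ => Bool) true (check (WL.cons a w)) (Nat.ble lo v'))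
          (cj (wk lo hi check n (WL.cons a w) v' (mat w).1 1)
            (force (Nat.succ a) (fun b => wk lo hi check n w (mat w).1 (mat w).2.2.1 b))))
        (Nat.ble (Nat.succ v') hi)) := rfl
    rw [e, force_eq, force_eq] at h
    have eU : Nat.add (Nat.mul a (mat w).1) (mat w).2.2.1 = (mat (WL.cons a w)).1 := rfl
    have ey : (mat w).1 = (mat (WL.cons a w)).2.2.1 := rfl
    rw [eU] at h
    have hU : (mat (WL.cons a w)).1 < hi :=
      lt_of_le_of_lt ((mat_mono_a hab w).trans (desc_mat hu)) hhi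
    rw [Nat.ble_eq_true_of_le (show Nat.succ (mat (WL.cons a w)).1 ≤ hi from hU)] at h
    change cj (@Bool.rec (fun _ => Bool) true (check (WL.cons a w))
        (Nat.ble lo (mat (WL.cons a w)).1))
          (cj (wk lo hi check n (WL.cons a w) (mat (WL.cons a w)).1 (mat w).1 1)
            (wk lo hi check n w (mat w).1 (mat w).2.2.1 (Nat.succ a))) = true at h
    rw [cj_true, cj_true] at h
    obtain ⟨h1, h2, h3⟩ := h
    rcases Nat.lt_or_ge a b with hlt | hge
    · exact ih w _ h3 b hlt u hu hlo hhi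
    · have hab' : b = a := le_antisymm hge hab
      subst hab'
      rcases hu.split with rfl | ⟨c, hc, hu'⟩
      · rw [Nat.ble_eq_true_of_le hlo] at h1
        exact h1
      · rw [ey] at h2
        exact ih (.cons b w) 1 h2 c hc u hu' hlo hhi

theorem wk_all {lo hi : ℕ} {check : WL → Bool} {fuel : ℕ}
    (h : wk lo hi check fuel .nil 1 0 1 = true) {w : WL} (hp : w.Pos) (hn : w ≠ .nil)
    (hlo : lo ≤ (mat w).1) (hhi : (mat w).1 < hi) : check w = true := by
  obtain ⟨c, hc, hw⟩ := desc_of_pos hp hn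
  exact wk_sound .nil 1 h c hc w hw hlo hhi

theorem eqW_sound : ∀ {w u : WL}, eqW w u = true → w = u
  | .nil, .nil, _ => rfl
  | .nil, .cons _ _, h => absurd h (by simp [eqW])
  | .cons _ _, .nil, h => absurd h (by simp [eqW])
  | .cons a w, .cons b u, h => by
    have e : eqW (.cons a w) (.cons b u) = cj (Nat.beq a b) (eqW w u) := rfl
    rw [e, cj_true] at h
    rw [Nat.eq_of_beq_eq_true h.1, eqW_sound h.2]

/-! ### Positivity -/

theorem trE_le : ∀ {v : WL}, v.Pos → v ≠ .nil →
    1 ≤ (trE v).2.1 ∧ (trE v).2.1 ≤ (trE v).1 ∧ (trE v).2.2 ≤ (trE v).2.1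
  | .nil, _, h => absurd rfl h
  | .cons a .nil, hp, _ => by
    rw [trE_one]
    exact ⟨le_rfl, hp.1, by simp⟩
  | .cons a (.cons b l), hp, _ => by
    obtain ⟨h1, h2, h3⟩ := trE_le (v := .cons b l) hp.2 (by simp)
    rw [trE_cons a (by simp : WL.cons b l ≠ .nil)]
    generalize (trE (.cons b l)).1 = U at *
    generalize (trE (.cons b l)).2.1 = x at *
    generalize (trE (.cons b l)).2.2 = y at *
    simp only
    have ha : 1 ≤ a := hp.1
    have e1 : 1 * U ≤ a * U := Nat.mul_le_mul_right _ ha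
    have e2 : 1 * (a * U) ≤ a * (a * U) := Nat.mul_le_mul_right _ ha
    have e3 : 1 * x ≤ 2 * a * x := Nat.mul_le_mul_right _ (by omega)
    have e4 : a * a * U = a * (a * U) := by ring
    refine ⟨by omega, by omega, by omega⟩

theorem pos_step {a : ℕ} {l : WL} (hp : (WL.cons a l).Pos) {f : Fm} (hA : 0 < f.A) (hB : 0 < f.B)
    (h : lamE (.cons a l) f = 0) : 0 < f.C ∧ 0 < (f.step a).B := by
  have ha : (1 : ℤ) ≤ a := by exact_mod_cast hp.1
  obtain ⟨h1, h2, h3⟩ := trE_le hp (by simp)
  unfold lamE at h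
  have hx : (1 : ℤ) ≤ (trE (.cons a l)).2.1 := by exact_mod_cast h1
  have hU : (1 : ℤ) ≤ (trE (.cons a l)).1 := by exact_mod_cast h1.trans h2
  have hy : (0 : ℤ) ≤ (trE (.cons a l)).2.2 := by positivity
  have e1 : f.C * (trE (.cons a l)).1 = f.B * (trE (.cons a l)).2.1 + f.A * (trE (.cons a l)).2.2 := by
    linarith
  have hC : 0 < f.C := by
    by_contra hc
    push Not at hc
    have e2 : f.C * (trE (.cons a l)).1 ≤ 0 := mul_nonpos_of_nonpos_of_nonneg hc (by linarith)
    have e3 : 0 < f.B * (trE (.cons a l)).2.1 := mul_pos hB (by linarith)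
    have e4 : 0 ≤ f.A * (trE (.cons a l)).2.2 := mul_nonneg hA.le hy
    linarith
  refine ⟨hC, ?_⟩
  change 0 < 2 * a * f.C - f.B
  have key : 0 < (2 * a * f.C - f.B) * (trE (.cons a l)).1 := by
    have e2 : (2 * a * f.C - f.B) * (trE (.cons a l)).1 =
      f.B * (2 * a * (trE (.cons a l)).2.1 - (trE (.cons a l)).1) +
        2 * a * f.A * (trE (.cons a l)).2.2 := by linear_combination 2 * (a : ℤ) * e1
    rw [e2]
    cases l with
    | nil =>
      rw [trE_one]
      push_cast
      have : 0 < f.B * (2 * a * 1 - a) := mul_pos hB (by linarith)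
      linarith
    | cons b l =>
      obtain ⟨k1, k2, k3⟩ := trE_le (v := .cons b l) hp.2 (by simp)
      rw [trE_cons a (by simp : WL.cons b l ≠ .nil)]
      generalize (trE (.cons b l)).1 = U at *
      generalize (trE (.cons b l)).2.1 = x at *
      generalize (trE (.cons b l)).2.2 = y at *
      push_cast
      have k1' : (1 : ℤ) ≤ x := by exact_mod_cast k1
      have k2' : (x : ℤ) ≤ U := by exact_mod_cast k2
      have k3' : (y : ℤ) ≤ x := by exact_mod_cast k3
      have e3 : 2 * (a : ℤ) * (x + a * U) - (y + (2 * a * x + a * a * U)) = a * a * U - y := by ring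
      have e7 : (1 : ℤ) ≤ a * a := by nlinarith
      have e8 : (1 : ℤ) * U ≤ a * a * U := mul_le_mul_of_nonneg_right e7 (by linarith)
      have e4 : 0 ≤ (a : ℤ) * a * U - y := by linarith
      have e5 : 0 ≤ f.B * (2 * (a : ℤ) * (x + a * U) - (y + (2 * a * x + a * a * U))) := by
        rw [e3]; exact mul_nonneg hB.le e4
      have e6 : 0 < 2 * (a : ℤ) * f.A * U :=
        mul_pos (mul_pos (by linarith) hA) (by linarith)
      linarith
  by_contra hc
  push Not at hc
  have := mul_nonpos_of_nonpos_of_nonneg hc (show (0 : ℤ) ≤ (trE (.cons a l)).1 by linarith)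
  linarith

end Pool.Agent.V5helper47.CN
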