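import Pool.Agent.V5helper47.CN.T8

/-! Size of the norms, small parameters. -/

set_option maxRecDepth 100000

namespace Pool.Agent.V5helper47.CN

open H419R2 Pool.Agent.N911 Finset

theorem pos_of_mul_pos_iff_of_pos {a x : ℤ} (ha : 0 < a) (h : 0 < a * x) : 0 < x := by
  by_contra hc
  push Not at hc
  have := mul_nonpos_of_nonneg_of_nonpos ha.le hc
  linarith

theorem posW : ∀ {l : WL} {a : ℕ} {f : Fm}, (WL.cons a l).Pos → 0 < f.A → 0 < f.B →
    lamE (.cons a l) f = 0 → ∀ n ≤ l.len + 1, 0 < (fs (.cons a l) f n).A ∧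
      0 < (fs (.cons a l) f n).B
  | l, a, f, hp, hA, hB, h, 0, _ => ⟨hA, hB⟩
  | .nil, a, f, hp, hA, hB, h, 1, _ => by
    obtain ⟨h1, h2⟩ := pos_step hp hA hB h
    exact ⟨h1, h2⟩
  | .nil, a, f, hp, hA, hB, h, n + 2, hn => by
    exfalso
    change n + 2 ≤ 1 at hn
    omega
  | .cons b l, a, f, hp, hA, hB, h, n + 1, hn => by
    obtain ⟨h1, h2⟩ := pos_step hp hA hB h
    rw [fs_cons]
    exact posW (f := f.step a) hp.2 h1 h2 (by rw [lamE_step, h, neg_zero]) n (by
      change n + 1 ≤ l.len + 1 + 1 at hn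
      omega)

theorem posC {l : WL} {a : ℕ} {f : Fm} (hp : (WL.cons a l).Pos) (hA : 0 < f.A) (hB : 0 < f.B)
    (h : lamE (.cons a l) f = 0) : 0 < (f.step a).C := by
  cases l with
  | nil =>
    unfold lamE at h
    rw [trE_one] at h
    push_cast at h
    change 0 < f.A + a * f.B - a ^ 2 * f.C
    have : f.B = f.C * a := by linarith
    rw [this]
    have e : f.A + (a : ℤ) * (f.C * a) - a ^ 2 * f.C = f.A := by ring
    rw [e]
    exact hA
  | cons b l =>
    obtain ⟨h1, h2⟩ := pos_step hp hA hB h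
    exact (pos_step (f := f.step a) hp.2 h1 h2 (by rw [lamE_step, h, neg_zero])).1

/-- the norm of the centre divides the discriminant -/
theorem la_dvd : ∀ {l : WL} {a : ℕ} {f : Fm}, lamE (.cons a l) f = 0 → la (.cons a l) f ∣ f.disc
  | .nil, a, f, h => by
    unfold lamE at h
    rw [trE_one] at h
    push_cast at h
    rw [la_cons]
    change f.C ∣ f.disc
    refine ⟨a ^ 2 * f.C + 4 * f.A, ?_⟩
    unfold Fm.disc
    have : f.B = f.C * a := by linarith
    rw [this]; ring
  | .cons b l, a, f, h => by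
    rw [la_cons, ← Fm.disc_step a f]
    exact la_dvd (by rw [lamE_step, h, neg_zero])

/-- all letters are at most `M` -/
def lm (M : ℕ) : WL → Prop
  | .nil => True
  | .cons a l => a ≤ M ∧ lm M l

theorem lm_mono {M N : ℕ} (h : M ≤ N) : ∀ {w : WL}, lm M w → lm N w
  | .nil, _ => trivial
  | .cons _ _, hw => ⟨hw.1.trans h, lm_mono h hw.2⟩

theorem mat_pos : ∀ {w : WL}, w.Pos → 1 ≤ (mat w).1
  | .nil, _ => le_rfl
  | .cons a l, hp => by
    have h1 := mat_pos hp.2
    have h2 := mat_mono hp.1 l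
    omega

theorem lm_mat : ∀ {w : WL}, w.Pos → lm (mat w).1 w
  | .nil, _ => trivial
  | .cons a l, hp => by
    refine ⟨?_, lm_mono (mat_mono hp.1 l) (lm_mat hp.2)⟩
    rw [mat_cons]
    change a ≤ a * (mat l).1 + (mat l).2.2.1
    have h1 := mat_pos hp.2
    have : a * 1 ≤ a * (mat l).1 := Nat.mul_le_mul_left _ h1
    omega

theorem mat_Y_le : ∀ {w : WL}, w.Pos → (mat w).2.2.1 ≤ (mat w).1
  | .nil, _ => by rw [mat_nil]; simp
  | .cons a l, hp => mat_mono hp.1 l

theorem snoc_cons (w : WL) (b : ℕ) : ∃ a l, snoc w b = .cons a l := by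
  cases w with
  | nil => exact ⟨b, .nil, rfl⟩
  | cons a l => exact ⟨a, snoc l b, rfl⟩

theorem snoc_pos : ∀ {w : WL} {b : ℕ}, (snoc w b).Pos → w.Pos ∧ 0 < b
  | .nil, b, h => ⟨trivial, h.1⟩
  | .cons a l, b, h => ⟨⟨h.1, (snoc_pos h.2).1⟩, (snoc_pos h.2).2⟩

theorem sq_lt_of {C B B' D a : ℤ} (hC : 0 < C) (hB : 0 < B) (hB' : 0 < B')
    (hs : B + B' = 2 * a * C) (h1 : D < (2 * C + B) ^ 2) (h2 : D < (2 * C + B') ^ 2) :
    D < (C * (a + 2)) ^ 2 := by
  rcases le_total (2 * C + B) (C * (a + 2)) with h | h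
  · exact h1.trans_le (pow_le_pow_left₀ (by linarith) h 2)
  · have h' : 2 * C + B' ≤ C * (a + 2) := by nlinarith
    exact h2.trans_le (pow_le_pow_left₀ (by linarith) h' 2)

theorem bnd {M : ℕ} : ∀ {w : WL} {b : ℕ} {f : Fm}, (snoc w b).Pos → 0 < f.A → 0 < f.B →
    lamE (snoc w b) f = 0 → f.A < f.C + f.B → lm M w → ∀ n, 1 ≤ n → n ≤ w.len →
    f.disc < ((fs (snoc w b) f n).A * (M + 2)) ^ 2
  | .nil, b, f, hp, hA, hB, h, hR, hM, n, hn1, hn2 => by
    exfalso
    change n ≤ 0 at hn2
    omega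
  | .cons a w, b, f, hp, hA, hB, h, hR, hM, n, hn1, hn2 => by
    have hp' : (snoc w b).Pos := hp.2
    have h' : lamE (.cons a (snoc w b)) f = 0 := h
    obtain ⟨h1, h2⟩ := pos_step (l := snoc w b) hp hA hB h'
    have h3 := posC (l := snoc w b) hp hA hB h'
    have ha : (1 : ℤ) ≤ a := by exact_mod_cast hp.1
    have eA : (f.step a).A = f.C := rfl
    have eB : (f.step a).B = 2 * a * f.C - f.B := rfl
    have eC : (f.step a).C = f.A + a * f.B - a ^ 2 * f.C := rfl
    have hl : lamE (snoc w b) (f.step a) = 0 := by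
      obtain ⟨a', l', e⟩ := snoc_cons w b
      rw [e] at h' ⊢
      rw [lamE_step, h', neg_zero]
    -- the next form satisfies the same inequality
    have hR' : (f.step a).A < (f.step a).C + (f.step a).B := by
      rw [eA, eB, eC]
      have e1 : (a : ℤ) * (f.A + a * f.B - a ^ 2 * f.C + (2 * a * f.C - f.B) - f.C) =
        f.A + (a - 1) * (f.A + a * f.B - a ^ 2 * f.C) + (a - 1) * a * f.C := by ring
      rw [eC] at h3
      have e2 : 0 ≤ ((a : ℤ) - 1) * (f.A + a * f.B - a ^ 2 * f.C) :=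
        mul_nonneg (by linarith) h3.le
      have e3 : 0 ≤ ((a : ℤ) - 1) * a * f.C :=
        mul_nonneg (mul_nonneg (by linarith) (by linarith)) h1.le
      have e4 : 0 < (a : ℤ) * (f.A + a * f.B - a ^ 2 * f.C + (2 * a * f.C - f.B) - f.C) := by
        rw [e1]; linarith
      have e5 := pos_of_mul_pos_iff_of_pos (show (0 : ℤ) < a by linarith) e4
      linarith
    rcases Nat.eq_or_lt_of_le hn1 with h0 | h0
    · subst h0
      change f.disc < ((f.step a).A * (M + 2)) ^ 2
      rw [eA]
      have hS : (f.step a).C < (f.step a).A + (f.step a).B := by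
        obtain ⟨a', l', e⟩ := snoc_cons w b
        rw [e] at hp' hl
        have h5 := posC hp' (by rw [eA]; exact h1) h2 hl
        have ha' : (1 : ℤ) ≤ a' := by exact_mod_cast hp'.1
        have eC' : ((f.step a).step a').C =
          (f.step a).A + a' * (f.step a).B - a' ^ 2 * (f.step a).C := rfl
        rw [eC'] at h5
        have e1 : (a' : ℤ) * ((f.step a).A + (f.step a).B - (f.step a).C) =
          (a' - 1) * (f.step a).A + ((f.step a).A + a' * (f.step a).B - a' ^ 2 * (f.step a).C) +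
            a' * (a' - 1) * (f.step a).C := by ring
        have e2 : 0 ≤ ((a' : ℤ) - 1) * (f.step a).A :=
          mul_nonneg (by linarith) (by rw [eA]; exact h1.le)
        have e3 : 0 ≤ (a' : ℤ) * (a' - 1) * (f.step a).C :=
          mul_nonneg (mul_nonneg (by linarith) (by linarith)) h3.le
        have e4 : 0 < (a' : ℤ) * ((f.step a).A + (f.step a).B - (f.step a).C) := by
          rw [e1]; linarith
        have e5 := pos_of_mul_pos_iff_of_pos (show (0 : ℤ) < a' by linarith) e4
        linarith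
      have k1 : f.disc < (2 * f.C + f.B) ^ 2 := by
        have : (2 * f.C + f.B) ^ 2 - f.disc = 4 * f.C * (f.C + f.B - f.A) := by
          unfold Fm.disc; ring
        have : 0 < 4 * f.C * (f.C + f.B - f.A) := mul_pos (by linarith) (by linarith)
        linarith
      have k2 : f.disc < (2 * f.C + (f.step a).B) ^ 2 := by
        have e1 : (2 * f.C + (f.step a).B) ^ 2 - (f.step a).disc =
          4 * f.C * (f.C + (f.step a).B - (f.step a).C) := by
          unfold Fm.disc
          rw [eA]; ring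
        rw [Fm.disc_step] at e1
        rw [eA] at hS
        have : 0 < 4 * f.C * (f.C + (f.step a).B - (f.step a).C) :=
          mul_pos (by linarith) (by linarith)
        linarith
      have k3 := sq_lt_of h1 hB h2 (a := a) (by rw [eB]; ring) k1 k2
      refine k3.trans_le (pow_le_pow_left₀ (by positivity) ?_ 2)
      have : (a : ℤ) ≤ M := by exact_mod_cast hM.1
      exact mul_le_mul_of_nonneg_left (by linarith) h1.le
    · obtain ⟨m, rfl⟩ : ∃ m, n = m + 1 := ⟨n - 1, by omega⟩
      change f.disc < ((fs (.cons a (snoc w b)) f (m + 1)).A * (M + 2)) ^ 2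
      rw [fs_cons, ← Fm.disc_step a f]
      exact bnd hp' (by rw [eA]; exact h1) h2 hl hR' hM.2 m (by omega) (by
        change m + 1 ≤ w.len + 1 at hn2
        omega)

end Pool.Agent.V5helper47.CN
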